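import Pool.Agent.MP_7ebdba_gt.hb.Tube

/-! Add-on HB, row REAL: the data of a handlebody on the abstract manifold. -/

open scoped ContDiff Manifold Topology RealInnerProductSpace
open Set Filter Function Metric Module Pool.Agent.MP_e1dc65_gt

noncomputable section

namespace Pool.Agent.MP_7ebdba_gt.hb

open sm

namespace RealR

variable {m : ℕ} {es : List (E 5 → ℝ)} {X : Mf (E (m + 1))} {ι : X → E 5} {P : Set S4}
  {k : E 5 → ℝ}

/-- the preferred chart, centred at the origin -/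
def cc (X : Mf (E (m + 1))) (p : X) (w : E (m + 1)) : X := (ch X p).symm (ch X p p + w)

/-- its domain -/
def cd (X : Mf (E (m + 1))) (p : X) : Set (E (m + 1)) := {w | ch X p p + w ∈ (ch X p).target}

theorem cc_zero (p : X) : cc X p 0 = p := by
  rw [cc, add_zero, (ch X p).left_inv (mem_chart_source _ p)]

theorem zero_mem_cd (p : X) : 0 ∈ cd X p := by
  rw [cd, mem_ofPred_eq, add_zero]; exact (ch X p).map_source (mem_chart_source _ p)

theorem oe_cc (p : X) : OE (vs (E (m + 1))) X (cc X p) (cd X p) := by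
  have hO : IsOpen (cd X p) := (ch X p).open_target.preimage (continuous_const.add continuous_id)
  refine OE.trans (Y := vs (E (m + 1))) (f := fun w => ch X p p + w) ⟨hO, fun y _ => ?_,
    (add_right_injective _).injOn⟩ oe_ch_symm fun _ h => h
  refine ldAt_vs univ_mem (fun _ _ => contDiffAt_const.add contDiffAt_id) ?_
  rw [fderiv_const_add, fderiv_fun_id]
  exact ⟨.refl ℝ _, rfl⟩

theorem sm_comp (R : Rz m es X ι P) (hk : sm.Sm k) (x : X) :
    SmAt X (vs ℝ) (fun x => k (ι x)) x :=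
  (R.emb.sm x trivial).vcomp (hk ⟨ι x, mem_sphere_zero_iff_norm.2 (R.lvl x).1⟩)

/-- the hypotheses of the linearisation lemma hold in the preferred chart -/
theorem crit_chart (hc : CritStmt (E (m + 1))) (R : Rz m es X ι P) (hk : sm.Sm k) {i : ℕ} {z : S4}
    {p : X} (hp : ι p = z) (h : Crit (m + 1) es k i z) :
    (i = 0 → ∃ L : E (m + 1) ≃L[ℝ] E (m + 1), MapsTo L (ball 0 1) (cd X p) ∧
      ∀ y ∈ ball (0 : E (m + 1)) 1, y ≠ 0 →
        0 < fderiv ℝ (fun w => k (ι (cc X p w))) (L y) (L y)) ∧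
    (i = 1 → ∃ L : E (m + 1) ≃L[ℝ] E (m + 1), MapsTo L (ball 0 1) (cd X p) ∧
      ∀ y ∈ ball (0 : E (m + 1)) 1, y ≠ 0 →
        0 < fderiv ℝ (fun w => k (ι (cc X p w))) (L y) (L (rf (e0 m) y))) := by
  obtain ⟨φ, c, h1, h2, h3, h4, h5, rfl, h7⟩ := h
  obtain ⟨ρ, r1, r2, r3⟩ := R.emb.retract p
  have o := oe_cc p
  have z0 := zero_mem_cd p
  have c0 := cc_zero p
  have e1 : φ 0 = ι p := h2.trans hp.symm
  have e2 : ρ (φ 0) = cc X p 0 := by rw [e1, c0]; exact r2.self_of_nhds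
  let T : E (m + 1) → E (m + 1) := fun y => invFunOn (cc X p) (cd X p) (ρ (φ y))
  have s1 : SmAt (vs (E (m + 1))) X (fun y => ρ (φ y)) 0 :=
    (smAt_vs.2 h1).trans (by rw [e1]; exact r1.self_of_nhds)
  have sT : ContDiffAt ℝ ∞ T 0 :=
    smAt_vs.1 (s1.trans (o.symm.sm _ (by rw [e2]; exact mem_image_of_mem _ z0)))
  have T0 : T 0 = 0 := by simp only [T, e2, o.left z0]
  have s2 : ContDiffAt ℝ ∞ (fun w => ι (cc X p w)) 0 :=
    smAt_vs.1 ((o.sm 0 z0).trans (R.emb.sm _ trivial))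
  have key : ∀ᶠ y in 𝓝 0, ι (cc X p (T y)) = φ y := by
    have t : Tendsto φ (𝓝 0) (𝓝 (ι p)) := e1 ▸ h1.continuousAt
    have t2 : ∀ᶠ y in 𝓝 0, ρ (φ y) ∈ cc X p '' cd X p := s1.cont.eventually (by
      simp only [e2]; exact (o.ld 0 z0).image_mem (o.op.mem_nhds z0))
    filter_upwards [h4, t.eventually (R.op p), t.eventually r3, t2] with y a b d f
    obtain ⟨x, hx⟩ := b a.1 a.2
    simp only [T]
    rw [invFunOn_eq f, d x hx, hx]
  have dT := (sT.differentiableAt (by simp)).hasFDerivAt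
  have inj : Injective (fderiv ℝ T 0) := by
    have d2 : HasFDerivAt (fun w => ι (cc X p w)) _ (T 0) :=
      T0.symm ▸ (s2.differentiableAt (by simp)).hasFDerivAt
    have d3 : HasFDerivAt φ _ 0 := (d2.comp 0 dT).congr_of_eventuallyEq (key.mono fun _ a => a.symm)
    rw [d3.fderiv] at h3
    exact Injective.of_comp (f := fderiv ℝ (fun w => ι (cc X p w)) (T 0)) h3
  refine hc (m + 1) (e0 m) (fun w => k (ι (cc X p w))) T _ c (cd X p) (by simp) (by simp [e0])
    ((smAt_vs.1 ((o.sm 0 z0).trans (sm_comp R hk _))).of_le (by norm_cast)) T0 dT inj h5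
    (o.op.mem_nhds z0) (h7.congr' ?_ (.refl _ _))
  filter_upwards [key] with y hy
  rw [hy, c0, hp]

theorem oe_lin (p : X) {L : E (m + 1) ≃L[ℝ] E (m + 1)} (h : MapsTo L (ball 0 1) (cd X p)) :
    OE (vs (E (m + 1))) X (fun y => cc X p (L y)) (ball 0 1) ∧ cc X p (L 0) = p :=
  ⟨OE.trans ⟨isOpen_ball, fun y _ => ldAt_cle L y, L.injective.injOn⟩ (oe_cc p) h, by
    rw [map_zero, cc_zero]⟩

/-- a point is not critical of index zero and of index one -/
theorem not_both {V : Type} [NormedAddCommGroup V] [InnerProductSpace ℝ V] {e : V} (he : ‖e‖ = 1)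
    {κ : V → ℝ} {L L' : V ≃L[ℝ] V}
    (h : ∀ y ∈ ball (0 : V) 1, y ≠ 0 → 0 < fderiv ℝ κ (L y) (L y))
    (h' : ∀ y ∈ ball (0 : V) 1, y ≠ 0 → 0 < fderiv ℝ κ (L' y) (L' (rf e y))) : False := by
  have e0 : e ≠ 0 := by rintro rfl; simp at he
  have c1 : Tendsto (fun t : ℝ => t • e) (𝓝 0) (𝓝 0) :=
    (continuous_id.smul continuous_const).tendsto' _ _ (zero_smul _ _)
  have c2 : Tendsto (fun t : ℝ => L.symm (L' (t • e))) (𝓝 0) (𝓝 0) :=
    ((L.symm.continuous.comp L'.continuous).tendsto' _ _ (by simp)).comp c1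
  obtain ⟨t, ⟨a, b⟩, ht⟩ := ((((c1.eventually (ball_mem_nhds 0 one_pos)).and
    (c2.eventually (ball_mem_nhds 0 one_pos))).filter_mono nhdsWithin_le_nhds).and
    (self_mem_nhdsWithin (s := ({0}ᶜ : Set ℝ)))).exists
  have n : t • e ≠ 0 := smul_ne_zero ht e0
  have k1 := h _ b (by simpa using n)
  have k2 := h' _ a n
  have r : rf e (t • e) = -(t • e) := by
    rw [rf, real_inner_smul_right, real_inner_self_eq_norm_sq, he]
    module
  rw [L.apply_symm_apply] at k1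
  rw [r, map_neg, map_neg] at k2
  linarith

end RealR

open RealR in
theorem real (hc : ∀ m, CritStmt (E (m + 1))) (hd : ∀ m, DataStmt (E (m + 1))) : RealStmt := by
  rintro m g es cs X ι R hes hcs ⟨hcon, k, C0, C1, hk, hcard, h0, h1, hreg⟩
  have hi := R.emb.emb.injective
  let s : X → S4 := fun x => ⟨ι x, mem_sphere_zero_iff_norm.2 (R.lvl x).1⟩
  have im : ι '' {x | ∀ c ∈ cs, c (ι x) ≤ 0} = (↑) '' Piece es cs := by
    refine Subset.antisymm ?_ ?_
    · rintro _ ⟨x, hx, rfl⟩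
      exact ⟨s x, ⟨(R.lvl x).2, hx⟩, rfl⟩
    · rintro _ ⟨z, hz, rfl⟩
      obtain ⟨x, hx⟩ := R.cov z hz
      exact ⟨x, fun c h => hx ▸ hz.2 c h, hx⟩
  have ct : ∀ c : E 5 → ℝ, sm.Sm c → Continuous fun z : S4 => c z := fun c h =>
    continuous_iff_continuousAt.2 fun z =>
      (h z).continuousAt.comp continuous_subtype_val.continuousAt
  have cl : IsClosed (Piece es cs) := by
    have : Piece es cs = (⋂ e ∈ es, {z : S4 | e z = 0}) ∩ ⋂ c ∈ cs, {z : S4 | c z ≤ 0} := by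
      ext z; simp [Piece]
    rw [this]
    exact (isClosed_biInter fun e h => isClosed_eq (ct e (hes e h)) continuous_const).inter
      (isClosed_biInter fun c h => isClosed_le (ct c (hcs c h)) continuous_const)
  have cpt : IsCompact {x | ∀ c ∈ cs, c (ι x) ≤ 0} := by
    rw [R.emb.emb.isInducing.isCompact_iff, im]
    exact cl.isCompact.image continuous_subtype_val
  have con : IsConnected {x | ∀ c ∈ cs, c (ι x) ≤ 0} := by
    have := hcon.image _ continuous_subtype_val.continuousOn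
    rw [← im] at this
    exact ⟨this.1.of_image, R.emb.emb.isInducing.isPreconnected_image.1 this.2⟩
  have si : Injective s := fun x y h => hi (congrArg Subtype.val h)
  have card : ∀ C : Finset S4, (∀ x ∈ C, x ∈ Piece es [] ∧ ∀ c ∈ cs, c x < 0) →
      (s ⁻¹' C).ncard = C.card := fun C h => by
    rw [ncard_preimage_of_injective_subset_range si, ncard_coe_finset]
    intro z hz
    obtain ⟨x, hx⟩ := R.cov z ⟨(h z hz).1.1, fun c k => ((h z hz).2 c k).le⟩
    exact ⟨x, Subtype.ext hx⟩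
  have a0 := fun p (hp : s p ∈ C0) => (crit_chart (hc m) R hk (p := p) rfl (h0 _ hp).2.2).1 rfl
  have a1 := fun p (hp : s p ∈ C1) => (crit_chart (hc m) R hk (p := p) rfl (h1 _ hp).2.2).2 rfl
  have dis : Disjoint (s ⁻¹' C0) (s ⁻¹' C1) := disjoint_left.2 fun p u v =>
    let ⟨_, _, a⟩ := a0 p u
    let ⟨_, _, b⟩ := a1 p v
    not_both (by simp [e0]) a b
  have neg : ∀ p ∈ s ⁻¹' C0 ∪ s ⁻¹' C1, ∀ c ∈ cs, c (ι p) < 0 := fun p hp =>
    hp.elim (fun h => (h0 _ h).2.1) fun h => (h1 _ h).2.1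
  have ex : ∀ p : X, ∃ L : E (m + 1) ≃L[ℝ] E (m + 1),
      (p ∈ s ⁻¹' C0 ∪ s ⁻¹' C1 → MapsTo L (ball 0 1) (cd X p)) ∧
      (p ∈ s ⁻¹' C0 → ∀ y ∈ ball (0 : E (m + 1)) 1, y ≠ 0 →
        0 < fderiv ℝ (fun w => k (ι (cc X p w))) (L y) (L y)) ∧
      (p ∈ s ⁻¹' C1 → ∀ y ∈ ball (0 : E (m + 1)) 1, y ≠ 0 →
        0 < fderiv ℝ (fun w => k (ι (cc X p w))) (L y) (L (rf (e0 m) y))) := fun p => by
    by_cases u : p ∈ s ⁻¹' C0
    · obtain ⟨L, a, b⟩ := a0 p u
      exact ⟨L, fun _ => a, fun _ => b, fun v => (disjoint_left.1 dis u v).elim⟩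
    by_cases v : p ∈ s ⁻¹' C1
    · obtain ⟨L, a, b⟩ := a1 p v
      exact ⟨L, fun _ => a, fun u' => (u u').elim, fun _ => b⟩
    · exact ⟨.refl ℝ _, fun h => (h.elim u v).elim, fun h => (u h).elim, fun h => (v h).elim⟩
  choose L l1 l2 l3 using ex
  have dv : ∀ p y w, fderiv ℝ (fun y => k (ι (cc X p (L p y)))) y w =
      fderiv ℝ (fun w => k (ι (cc X p w))) (L p y) (L p w) := fun p y w =>
    DFunLike.congr_fun ((L p).comp_right_fderiv (f := fun w => k (ι (cc X p w))) (x := y)) w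
  obtain ⟨D, d1, d2, d3, d4⟩ := hd m (e0 m) X (fun x => k (ι x)) (cs.map fun c x => c (ι x))
    {x | ∀ c ∈ cs, c (ι x) ≤ 0} (s ⁻¹' C0) (s ⁻¹' C1) (fun p y => cc X p (L p y))
    (fun x _ => sm_comp R hk x)
    (List.forall_mem_map.2 fun c h x _ => sm_comp R (hcs c h) x) cpt
    (C0.finite_toSet.preimage si.injOn) (C1.finite_toSet.preimage si.injOn) dis
    (fun p hp => ⟨List.forall_mem_map.2 fun c h => (neg p hp c h).ne, oe_lin p (l1 p hp)⟩)
    (fun p hp y hy n => (dv p y y).symm ▸ l2 p hp y hy n)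
    (fun p hp y hy n => (dv p y _).symm ▸ l3 p hp y hy n) (fun x hx hn => by
      obtain ⟨v, ⟨t1, t2⟩, b, d⟩ := hreg (s x) ⟨(R.lvl x).2, hx⟩ (fun h => hn (.inl h))
        fun h => hn (.inr h)
      obtain ⟨w, rfl⟩ := R.tan x v t1 t2
      refine ⟨w, ?_, List.forall_mem_map.2 fun c h z => ?_⟩
      · rw [Df_vcomp (R.emb.sm x trivial) (hk (s x))]; exact b
      · rw [Df_vcomp (R.emb.sm x trivial) (hcs c h (s x))]; exact d c h z)
  refine ⟨D, cpt, con, im, ?_, by rw [d2, d3]; exact neg, fun x hx => ?_⟩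
  · rw [d2, d3, card C0 fun x h => ⟨(h0 x h).1, (h0 x h).2.1⟩,
      card C1 fun x h => ⟨(h1 x h).1, (h1 x h).2.1⟩, hcard]
  · rw [d1, d2, d3]
    exact ⟨(d4 x hx).1, List.forall_mem_map.1 (d4 x hx).2⟩

end Pool.Agent.MP_7ebdba_gt.hb
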