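import Mathlib.LinearAlgebra.FreeModule.PID
import Mathlib.RingTheory.Flat.FaithfullyFlat.Basic
import Mathlib.RingTheory.Finiteness.Prod
import Mathlib.RingTheory.Flat.TorsionFree
import Mathlib.Algebra.Order.Archimedean.Real.Hom
import Mathlib.Algebra.Order.Star.Real
import Mathlib.Analysis.Normed.Module.Connected
import Mathlib.RingTheory.SimpleRing.Principal
import Mathlib.Order.CompletePartialOrder
import Pool.Agent.MP_e1dc65_gt.k.Bump
import Pool.Agent.MP_e1dc65_gt.k.Flow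
import Pool.Agent.MP_e1dc65_gt.k.Level

-- ======== part 0: formerly Pool.Agent.MP_7ebdba_gt.sm.Defs
section MrgPart0

/-! Smooth trisections of the round 4-sphere, and standard trisections. -/

open scoped ContDiff Topology
open Set

namespace Pool.Agent.MP_7ebdba_gt.sm

abbrev E (n : ℕ) : Type := EuclideanSpace ℝ (Fin n)

/-- The round 4-sphere. -/
abbrev S4 : Type := Metric.sphere (0 : E 5) 1

/-- A function that is smooth at every point of the sphere. -/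
def Sm (f : E 5 → ℝ) : Prop := ∀ x : S4, ContDiffAt ℝ ∞ f x

/-- The part of the sphere given by equations `e = 0` and inequalities `c ≤ 0`. -/
def Piece (es cs : List (E 5 → ℝ)) : Set S4 := {x | (∀ e ∈ es, e x = 0) ∧ ∀ c ∈ cs, c x ≤ 0}

/-- `v` is tangent at `x` to the sphere and to the level sets of the equations. -/
def Tangent (es : List (E 5 → ℝ)) (x : S4) (v : E 5) : Prop :=
  inner ℝ (x : E 5) v = 0 ∧ ∀ e ∈ es, fderiv ℝ e x v = 0

/-- `x` is a nondegenerate critical point of index `i` of `k` on the `n`-dimensional submanifold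
`es = 0` of the sphere: in a smooth local parametrisation, `k` is a nondegenerate diagonal
quadratic form with `i` negative squares, up to second order. -/
def Crit (n : ℕ) (es : List (E 5 → ℝ)) (k : E 5 → ℝ) (i : ℕ) (x : S4) : Prop :=
  ∃ (φ : E n → E 5) (c : Fin n → ℝ), ContDiffAt ℝ ∞ φ 0 ∧ φ 0 = x ∧
    Function.Injective (fderiv ℝ φ 0) ∧ (∀ᶠ y in 𝓝 0, ‖φ y‖ = 1 ∧ ∀ e ∈ es, e (φ y) = 0) ∧
    (∀ j, c j ≠ 0) ∧ {j | c j < 0}.ncard = i ∧
    (fun y => k (φ y) - k x - ∑ j, c j * y j ^ 2) =o[𝓝 0] fun y => ‖y‖ ^ 2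

/-- `Piece es cs` is an `n`-dimensional 1-handlebody of genus `g`: it is connected and has a Morse function that
increases in an outward direction along the boundary and the corner, all of whose critical points
are interior and of index 0 or 1, with Euler characteristic `1 - g`. -/
def Handlebody (n : ℕ) (es cs : List (E 5 → ℝ)) (g : ℕ) : Prop :=
  IsConnected (Piece es cs) ∧ ∃ (k : E 5 → ℝ) (C0 C1 : Finset S4), Sm k ∧
    C1.card + 1 = C0.card + g ∧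
    (∀ x ∈ C0, x ∈ Piece es [] ∧ (∀ c ∈ cs, c x < 0) ∧ Crit n es k 0 x) ∧
    (∀ x ∈ C1, x ∈ Piece es [] ∧ (∀ c ∈ cs, c x < 0) ∧ Crit n es k 1 x) ∧
    ∀ x ∈ Piece es cs, x ∉ C0 → x ∉ C1 → ∃ v, Tangent es x v ∧ 0 < fderiv ℝ k x v ∧
      ∀ c ∈ cs, c x = 0 → 0 < fderiv ℝ c x v

/-- The three sectors of the plane. -/
def sector : Fin 3 → Set (ℝ × ℝ) :=
  ![{p | 0 ≤ p.1}, {p | p.1 ≤ 0 ∧ 0 ≤ p.2}, {p | p.1 ≤ 0 ∧ p.2 ≤ 0}]

/-- A smooth trisection of type `(g; k 0, k 1, k 2)`: the preimages of the three sectors under a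
smooth map `(A, B)` that is transverse to the walls and to the origin; the three pieces are
4-dimensional 1-handlebodies and their pairwise intersections are 3-dimensional handlebodies of
genus `g`. -/
def IsTrisection (X : Fin 3 → Set S4) (g : ℕ) (k : Fin 3 → ℕ) : Prop :=
  ∃ A B : E 5 → ℝ, Sm A ∧ Sm B ∧ (∀ i, X i = {x : S4 | (A x, B x) ∈ sector i}) ∧
    (∀ x : S4, A x = 0 → ∃ v, Tangent [] x v ∧ fderiv ℝ A x v ≠ 0) ∧
    (∀ x : S4, A x ≤ 0 → B x = 0 → ∃ v, Tangent [] x v ∧ fderiv ℝ B x v ≠ 0) ∧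
    (∀ x : S4, A x = 0 → B x = 0 → ∃ v, Tangent [A] x v ∧ fderiv ℝ B x v ≠ 0) ∧
    Handlebody 4 [] [-A] (k 0) ∧ Handlebody 4 [] [A, -B] (k 1) ∧ Handlebody 4 [] [A, B] (k 2) ∧
    Handlebody 3 [A] [-B] g ∧ Handlebody 3 [B] [A] g ∧ Handlebody 3 [A] [B] g

/-- The genus zero trisection. -/
def genusZero (i : Fin 3) : Set S4 := {x | ((x : E 5) 0, (x : E 5) 1) ∈ sector i}

/-- The genus one trisection with pieces `S¹ × B³`, `B⁴`, `B⁴`. -/
def genusOne (i : Fin 3) : Set S4 :=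
  {x | ((x : E 5) 0 ^ 2 + (x : E 5) 1 ^ 2 - 1 / 2, (x : E 5) 2) ∈ sector i}

/-- A chart at a point of the core in which the pieces are the sectors times a plane. -/
def CoreChart (X : Fin 3 → Set S4) (ι : E 4 → S4) : Prop :=
  Topology.IsOpenEmbedding ι ∧ ∀ i y, ι y ∈ X i ↔ (y 0, y 1) ∈ sector i

/-- `Z` is a connected sum of `X` and `Y` at points of the cores (Kervaire-Milnor gluing). -/
def ConnSum (X Y Z : Fin 3 → Set S4) : Prop :=
  ∃ (ι κ : E 4 → S4) (f h : OpenPartialHomeomorph S4 S4), CoreChart X ι ∧ CoreChart Y κ ∧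
    f.source = {ι 0}ᶜ ∧ h.source = {κ 0}ᶜ ∧ f.target ∪ h.target = univ ∧
    (∀ x ∈ f.source, ∀ y ∈ h.source, f x = h y ↔
      ∃ (t : ℝ) (v : E 4), 0 < t ∧ t < 1 ∧ ‖v‖ = 1 ∧ x = ι (t • v) ∧ y = κ ((1 - t) • v)) ∧
    ∀ i, Z i = f '' (X i ∩ f.source) ∪ h '' (Y i ∩ h.source)

/-- Standard decompositions: obtained from the genus zero trisection by connected sums with one of
the genus one trisections, up to homeomorphisms of the sphere and renumbering. -/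
inductive Standard : (Fin 3 → Set S4) → Prop
  | zero : Standard genusZero
  | equiv {X : Fin 3 → Set S4} (f : S4 ≃ₜ S4) (σ : Equiv.Perm (Fin 3)) :
      Standard X → Standard fun i => f '' X (σ i)
  | stab {X Z : Fin 3 → Set S4} (σ : Equiv.Perm (Fin 3)) :
      Standard X → ConnSum X (fun i => genusOne (σ i)) Z → Standard Z

/-- The final statement. -/
def SmoothStmt : Prop := ∃ X, IsTrisection X 4 ![0, 2, 2] ∧ ¬ Standard X

end Pool.Agent.MP_7ebdba_gt.sm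

end MrgPart0

-- ======== part 1: formerly Pool.Agent.MP_7ebdba_gt.hb.Defs
section MrgPart1

/-! Boundary connected sums of copies of `S¹ × Bᵐ`, and trisections with such pieces. -/

open scoped ContDiff Topology
open Set Metric

namespace Pool.Agent.MP_7ebdba_gt.hb

open sm

section
variable {F G H : Type} [NormedAddCommGroup F] [NormedSpace ℝ F] [NormedAddCommGroup G]
  [NormedSpace ℝ G] [NormedAddCommGroup H] [NormedSpace ℝ H]

/-- `f` is smooth on the subset `s`: near each point of `s` it has a smooth extension. -/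
def SmOn (f : F → G) (s : Set F) : Prop :=
  ∀ x ∈ s, ∃ f' : F → G, (∀ᶠ y in 𝓝 x, ContDiffAt ℝ ∞ f' y) ∧ f =ᶠ[𝓝[s] x] f'

/-- `f` is a diffeomorphism of `s` onto `t`. -/
def DiffOn (f : F → G) (s : Set F) (t : Set G) : Prop :=
  SmOn f s ∧ BijOn f s t ∧ ∃ g, SmOn g t ∧ LeftInvOn g f s

/-- `f` is a diffeomorphism of `s` onto a relatively open subset of `t`. -/
def OpenEmb (f : F → G) (s : Set F) (t : Set G) : Prop := ∃ U, IsOpen U ∧ DiffOn f s (t ∩ U)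

/-- The half ball of radius two in `ℝᵐ⁺¹`. -/
def halfBall (m : ℕ) : Set (E (m + 1)) := {y | 0 ≤ y 0 ∧ ‖y‖ < 2}

/-- `Z` is a boundary connected sum of the `(m + 1)`-manifolds with boundary `X` and `Y`: remove the
centres of half balls at the boundaries and glue as in the Kervaire-Milnor connected sum. -/
def BdSum (m : ℕ) (X : Set F) (Y : Set G) (Z : Set H) : Prop :=
  ∃ (a : E (m + 1) → F) (b : E (m + 1) → G) (f : F → H) (h : G → H),
    OpenEmb a (halfBall m) X ∧ OpenEmb b (halfBall m) Y ∧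
    OpenEmb f (X \ {a 0}) Z ∧ OpenEmb h (Y \ {b 0}) Z ∧
    Z = f '' (X \ {a 0}) ∪ h '' (Y \ {b 0}) ∧
    ∀ x ∈ X \ {a 0}, ∀ y ∈ Y \ {b 0}, f x = h y ↔ ∃ (t : ℝ) (v : E (m + 1)),
      0 < t ∧ t < 1 ∧ ‖v‖ = 1 ∧ 0 ≤ v 0 ∧ x = a (t • v) ∧ y = b ((1 - t) • v)

end

/-- `S¹ × Bᵐ`. -/
def tube (m : ℕ) : Set (E 2 × E m) := sphere 0 1 ×ˢ closedBall 0 1

/-- `Z` is a boundary connected sum of `k` copies of `S¹ × Bᵐ`; for `k = 0` it is diffeomorphic
to the ball `Bᵐ⁺¹`. -/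
def NatSum (m : ℕ) : ℕ → Set (E 5) → Prop
  | 0, Z => ∃ f : E (m + 1) → E 5, DiffOn f (closedBall 0 1) Z
  | k + 1, Z => ∃ X, NatSum m k X ∧ BdSum m X (tube m) Z

/-- A smooth trisection of type `(g; k 0, k 1, k 2)`: the preimages of the three sectors under a
smooth map `(A, B)` that is transverse to the walls and to the origin. The piece `X i` is a boundary
sum of `k i` copies of `S¹ × B³` (the corner of `X 1` and `X 2` is rounded), and the pairwise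
intersections are boundary sums of `g` copies of `S¹ × B²`. -/
def IsTri (X : Fin 3 → Set S4) (g : ℕ) (k : Fin 3 → ℕ) : Prop :=
  ∃ A B : E 5 → ℝ, Sm A ∧ Sm B ∧ (∀ i, X i = {x : S4 | (A x, B x) ∈ sector i}) ∧
    (∀ x : S4, A x = 0 → ∃ v, Tangent [] x v ∧ fderiv ℝ A x v ≠ 0) ∧
    (∀ x : S4, A x ≤ 0 → B x = 0 → ∃ v, Tangent [] x v ∧ fderiv ℝ B x v ≠ 0) ∧
    (∀ x : S4, A x = 0 → B x = 0 → ∃ v, Tangent [A] x v ∧ fderiv ℝ B x v ≠ 0) ∧
    NatSum 3 (k 0) ((↑) '' X 0) ∧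
    (∀ i ≠ 0, ∀ᶠ ε in 𝓝[>] 0, NatSum 3 (k i) ((↑) '' {x ∈ X i | ε ≤ |A x * B x|})) ∧
    ∀ i, NatSum 2 g ((↑) '' (X i ∩ X (i + 1)))

/-- The final statement. -/
def FinalStmt : Prop := ∃ X, IsTri X 4 ![0, 2, 2] ∧ ¬ Standard X

end Pool.Agent.MP_7ebdba_gt.hb

end MrgPart1

-- ======== part 2: formerly Pool.Agent.MP_7ebdba_gt.hb.Tube
section MrgPart2

-- ======== part 0: formerly Pool.Agent.MP_7ebdba_gt.hb.Base
section MrgPart0

/-! Add-on HB: compact domains in manifolds, local isomorphisms of pairs, boundary sums. -/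

open scoped ContDiff Manifold Topology RealInnerProductSpace
open Set Filter Function Metric Module Pool.Agent.MP_e1dc65_gt

noncomputable section

namespace Pool.Agent.MP_7ebdba_gt.hb

section Rel
variable {E E' E'' : Type} [NormedAddCommGroup E] [NormedSpace ℝ E] [NormedAddCommGroup E']
  [NormedSpace ℝ E'] [NormedAddCommGroup E''] [NormedSpace ℝ E'']

/-- near `x` the map `f` agrees on `A` with a local diffeomorphism that takes `A` to `B` -/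
def Rel (X : Mf E) (Y : Mf E') (A : Set X) (B : Set Y) (f : X → Y) (x : X) : Prop :=
  ∃ F, LDAt X Y F x ∧ ∀ᶠ y in 𝓝 x, (F y ∈ B ↔ y ∈ A) ∧ (y ∈ A → f y = F y)

/-- `f` is a diffeomorphism of `A` onto `B` -/
structure RD (X : Mf E) (Y : Mf E') (A : Set X) (B : Set Y) (f : X → Y) : Prop where
  rel : ∀ x ∈ A, Rel X Y A B f x
  bij : BijOn f A B

/-- a diffeomorphism of `X` -/
structure GD (X : Mf E) (Θ : X → X) : Prop where
  ld : ∀ x, LDAt X X Θ x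
  bij : Bijective Θ

/-- a smooth embedding into a vector space -/
structure Emb (X : Mf E) {F : Type} [NormedAddCommGroup F] [NormedSpace ℝ F] [FiniteDimensional ℝ F]
    (ι : X → F) : Prop where
  sm : Sm X (vs F) ι univ
  emb : Topology.IsEmbedding ι
  inj : ∀ x, Injective (Df X (vs F) ι x)

/-- a compact domain with smooth boundary along which `v` points outwards -/
structure Out (X : Mf E) (v : X → E) (M : Set X) : Prop where
  cpt : IsCompact M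
  bd : ∀ x ∈ M, M ∈ 𝓝 x ∨ ∃ c : X → ℝ, (∀ᶠ y in 𝓝 x, SmAt X (vs ℝ) c y) ∧ c x = 0 ∧
    0 < Df X (vs ℝ) c x (v x) ∧ ∀ᶠ y in 𝓝 x, y ∈ M ↔ c y ≤ 0

variable {X : Mf E} {Y : Mf E'} {Z : Mf E''} {A A' : Set X} {B B' : Set Y} {C : Set Z}
  {f f' : X → Y} {g : Y → Z} {x : X}

theorem rel_of_ld (h : LDAt X Y f x) (e : ∀ᶠ y in 𝓝 x, f y ∈ B ↔ y ∈ A) : Rel X Y A B f x :=
  ⟨f, h, e.mono fun _ hy => ⟨hy, fun _ => rfl⟩⟩

theorem rel_id : Rel X X A A (fun x => x) x := rel_of_ld ldAt_id (.of_forall fun _ => Iff.rfl)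

theorem Rel.mem (h : Rel X Y A B f x) (hx : x ∈ A) : f x ∈ B := by
  obtain ⟨F, -, h⟩ := h
  rw [h.self_of_nhds.2 hx]; exact h.self_of_nhds.1.2 hx

theorem Rel.ev (h : Rel X Y A B f x) : ∀ᶠ y in 𝓝 x, Rel X Y A B f y := by
  obtain ⟨F, h1, h2⟩ := h
  filter_upwards [h1.ev, h2.eventually_nhds] with y a b using ⟨F, a, b⟩

theorem Rel.congr (h : Rel X Y A B f x) (e : ∀ᶠ y in 𝓝 x, y ∈ A → f' y = f y) :
    Rel X Y A B f' x := by
  obtain ⟨F, h1, h2⟩ := h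
  refine ⟨F, h1, ?_⟩
  filter_upwards [h2, e] with y a b using ⟨a.1, fun hy => (b hy).trans (a.2 hy)⟩

theorem Rel.congr_left (h : Rel X Y A B f x) (e : ∀ᶠ y in 𝓝 x, y ∈ A' ↔ y ∈ A) :
    Rel X Y A' B f x := by
  obtain ⟨F, h1, h2⟩ := h
  refine ⟨F, h1, ?_⟩
  filter_upwards [h2, e] with y a b using ⟨a.1.trans b.symm, fun hy => a.2 (b.1 hy)⟩

theorem Rel.congr_right (h : Rel X Y A B f x) (hx : x ∈ A)
    (e : ∀ᶠ y in 𝓝 (f x), y ∈ B' ↔ y ∈ B) : Rel X Y A B' f x := by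
  obtain ⟨F, h1, h2⟩ := h
  rw [h2.self_of_nhds.2 hx] at e
  refine ⟨F, h1, ?_⟩
  filter_upwards [h2, h1.sm.cont.eventually e] with y a b using ⟨b.trans a.1, a.2⟩

/-- a smaller target that still contains the image -/
theorem Rel.mono_right (h : Rel X Y A B f x) (hB : B' ⊆ B) (e : ∀ᶠ y in 𝓝 x, y ∈ A → f y ∈ B') :
    Rel X Y A B' f x := by
  obtain ⟨F, h1, h2⟩ := h
  refine ⟨F, h1, ?_⟩
  filter_upwards [h2, e] with y a b using
    ⟨⟨fun k => a.1.1 (hB k), fun k => a.2 k ▸ b k⟩, a.2⟩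

theorem Rel.trans (hf : Rel X Y A B f x) (hx : x ∈ A) (hg : Rel Y Z B C g (f x)) :
    Rel X Z A C (fun x => g (f x)) x := by
  obtain ⟨F, h1, h2⟩ := hf
  rw [h2.self_of_nhds.2 hx] at hg
  obtain ⟨G, h3, h4⟩ := hg
  refine ⟨fun y => G (F y), h1.trans h3, ?_⟩
  filter_upwards [h2, h1.sm.cont.eventually h4] with y a b
  exact ⟨b.1.trans a.1, fun hy => by rw [a.2 hy, b.2 (a.1.2 hy)]⟩

/-- descent along a local isomorphism of pairs -/
theorem Rel.desc {k : X → Z} (hf : Rel X Y A B f x) (hx : x ∈ A) (hk : Rel X Z A C k x)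
    (e : ∀ᶠ y in 𝓝 x, y ∈ A → g (f y) = k y) : Rel Y Z B C g (f x) := by
  obtain ⟨F, h1, h2⟩ := hf
  obtain ⟨K, h3, h4⟩ := hk
  rw [h2.self_of_nhds.2 hx]
  obtain ⟨G, U, W, hU, hW, hxU, hs, sF, sG, m1, m2, l, r⟩ := h1.exists_inv (h2.and (h4.and e))
  have h5 : LDAt Y X G (F x) := ldAt_of_inv hW hU (m1 hxU) sG sF m2 m1 r l
  refine ⟨fun z => K (G z), h5.trans (by rwa [l x hxU]), ?_⟩
  filter_upwards [hW.mem_nhds (m1 hxU)] with z hz
  obtain ⟨a, b, c⟩ := hs (m2 hz)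
  rw [r z hz] at a
  exact ⟨b.1.trans a.1.symm, fun hb => by
    have k := a.1.1 hb
    rw [← b.2 k, ← c k, a.2 k]⟩

theorem Rel.cont (h : Rel X Y A B f x) (hx : x ∈ A) : ContinuousWithinAt f A x := by
  obtain ⟨F, h1, h2⟩ := h
  exact h1.sm.cont.continuousWithinAt.congr_of_eventuallyEq
    (eventually_nhdsWithin_iff.2 (h2.mono fun _ a => a.2)) (h2.self_of_nhds.2 hx)

/-- a local isomorphism of pairs is relatively open -/
theorem Rel.image_mem (h : Rel X Y A B f x) (hx : x ∈ A) {N : Set X} (hN : N ∈ 𝓝 x) :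
    f '' (A ∩ N) ∈ 𝓝[B] (f x) := by
  obtain ⟨F, h1, h2⟩ := h
  rw [h2.self_of_nhds.2 hx]
  refine mem_nhdsWithin_iff_eventually.2 (mem_of_superset (h1.image_mem (h2.and hN)) ?_)
  rintro _ ⟨y, ⟨a, b⟩, rfl⟩ hb
  exact ⟨y, ⟨a.1.1 hb, b⟩, a.2 (a.1.1 hb)⟩

theorem Rel.nhds_iff (h : Rel X Y A B f x) (hx : x ∈ A) : B ∈ 𝓝 (f x) ↔ A ∈ 𝓝 x := by
  obtain ⟨F, h1, h2⟩ := h
  rw [h2.self_of_nhds.2 hx, ← h1.map_nhds, mem_map]
  exact eventually_congr (h2.mono fun _ a => a.1)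

theorem mem_frontier_of_mem {T : Type} [TopologicalSpace T] {A : Set T} {x : T} (hx : x ∈ A) :
    x ∈ frontier A ↔ A ∉ 𝓝 x := by
  rw [frontier, mem_diff, mem_interior_iff_mem_nhds, and_iff_right (subset_closure hx)]

theorem Rel.frontier_iff (h : Rel X Y A B f x) (hx : x ∈ A) :
    f x ∈ frontier B ↔ x ∈ frontier A := by
  rw [mem_frontier_of_mem hx, mem_frontier_of_mem (h.mem hx), h.nhds_iff hx]

theorem Rel.injOn (h : Rel X Y A B f x) : ∃ N ∈ 𝓝 x, InjOn f (A ∩ N) := by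
  obtain ⟨F, h1, h2⟩ := h
  obtain ⟨G, U, W, hU, -, hxU, hs, -, -, -, -, l, -⟩ := h1.exists_inv h2
  exact ⟨U, hU.mem_nhds hxU, fun y hy z hz e => by
    rw [← l y hy.2, ← l z hz.2, ← (hs hy.2).2 hy.1, ← (hs hz.2).2 hz.1, e]⟩

theorem RD.trans (hf : RD X Y A B f) (hg : RD Y Z B C g) : RD X Z A C fun x => g (f x) :=
  ⟨fun x hx => (hf.rel x hx).trans hx (hg.rel _ (hf.bij.mapsTo hx)), hg.bij.comp hf.bij⟩

theorem RD.symm (hf : RD X Y A B f) : RD Y X B A (invFunOn f A) := by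
  refine ⟨fun y hy => ?_, hf.bij.symm hf.bij.invOn_invFunOn.symm⟩
  obtain ⟨x, hx, rfl⟩ := hf.bij.surjOn hy
  exact (hf.rel x hx).desc hx rel_id (.of_forall fun y hy => hf.bij.injOn.leftInvOn_invFunOn hy)

theorem rd_of_oe {U : Set X} (h : OE X Y f U) (hA : A ⊆ U) : RD X Y A (f '' A) f := by
  refine ⟨fun x hx => rel_of_ld (h.ld x (hA hx)) ?_, (h.inj.mono hA).bijOn_image⟩
  filter_upwards [h.op.mem_nhds (hA hx)] with y hy using h.inj.mem_image_iff hA hy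

variable {Θ Θ' : X → X}

theorem gd_id : GD X fun x => x := ⟨fun _ => ldAt_id, bijective_id⟩
theorem GD.trans (h : GD X Θ) (h' : GD X Θ') : GD X fun x => Θ' (Θ x) :=
  ⟨fun x => (h.ld x).trans (h'.ld _), h'.bij.comp h.bij⟩
theorem GD.oe (h : GD X Θ) : OE X X Θ univ := ⟨isOpen_univ, fun x _ => h.ld x, h.bij.1.injOn⟩
theorem GD.cont (h : GD X Θ) : Continuous Θ := h.oe.sm.cont
theorem GD.rd (h : GD X Θ) (A : Set X) : RD X X A (Θ '' A) Θ := rd_of_oe h.oe (subset_univ A)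
theorem GD.exists_inv (h : GD X Θ) :
    ∃ Θ', GD X Θ' ∧ (∀ x, Θ' (Θ x) = x) ∧ ∀ x, Θ (Θ' x) = x := by
  obtain ⟨G, l, r⟩ := bijective_iff_has_inverse.1 h.bij
  refine ⟨G, ⟨fun y => ?_, bijective_iff_has_inverse.2 ⟨Θ, r, l⟩⟩, l, r⟩
  rw [← r y]
  exact (h.ld _).ld_of_comp (ldAt_id.congr' (.of_forall l))

/-- a compactly supported diffeomorphism in a chart extends by the identity -/
theorem GD.extend {β : Y → Y} {h : Y → X} {U K : Set Y} (hβ : GD Y β) (hh : OE Y X h U)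
    (hK : IsCompact K) (hKU : K ⊆ U) (e : ∀ y ∉ K, β y = y) :
    ∃ Θ, GD X Θ ∧ (∀ y ∈ U, Θ (h y) = h (β y)) ∧ ∀ x ∉ h '' K, Θ x = x := by
  classical
  have key : ∀ β : Y → Y, GD Y β → (∀ y ∉ K, β y = y) → MapsTo β U U ∧ ∃ Θ : X → X,
      (∀ x, LDAt X X Θ x) ∧ (∀ y ∈ U, Θ (h y) = h (β y)) ∧ ∀ x ∉ h '' K, Θ x = x := by
    intro β hβ e
    have m : MapsTo β U U := fun y hy => by_contra fun k =>
      k ((hβ.bij.1 (e _ fun k' => k (hKU k'))).symm ▸ hy)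
    let Θ : X → X := fun x => if x ∈ h '' U then h (β (invFunOn h U x)) else x
    have a1 : ∀ y ∈ U, Θ (h y) = h (β y) := fun y hy => by
      simp only [Θ, if_pos (mem_image_of_mem h hy), hh.left hy]
    have a2 : ∀ x ∉ h '' K, Θ x = x := fun x hx => by
      by_cases k : x ∈ h '' U
      · obtain ⟨y, hy, rfl⟩ := k
        rw [a1 y hy, e y fun k => hx ⟨y, k, rfl⟩]
      · exact if_neg k
    refine ⟨m, Θ, fun x => ?_, a1, a2⟩
    by_cases k : x ∈ h '' K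
    · obtain ⟨y, hy, rfl⟩ := k
      refine (hh.ld y (hKU hy)).ld_of_comp (((hβ.ld y).trans (hh.ld _ (m (hKU hy)))).congr' ?_)
      filter_upwards [hh.op.mem_nhds (hKU hy)] with z hz using a1 z hz
    · refine ldAt_id.congr' ?_
      filter_upwards [(hK.image_of_continuousOn (hh.sm.contOn.mono hKU)).isClosed.isOpen_compl.mem_nhds
        k] with z hz using a2 z hz
  obtain ⟨β', h', l, r⟩ := hβ.exists_inv
  obtain ⟨m, Θ, a0, a1, a2⟩ := key β hβ e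
  obtain ⟨m', Θ', -, b1, b2⟩ := key β' h' fun y hy => (congrArg β' (e y hy)).symm.trans (l y)
  refine ⟨Θ, ⟨a0, bijective_iff_has_inverse.2 ⟨Θ', fun x => ?_, fun x => ?_⟩⟩, a1, a2⟩
  · by_cases k : x ∈ h '' K
    · obtain ⟨y, hy, rfl⟩ := k
      rw [a1 y (hKU hy), b1 _ (m (hKU hy)), l]
    · rw [a2 x k, b2 x k]
  · by_cases k : x ∈ h '' K
    · obtain ⟨y, hy, rfl⟩ := k
      rw [b1 y (hKU hy), a1 _ (m' (hKU hy)), r]
    · rw [b2 x k, a2 x k]

/-- an embedding has local smooth retractions -/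
theorem Emb.retract [FiniteDimensional ℝ E] {F : Type} [NormedAddCommGroup F] [NormedSpace ℝ F]
    [FiniteDimensional ℝ F] {ι : X → F} (h : Emb X ι) (x : X) : ∃ R : F → X,
      (∀ᶠ z in 𝓝 (ι x), SmAt (vs F) X R z) ∧ (∀ᶠ y in 𝓝 x, R (ι y) = y) ∧
      ∀ᶠ z in 𝓝 (ι x), ∀ y, ι y = z → R z = y := by
  obtain ⟨P, hP⟩ := (Df X (vs F) ι x).toLinearMap.exists_leftInverse_of_injective
    (LinearMap.ker_eq_bot.2 (h.inj x))
  let Q : F →L[ℝ] E := LinearMap.toContinuousLinearMap P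
  have h1 : LDAt X (vs E) (fun y => Q (ι y)) x :=
    ldAt_of_Df univ_mem (fun y _ => (h.sm y trivial).vcomp Q.contDiff.contDiffAt) (by
      rw [Df_clm Q (h.sm x trivial)]
      exact ⟨.refl ℝ E, ContinuousLinearMap.coe_injective hP.symm⟩)
  obtain ⟨g, U, W, hU, hW, hx, -, -, sg, m1, -, l, -⟩ := h1.exists_inv univ_mem
  refine ⟨fun z => g (Q z), ?_, mem_of_superset (hU.mem_nhds hx) l, ?_⟩
  · filter_upwards [Q.continuous.continuousAt.preimage_mem_nhds (hW.mem_nhds (m1 hx))] with z hz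
    exact (smAt_vs.2 Q.contDiff.contDiffAt).trans (sg _ hz)
  · obtain ⟨O, hO, rfl⟩ := h.emb.isInducing.isOpen_iff.1 hU
    filter_upwards [hO.mem_nhds hx] with z hz y hy
    subst hy
    exact l y hz

end Rel

section Dom
variable {V : Type} [NormedAddCommGroup V] [InnerProductSpace ℝ V] [FiniteDimensional ℝ V]

/-- the half-space -/
def HS (e : V) : Set V := {y | 0 ≤ ⟪e, y⟫}
/-- the reflection along `e`; it is also the linear field at a critical point of index one -/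
def rf (e y : V) : V := y - (2 * ⟪e, y⟫) • e
/-- the component orthogonal to `e` -/
def pr (e y : V) : V := y - ⟪e, y⟫ • e
/-- the unit cylinder with axis `e` -/
def Cyl (e : V) : Set V := {y | ‖pr e y‖ ≤ 1}
/-- a radial map -/
def rad (μ : ℝ → ℝ) (y : V) : V := (μ ‖y‖ / ‖y‖) • y

/-- a chart in which `W` is the half-space -/
structure PC (X : Mf V) (W : Set X) (e : V) (h : V → X) (U : Set V) : Prop where
  oe : OE (vs V) X h U
  mem : ∀ y ∈ U, h y ∈ W ↔ y ∈ HS e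

/-- a compact domain with smooth boundary -/
structure Nice (X : Mf V) (W : Set X) (e : V) : Prop where
  cpt : IsCompact W
  ch : ∀ x ∈ frontier W, ∃ h, PC X W e h (ball 0 2) ∧ h 0 = x

/-- the gluing relation of a boundary sum -/
def Gl {S T : Type} (e : V) (a : V → S) (b : V → T) (x : S) (y : T) : Prop :=
  ∃ (t : ℝ) (v : V), 0 < t ∧ t < 1 ∧ ‖v‖ = 1 ∧ v ∈ HS e ∧ x = a (t • v) ∧ y = b ((1 - t) • v)

/-- `M` is the boundary sum of `A` and `B` -/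
structure Bd (e : V) (X Y Z : Mf V) (A : Set X) (B : Set Y) (M : Set Z) (a : V → X) (b : V → Y)
    (f : X → Z) (g : Y → Z) : Prop where
  ca : PC X A e a (ball 0 2)
  cb : PC Y B e b (ball 0 2)
  rf : ∀ x ∈ A \ {a 0}, Rel X Z A M f x
  rg : ∀ y ∈ B \ {b 0}, Rel Y Z B M g y
  jf : InjOn f (A \ {a 0})
  jg : InjOn g (B \ {b 0})
  cov : M = f '' (A \ {a 0}) ∪ g '' (B \ {b 0})
  eq : ∀ x ∈ A \ {a 0}, ∀ y ∈ B \ {b 0}, f x = g y ↔ Gl e a b x y

def ABd (e : V) (X Y Z : Mf V) (A : Set X) (B : Set Y) (M : Set Z) : Prop :=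
  ∃ a b f g, Bd e X Y Z A B M a b f g

/-- `M` is the boundary sum of `W` with itself -/
structure Slf (e : V) (X : Mf V) (W M : Set X) (a b : V → X) (f : X → X) : Prop where
  ca : PC X W e a (ball 0 2)
  cb : PC X W e b (ball 0 2)
  dis : Disjoint (a '' ball 0 2) (b '' ball 0 2)
  rf : ∀ x ∈ W \ {a 0, b 0}, Rel X X W M f x
  cov : M = f '' (W \ {a 0, b 0})
  eq : ∀ x ∈ W \ {a 0, b 0}, ∀ y ∈ W \ {a 0, b 0}, f x = f y ↔
    x = y ∨ Gl e a b x y ∨ Gl e b a x y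

/-- iterated boundary sums of a ball with copies of `Q` -/
def AP (e : V) (Y : Mf V) (Q : Set Y) (X : Mf V) : ℕ → Set X → Prop
  | 0, M => ∃ B, RD (vs V) X (closedBall 0 1) M B
  | g + 1, M => ∃ W, AP e Y Q X g W ∧ ABd e X Y X W Q M

/-- the sign of a chart -/
def sg (X : Mf V) (s : X → ℝ) (g : V → X) (y : V) : ℝ := s (g y) * (Df (vs V) X g y).det

/-- an orientation -/
structure Ornt (X : Mf V) (s : X → ℝ) : Prop where
  ne : ∀ x, s x ≠ 0
  loc : ∀ g y, LDAt (vs V) X g y → ∀ᶠ z in 𝓝 y, 0 < sg X s g z * sg X s g y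

/-- a field with its flow, a function, and linearising charts at the critical points -/
structure MD (X : Mf V) (e : V) where
  v : X → V
  φ : ℝ → X → X
  k : X → ℝ
  C0 : Set X
  C1 : Set X
  ψ : X → V → X
  vf : ∀ x, VfAt X v x
  fl : IsFlow X v φ
  sk : Sm X (vs ℝ) k univ
  f0 : C0.Finite
  f1 : C1.Finite
  dis : Disjoint C0 C1
  oe : ∀ p ∈ C0 ∪ C1, OE (vs V) X (ψ p) (ball 0 1) ∧ ψ p 0 = p
  l0 : ∀ p ∈ C0, ∀ y ∈ ball (0 : V) 1, Df (vs V) X (ψ p) y y = v (ψ p y)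
  l1 : ∀ p ∈ C1, ∀ y ∈ ball (0 : V) 1, Df (vs V) X (ψ p) y (rf e y) = v (ψ p y)

/-- a domain on which the field is gradient-like -/
structure MD.Dom {X : Mf V} {e : V} (D : MD X e) (M : Set X) : Prop where
  out : Out X D.v M
  inc : ∀ x ∈ M, x ∉ D.C0 ∪ D.C1 → 0 < Df X (vs ℝ) D.k x (D.v x)

/-- `Q` is an orientable boundary sum of a ball with itself -/
structure QP (e : V) (Y : Mf V) (Q : Set Y) : Prop where
  ex : ∃ (W : Set Y) (a b B : V → Y) (f : Y → Y) (s : Y → ℝ), Slf e Y W Q a b f ∧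
    OE (vs V) Y B univ ∧ W = B '' closedBall 0 1 ∧ Ornt Y s ∧ sg Y s a 0 * sg Y s b 0 < 0

variable {X Y Z : Mf V} {e : V} {W A : Set X} {B : Set Y} {M : Set Z} {h a : V → X} {b : V → Y}
  {f : X → Z} {g : Y → Z} {U U' : Set V} {s : X → ℝ} {y z : V}

theorem PC.mono (hh : PC X W e h U) (hU : IsOpen U') (hs : U' ⊆ U) : PC X W e h U' :=
  ⟨hh.oe.mono hU hs, fun y hy => hh.mem y (hs hy)⟩

theorem PC.rel (hh : PC X W e h U) (hy : y ∈ U) : Rel (vs V) X (HS e) W h y :=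
  rel_of_ld (hh.oe.ld y hy) (mem_of_superset (hh.oe.op.mem_nhds hy) hh.mem)

omit [FiniteDimensional ℝ V] in
theorem zero_mem_HS : (0 : V) ∈ HS e := by simp [HS]

omit [FiniteDimensional ℝ V] in
theorem smul_mem_HS {t : ℝ} (ht : 0 < t) : t • y ∈ HS e ↔ y ∈ HS e := by
  simp only [HS, mem_setOf_eq, real_inner_smul_right, mul_nonneg_iff_of_pos_left ht]

omit [FiniteDimensional ℝ V] in
theorem Gl.symm {S T : Type} {a : V → S} {b : V → T} {x : S} {y : T} (k : Gl e a b x y) :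
    Gl e b a y x := by
  obtain ⟨t, v, h0, h1, hv, hH, hx, hy⟩ := k
  exact ⟨1 - t, v, by linarith, by linarith, hv, hH, hy, by rwa [sub_sub_cancel]⟩

theorem Bd.symm (k : Bd e X Y Z A B M a b f g) : Bd e Y X Z B A M b a g f :=
  ⟨k.cb, k.ca, k.rg, k.rf, k.jg, k.jf, k.cov.trans (union_comm _ _), fun y hy x hx =>
    eq_comm.trans ((k.eq x hx y hy).trans ⟨Gl.symm, Gl.symm⟩)⟩

theorem ABd.symm (k : ABd e X Y Z A B M) : ABd e Y X Z B A M :=
  let ⟨a, b, f, g, k⟩ := k; ⟨b, a, g, f, k.symm⟩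

/-- change of the sum by a diffeomorphism -/
theorem Bd.map {Z' : Mf V} {M' : Set Z'} {Φ : Z → Z'} (k : Bd e X Y Z A B M a b f g)
    (hΦ : RD Z Z' M M' Φ) : Bd e X Y Z' A B M' a b (fun x => Φ (f x)) fun y => Φ (g y) := by
  have mf : MapsTo f (A \ {a 0}) M := fun x hx => (k.rf x hx).mem hx.1
  have mg : MapsTo g (B \ {b 0}) M := fun x hx => (k.rg x hx).mem hx.1
  refine ⟨k.ca, k.cb, fun x hx => (k.rf x hx).trans hx.1 (hΦ.rel _ (mf hx)),
    fun x hx => (k.rg x hx).trans hx.1 (hΦ.rel _ (mg hx)), hΦ.bij.injOn.comp k.jf mf,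
    hΦ.bij.injOn.comp k.jg mg, ?_, fun x hx y hy => ?_⟩
  · rw [← hΦ.bij.image_eq, ← image_image Φ f, ← image_image Φ g, ← image_union, ← k.cov]
  · rw [hΦ.bij.injOn.eq_iff (mf hx) (mg hy), k.eq x hx y hy]

theorem AP.map {Q : Set Y} {n : ℕ} {M M' : Set X} {Φ : X → X} (k : AP e Y Q X n M)
    (hΦ : RD X X M M' Φ) : AP e Y Q X n M' := by
  cases n with
  | zero => exact let ⟨_, k⟩ := k; ⟨_, k.trans hΦ⟩
  | succ n => exact let ⟨W, k, _, _, _, _, k'⟩ := k; ⟨W, k, _, _, _, _, k'.map hΦ⟩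

theorem Slf.map {M M' : Set X} {b : V → X} {f Φ : X → X} (k : Slf e X W M a b f)
    (hΦ : RD X X M M' Φ) : Slf e X W M' a b fun x => Φ (f x) := by
  have mf : MapsTo f (W \ {a 0, b 0}) M := fun x hx => (k.rf x hx).mem hx.1
  refine ⟨k.ca, k.cb, k.dis, fun x hx => (k.rf x hx).trans hx.1 (hΦ.rel _ (mf hx)), ?_,
    fun x hx y hy => ?_⟩
  · rw [← hΦ.bij.image_eq, ← image_image Φ f, ← k.cov]
  · rw [hΦ.bij.injOn.eq_iff (mf hx) (mf hy), k.eq x hx y hy]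

theorem sg_comp {α : V → V} (hα : SmAt (vs V) (vs V) α y) (hh : SmAt (vs V) X h (α y)) :
    sg X s (fun y => h (α y)) y = sg X s h (α y) * (fderiv ℝ α y).det := by
  rw [sg, sg, Df_comp hα hh, Df_vs, mul_assoc]
  exact congrArg _ (LinearMap.det_comp _ _)

theorem sg_congr {h' : V → X} (k : h =ᶠ[𝓝 y] h') : sg X s h y = sg X s h' y := by
  rw [sg, sg, Df_congr k, k.eq_of_nhds]

theorem Ornt.sg_ne (o : Ornt X s) (hh : LDAt (vs V) X h y) : sg X s h y ≠ 0 :=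
  mul_self_pos.1 (o.loc h y hh).self_of_nhds

/-- the sign of a chart is constant on connected sets -/
theorem Ornt.const (o : Ornt X s) (hU : IsPreconnected U) (hh : ∀ y ∈ U, LDAt (vs V) X h y)
    (hy : y ∈ U) (hz : z ∈ U) : 0 < sg X s h y * sg X s h z := by
  refine hU.induction₂' (fun y z => 0 < sg X s h y * sg X s h z) (fun y hy => ?_)
    (fun y z w _ hz _ a b => ?_) hy hz
  · filter_upwards [mem_nhdsWithin_of_mem_nhds (o.loc h y (hh y hy))] with z hz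
    exact ⟨by rwa [mul_comm], hz⟩
  · have := mul_pos a b
    have k := mul_self_pos.2 (o.sg_ne (hh z hz))
    exact (mul_pos_iff_of_pos_left k).1 (by linarith)

omit [FiniteDimensional ℝ V] in
theorem rad_smul {μ : ℝ → ℝ} {t : ℝ} {v : V} (hv : ‖v‖ = 1) (ht : 0 < t) :
    rad μ (t • v) = μ t • v := by
  rw [rad, norm_smul, hv, mul_one, Real.norm_of_nonneg ht.le, smul_smul, div_mul_cancel₀ _ ht.ne']

omit [FiniteDimensional ℝ V] in
theorem norm_rad {μ : ℝ → ℝ} (hy : y ≠ 0) (h : 0 ≤ μ ‖y‖) : ‖rad μ y‖ = μ ‖y‖ := by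
  rw [rad, norm_smul, Real.norm_of_nonneg (div_nonneg h (norm_nonneg _)),
    div_mul_cancel₀ _ (norm_ne_zero_iff.2 hy)]

omit [FiniteDimensional ℝ V] in
theorem rad_mem_HS {μ : ℝ → ℝ} (hy : y ≠ 0) (h : 0 < μ ‖y‖) : rad μ y ∈ HS e ↔ y ∈ HS e :=
  smul_mem_HS (div_pos h (norm_pos_iff.2 hy))

theorem ldAt_hom {t : ℝ} (ht : t ≠ 0) (y : V) : LDAt (vs V) (vs V) (fun y => t • y) y :=
  ldAt_cle ((LinearEquiv.smulOfNeZero ℝ V t ht).toContinuousLinearEquiv) y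

/-- a germ of a local isomorphism from the half-space gives small boundary charts -/
theorem Rel.up {k : V → Z} (hk : Rel (vs V) Z (HS e) M k 0) {N : Set Z} (hN : N ∈ 𝓝 (k 0)) :
    ∀ᶠ η : ℝ in 𝓝[>] 0, ∃ h, PC Z M e h (ball 0 2) ∧ MapsTo h (ball 0 2) N ∧
      ∀ y ∈ HS e, ‖y‖ < 2 → h y = k (η • y) := by
  obtain ⟨F, h1, h2⟩ := hk
  rw [h2.self_of_nhds.2 zero_mem_HS] at hN
  obtain ⟨G, U, W, hU, hW, hx, hs, sF, sG, m1, m2, l, r⟩ :=
    h1.exists_inv (h2.and (h1.sm.cont.preimage_mem_nhds hN))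
  obtain ⟨ρ, hρ, hb⟩ := Metric.isOpen_iff.1 hU 0 hx
  filter_upwards [Ioo_mem_nhdsGT (half_pos hρ)] with η hη
  have m : MapsTo (fun y : V => η • y) (ball 0 2) U := fun y hy => hb (by
    rw [mem_ball_zero_iff] at hy ⊢
    rw [norm_smul, Real.norm_of_nonneg hη.1.le]
    nlinarith [hη.1, hη.2, norm_nonneg y])
  exact ⟨fun y => F (η • y), ⟨OE.trans ⟨isOpen_ball, fun y _ => ldAt_hom hη.1.ne' y,
    (smul_right_injective V hη.1.ne').injOn⟩ (oe_of_inv hU hW sF sG m1 m2 l r) m,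
    fun y hy => (hs (m hy)).1.1.trans (smul_mem_HS hη.1)⟩, fun y hy => (hs (m hy)).2,
    fun y hy k => ((hs (m (mem_ball_zero_iff.2 k))).1.2 ((smul_mem_HS hη.1).2 hy)).symm⟩

omit [FiniteDimensional ℝ V] in
theorem Gl.congr {S T : Type} {a a' : V → S} {b : V → T} {x : S} {y : T}
    (k : ∀ y ∈ HS e, ‖y‖ < 1 → a' y = a y) : Gl e a' b x y ↔ Gl e a b x y := by
  refine exists₂_congr fun t v => and_congr_right fun h0 => and_congr_right fun h1 =>
    and_congr_right fun hv => and_congr_right fun hH => ?_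
  rw [k _ ((smul_mem_HS h0).2 hH) (by rwa [norm_smul, hv, mul_one, Real.norm_of_nonneg h0.le])]

/-- only the values of the chart on the unit half ball matter -/
theorem Bd.chart {a' : V → X} (k : Bd e X Y Z A B M a b f g) (h1 : PC X A e a' (ball 0 2))
    (h2 : ∀ y ∈ HS e, ‖y‖ < 1 → a' y = a y) : Bd e X Y Z A B M a' b f g := by
  have e0 : a' 0 = a 0 := h2 0 zero_mem_HS (by simp)
  exact ⟨h1, k.cb, e0 ▸ k.rf, k.rg, e0 ▸ k.jf, k.jg, e0 ▸ k.cov, fun x hx y hy =>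
    (k.eq x (e0 ▸ hx) y hy).trans (Gl.congr h2).symm⟩

/-- change of the first summand by a diffeomorphism; `a'` is the new chart -/
theorem Bd.comap {X' : Mf V} {A' : Set X'} {a' : V → X'} {Φ : X' → X}
    (k : Bd e X Y Z A B M a b f g) (hΦ : RD X' X A' A Φ) (h1 : PC X' A' e a' (ball 0 2))
    (h2 : ∀ y ∈ HS e, ‖y‖ < 1 → Φ (a' y) = a y) :
    Bd e X' Y Z A' B M a' b (fun x => f (Φ x)) g := by
  have e0 : Φ (a' 0) = a 0 := h2 0 zero_mem_HS (by simp)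
  have a0 : a' 0 ∈ A' := (h1.mem 0 (by simp)).2 zero_mem_HS
  have m : MapsTo Φ (A' \ {a' 0}) (A \ {a 0}) := fun x hx =>
    ⟨hΦ.bij.mapsTo hx.1, fun h => hx.2 (hΦ.bij.injOn hx.1 a0 (h.trans e0.symm))⟩
  have c : Φ '' (A' \ {a' 0}) = A \ {a 0} := m.image_subset.antisymm fun x hx => by
    obtain ⟨z, hz, rfl⟩ := hΦ.bij.surjOn hx.1
    exact ⟨z, ⟨hz, fun h => hx.2 (by rw [show z = a' 0 from h]; exact e0)⟩, rfl⟩
  refine ⟨h1, k.cb, fun x hx => (hΦ.rel x hx.1).trans hx.1 (k.rf _ (m hx)), k.rg,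
    k.jf.comp (hΦ.bij.injOn.mono diff_subset) m, k.jg, by rw [← image_image f Φ, c, ← k.cov],
    fun x hx y hy => (k.eq _ (m hx) y hy).trans ?_⟩
  refine exists₂_congr fun t v => and_congr_right fun h0 => and_congr_right fun ht =>
    and_congr_right fun hv => and_congr_right fun hH => and_congr_left' ?_
  have n : ‖t • v‖ < 1 := by rwa [norm_smul, hv, mul_one, Real.norm_of_nonneg h0.le]
  have hm := (smul_mem_HS (e := e) h0).2 hH
  rw [← h2 _ hm n]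
  exact hΦ.bij.injOn.eq_iff hx.1 ((h1.mem _ (mem_ball_zero_iff.2 (by linarith))).2 hm)

end Dom

end Pool.Agent.MP_7ebdba_gt.hb

end
end MrgPart0

-- ======== part 1: formerly Pool.Agent.MP_7ebdba_gt.hb.Spec
section MrgPart1

/-! Add-on HB: the statements of the rows. -/

open scoped ContDiff Manifold Topology RealInnerProductSpace
open Set Filter Function Metric Module Pool.Agent.MP_e1dc65_gt

noncomputable section

namespace Pool.Agent.MP_7ebdba_gt.hb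

/-- row RAD: increasing interpolation -/
def InterpStmt : Prop :=
  ∀ (f g : ℝ → ℝ) (l a b : ℝ), l < a → a < b →
    (∀ t ∈ Ioo l b, ContDiffAt ℝ ∞ f t ∧ 0 < deriv f t) →
    (∀ t, a < t → ContDiffAt ℝ ∞ g t ∧ 0 < deriv g t) → f a < g b →
    ∃ μ : ℝ → ℝ, (∀ t, l < t → ContDiffAt ℝ ∞ μ t ∧ 0 < deriv μ t) ∧ (∀ t ≤ a, μ t = f t) ∧
      ∀ t, b ≤ t → μ t = g t

/-- row GL: the group of matrices of positive determinant is connected -/
def GLStmt : Prop :=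
  ∀ (W : Type) [NormedAddCommGroup W] [NormedSpace ℝ W] [FiniteDimensional ℝ W] (L : W →L[ℝ] W),
    0 < L.det → JoinedIn {A : W →L[ℝ] W | A.det ≠ 0} (ContinuousLinearMap.id ℝ W) L

variable (V : Type) [NormedAddCommGroup V] [InnerProductSpace ℝ V] [FiniteDimensional ℝ V]

/-- row RAD: radial maps -/
def RadStmt : Prop :=
  ∀ (μ : ℝ → ℝ) (l : ℝ), 0 ≤ l → (∀ t, l < t → ContDiffAt ℝ ∞ μ t ∧ 0 < deriv μ t ∧ 0 < μ t) →
    OE (vs V) (vs V) (rad μ) {y | l < ‖y‖} ∧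
      ∀ c, 0 < c → l = 0 → (∀ᶠ t in 𝓝[>] 0, μ t = c * t) → OE (vs V) (vs V) (rad μ) univ

/-- row RAD: a compactly supported contraction -/
def SigStmt : Prop :=
  ∀ η : ℝ, 0 < η → η ≤ 1 → ∃ β : V → V, GD (vs V) β ∧ (∀ y, ‖y‖ ≤ 1 → β y = η • y) ∧
    (∀ y, 3 / 2 ≤ ‖y‖ → β y = y) ∧ ∀ e y, β y ∈ HS e ↔ y ∈ HS e

/-- row RAD: the charts of a boundary sum can be shrunk -/
def ShrinkStmt : Prop :=
  ∀ (e : V) (η : ℝ), 0 < η → η ≤ 1 →
    (∀ (X Y Z : Mf V) (A : Set X) (B : Set Y) (M : Set Z) (a : V → X) (b : V → Y) (f : X → Z)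
      (g : Y → Z), Bd e X Y Z A B M a b f g → ∃ Θ, GD X Θ ∧ (∀ x, Θ x ∈ A ↔ x ∈ A) ∧
        (∀ x ∉ a '' closedBall 0 (3 / 2), Θ x = x) ∧ (∀ y, ‖y‖ ≤ 1 → Θ (a (η • y)) = a y) ∧
        Bd e X Y Z A B M (fun y => a (η • y)) b (fun x => f (Θ x)) g) ∧
    ∀ (X : Mf V) (W M : Set X) (a b : V → X) (f : X → X), Slf e X W M a b f →
      ∃ f', Slf e X W M (fun y => a (η • y)) (fun y => b (η • y)) f'

/-- row PAL: maps close to the identity -/
def NearStmt : Prop :=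
  ∀ u : V → V, ContDiff ℝ ∞ u → (∀ y, ‖fderiv ℝ u y‖ ≤ 1 / 2) → GD (vs V) fun y => y + u y

/-- row PAL: an orientation preserving germ at a boundary point of the half-space extends to a
diffeomorphism with small support -/
def PalaisStmt : Prop :=
  ∀ (e : V) (α : V → V) (r : ℝ), ‖e‖ = 1 → 0 < r → LDAt (vs V) (vs V) α 0 → α 0 = 0 →
    (∀ᶠ y in 𝓝 0, α y ∈ HS e ↔ y ∈ HS e) → 0 < (fderiv ℝ α 0).det →
    ∃ β : V → V, GD (vs V) β ∧ (∀ y, r ≤ ‖y‖ → β y = y) ∧ (∀ y, β y ∈ HS e ↔ y ∈ HS e) ∧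
      β =ᶠ[𝓝 0] α

/-- row MOVE: finitely many points do not disconnect the boundary -/
def PunctStmt : Prop :=
  ∀ (e : V) (X : Mf V) (W Z : Set X), 3 ≤ finrank ℝ V → ‖e‖ = 1 → Nice X W e →
    IsPreconnected (frontier W) → Z.Finite → IsPreconnected (frontier W \ Z)

/-- row MOVE: homogeneity of the boundary -/
def MoveStmt : Prop :=
  ∀ (e : V) (X : Mf V) (W Z : Set X), 3 ≤ finrank ℝ V → ‖e‖ = 1 → Nice X W e →
    IsPreconnected (frontier W) → Z.Finite → ∀ x ∈ frontier W \ Z, ∀ y ∈ frontier W \ Z,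
    ∃ Θ, GD X Θ ∧ (∀ w, Θ w ∈ W ↔ w ∈ W) ∧ Θ x = y ∧ ∀ z ∈ Z, ∀ᶠ w in 𝓝 z, Θ w = w

/-- row HOM: two germs of boundary charts lie in one global boundary chart -/
def HomStmt : Prop :=
  ∀ (e : V) (X : Mf V) (W : Set X) (s : X → ℝ) (a b : V → X) (α β : V → V), 3 ≤ finrank ℝ V →
    ‖e‖ = 1 → Nice X W e → IsPreconnected (frontier W) → Ornt X s → PC X W e a (ball 0 2) →
    PC X W e b (ball 0 2) → a 0 ≠ b 0 → PC (vs V) (HS e) e α (ball 0 2) →
    PC (vs V) (HS e) e β (ball 0 2) → α 0 ≠ β 0 →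
    0 < sg X s a 0 * sg X s b 0 * ((fderiv ℝ α 0).det * (fderiv ℝ β 0).det) →
    ∃ h, PC X W e h univ ∧ (∀ᶠ y in 𝓝 0, h (α y) = a y) ∧ ∀ᶠ y in 𝓝 0, h (β y) = b y

/-- row MOB: the ball minus a boundary point is the half-space -/
def MobStmt : Prop :=
  ∀ (e u : V) (σ : ℝ), 2 ≤ finrank ℝ V → ‖e‖ = 1 → ‖u‖ = 1 → σ ≠ 0 → ∃ N m : V → V,
    PC (vs V) (closedBall 0 1) e N {-e}ᶜ ∧ N '' HS e = closedBall 0 1 \ {u} ∧
    PC (vs V) (closedBall 0 1) e m (ball 0 1) ∧ m 0 = u ∧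
    (∀ y, y ≠ 0 → ‖y‖ < 1 → m y = N ((‖y‖ ^ 2)⁻¹ • y)) ∧ 0 < σ * (fderiv ℝ m 0).det

/-- row HIT: invariance under the backward flow -/
def BackStmt : Prop :=
  ∀ (X : Mf V) (v : X → V) (φ : ℝ → X → X) (M : Set X), IsFlow X v φ →
    (IsClosed M → (∀ x ∈ M, ∀ᶠ t in 𝓝[<] 0, φ t x ∈ M) → ∀ x ∈ M, ∀ t ≤ 0, φ t x ∈ M) ∧
    (Out X v M → (∀ x ∈ M, ∀ t < 0, M ∈ 𝓝 (φ t x)) ∧ ∀ x ∈ frontier M, ∀ t, 0 < t → φ t x ∉ M)

/-- row HIT: the exit time -/
def HitStmt : Prop :=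
  ∀ (X : Mf V) (v : X → V) (φ : ℝ → X → X) (M : Set X), IsFlow X v φ → Out X v M →
    (∀ x ∈ M, ∀ t, φ t x ∉ M → ∃ t', φ t' x ∈ frontier M) ∧
    IsOpen {x | ∃ t, φ t x ∈ frontier M} ∧ ∃ τ : X → ℝ,
      Sm X (vs ℝ) τ {x | ∃ t, φ t x ∈ frontier M} ∧ ∀ x, (∃ t, φ t x ∈ frontier M) →
        φ (τ x) x ∈ frontier M ∧ (∀ t, φ t x ∈ M ↔ t ≤ τ x) ∧ (∀ t, τ (φ t x) = τ x - t) ∧
          Df X (vs ℝ) τ x (v x) = -1

/-- row HIT: domains have boundary charts -/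
def NiceStmt : Prop :=
  ∀ (e : V) (X : Mf V) (v : X → V) (M : Set X), ‖e‖ = 1 → Out X v M → Nice X M e

/-- row FEQ: nested domains without critical points between them are diffeomorphic -/
def FlowEqStmt : Prop :=
  ∀ (X : Mf V) (v : X → V) (φ : ℝ → X → X) (k : X → ℝ) (M M' : Set X), (∀ x, VfAt X v x) →
    IsFlow X v φ → Out X v M → Out X v M' → M' ⊆ M → Sm X (vs ℝ) k univ →
    (∀ x ∈ M, M' ∉ 𝓝 x → 0 < Df X (vs ℝ) k x (v x)) → ∃ Θ, GD X Θ ∧ Θ '' M' = M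

/-- row DYN: orbits of a gradient-like field -/
def DynStmt : Prop :=
  ∀ (e : V) (X : Mf V) (D : MD X e) (M : Set X), D.Dom M →
    (∀ p ∈ D.C0 ∪ D.C1, D.v p = 0 ∧ (∀ t, D.φ t p = p) ∧ (p ∈ M → M ∈ 𝓝 p)) ∧
    (∀ x ∉ D.C0 ∪ D.C1, ∀ s t, s < t → D.φ t x ∈ M → D.k (D.φ s x) < D.k (D.φ t x)) ∧
    (∀ x ∈ M, ∃ p ∈ (D.C0 ∪ D.C1) ∩ M, MapClusterPt p atBot fun t => D.φ t x) ∧
    ∀ x ∉ D.C0 ∪ D.C1, (∀ t, D.φ t x ∈ M) → ∃ p ∈ D.C1 ∩ M, ∀ t, D.k (D.φ t x) < D.k p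

/-- row DYN: a connected domain without saddles is a ball -/
def BallStmt : Prop :=
  ∀ (e : V) (X : Mf V) (D : MD X e) (M : Set X), D.Dom M → IsConnected M → D.C1 ∩ M = ∅ →
    (D.C0 ∩ M).ncard = 1 ∧ ∃ B, OE (vs V) X B univ ∧ M = B '' closedBall 0 1

/-- row NF: normal form at the highest saddle -/
def NFStmt : Prop :=
  ∀ (e : V) (X : Mf V) (D : MD X e) (M : Set X) (q : X), ‖e‖ = 1 → D.Dom M → q ∈ D.C1 ∩ M →
    (∀ p ∈ D.C1 ∩ M, D.k p ≤ D.k q) → ∃ (M' : Set X) (Θ : X → X) (ψ : V → X), D.Dom M' ∧ M' ⊆ M ∧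
      GD X Θ ∧ Θ '' M' = M ∧ (D.C0 ∪ D.C1) ∩ M ⊆ M' ∧ OE (vs V) X ψ (ball 0 100) ∧ ψ 0 = q ∧
      ∀ y ∈ ball (0 : V) 100, Df (vs V) X ψ y (rf e y) = D.v (ψ y) ∧ (ψ y ∈ M' ↔ y ∈ Cyl e)

/-- row CAP: the cylinder is the boundary sum of two caps -/
def CapStmt : Prop :=
  ∀ e : V, ‖e‖ = 1 → ∃ (K : Set V) (a F : V → V), IsClosed K ∧ K ⊆ Cyl e ∧
    (∀ y ∈ K, 1 ≤ ⟪e, y⟫) ∧ (∀ y ∈ Cyl e, 5 ≤ ⟪e, y⟫ → y ∈ K ∧ F y = y) ∧
    (∀ y ∈ K, K ∈ 𝓝 y ∨ ∃ c : V → ℝ, (∀ᶠ z in 𝓝 y, ContDiffAt ℝ ∞ c z) ∧ c y = 0 ∧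
      0 < fderiv ℝ c y (rf e y) ∧ ∀ᶠ z in 𝓝 y, z ∈ K ↔ c z ≤ 0) ∧
    PC (vs V) K e a (ball 0 2) ∧ (∀ y ∈ ball (0 : V) 2, 0 < ⟪e, a y⟫ ∧ ‖a y‖ < 5) ∧
    (∀ y ∈ K \ {a 0}, Rel (vs V) (vs V) K (Cyl e) F y) ∧ InjOn F (K \ {a 0}) ∧
    (∀ y ∈ K \ {a 0}, ⟪e, y⟫ < 5 → |⟪e, F y⟫| < 5) ∧
    (∀ z ∈ Cyl e, 0 ≤ ⟪e, z⟫ → z ∈ F '' (K \ {a 0})) ∧
    ∀ y ∈ K \ {a 0}, ∀ z ∈ K \ {a 0}, F y = rf e (F z) ↔ Gl e a a y z

/-- row CUT: cutting along the ascending disc of a saddle in normal form -/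
def CutStmt : Prop :=
  ∀ (e : V) (X : Mf V) (D : MD X e) (M : Set X) (ψ : V → X), ‖e‖ = 1 → D.Dom M →
    OE (vs V) X ψ (ball 0 100) →
    (∀ y ∈ ball (0 : V) 100, Df (vs V) X ψ y (rf e y) = D.v (ψ y) ∧ (ψ y ∈ M ↔ y ∈ Cyl e)) →
    ∃ (W : Set X) (a b : V → X) (f : X → X), D.Dom W ∧ W ⊆ M ∧ ψ 0 ∉ W ∧
      (∀ p ∈ M, D.v p = 0 → p ≠ ψ 0 → p ∈ W) ∧ Slf e X W M a b f ∧
      ∀ s, Ornt X s → sg X s a 0 * sg X s b 0 < 0

/-- row SPLIT: a disconnected cut is a boundary sum -/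
def SplitStmt : Prop :=
  ∀ (e : V) (X : Mf V) (W M : Set X) (a b : V → X) (f : X → X), ‖e‖ = 1 → Slf e X W M a b f →
    IsCompact W → IsPreconnected M → IsPreconnected W ∨ ∃ A B : Set X, IsCompact A ∧ IsCompact B ∧
      Disjoint A B ∧ W = A ∪ B ∧ IsConnected A ∧ IsConnected B ∧ ABd e X X X A B M

/-- row FRONT: boundary sums are domains with connected boundary -/
def FrontStmt : Prop :=
  ∀ e : V, 3 ≤ finrank ℝ V → ‖e‖ = 1 →
    (∀ (X : Mf V) (M : Set X) (B : V → X), RD (vs V) X (closedBall 0 1) M B →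
      Nice X M e ∧ IsPreconnected (frontier M)) ∧
    (∀ (X : Mf V) (W M : Set X) (a b : V → X) (f : X → X), Slf e X W M a b f → Nice X W e →
      IsPreconnected (frontier W) → Nice X M e ∧ IsPreconnected (frontier M)) ∧
    ∀ (X Y Z : Mf V) (A : Set X) (B : Set Y) (M : Set Z), ABd e X Y Z A B M → Nice X A e →
      Nice Y B e → IsPreconnected (frontier A) → IsPreconnected (frontier B) →
      Nice Z M e ∧ IsPreconnected (frontier M)

/-- row UNIT: the ball is a unit for the boundary sum -/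
def UnitStmt : Prop :=
  ∀ (e : V) (X Y Z : Mf V) (A : Set X) (B : Set Y) (M : Set Z) (β : V → Y), 2 ≤ finrank ℝ V →
    ‖e‖ = 1 → ABd e X Y Z A B M → RD (vs V) Y (closedBall 0 1) B β → ∃ Φ, RD X Z A M Φ

/-- row ASSOC: the boundary sum is associative -/
def AssocStmt : Prop :=
  ∀ (e : V) (X Y Y' T Z : Mf V) (A : Set X) (B : Set Y) (B' : Set Y') (Q : Set T) (M : Set Z),
    3 ≤ finrank ℝ V → ‖e‖ = 1 → ABd e X Y Z A B M → ABd e Y' T Y B' Q B → Nice Y B e →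
    IsPreconnected (frontier B) → ∃ N : Set Z, ABd e X Y' Z A B' N ∧ ABd e Z T Z N Q M

/-- row HANDLE: an orientable handle on a connected boundary splits off -/
def HandleStmt : Prop :=
  ∀ (e : V) (X Y : Mf V) (W M : Set X) (Q : Set Y) (a b : V → X) (f : X → X) (s : X → ℝ),
    3 ≤ finrank ℝ V → ‖e‖ = 1 → QP e Y Q → Slf e X W M a b f → Nice X W e →
    IsPreconnected (frontier W) → Ornt X s → sg X s a 0 * sg X s b 0 < 0 → ABd e X Y X W Q M

/-- row IND: the model handle -/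
def QPStmt : Prop :=
  ∀ (e : V) (Y : Mf V) (D : MD Y e) (Q : Set Y) (s : Y → ℝ), ‖e‖ = 1 → Ornt Y s → D.Dom Q →
    IsConnected Q → (D.C0 ∩ Q).ncard = 1 → (D.C1 ∩ Q).ncard = 1 → QP e Y Q

/-- row IND: the main theorem -/
def IndStmt : Prop :=
  ∀ (e : V) (X Y : Mf V) (D : MD X e) (M : Set X) (Q : Set Y) (s : X → ℝ), 3 ≤ finrank ℝ V →
    ‖e‖ = 1 → QP e Y Q → Ornt X s → D.Dom M → IsConnected M →
    ∃ g, (D.C1 ∩ M).ncard + 1 = (D.C0 ∩ M).ncard + g ∧ AP e Y Q X g M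

/-- row MAN: an immersion with a continuous normal frame gives an orientation -/
def OrnStmt : Prop :=
  ∀ (F W : Type) [NormedAddCommGroup F] [NormedSpace ℝ F] [FiniteDimensional ℝ F]
    [NormedAddCommGroup W] [NormedSpace ℝ W] [FiniteDimensional ℝ W] (X : Mf V) (ι : X → F)
    (N : X → W →L[ℝ] F), Sm X (vs F) ι univ → Continuous N →
    finrank ℝ W + finrank ℝ V = finrank ℝ F →
    (∀ x, Injective ((N x).coprod (Df X (vs F) ι x))) → ∃ s, Ornt X s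

/-- row CRIT: the linear field is gradient-like near a nondegenerate critical point -/
def CritStmt : Prop :=
  ∀ (n : ℕ) (e : V) (κ : V → ℝ) (T : sm.E n → V) (A : sm.E n →L[ℝ] V) (c : Fin n → ℝ) (O : Set V),
    finrank ℝ V = n → ‖e‖ = 1 → ContDiffAt ℝ 2 κ 0 → T 0 = 0 → HasFDerivAt T A 0 → Injective A →
    (∀ j, c j ≠ 0) → O ∈ 𝓝 0 →
    (fun y => κ (T y) - κ 0 - ∑ j, c j * y j ^ 2) =o[𝓝 0] (fun y => ‖y‖ ^ 2) →
    ({j | c j < 0}.ncard = 0 → ∃ L : V ≃L[ℝ] V, MapsTo L (ball 0 1) O ∧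
      ∀ y ∈ ball (0 : V) 1, y ≠ 0 → 0 < fderiv ℝ κ (L y) (L y)) ∧
    ({j | c j < 0}.ncard = 1 → ∃ L : V ≃L[ℝ] V, MapsTo L (ball 0 1) O ∧
      ∀ y ∈ ball (0 : V) 1, y ≠ 0 → 0 < fderiv ℝ κ (L y) (L (rf e y)))

/-- row DATA: construction of the field -/
def DataStmt : Prop :=
  ∀ (e : V) (X : Mf V) (k : X → ℝ) (cs : List (X → ℝ)) (M C0 C1 : Set X) (ψ : X → V → X),
    Sm X (vs ℝ) k univ → (∀ c ∈ cs, Sm X (vs ℝ) c univ) → IsCompact M → C0.Finite → C1.Finite →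
    Disjoint C0 C1 →
    (∀ p ∈ C0 ∪ C1, (∀ c ∈ cs, c p ≠ 0) ∧ OE (vs V) X (ψ p) (ball 0 1) ∧ ψ p 0 = p) →
    (∀ p ∈ C0, ∀ y ∈ ball (0 : V) 1, y ≠ 0 → 0 < fderiv ℝ (fun y => k (ψ p y)) y y) →
    (∀ p ∈ C1, ∀ y ∈ ball (0 : V) 1, y ≠ 0 → 0 < fderiv ℝ (fun y => k (ψ p y)) y (rf e y)) →
    (∀ x ∈ M, x ∉ C0 ∪ C1 → ∃ w, 0 < Df X (vs ℝ) k x w ∧
      ∀ c ∈ cs, c x = 0 → 0 < Df X (vs ℝ) c x w) →
    ∃ D : MD X e, D.k = k ∧ D.C0 = C0 ∧ D.C1 = C1 ∧ ∀ x ∈ M,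
      (x ∉ C0 ∪ C1 → 0 < Df X (vs ℝ) k x (D.v x)) ∧
        ∀ c ∈ cs, c x = 0 → 0 < Df X (vs ℝ) c x (D.v x)

/-- row DATA: rounding a corner -/
def RoundStmt : Prop :=
  ∀ (e : V) (X : Mf V) (D : MD X e) (c c' : X → ℝ), Sm X (vs ℝ) c univ → Sm X (vs ℝ) c' univ →
    IsCompact {x | c x ≤ 0 ∧ c' x ≤ 0} → IsConnected {x | c x ≤ 0 ∧ c' x ≤ 0} →
    (∀ p ∈ D.C0 ∪ D.C1, c p < 0 ∧ c' p < 0) →
    (∀ x, c x ≤ 0 → c' x ≤ 0 → (x ∉ D.C0 ∪ D.C1 → 0 < Df X (vs ℝ) D.k x (D.v x)) ∧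
      (c x = 0 → 0 < Df X (vs ℝ) c x (D.v x)) ∧ (c' x = 0 → 0 < Df X (vs ℝ) c' x (D.v x))) →
    ∀ᶠ ε in 𝓝[>] (0 : ℝ), D.Dom {x | c x ≤ 0 ∧ c' x ≤ 0 ∧ ε ≤ c x * c' x} ∧
      IsConnected {x | c x ≤ 0 ∧ c' x ≤ 0 ∧ ε ≤ c x * c' x} ∧
      D.C0 ∪ D.C1 ⊆ {x | c x ≤ 0 ∧ c' x ≤ 0 ∧ ε ≤ c x * c' x}

open sm

/-- the first basis vector -/
def e0 (m : ℕ) : E (m + 1) := EuclideanSpace.single 0 1

/-- `ι` parametrises an open part, containing `P`, of the stratum `es = 0` of the sphere -/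
structure Rz (m : ℕ) (es : List (E 5 → ℝ)) (X : Mf (E (m + 1))) (ι : X → E 5) (P : Set S4) :
    Prop where
  emb : Emb X ι
  orn : ∃ s, Ornt X s
  lvl : ∀ x, ‖ι x‖ = 1 ∧ ∀ e ∈ es, e (ι x) = 0
  cov : ∀ z ∈ P, (z : E 5) ∈ range ι
  op : ∀ x, ∀ᶠ z in 𝓝 (ι x), ‖z‖ = 1 → (∀ e ∈ es, e z = 0) → z ∈ range ι
  tan : ∀ x w, ⟪ι x, w⟫ = 0 → (∀ e ∈ es, fderiv ℝ e (ι x) w = 0) →
    w ∈ range (Df X (vs (E 5)) ι x)

/-- row MAN: the sphere and its regular hypersurfaces as manifolds -/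
def ManStmt : Prop :=
  (∃ X ι, Rz 3 [] X ι univ) ∧ ∀ (A : E 5 → ℝ) (P : Set S4), sm.Sm A → P.Nonempty →
    (∀ x ∈ P, A x = 0 ∧ ∃ v, Tangent [] x v ∧ fderiv ℝ A x v ≠ 0) → ∃ X ι, Rz 2 [A] X ι P

/-- row REAL: the data of a handlebody on the abstract manifold -/
def RealStmt : Prop :=
  ∀ (m g : ℕ) (es cs : List (E 5 → ℝ)) (X : Mf (E (m + 1))) (ι : X → E 5),
    Rz m es X ι (Piece es cs) → (∀ c ∈ es, sm.Sm c) → (∀ c ∈ cs, sm.Sm c) →
    Handlebody (m + 1) es cs g → ∃ D : MD X (e0 m),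
      IsCompact {x | ∀ c ∈ cs, c (ι x) ≤ 0} ∧ IsConnected {x | ∀ c ∈ cs, c (ι x) ≤ 0} ∧
      ι '' {x | ∀ c ∈ cs, c (ι x) ≤ 0} = (↑) '' Piece es cs ∧
      D.C1.ncard + 1 = D.C0.ncard + g ∧ (∀ p ∈ D.C0 ∪ D.C1, ∀ c ∈ cs, c (ι p) < 0) ∧
      ∀ x, (∀ c ∈ cs, c (ι x) ≤ 0) → (x ∉ D.C0 ∪ D.C1 → 0 < Df X (vs ℝ) D.k x (D.v x)) ∧
        ∀ c ∈ cs, c (ι x) = 0 → 0 < Df X (vs ℝ) (fun x => c (ι x)) x (D.v x)

/-- row TUBE: the data of `S¹ × Bᵐ` -/
def TubeStmt : Prop :=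
  ∀ m : ℕ, ∃ (Y : Mf (E (m + 1))) (κ : Y → E 2 × E m) (Q : Set Y) (s : Y → ℝ) (D : MD Y (e0 m)),
    Emb Y κ ∧ κ '' Q = tube m ∧ Ornt Y s ∧ D.Dom Q ∧ IsConnected Q ∧ (D.C0 ∩ Q).ncard = 1 ∧
      (D.C1 ∩ Q).ncard = 1

/-- row BRIDGE: back to subsets of Euclidean space -/
def BridgeStmt : Prop :=
  ∀ (m : ℕ) (X Y : Mf (E (m + 1))) (ι : X → E 5) (κ : Y → E 2 × E m) (Q : Set Y), Emb X ι →
    Emb Y κ → κ '' Q = tube m → ∀ (g : ℕ) (M : Set X), AP (e0 m) Y Q X g M → NatSum m g (ι '' M)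

/-- row TOP: a trisection in the sense of Morse functions has pieces that are boundary sums -/
def HBStmt : Prop := ∀ X g k, IsTrisection X g k → IsTri X g k

theorem final_of (h : HBStmt) (h' : sm.SmoothStmt) : FinalStmt :=
  let ⟨X, a, b⟩ := h'; ⟨X, h _ _ _ a, b⟩

end Pool.Agent.MP_7ebdba_gt.hb

end
end MrgPart1

-- ======== part 2: formerly Pool.Agent.MP_7ebdba_gt.hb.Bridge
section MrgPart2

/-! Add-on HB, row BRIDGE: back to subsets of Euclidean space. -/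

open scoped ContDiff Manifold Topology RealInnerProductSpace
open Set Filter Function Metric Module Pool.Agent.MP_e1dc65_gt

noncomputable section

namespace Pool.Agent.MP_7ebdba_gt.hb

namespace Bridge

variable {V V' F G : Type} [NormedAddCommGroup V] [NormedSpace ℝ V] [FiniteDimensional ℝ V]
  [NormedAddCommGroup V'] [NormedSpace ℝ V'] [FiniteDimensional ℝ V']
  [NormedAddCommGroup F] [NormedSpace ℝ F] [FiniteDimensional ℝ F]
  [NormedAddCommGroup G] [NormedSpace ℝ G] [FiniteDimensional ℝ G]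
  {X : Mf V} {Y : Mf V'} {ι : X → F} {κ : Y → G} {A s : Set X} {B t : Set Y} {f : X → Y}
  {φ : F → G}

theorem emb_id : Emb (vs V) (fun x : V => x) :=
  ⟨fun _ _ => smAt_id, Topology.IsEmbedding.id, fun x => by
    rw [Df_id]; exact injective_id⟩

omit [FiniteDimensional ℝ V'] in
theorem smOn (hι : Emb X ι) (hκ : Emb Y κ) (h : ∀ x ∈ s, Rel X Y s t f x)
    (e : ∀ x ∈ s, φ (ι x) = κ (f x)) : SmOn φ (ι '' s) := by
  rintro _ ⟨x, hx, rfl⟩
  obtain ⟨R, h1, h2, h3⟩ := hι.retract x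
  obtain ⟨K, h4, h5⟩ := h x hx
  have r0 : R (ι x) = x := h2.self_of_nhds
  have h6 : SmAt (vs F) X R (ι x) := h1.self_of_nhds
  rw [← r0] at h4 h5
  refine ⟨fun z => κ (K (R z)), (h1.and (h6.cont.eventually h4.ev)).mono fun z a =>
    smAt_vs.1 ((a.1.trans a.2.sm).trans (hκ.sm _ trivial)), eventually_nhdsWithin_iff.2 ?_⟩
  filter_upwards [h3, h6.cont.eventually h5] with z a b
  rintro ⟨y, hy, rfl⟩
  rw [a y rfl] at b ⊢
  rw [e y hy, b.2 hy]

theorem diffOn (hι : Emb X ι) (hκ : Emb Y κ) (h : RD X Y s t f)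
    (e : ∀ x ∈ s, φ (ι x) = κ (f x)) : DiffOn φ (ι '' s) (κ '' t) := by
  have hi := hι.emb.injective
  have hk := hκ.emb.injective
  refine ⟨smOn hι hκ h.rel e, ⟨?_, ?_, ?_⟩, fun z => ι (invFunOn f s (invFun κ z)),
    smOn hκ hι h.symm.rel fun y _ => by rw [leftInverse_invFun hk], ?_⟩
  · rintro _ ⟨x, hx, rfl⟩
    exact ⟨f x, h.bij.mapsTo hx, (e x hx).symm⟩
  · rintro _ ⟨x, hx, rfl⟩ _ ⟨y, hy, rfl⟩ k
    rw [e x hx, e y hy] at k
    rw [h.bij.injOn hx hy (hk k)]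
  · rintro _ ⟨y, hy, rfl⟩
    obtain ⟨x, hx, rfl⟩ := h.bij.surjOn hy
    exact ⟨ι x, ⟨x, hx, rfl⟩, e x hx⟩
  · rintro _ ⟨x, hx, rfl⟩
    simp only [e x hx, leftInverse_invFun hk _, h.bij.injOn.leftInvOn_invFunOn hx]

theorem openEmb (hι : Emb X ι) (hκ : Emb Y κ) {O : Set X} (hO : IsOpen O)
    (h : ∀ x ∈ A ∩ O, Rel X Y A B f x) (j : InjOn f (A ∩ O))
    (e : ∀ x ∈ A ∩ O, φ (ι x) = κ (f x)) : OpenEmb φ (ι '' (A ∩ O)) (κ '' B) := by
  have sub : f '' (A ∩ O) ⊆ B := by rintro _ ⟨x, hx, rfl⟩; exact (h x hx).mem hx.1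
  obtain ⟨U, hU, hU'⟩ := hκ.emb.isInducing.isOpen_iff.1
    (isOpen_interior (s := f '' (A ∩ O) ∪ Bᶜ))
  have k : f '' (A ∩ O) = B ∩ κ ⁻¹' U := by
    rw [hU']
    refine Subset.antisymm ?_ fun y hy => (interior_subset hy.2).resolve_right fun k => k hy.1
    rintro _ ⟨x, hx, rfl⟩
    refine ⟨(h x hx).mem hx.1, mem_interior_iff_mem_nhds.2 ?_⟩
    filter_upwards [mem_nhdsWithin_iff_eventually.1 ((h x hx).image_mem hx.1 (hO.mem_nhds hx.2))]
      with y hy using or_iff_not_imp_right.2 fun k => hy (not_not.1 k)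
  refine ⟨U, hU, ?_⟩
  rw [← image_inter_preimage, ← k]
  refine diffOn hι hκ ⟨fun x hx => ?_, j.bijOn_image⟩ e
  have a : ∀ᶠ y in 𝓝 x, y ∈ A ∩ O ↔ y ∈ A := by
    filter_upwards [hO.mem_nhds hx.2] with y hy using and_iff_left hy
  exact ((h x hx).congr_left a).mono_right sub (.of_forall fun y hy => mem_image_of_mem f hy)

theorem mem_HS {m : ℕ} {y : sm.E (m + 1)} : y ∈ HS (e0 m) ↔ 0 ≤ y 0 := by
  simp [HS, e0, EuclideanSpace.inner_single_left]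

theorem half {m : ℕ} {X : Mf (sm.E (m + 1))} {ι : X → F} {A : Set X} {a : sm.E (m + 1) → X}
    (hι : Emb X ι) (h : PC X A (e0 m) a (ball 0 2)) :
    OpenEmb (fun y => ι (a y)) (halfBall m) (ι '' A) := by
  have k : halfBall m = (fun x => x) '' (HS (e0 m) ∩ ball 0 2) := by
    rw [image_id']
    exact Set.ext fun y => and_congr mem_HS.symm mem_ball_zero_iff.symm
  rw [k]
  exact openEmb emb_id hι isOpen_ball (fun x hx => h.rel hx.2) (h.oe.inj.mono inter_subset_right)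
    fun _ _ => rfl

theorem punct (hι : Emb X ι) (hκ : Emb Y κ) {p : X} (h : ∀ x ∈ A \ {p}, Rel X Y A B f x)
    (j : InjOn f (A \ {p})) :
    OpenEmb (fun z => κ (f (invFun ι z))) (ι '' A \ {ι p}) (κ '' B) := by
  rw [← image_singleton, ← image_sdiff hι.emb.injective]
  exact openEmb hι hκ isOpen_compl_singleton h j fun x _ => by
    rw [leftInverse_invFun hι.emb.injective]

end Bridge

open Bridge in
theorem bridge : BridgeStmt := by
  intro m X Y ι κ Q hι hκ hQ g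
  have hi := hι.emb.injective
  have hk := hκ.emb.injective
  induction g with
  | zero =>
    rintro M ⟨B, hB⟩
    have := diffOn (φ := fun y => ι (B y)) emb_id hι hB fun _ _ => rfl
    rw [image_id'] at this
    exact ⟨_, this⟩
  | succ g ih =>
    rintro M ⟨W, hW, a, b, f, h, k⟩
    refine ⟨ι '' W, ih W hW, fun y => ι (a y), fun y => κ (b y), fun z => ι (f (invFun ι z)),
      fun z => ι (h (invFun κ z)), half hι k.ca, hQ ▸ half hκ k.cb, punct hι hι k.rf k.jf,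
      hQ ▸ punct hκ hι k.rg k.jg, ?_, ?_⟩
    · rw [← hQ, ← image_singleton, ← image_sdiff hi, ← image_singleton (f := κ), ← image_sdiff hk,
        image_image, image_image]
      simp only [leftInverse_invFun hi _, leftInverse_invFun hk _]
      rw [← image_image ι f, ← image_image ι h, ← image_union, ← k.cov]
    · rw [← hQ, ← image_singleton, ← image_sdiff hi, ← image_singleton (f := κ), ← image_sdiff hk]
      rintro _ ⟨x, hx, rfl⟩ _ ⟨y, hy, rfl⟩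
      simp only [leftInverse_invFun hi _, leftInverse_invFun hk _, hi.eq_iff, hk.eq_iff]
      rw [k.eq x hx y hy]
      simp only [Gl, mem_HS]

end Pool.Agent.MP_7ebdba_gt.hb

end
end MrgPart2

-- ======== part 3: formerly Pool.Agent.MP_7ebdba_gt.hb.Tube
section MrgPart3

/-! Add-on HB, row TUBE: the Morse data of `S¹ × Bᵐ`. -/

open scoped ContDiff Manifold Topology RealInnerProductSpace
open Set Filter Function Metric Module Pool.Agent.MP_e1dc65_gt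

noncomputable section

namespace Pool.Agent.MP_7ebdba_gt.hb

open sm

namespace Tube

variable {m : ℕ}

/-- all coordinates but the first -/
def tl (m : ℕ) : E (m + 1) →L[ℝ] E m :=
  LinearMap.toContinuousLinearMap
    { toFun := fun y => WithLp.toLp 2 fun i => y i.succ
      map_add' := fun _ _ => rfl
      map_smul' := fun _ _ => rfl }

theorem tl_ext {y z : E (m + 1)} (h0 : y 0 = z 0) (h : tl m y = tl m z) : y = z := by
  ext i
  refine Fin.cases h0 (fun j => ?_) i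
  exact congrArg (fun w : E m => w j) h

theorem tl_e0 : tl m (e0 m) = 0 := by
  ext i
  show (EuclideanSpace.single (0 : Fin (m + 1)) (1 : ℝ)) i.succ = 0
  simp [Fin.succ_ne_zero]

theorem rf_zero (y : E (m + 1)) : rf (e0 m) y 0 = -y 0 := by
  simp [rf, e0, EuclideanSpace.inner_single_left]; ring

theorem tl_rf (y : E (m + 1)) : tl m (rf (e0 m) y) = tl m y := by
  rw [rf, map_sub, map_smul, tl_e0, smul_zero, sub_zero]

/-- the two basis vectors of the plane -/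
def u0 : E 2 := EuclideanSpace.single 0 1
def u1 : E 2 := EuclideanSpace.single 1 1

theorem nsq2 (a : E 2) : ‖a‖ ^ 2 = a 0 ^ 2 + a 1 ^ 2 := by
  rw [EuclideanSpace.real_norm_sq_eq, Fin.sum_univ_two]

theorem inner2 (a b : E 2) : ⟪a, b⟫ = a 0 * b 0 + a 1 * b 1 := by
  simp [PiLp.inner_apply, Fin.sum_univ_two, mul_comm]

/-- the function whose level is the manifold -/
def ff (p : E 2 × E m) : ℝ := ‖p.1‖ ^ 2
/-- the boundary function -/
def cc (p : E 2 × E m) : ℝ := ‖p.2‖ ^ 2 - 1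
/-- the Morse function -/
def kk (p : E 2 × E m) : ℝ := -p.1 0 + ‖p.2‖ ^ 2
/-- the charts at the critical points -/
def gg (σ : ℝ) (y : E (m + 1)) : E 2 × E m := ((σ * √(1 - y 0 ^ 2)) • u0 + y 0 • u1, tl m y)

theorem cd_co {n : ℕ} (i : Fin n) : ContDiff ℝ ∞ fun y : E n => y i :=
  (EuclideanSpace.proj (𝕜 := ℝ) i).contDiff

theorem cd_ff : ContDiff ℝ ∞ (ff (m := m)) := contDiff_fst.norm_sq ℝ
theorem cd_cc : ContDiff ℝ ∞ (cc (m := m)) := (contDiff_snd.norm_sq ℝ).sub contDiff_const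
theorem cd_kk : ContDiff ℝ ∞ (kk (m := m)) :=
  ((cd_co 0).comp contDiff_fst).neg.add (contDiff_snd.norm_sq ℝ)

theorem d_ff (p v : E 2 × E m) : fderiv ℝ ff p v = 2 * ⟪p.1, v.1⟫ := by
  have : HasFDerivAt (ff (m := m)) _ p := (hasFDerivAt_fst (𝕜 := ℝ) (p := p)).norm_sq
  rw [this.fderiv]; simp

theorem d_cc (p v : E 2 × E m) : fderiv ℝ cc p v = 2 * ⟪p.2, v.2⟫ := by
  have : HasFDerivAt (cc (m := m)) _ p :=
    (hasFDerivAt_snd (𝕜 := ℝ) (p := p)).norm_sq.sub_const 1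
  rw [this.fderiv]; simp

theorem d_kk (p v : E 2 × E m) : fderiv ℝ kk p v = -v.1 0 + 2 * ⟪p.2, v.2⟫ := by
  have : HasFDerivAt (kk (m := m)) _ p :=
    (((EuclideanSpace.proj (𝕜 := ℝ) (0 : Fin 2)).comp
      (ContinuousLinearMap.fst ℝ (E 2) (E m))).hasFDerivAt (x := p)).neg.add
      (hasFDerivAt_snd (𝕜 := ℝ) (p := p)).norm_sq
  rw [this.fderiv]; simp

theorem gg10 (σ : ℝ) (y : E (m + 1)) : (gg σ y).1 0 = σ * √(1 - y 0 ^ 2) := by
  simp [gg, u0, u1]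

theorem gg11 (σ : ℝ) (y : E (m + 1)) : (gg σ y).1 1 = y 0 := by simp [gg, u0, u1]

theorem sq_lt {y : E (m + 1)} (hy : y ∈ ball (0 : E (m + 1)) 1) : 0 < 1 - y 0 ^ 2 := by
  have h1 : |y 0| < 1 := (EuclideanSpace.norm_eq y ▸ PiLp.norm_apply_le y 0).trans_lt
    (EuclideanSpace.norm_eq y ▸ mem_ball_zero_iff.1 hy)
  have := abs_lt.1 h1
  nlinarith

theorem ff_gg {σ : ℝ} (hσ : σ ^ 2 = 1) {y : E (m + 1)} (hy : y ∈ ball (0 : E (m + 1)) 1) :
    ff (gg σ y) = 1 := by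
  rw [ff, nsq2, gg10, gg11, mul_pow, hσ, Real.sq_sqrt (sq_lt hy).le]; ring

theorem cd_gg (σ : ℝ) {y : E (m + 1)} (hy : y ∈ ball (0 : E (m + 1)) 1) :
    ContDiffAt ℝ ∞ (gg σ) y :=
  (((contDiffAt_const.mul ((contDiffAt_const.sub ((cd_co 0).contDiffAt.pow 2)).sqrt
    (sq_lt hy).ne')).smul contDiffAt_const).add
      ((cd_co 0).contDiffAt.smul contDiffAt_const)).prodMk (tl m).contDiff.contDiffAt

theorem inj_gg (σ : ℝ) : Injective (gg (m := m) σ) := fun y z h =>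
  tl_ext (by rw [← gg11 σ y, h, gg11]) (congrArg Prod.snd h)

theorem inj_d {σ : ℝ} {y u : E (m + 1)} (hy : y ∈ ball (0 : E (m + 1)) 1)
    (h : fderiv ℝ (gg σ) y u = 0) : u = 0 := by
  let R : E 2 × E m →L[ℝ] ℝ × E m := ((EuclideanSpace.proj (𝕜 := ℝ) (1 : Fin 2)).comp
    (ContinuousLinearMap.fst ℝ (E 2) (E m))).prod (ContinuousLinearMap.snd ℝ (E 2) (E m))
  let S : E (m + 1) →L[ℝ] ℝ × E m := (EuclideanSpace.proj (𝕜 := ℝ) (0 : Fin (m + 1))).prod (tl m)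
  have e : (fun y => R (gg σ y)) = S := funext fun y => Prod.ext (gg11 σ y) rfl
  have d := (R.hasFDerivAt.comp y ((cd_gg σ hy).differentiableAt (by simp)).hasFDerivAt).fderiv
  have d' : fderiv ℝ (fun y => R (gg σ y)) y = S := by rw [e, S.fderiv]
  have k : S u = 0 := by
    rw [← d']
    refine (congrArg (fun L => L u) d).trans ?_
    simp only [ContinuousLinearMap.comp_apply, h, map_zero]
  exact tl_ext (congrArg Prod.fst k) ((congrArg Prod.snd k).trans (map_zero _).symm)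

theorem d_kg (σ : ℝ) {y : E (m + 1)} (hy : y ∈ ball (0 : E (m + 1)) 1) (w : E (m + 1)) :
    fderiv ℝ (fun y => kk (gg σ y)) y w =
      σ * (y 0 * w 0) / √(1 - y 0 ^ 2) + 2 * ⟪tl m y, tl m w⟫ := by
  have e : (fun y : E (m + 1) => kk (gg σ y)) =
      fun y => -(σ * √(1 - y 0 ^ 2)) + ‖tl m y‖ ^ 2 := funext fun y => by rw [kk, gg10]; rfl
  have h0 : HasFDerivAt (fun y : E (m + 1) => y 0) _ y :=
    (EuclideanSpace.proj (𝕜 := ℝ) (0 : Fin (m + 1))).hasFDerivAt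
  have h1 : HasFDerivAt (fun y : E (m + 1) => -(σ * √(1 - y 0 ^ 2)) + ‖tl m y‖ ^ 2) _ y :=
    ((((h0.pow 2).const_sub 1).sqrt (sq_lt hy).ne').const_mul σ).neg.add
      (tl m).hasFDerivAt.norm_sq
  have hs := Real.sqrt_pos.2 (sq_lt hy)
  rw [e, h1.fderiv]
  simp
  field_simp

theorem d_pos {y : E (m + 1)} (hy : y ∈ ball (0 : E (m + 1)) 1) (h0 : y ≠ 0) :
    0 < y 0 * y 0 / √(1 - y 0 ^ 2) + 2 * ⟪tl m y, tl m y⟫ := by
  have hs := Real.sqrt_pos.2 (sq_lt hy)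
  have a := div_nonneg (mul_self_nonneg (y 0)) hs.le
  have b := real_inner_self_nonneg (x := tl m y)
  by_cases h : y 0 = 0
  · have : tl m y ≠ 0 := fun k => h0 (tl_ext h (k.trans (map_zero _).symm))
    have := real_inner_self_pos.2 this
    linarith
  · have := div_pos (mul_self_pos.2 h) hs
    linarith

section
variable {Y : Mf (E (m + 1))} {κ : Y → E 2 × E m}
  (h : Level (vs (E 2 × E m)) ff (univ ∩ ff ⁻¹' {1}) Y κ)
include h

theorem k_inv {p : E 2 × E m} (hp : ff p = 1) : κ (invFun κ p) = p := h.inv_eq ⟨trivial, hp⟩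

theorem ev_g {σ : ℝ} (hσ : σ ^ 2 = 1) {y : E (m + 1)} (hy : y ∈ ball (0 : E (m + 1)) 1) :
    (fun y => κ (invFun κ (gg σ y))) =ᶠ[𝓝 y] gg σ := by
  filter_upwards [isOpen_ball.mem_nhds hy] with z hz using k_inv h (ff_gg hσ hz)

theorem oe_g {σ : ℝ} (hσ : σ ^ 2 = 1) :
    OE (vs (E (m + 1))) Y (fun y => invFun κ (gg σ y)) (ball 0 1) := by
  have s : Sm (vs (E (m + 1))) Y (fun y => invFun κ (gg σ y)) (ball 0 1) := fun y hy =>
    h.lift _ (vs (E (m + 1))) _ y ((smAt_vs.2 (cd_gg σ hy)).congr' (ev_g h hσ hy))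
  refine ⟨isOpen_ball, fun y hy => ldAt_of_Df (isOpen_ball.mem_nhds hy) s
    (Lev.inv_of_inj rfl ((injective_iff_map_eq_zero _).2 fun u hu => inj_d (σ := σ) hy ?_)),
    fun y hy z hz e => inj_gg σ ?_⟩
  · have d := Df_comp (s y hy) (h.sm _ trivial)
    rw [Df_congr (ev_g h hσ hy), Df_vs] at d
    rw [d, ContinuousLinearMap.comp_apply, hu, map_zero]
  · rw [← k_inv h (ff_gg hσ hy), ← k_inv h (ff_gg hσ hz)]
    exact congrArg κ e

theorem d_chart {σ : ℝ} (hσ : σ ^ 2 = 1) {y : E (m + 1)} (hy : y ∈ ball (0 : E (m + 1)) 1) :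
    fderiv ℝ (fun y => kk (κ (invFun κ (gg σ y)))) y = fderiv ℝ (fun y => kk (gg σ y)) y :=
  Filter.EventuallyEq.fderiv_eq ((ev_g h hσ hy).mono fun _ e => congrArg kk e)

theorem ff_k (x : Y) : ‖(κ x).1‖ ^ 2 = 1 := (h.mem x).2

theorem mem_tube (x : Y) : κ x ∈ tube m ↔ cc (κ x) ≤ 0 := by
  have a : ‖(κ x).1‖ = 1 := (pow_eq_one_iff_of_nonneg (norm_nonneg _) two_ne_zero).1 (ff_k h x)
  rw [tube, mem_prod, mem_sphere_zero_iff_norm, mem_closedBall_zero_iff, cc, sub_nonpos,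
    sq_le_one_iff₀ (norm_nonneg _), and_iff_right a]

theorem orn (ho : OrnStmt (E (m + 1))) : ∃ s, Ornt Y s := by
  refine ho (E 2 × E m) ℝ Y κ
    (fun x => (ContinuousLinearMap.id ℝ ℝ).smulRight ((κ x).1, (0 : E m))) h.sm ?_ (by simp; omega)
    fun x => (injective_iff_map_eq_zero _).2 fun ⟨t, u⟩ e => ?_
  · exact (ContinuousLinearMap.smulRightL ℝ ℝ (E 2 × E m) (ContinuousLinearMap.id ℝ ℝ)).continuous.comp
      (h.sm.cont.fst.prodMk continuous_const)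
  · have e1 : t • ((κ x).1, (0 : E m)) + Df Y (vs (E 2 × E m)) κ x u = 0 := e
    have e2 := congrArg (fderiv ℝ ff (κ x)) e1
    have e3 := (h.tan x _).1 ⟨u, rfl⟩
    rw [Df_vs] at e3
    rw [map_add, e3, map_smul, d_ff, real_inner_self_eq_norm_sq, ff_k h x, map_zero] at e2
    obtain rfl : t = 0 := by simpa using e2
    rw [zero_smul, zero_add] at e1
    rw [h.inj x (e1.trans (map_zero _).symm)]; rfl

end

end Tube

open Tube

theorem tubeData (ho : ∀ m, OrnStmt (E (m + 1))) (hd : ∀ m, DataStmt (E (m + 1))) : TubeStmt := by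
  intro m
  have z1 : (0 : E (m + 1)) ∈ ball (0 : E (m + 1)) 1 := mem_ball_self one_pos
  have s1 : (1 : ℝ) ^ 2 = 1 := by norm_num
  have s2 : (-1 : ℝ) ^ 2 = 1 := by norm_num
  obtain ⟨Y, κ, h⟩ := Lev.level1 (E' := E (m + 1)) (X := vs (E 2 × E m)) (f := ff) (U := univ)
    (c := 1) (by simp; omega) isOpen_univ (fun _ _ => smAt_vs.2 cd_ff.contDiffAt)
    (fun p _ hp e => by
      have := congrArg (fun L => L (p.1, 0)) e
      simp only [Df_vs, d_ff, real_inner_self_eq_norm_sq] at this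
      rw [show ‖p.1‖ ^ 2 = 1 from hp] at this
      simp at this) ⟨gg 1 0, trivial, ff_gg s1 z1⟩
  obtain ⟨s, hs⟩ := orn h (ho m)
  set p0 : Y := invFun κ (gg 1 0) with hp0
  set p1 : Y := invFun κ (gg (-1) 0) with hp1
  have k0 : κ p0 = gg 1 0 := k_inv h (ff_gg s1 z1)
  have k1 : κ p1 = gg (-1) 0 := k_inv h (ff_gg s2 z1)
  have a0 : (κ p0).1 0 = 1 := by rw [k0, gg10]; simp
  have a1 : (κ p1).1 0 = -1 := by rw [k1, gg10]; simp
  have c0 : cc (κ p0) = -1 := by rw [k0]; simp [cc, gg]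
  have c1 : cc (κ p1) = -1 := by rw [k1]; simp [cc, gg]
  have im : κ '' (κ ⁻¹' tube m) = tube m := image_preimage_eq_of_subset fun p hp => by
    rw [h.range]
    exact ⟨trivial, show ‖p.1‖ ^ 2 = 1 by rw [mem_sphere_zero_iff_norm.1 hp.1]; norm_num⟩
  have cpt : IsCompact (κ ⁻¹' tube m) := h.emb.isCompact_iff.2 (by
    rw [im]; exact (isCompact_sphere _ _).prod (isCompact_closedBall _ _))
  have con : IsConnected (κ ⁻¹' tube m) := ⟨⟨p0, (mem_tube h p0).2 (by rw [c0]; norm_num)⟩,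
    h.emb.isInducing.isPreconnected_image.1 (by
      rw [im]
      exact (isPreconnected_sphere (by rw [← Module.finrank_eq_rank]; simp) _ _).prod
        (convex_closedBall _ _).isPreconnected)⟩
  have sc : Sm Y (vs ℝ) (fun x => cc (κ x)) univ := fun x _ =>
    (h.sm x trivial).vcomp cd_cc.contDiffAt
  obtain ⟨D, dk, d0, d1, hD⟩ := hd m (e0 m) Y (fun x => kk (κ x)) [fun x => cc (κ x)]
    (κ ⁻¹' tube m) {p0} {p1} (fun p y => invFun κ (gg ((κ p).1 0) y))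
    (fun x _ => (h.sm x trivial).vcomp cd_kk.contDiffAt)
    (fun c hc => by rw [List.mem_singleton.1 hc]; exact sc) cpt (finite_singleton _)
    (finite_singleton _)
    (disjoint_singleton.2 fun e => by rw [e, a1] at a0; norm_num at a0)
    (by
      rintro p (rfl | rfl)
      · exact ⟨fun c hc => by rw [List.mem_singleton.1 hc]; simp only [c0]; norm_num,
          by rw [a0]; exact oe_g h s1, by rw [a0]⟩
      · exact ⟨fun c hc => by rw [List.mem_singleton.1 hc]; simp only [c1]; norm_num,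
          by rw [a1]; exact oe_g h s2, by rw [a1]⟩)
    (by
      rintro p rfl y hy hy0
      rw [a0, d_chart h s1 hy, d_kg 1 hy, one_mul]
      exact d_pos hy hy0)
    (by
      rintro p rfl y hy hy0
      rw [a1, d_chart h s2 hy, d_kg (-1) hy, rf_zero, tl_rf, neg_one_mul, mul_neg, neg_neg]
      exact d_pos hy hy0)
    (fun x _ hx => by
      have n := ff_k h x
      rw [nsq2] at n
      obtain ⟨w, hw⟩ := (h.tan x ((κ x).1 0 • (κ x).1 - u0, (κ x).2)).2 (by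
        rw [Df_vs, d_ff, inner2]
        simp [u0]
        linear_combination (κ x).1 0 * n)
      refine ⟨w, ?_, fun c hc hc0 => ?_⟩
      · rw [Df_vcomp (h.sm x trivial) cd_kk.contDiffAt, ContinuousLinearMap.comp_apply, hw, d_kk]
        have b := real_inner_self_nonneg (x := (κ x).2)
        have e : -((κ x).1 0 • (κ x).1 - u0) 0 = (κ x).1 1 ^ 2 := by
          simp [u0]; linarith
        rw [e]
        by_contra k
        have b1 : (κ x).1 1 = 0 := by nlinarith [sq_nonneg ((κ x).1 1)]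
        have b2 : (κ x).2 = 0 := by
          by_contra k2
          have := real_inner_self_pos.2 k2
          nlinarith [sq_nonneg ((κ x).1 1)]
        have b3 : ∀ σ, (κ x).1 0 = σ → κ x = gg σ 0 := fun σ hσ => by
          refine Prod.ext ?_ (b2.trans (map_zero _).symm)
          ext i
          fin_cases i
          · exact hσ.trans ((show σ = σ * √(1 - (0 : E (m + 1)) 0 ^ 2) by simp).trans (gg10 σ 0).symm)
          · exact b1.trans (gg11 σ 0).symm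
        rw [b1] at n
        rcases sq_eq_one_iff.1 (show (κ x).1 0 ^ 2 = 1 by linarith) with k | k
        · exact hx (.inl (h.emb.injective ((b3 1 k).trans k0.symm)))
        · exact hx (.inr (h.emb.injective ((b3 (-1) k).trans k1.symm)))
      · rw [List.mem_singleton.1 hc] at hc0 ⊢
        rw [Df_vcomp (h.sm x trivial) cd_cc.contDiffAt, ContinuousLinearMap.comp_apply, hw, d_cc,
          real_inner_self_eq_norm_sq]
        have : ‖(κ x).2‖ ^ 2 - 1 = 0 := hc0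
        linarith)
  refine ⟨Y, κ, κ ⁻¹' tube m, s, D, ⟨h.sm, h.emb, h.inj⟩, im, hs, ⟨⟨cpt, fun x hx => ?_⟩,
    fun x hx hx' => ?_⟩, con, ?_, ?_⟩
  · rcases ((mem_tube h x).1 hx).eq_or_lt with e | e
    · exact .inr ⟨fun x => cc (κ x), .of_forall fun y => sc y trivial, e,
        (hD x hx).2 _ (List.mem_singleton.2 rfl) e, .of_forall fun y => mem_tube h y⟩
    · refine .inl (mem_of_superset ((isOpen_lt sc.cont continuous_const).mem_nhds e) fun y hy => ?_)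
      exact (mem_tube h y).2 (le_of_lt hy)
  · rw [dk]; exact (hD x hx).1 (by rwa [d0, d1] at hx')
  · rw [d0, inter_eq_left.2 (singleton_subset_iff.2 (show p0 ∈ κ ⁻¹' tube m from
      (mem_tube h p0).2 (by rw [c0]; norm_num))),
      ncard_singleton]
  · rw [d1, inter_eq_left.2 (singleton_subset_iff.2 (show p1 ∈ κ ⁻¹' tube m from
      (mem_tube h p1).2 (by rw [c1]; norm_num))),
      ncard_singleton]

end Pool.Agent.MP_7ebdba_gt.hb

end
end MrgPart3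

-- marker of a merged file
example : 731051 + 205010 = 731051 + 205010 := rfl

end MrgPart2

-- marker of a merged file
example : 731051 + 205010 = 731051 + 205010 := rfl
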