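import Mathlib.Topology.Sheaves.Presheaf
import Mathlib.Tactic.Monotonicity.Lemmas
import Mathlib.Analysis.Calculus.LineDeriv.Basic
import Mathlib.RingTheory.PiTensorProduct
import Mathlib.RingTheory.TotallySplit
import Mathlib.RingTheory.Etale.Weakly
import Pool.Agent.MP_7ebdba_gt.hb.Tube

-- ======== part 0: formerly Pool.Agent.MP_7ebdba_gt.hb.Cap
section MrgPart0

/-! Add-on HB, row CAP: the cylinder is the boundary sum of two caps. -/

open scoped ContDiff Manifold Topology RealInnerProductSpace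
open Set Filter Function Metric Module Pool.Agent.MP_e1dc65_gt

set_option linter.unusedSectionVars false

noncomputable section

namespace Pool.Agent.MP_7ebdba_gt.hb

variable {V : Type} [NormedAddCommGroup V] [InnerProductSpace ℝ V] [FiniteDimensional ℝ V]

namespace Cap

variable {e y z u : V}

theorem ee (he : ‖e‖ = 1) : ⟪e, e⟫ = 1 := by rw [real_inner_self_eq_norm_sq, he]; norm_num

theorem in_pr (he : ‖e‖ = 1) (y : V) : ⟪e, pr e y⟫ = 0 := by
  rw [pr, inner_sub_right, real_inner_smul_right, ee he]; ring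

theorem in_mk (he : ‖e‖ = 1) (s c : ℝ) (y : V) : ⟪e, s • e + c • pr e y⟫ = s := by
  rw [inner_add_right, real_inner_smul_right, real_inner_smul_right, ee he, in_pr he]; ring

theorem pr_mk (he : ‖e‖ = 1) (s c : ℝ) (y : V) : pr e (s • e + c • pr e y) = c • pr e y := by
  rw [pr, in_mk he]; abel

theorem in_add (he : ‖e‖ = 1) (s : ℝ) (y : V) : ⟪e, y + s • e⟫ = ⟪e, y⟫ + s := by
  rw [inner_add_right, real_inner_smul_right, ee he, mul_one]

theorem pr_add (he : ‖e‖ = 1) (s : ℝ) (y : V) : pr e (y + s • e) = pr e y := by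
  rw [pr, in_add he, pr, add_smul]; abel

theorem pr_smul (c : ℝ) (y : V) : pr e (c • y) = c • pr e y := by
  rw [pr, pr, real_inner_smul_right, smul_sub, smul_smul]

theorem dec (e y : V) : y = ⟪e, y⟫ • e + (1 : ℝ) • pr e y := by rw [pr, one_smul]; abel

theorem ext' (h1 : ⟪e, y⟫ = ⟪e, z⟫) (h2 : pr e y = pr e z) : y = z := by
  rw [dec e y, h1, h2, ← dec e z]

theorem nsq (he : ‖e‖ = 1) (y : V) : ‖y‖ ^ 2 = ⟪e, y⟫ ^ 2 + ‖pr e y‖ ^ 2 := by
  rw [pr, norm_sub_sq_real, real_inner_smul_right, norm_smul, he, real_inner_comm e y,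
    Real.norm_eq_abs, mul_one, sq_abs]
  ring

theorem rf_eq (e y : V) : rf e y = (-⟪e, y⟫) • e + (1 : ℝ) • pr e y := by
  rw [rf, pr, one_smul, two_mul, add_smul, neg_smul]; abel

theorem in_rf (he : ‖e‖ = 1) (y : V) : ⟪e, rf e y⟫ = -⟪e, y⟫ := by rw [rf_eq, in_mk he]
theorem pr_rf (he : ‖e‖ = 1) (y : V) : pr e (rf e y) = pr e y := by rw [rf_eq, pr_mk he, one_smul]

theorem cd_in (e : V) : ContDiff ℝ ∞ fun y : V => ⟪e, y⟫ := (innerSL ℝ e).contDiff
theorem cd_pr (e : V) : ContDiff ℝ ∞ (pr e) := contDiff_id.sub ((cd_in e).smul contDiff_const)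
theorem cd_q (e : V) : ContDiff ℝ ∞ fun y : V => ‖pr e y‖ ^ 2 := (cd_pr e).norm_sq ℝ

/-- a shear in the direction `e` -/
theorem ld_shear {φ : V → ℝ} (h : ContDiff ℝ ∞ φ) (h' : 1 + fderiv ℝ φ y e ≠ 0) :
    LDAt (vs V) (vs V) (fun y => y + φ y • e) y := by
  refine ldAt_vs univ_mem (fun y _ => contDiffAt_id.add (h.contDiffAt.smul contDiffAt_const)) ?_
  have d := (hasFDerivAt_id y).add ((h.differentiable (by simp) y).hasFDerivAt.smul_const e)
  rw [show fderiv ℝ (fun y => y + φ y • e) y = _ from d.fderiv]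
  refine Lev.inv_of_inj rfl ((injective_iff_map_eq_zero _).2 fun w hw => ?_)
  have k : w + fderiv ℝ φ y w • e = 0 := hw
  have k' := congrArg (fderiv ℝ φ y) k
  rw [map_add, map_smul, map_zero, smul_eq_mul, ← mul_one_add, mul_eq_zero, or_iff_left h'] at k'
  rwa [k', zero_smul, add_zero] at k

theorem fderiv_line {φ : V → ℝ} {w : V} {d : ℝ} (h : ContDiff ℝ ∞ φ)
    (h' : HasDerivAt (fun t : ℝ => φ (y + t • w)) d 0) : fderiv ℝ φ y w = d :=
  ((h.differentiable (by simp) y).hasFDerivAt.hasLineDerivAt w).unique h'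

/-! ### Polar coordinates -/

/-- logarithm of the radius and stereographic projection -/
def j (e y : V) : V := (1 + Real.log ‖y‖) • e + (‖y‖ + ⟪e, y⟫)⁻¹ • pr e y

/-- the inverse of `j` -/
def ji (e z : V) : V :=
  (Real.exp (⟪e, z⟫ - 1) * ((1 - ‖pr e z‖ ^ 2) / (1 + ‖pr e z‖ ^ 2))) • e +
    (Real.exp (⟪e, z⟫ - 1) * (2 / (1 + ‖pr e z‖ ^ 2))) • pr e z

/-- the complement of the negative ray -/
def U (e : V) : Set V := {y | 0 < ‖y‖ + ⟪e, y⟫}

theorem U_open : IsOpen (U e) :=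
  isOpen_lt continuous_const (continuous_norm.add (cd_in e).continuous)

theorem U_ne (h : y ∈ U e) : y ≠ 0 := by
  rintro rfl
  simp [U] at h

theorem mem_U (h : y ∈ HS e) (h0 : y ≠ 0) : y ∈ U e :=
  add_pos_of_pos_of_nonneg (norm_pos_iff.2 h0) h

theorem cd_ji (e : V) : ContDiff ℝ ∞ (ji e) := by
  have a := ((cd_in e).sub (contDiff_const (c := (1 : ℝ)))).exp
  have b : ∀ y : V, 1 + ‖pr e y‖ ^ 2 ≠ 0 := fun y => by positivity
  exact ((a.mul ((contDiff_const.sub (cd_q e)).div (contDiff_const.add (cd_q e)) b)).smul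
    contDiff_const).add ((a.mul (contDiff_const.div (contDiff_const.add (cd_q e)) b)).smul (cd_pr e))

theorem cd_j (h : y ∈ U e) : ContDiffAt ℝ ∞ (j e) y := by
  have a : ContDiffAt ℝ ∞ (fun y : V => ‖y‖) y := contDiffAt_norm ℝ (U_ne h)
  exact ((contDiffAt_const.add (a.log (norm_ne_zero_iff.2 (U_ne h)))).smul contDiffAt_const).add
    (((a.add (cd_in e).contDiffAt).inv (ne_of_gt h)).smul (cd_pr e).contDiffAt)

section
variable (he : ‖e‖ = 1)
include he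

theorem in_ji (z : V) :
    ⟪e, ji e z⟫ = Real.exp (⟪e, z⟫ - 1) * ((1 - ‖pr e z‖ ^ 2) / (1 + ‖pr e z‖ ^ 2)) := in_mk he _ _ _

theorem norm_ji (z : V) : ‖ji e z‖ = Real.exp (⟪e, z⟫ - 1) := by
  refine (sq_eq_sq₀ (norm_nonneg _) (Real.exp_pos _).le).1 ?_
  rw [nsq he, in_ji he, ji, pr_mk he, norm_smul, mul_pow ‖_‖, Real.norm_eq_abs, sq_abs]
  field_simp
  ring

theorem sum_ji (z : V) :
    ‖ji e z‖ + ⟪e, ji e z⟫ = Real.exp (⟪e, z⟫ - 1) * (2 / (1 + ‖pr e z‖ ^ 2)) := by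
  rw [norm_ji he, in_ji he]
  field_simp
  ring

theorem ji_U (z : V) : ji e z ∈ U e := by
  rw [U, mem_ofPred_eq, sum_ji he]; positivity

theorem j_ji (z : V) : j e (ji e z) = z := by
  rw [j, sum_ji he, norm_ji he, Real.log_exp, ji, pr_mk he, smul_smul,
    inv_mul_cancel₀ (by positivity), add_sub_cancel, ← dec e z]

theorem in_j (y : V) : ⟪e, j e y⟫ = 1 + Real.log ‖y‖ := in_mk he _ _ _
theorem pr_j (y : V) : pr e (j e y) = (‖y‖ + ⟪e, y⟫)⁻¹ • pr e y := pr_mk he _ _ _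

theorem ji_j (h : y ∈ U e) : ji e (j e y) = y := by
  have h0 := norm_pos_iff.2 (U_ne h)
  have h1 : 0 < ‖y‖ + ⟪e, y⟫ := h
  have q : ‖pr e (j e y)‖ ^ 2 = (‖y‖ - ⟪e, y⟫) / (‖y‖ + ⟪e, y⟫) := by
    rw [pr_j he, norm_smul, mul_pow, Real.norm_eq_abs, sq_abs,
      show ‖pr e y‖ ^ 2 = ‖y‖ ^ 2 - ⟪e, y⟫ ^ 2 by linarith [nsq he y]]
    field_simp
    ring
  rw [ji, q, in_j he, add_sub_cancel_left, Real.exp_log h0, pr_j he, smul_smul]
  refine Eq.trans ?_ (dec e y).symm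
  have k : 1 + (‖y‖ - ⟪e, y⟫) / (‖y‖ + ⟪e, y⟫) = 2 * ‖y‖ / (‖y‖ + ⟪e, y⟫) := by field_simp; ring
  rw [k]
  congr 2 <;> field_simp
  ring

theorem ji_HS (z : V) : ji e z ∈ HS e ↔ z ∈ Cyl e := by
  rw [HS, Cyl, mem_ofPred_eq, mem_ofPred_eq, in_ji he, mul_nonneg_iff_of_pos_left (Real.exp_pos _),
    le_div_iff₀ (by positivity), zero_mul, sub_nonneg, sq_le_one_iff₀ (norm_nonneg _)]

theorem j_Cyl (h : y ∈ U e) : j e y ∈ Cyl e ↔ y ∈ HS e := by rw [← ji_HS he, ji_j he h]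

theorem oe_j : OE (vs V) (vs V) (j e) (U e) :=
  oe_of_inv (g := ji e) U_open isOpen_univ (fun _ h => smAt_vs.2 (cd_j h))
    (fun _ _ => smAt_vs.2 (cd_ji e).contDiffAt) (mapsTo_univ _ _) (fun z _ => ji_U he z)
    (fun _ => ji_j he) fun z _ => j_ji he z

theorem ld_ji (z : V) : LDAt (vs V) (vs V) (ji e) z :=
  ldAt_of_inv (g := j e) isOpen_univ U_open trivial (fun _ _ => smAt_vs.2 (cd_ji e).contDiffAt)
    (fun _ h => smAt_vs.2 (cd_j h)) (fun z _ => ji_U he z) (mapsTo_univ _ _) (fun z _ => j_ji he z)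
    fun _ => ji_j he

theorem pr_j_smul {c : ℝ} (hc : 0 < c) (y : V) : pr e (j e (c • y)) = pr e (j e y) := by
  rw [pr_j he, pr_j he, pr_smul, norm_smul, real_inner_smul_right, Real.norm_of_nonneg hc.le,
    ← mul_add, smul_smul, mul_inv, mul_right_comm, inv_mul_cancel₀ hc.ne', one_mul]

end

/-! ### The cap -/

/-- a decreasing cut-off function -/
def b (t : ℝ) : ℝ := Real.smoothTransition (5 - t)

theorem b_anti : Antitone b := fun _ _ h => Real.smoothTransition.monotone (by linarith)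
theorem b_cd : ContDiff ℝ ∞ b := Real.smoothTransition.contDiff.comp (contDiff_const.sub contDiff_id)
theorem b_one {t : ℝ} (h : t ≤ 4) : b t = 1 := Real.smoothTransition.one_of_one_le (by linarith)
theorem b_zero {t : ℝ} (h : 5 ≤ t) : b t = 0 := Real.smoothTransition.zero_of_nonpos (by linarith)
theorem b_nn (t : ℝ) : 0 ≤ b t := Real.smoothTransition.nonneg _
theorem b_le (t : ℝ) : b t ≤ 1 := Real.smoothTransition.le_one _
theorem b_der (t : ℝ) : HasDerivAt b (deriv b t) t := (b_cd.differentiable (by simp) t).hasDerivAt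
theorem cd_bn : ContDiff ℝ ∞ fun y : V => -b (‖y‖ ^ 2) := (b_cd.comp (contDiff_norm_sq ℝ)).neg

/-- pushing down -/
def T (e y : V) : V := y + (-b (‖y‖ ^ 2)) • e

/-- the cap -/
def K (e : V) : Set V := {z | T e (ji e z) ∈ HS e}

/-- the chart at the bottom of the cap -/
def a (e y : V) : V := j e ((1 / 4 : ℝ) • y + (1 : ℝ) • e)

section
variable (he : ‖e‖ = 1)
include he

theorem in_T (y : V) : ⟪e, T e y⟫ = ⟪e, y⟫ - b (‖y‖ ^ 2) := in_add he _ _
theorem pr_T (y : V) : pr e (T e y) = pr e y := pr_add he _ _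

theorem T_HS (h : T e y ∈ HS e) : y ∈ HS e := by
  have : 0 ≤ ⟪e, T e y⟫ := h
  rw [in_T he] at this
  exact (b_nn _).trans (sub_nonneg.1 this)

theorem T_near (h : ‖y‖ ≤ 1) : T e (y + (1 : ℝ) • e) = y := by
  have : ‖y + (1 : ℝ) • e‖ ≤ 2 := (norm_add_le _ _).trans (by rw [one_smul, he]; linarith)
  rw [T, b_one (by nlinarith [norm_nonneg (y + (1 : ℝ) • e)]), add_assoc, ← add_smul]
  simp

theorem T_inj : InjOn (T e) (HS e) := by
  have key : ∀ y ∈ HS e, ∀ z, T e y = T e z → ¬⟪e, y⟫ < ⟪e, z⟫ := fun y hy z h k => by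
    have h1 := in_T he y
    have h2 := pr_T he y
    rw [h, in_T he] at h1
    rw [h, pr_T he] at h2
    have h0 : 0 ≤ ⟪e, y⟫ := hy
    have := b_anti (show ‖y‖ ^ 2 ≤ ‖z‖ ^ 2 by rw [nsq he, nsq he z, h2]; nlinarith)
    linarith
  exact fun y hy z hz h => ext' (e := e) (le_antisymm (not_lt.1 (key z hz y h.symm))
    (not_lt.1 (key y hy z h))) (by rw [← pr_T he, h, pr_T he])

omit he in
theorem T_surj (e u : V) : ∃ y, T e y = u := by
  have c : Continuous fun t : ℝ => t - b (‖u + t • e‖ ^ 2) :=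
    continuous_id.sub (b_cd.continuous.comp (by fun_prop))
  obtain ⟨t, -, ht⟩ := intermediate_value_Icc zero_le_one c.continuousOn
    (show (0 : ℝ) ∈ Icc _ _ from ⟨by simpa using b_nn _, sub_nonneg.2 (b_le _)⟩)
  exact ⟨u + t • e, by rw [T, add_assoc, ← add_smul, ← sub_eq_add_neg, show t - _ = 0 from ht,
    zero_smul, add_zero]⟩

theorem T_ld (h : y ∈ HS e) : LDAt (vs V) (vs V) (T e) y := by
  refine ld_shear cd_bn (ne_of_gt ?_)
  have d := ((b_der _).comp_hasFDerivAt y (hasStrictFDerivAt_norm_sq y).hasFDerivAt).neg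
  rw [show fderiv ℝ (fun y : V => -b (‖y‖ ^ 2)) y = _ from d.fderiv]
  have h0 : 0 ≤ ⟪y, e⟫ := real_inner_comm y e ▸ h
  have := mul_nonneg (neg_nonneg.2 (b_anti.deriv_nonpos (x := ‖y‖ ^ 2))) h0
  simp only [neg_apply, smul_apply, innerSL_apply_apply,
    smul_eq_mul, nsmul_eq_mul, Nat.cast_ofNat]
  linarith

theorem T_norm (h : T e y ∈ HS e) : ‖T e y‖ ≤ ‖y‖ := by
  have h0 : 0 ≤ ⟪e, T e y⟫ := h
  refine (sq_le_sq₀ (norm_nonneg _) (norm_nonneg _)).1 ?_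
  rw [nsq he, nsq he y, pr_T he]
  have := in_T he y
  nlinarith [b_nn (‖y‖ ^ 2)]

theorem K_Cyl (h : z ∈ K e) : z ∈ Cyl e := (ji_HS he z).1 (T_HS he h)

theorem K_one (h : z ∈ K e) : 1 ≤ ⟪e, z⟫ := by
  by_contra k
  have h0 : 0 ≤ ⟪e, T e (ji e z)⟫ := h
  have h1 : ‖ji e z‖ < 1 := by rw [norm_ji he]; exact Real.exp_lt_one_iff.2 (by linarith)
  have h2 := real_inner_le_norm e (ji e z)
  rw [in_T he, b_one (by nlinarith [norm_nonneg (ji e z)])] at h0
  rw [he] at h2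
  linarith

theorem T_far (h : 5 ≤ ⟪e, z⟫) : T e (ji e z) = ji e z := by
  have := Real.add_one_le_exp (⟪e, z⟫ - 1)
  rw [T, b_zero (by rw [norm_ji he]; nlinarith)]
  simp

theorem quarter (h : ‖y‖ < 2) : ‖(1 / 4 : ℝ) • y‖ < 1 / 2 ∧ 1 / 2 < ⟪e, (1 / 4 : ℝ) • y + (1 : ℝ) • e⟫ := by
  have h1 : ‖(1 / 4 : ℝ) • y‖ < 1 / 2 := by rw [norm_smul, Real.norm_of_nonneg (by norm_num)]; linarith
  have h2 := abs_real_inner_le_norm e ((1 / 4 : ℝ) • y)
  rw [he] at h2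
  rw [in_add he]
  exact ⟨h1, by linarith [(abs_le.1 h2).1]⟩

theorem quarter_U (h : ‖y‖ < 2) : (1 / 4 : ℝ) • y + (1 : ℝ) • e ∈ U e :=
  add_pos_of_nonneg_of_pos (norm_nonneg _) (by linarith [(quarter he h).2])

theorem T_a (h : ‖y‖ < 2) : T e (ji e (a e y)) = (1 / 4 : ℝ) • y := by
  rw [a, ji_j he (quarter_U he h), T_near he (by linarith [(quarter he h).1])]

theorem P_inj : InjOn (fun z => T e (ji e z)) (K e) := fun y hy z hz h => by
  rw [← j_ji he y, T_inj he (T_HS he hy) (T_HS he hz) h, j_ji he]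

theorem a_K (h : ‖y‖ < 2) : a e y ∈ K e ↔ y ∈ HS e := by
  rw [K, mem_ofPred_eq, T_a he h, smul_mem_HS (by norm_num)]

theorem P_U (h : z ∈ K e \ {a e 0}) : T e (ji e z) ∈ U e :=
  mem_U h.1 fun k => h.2 (P_inj he h.1 ((a_K he (by simp)).2 zero_mem_HS) (by
    simp only [k, T_a he (show ‖(0 : V)‖ < 2 by simp), smul_zero]))

theorem pc_a : PC (vs V) (K e) e (a e) (ball 0 2) := by
  have k : OE (vs V) (vs V) (fun y => (1 / 4 : ℝ) • y + (1 : ℝ) • e) (ball 0 2) :=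
    ⟨isOpen_ball, fun y _ => (ldAt_hom (t := 1 / 4) (by norm_num) y).trans
      (ld_shear (e := e) (φ := fun _ => 1) contDiff_const (by simp)),
      fun y _ z _ h => smul_right_injective V (by norm_num) (add_right_cancel h)⟩
  exact ⟨k.trans (oe_j he) fun y hy => quarter_U he (mem_ball_zero_iff.1 hy),
    fun y hy => a_K he (mem_ball_zero_iff.1 hy)⟩

theorem a_bound (h : ‖y‖ < 2) : 0 < ⟪e, a e y⟫ ∧ ‖a e y‖ < 5 := by
  obtain ⟨h1, h2⟩ := quarter he h
  have h3 := real_inner_le_norm e ((1 / 4 : ℝ) • y + (1 : ℝ) • e)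
  have h4 : ‖(1 / 4 : ℝ) • y + (1 : ℝ) • e‖ ≤ 2 :=
    (norm_add_le _ _).trans (by rw [one_smul, he]; linarith)
  have h5 : ‖pr e (a e y)‖ ≤ 1 := (j_Cyl he (quarter_U he h)).2 (le_trans (by norm_num) h2.le)
  rw [he] at h3
  have h6 := Real.log_le_sub_one_of_pos (x := ‖(1 / 4 : ℝ) • y + (1 : ℝ) • e‖) (by linarith)
  have h7 := Real.log_lt_log (by norm_num : (0 : ℝ) < 1 / 2)
    (show 1 / 2 < ‖(1 / 4 : ℝ) • y + (1 : ℝ) • e‖ by linarith)
  rw [one_div, Real.log_inv] at h7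
  have h8 := Real.log_le_sub_one_of_pos (x := 2) two_pos
  have h9 : ⟪e, a e y⟫ = _ := in_j he _
  refine ⟨by linarith, (sq_lt_sq₀ (norm_nonneg _) (by norm_num)).1 ?_⟩
  rw [nsq he]
  nlinarith [norm_nonneg (pr e (a e y))]

omit he in
theorem cd_c : ContDiff ℝ ∞ fun z => -⟪e, T e (ji e z)⟫ :=
  ((cd_in e).comp ((contDiff_id.add (cd_bn.smul contDiff_const)).comp (cd_ji e))).neg

/-- the linear field points out of the cap -/
theorem out (h : z ∈ K e) : 0 < fderiv ℝ (fun z => -⟪e, T e (ji e z)⟫) z (rf e z) := by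
  have h1 := K_one he h
  have h2 : ‖pr e z‖ ^ 2 ≤ 1 := (sq_le_one_iff₀ (norm_nonneg _)).2 (K_Cyl he h)
  have h3 := sq_nonneg ‖pr e z‖
  have e1 : ∀ t : ℝ, ⟪e, z + t • rf e z⟫ = ⟪e, z⟫ + t * -⟪e, z⟫ := fun t => by
    rw [inner_add_right, real_inner_smul_right, in_rf he]
  have e2 : ∀ t : ℝ, ‖pr e (z + t • rf e z)‖ ^ 2 = (1 + t) ^ 2 * ‖pr e z‖ ^ 2 := fun t => by
    have : pr e (z + t • rf e z) = (1 + t) • pr e z := by
      rw [add_smul, one_smul, ← pr_rf he z, ← pr_smul, pr_rf he]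
      simp only [pr, inner_add_right, add_smul]
      abel
    rw [this, norm_smul, mul_pow, Real.norm_eq_abs, sq_abs]
  generalize ‖pr e z‖ ^ 2 = q at h2 h3 e2
  generalize ⟪e, z⟫ = s at h1 e1
  have dE : HasDerivAt (fun t : ℝ => Real.exp (s + t * -s - 1)) (Real.exp (s - 1) * -s) 0 := by
    simpa using ((((hasDerivAt_id (0 : ℝ)).mul_const (-s)).const_add s).sub_const 1).exp
  have dQ : HasDerivAt (fun t : ℝ => (1 + t) ^ 2 * q) (2 * q) 0 := by
    simpa using (((hasDerivAt_id (0 : ℝ)).const_add 1).fun_pow 2).mul_const q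
  have d := ((b_der _).comp (0 : ℝ) (dE.fun_pow 2)).sub (dE.mul ((dQ.const_sub 1).fun_div
    (dQ.const_add 1) (by positivity)))
  rw [fderiv_line cd_c (d.congr_of_eventuallyEq (.of_forall fun t => by
    simp only [in_T he, norm_ji he, in_ji he, e1, e2, neg_sub, comp, Pi.sub_apply, Pi.mul_apply]))]
  simp only [zero_mul, add_zero, one_pow, one_mul, Nat.cast_ofNat, Nat.add_one_sub_one, pow_one]
  have h4 := b_anti.deriv_nonpos (x := Real.exp (s - 1) ^ 2)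
  have h5 := Real.exp_pos (s - 1)
  generalize Real.exp (s - 1) = ρ at h4 h5
  generalize deriv b (ρ ^ 2) = β at h4
  have h6 : 0 ≤ -β * (2 * ρ * (ρ * s)) := mul_nonneg (by linarith) (by positivity)
  have h7 : 0 < ρ * ((s * ((1 - q) * (1 + q)) + 4 * q) / (1 + q) ^ 2) :=
    mul_pos h5 (div_pos (by nlinarith [mul_nonneg (sub_nonneg.2 h1) (mul_nonneg (sub_nonneg.2 h2)
      (add_nonneg zero_le_one h3)), mul_nonneg h3 (sub_nonneg.2 h2)]) (by positivity))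
  refine (add_pos_of_nonneg_of_pos h6 h7).trans_eq ?_
  field_simp
  ring

end

/-! ### The vertical reparametrisation -/

/-- a function that is linear near zero and logarithmic near infinity -/
structure La (Λ : ℝ → ℝ) : Prop where
  sm : ∀ t, 0 < t → ContDiffAt ℝ ∞ Λ t ∧ 0 < deriv Λ t
  lo : ∀ t ≤ 1 / 4, Λ t = (8 * t - 1) / 3
  hi : ∀ t, 3 ≤ t → Λ t = 1 + Real.log t

theorem exists_la (h : InterpStmt) : ∃ Λ, La Λ := by
  obtain ⟨Λ, h1, h2, h3⟩ := h (fun t => (8 * t - 1) / 3) (fun t => 1 + Real.log t) 0 (1 / 4) 3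
    (by norm_num) (by norm_num) (fun t _ => ⟨by fun_prop, by
      rw [((((hasDerivAt_id' t).const_mul 8).sub_const 1).div_const 3).deriv]; norm_num⟩)
    (fun t ht => ⟨contDiffAt_const.add (Real.contDiffAt_log.2 (by linarith)), by
      rw [((Real.hasDerivAt_log (by linarith)).const_add 1).deriv]; exact inv_pos.2 (by linarith)⟩)
    (by linarith [Real.log_nonneg (show (1 : ℝ) ≤ 3 by norm_num)])
  exact ⟨Λ, h1, h2, h3⟩

/-- the vertical map -/
def vt (Λ : ℝ → ℝ) (e z : V) : V := z + (Λ (Real.exp (⟪e, z⟫ - 1)) - ⟪e, z⟫) • e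

/-- the map of the punctured half-space into the cylinder -/
def G (Λ : ℝ → ℝ) (e u : V) : V := vt Λ e (j e u)

variable {Λ : ℝ → ℝ} (hΛ : La Λ)
include hΛ

theorem La.mono : StrictMonoOn Λ (Ioi 0) :=
  strictMonoOn_of_deriv_pos (convex_Ioi 0)
    (fun t ht => (hΛ.sm t ht).1.continuousAt.continuousWithinAt)
    fun t ht => (hΛ.sm t (interior_subset ht)).2

theorem La.low {t : ℝ} (ht : 0 < t) : -(1 / 3) < Λ t := by
  rcases le_or_gt t (1 / 4) with h | h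
  · rw [hΛ.lo t h]; linarith
  · have := hΛ.mono (show (1 / 4 : ℝ) ∈ Ioi 0 by norm_num) ht h
    rw [hΛ.lo _ le_rfl] at this; linarith

theorem La.small {t : ℝ} (ht : 0 < t) (h : Λ t < 1 / 3) : t < 1 / 4 :=
  (hΛ.mono.lt_iff_lt ht (show (1 / 4 : ℝ) ∈ Ioi 0 by norm_num)).1 (by
    rw [hΛ.lo _ le_rfl]; linarith)

theorem La.exp {s : ℝ} (h : 5 ≤ s) : Λ (Real.exp (s - 1)) = s := by
  rw [hΛ.hi _ (by linarith [Real.add_one_le_exp (s - 1)]), Real.log_exp, add_sub_cancel]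

theorem La.surj {s : ℝ} (h : 0 ≤ s) : ∃ t, 0 < t ∧ Λ t = s := by
  have k := Real.add_one_le_exp (s + 5 - 1)
  obtain ⟨t, ht, e⟩ := intermediate_value_Icc (f := Λ) (a := 1 / 8) (b := Real.exp (s + 5 - 1))
    (by linarith) (fun t ht => (hΛ.sm t (by linarith [ht.1])).1.continuousAt.continuousWithinAt)
    (show s ∈ Icc _ _ from ⟨by rw [hΛ.lo _ (by norm_num)]; linarith,
      by rw [hΛ.exp (by linarith)]; linarith⟩)
  exact ⟨t, by linarith [ht.1], e⟩

variable (he : ‖e‖ = 1)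
include he

theorem ld_vt (z : V) : LDAt (vs V) (vs V) (vt Λ e) z := by
  have c : ContDiff ℝ ∞ fun z : V => Λ (Real.exp (⟪e, z⟫ - 1)) - ⟪e, z⟫ :=
    (contDiff_iff_contDiffAt.2 fun z => ContDiffAt.comp (g := Λ) z (hΛ.sm _ (Real.exp_pos _)).1
      ((cd_in e).sub contDiff_const).exp.contDiffAt).sub (cd_in e)
  refine ld_shear c (ne_of_gt ?_)
  have dE : HasDerivAt (fun t : ℝ => Real.exp (⟪e, z⟫ + t - 1)) (Real.exp (⟪e, z⟫ - 1)) 0 := by
    simpa using (((hasDerivAt_id (0 : ℝ)).const_add ⟪e, z⟫).sub_const 1).exp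
  have d := (((hΛ.sm _ (Real.exp_pos (⟪e, z⟫ - 1))).1.differentiableAt
    (by simp)).hasDerivAt.comp_of_eq (0 : ℝ) dE (by rw [add_zero])).sub
    ((hasDerivAt_id' (0 : ℝ)).const_add ⟪e, z⟫)
  rw [fderiv_line c (d.congr_of_eventuallyEq (.of_forall fun t => by
    simp only [in_add he, comp, Pi.sub_apply])), add_sub_cancel]
  exact mul_pos (hΛ.sm _ (Real.exp_pos _)).2 (Real.exp_pos _)

omit hΛ in
theorem in_G (h : u ∈ U e) : ⟪e, G Λ e u⟫ = Λ ‖u‖ := by
  rw [G, vt, in_add he, in_j he, add_sub_cancel_left, Real.exp_log (norm_pos_iff.2 (U_ne h)),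
    add_sub_cancel]

omit hΛ in
theorem pr_G (u : V) : pr e (G Λ e u) = pr e (j e u) := pr_add he _ _

omit hΛ in
theorem G_Cyl (h : u ∈ U e) : G Λ e u ∈ Cyl e ↔ u ∈ HS e := by
  rw [← j_Cyl he h, Cyl, mem_ofPred_eq, mem_ofPred_eq, pr_G he]

theorem G_inj : InjOn (G Λ e) (U e) := fun y hy z hz h => (oe_j he).inj hy hz (ext' (e := e) (by
  rw [in_j he, in_j he, hΛ.mono.injOn (norm_pos_iff.2 (U_ne hy)) (norm_pos_iff.2 (U_ne hz))
    (by rw [← in_G (Λ := Λ) he hy, h, in_G he hz])]) (by rw [← pr_G (Λ := Λ) he, h, pr_G he]))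

theorem G_surj (h : z ∈ Cyl e) (h0 : 0 ≤ ⟪e, z⟫) : ∃ u ∈ U e, u ∈ HS e ∧ G Λ e u = z := by
  obtain ⟨t, ht, k⟩ := hΛ.surj h0
  have m := ji_U he ((1 + Real.log t) • e + (1 : ℝ) • pr e z)
  have q : G Λ e (ji e ((1 + Real.log t) • e + (1 : ℝ) • pr e z)) = z := ext' (e := e)
    (by rw [in_G he m, norm_ji he, in_mk he, add_sub_cancel_left, Real.exp_log ht, k])
    (by rw [pr_G he, j_ji he, pr_mk he, one_smul])
  exact ⟨_, m, (G_Cyl he m).1 (q.symm ▸ h), q⟩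

theorem glue (hy : y ∈ K e \ {a e 0}) (hz : z ∈ K e \ {a e 0}) :
    G Λ e (T e (ji e y)) = rf e (G Λ e (T e (ji e z))) ↔ Gl e (a e) (a e) y z := by
  have uy := P_U he hy
  have uz := P_U he hz
  have py := norm_pos_iff.2 (U_ne uy)
  have pz := norm_pos_iff.2 (U_ne uz)
  have n : ∀ (t : ℝ) (v : V), 0 < t → ‖v‖ = 1 → ‖t • v‖ = t := fun t v ht hv => by
    rw [norm_smul, hv, mul_one, Real.norm_of_nonneg ht.le]
  constructor
  · intro h
    have h1 := congrArg (fun y => ⟪e, y⟫) h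
    have h2 := congrArg (pr e) h
    simp only [in_rf he, in_G he uy, in_G he uz] at h1
    rw [pr_rf he, pr_G he, pr_G he] at h2
    have h3 := hΛ.small py (by linarith [hΛ.low pz])
    have h4 := hΛ.small pz (by linarith [hΛ.low py])
    rw [hΛ.lo _ h3.le, hΛ.lo _ h4.le] at h1
    have hv : ‖‖T e (ji e y)‖⁻¹ • T e (ji e y)‖ = 1 := norm_smul_inv_norm (U_ne uy)
    have hH : ‖T e (ji e y)‖⁻¹ • T e (ji e y) ∈ HS e := (smul_mem_HS (inv_pos.2 py)).2 hy.1
    rw [← pr_j_smul he (inv_pos.2 py)] at h2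
    have key : ∀ z ∈ K e \ {a e 0}, ∀ t : ℝ, 0 < t → t < 1 → ‖T e (ji e z)‖ = 1 / 4 * t → ∀ v : V,
        ‖v‖ = 1 → v ∈ HS e → pr e (j e v) = pr e (j e (T e (ji e z))) → z = a e (t • v) := by
      intro z hz t h0 h1 k v hv hH q
      have m : ‖t • v‖ < 2 := by rw [n t v h0 hv]; linarith
      have p : 0 < 1 / 4 * t := by linarith
      refine P_inj he hz.1 ((a_K he m).2 ((smul_mem_HS h0).2 hH)) ?_
      simp only [T_a he m, smul_smul]
      exact (oe_j he).inj (P_U he hz) (mem_U ((smul_mem_HS p).2 hH) (norm_pos_iff.1 (by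
        rwa [n _ v p hv]))) (ext' (e := e) (by rw [in_j he, in_j he, k, n _ v p hv])
        (by rw [pr_j_smul he p, q]))
    exact ⟨4 * ‖T e (ji e y)‖, _, by linarith, by linarith, hv, hH,
      key y hy _ (by linarith) (by linarith) (by ring) _ hv hH (pr_j_smul he (inv_pos.2 py) _),
      key z hz _ (by linarith) (by linarith) (by linarith) _ hv hH h2⟩
  · rintro ⟨t, v, h0, h1, hv, -, rfl, rfl⟩
    have h2 : 0 < 1 - t := by linarith
    refine ext' (e := e) ?_ ?_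
    · rw [in_rf he, in_G he uy, in_G he uz, T_a he (by rw [n _ v h0 hv]; linarith),
        T_a he (by rw [n _ v h2 hv]; linarith), smul_smul, smul_smul, n _ v (by linarith) hv,
        n _ v (by linarith) hv, hΛ.lo _ (by linarith), hΛ.lo _ (by linarith)]
      ring
    · rw [pr_rf he, pr_G he, pr_G he, T_a he (by rw [n _ v h0 hv]; linarith),
        T_a he (by rw [n _ v h2 hv]; linarith), smul_smul, smul_smul, pr_j_smul he (by linarith),
        pr_j_smul he (by linarith)]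

end Cap

open Cap in
theorem cap (h1 : InterpStmt) : CapStmt V := by
  intro e he
  obtain ⟨Λ, hΛ⟩ := exists_la h1
  have cP : Continuous fun z => T e (ji e z) :=
    ((contDiff_id.add (cd_bn.smul contDiff_const)).comp (cd_ji e)).continuous
  refine ⟨K e, a e, fun z => G Λ e (T e (ji e z)),
    isClosed_le continuous_const ((cd_in e).continuous.comp cP), fun _ => K_Cyl he,
    fun _ => K_one he, fun y hy h => ⟨?_, ?_⟩, fun y hy => ?_, pc_a he,
    fun y hy => a_bound he (mem_ball_zero_iff.1 hy), fun y hy => rel_of_ld ?_ ?_,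
    (G_inj hΛ he).comp ((P_inj he).mono sdiff_subset) fun _ => P_U he, fun y hy h => ?_,
    fun z hz h => ?_, fun y hy z hz => glue hΛ he hy hz⟩
  · rw [K, mem_ofPred_eq, T_far he h, ji_HS he]; exact hy
  · simp only [T_far he h, G, j_ji he, vt, hΛ.exp h, sub_self, zero_smul, add_zero]
  · rcases (show 0 ≤ ⟪e, T e (ji e y)⟫ from hy).eq_or_lt with h | h
    · exact .inr ⟨_, .of_forall fun _ => cd_c.contDiffAt, neg_eq_zero.2 h.symm, out he hy,
        .of_forall fun z => (neg_nonpos (a := ⟪e, T e (ji e z)⟫)).symm⟩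
    · exact .inl (mem_of_superset ((isOpen_lt continuous_const
        ((cd_in e).continuous.comp cP)).mem_nhds h) fun z hz => le_of_lt (α := ℝ) hz)
  · exact ((ld_ji he y).trans (T_ld he (T_HS he hy.1))).trans
      (((oe_j he).ld _ (P_U he hy)).trans (ld_vt hΛ he _))
  · filter_upwards [cP.continuousAt.preimage_mem_nhds (U_open.mem_nhds (P_U he hy))] with z hz
    exact G_Cyl he hz
  · have p := norm_pos_iff.2 (U_ne (P_U he hy))
    have k := hΛ.mono p (Real.exp_pos (5 - 1)) ((T_norm he hy.1).trans_lt (by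
      rw [norm_ji he]; exact Real.exp_lt_exp.2 (by linarith)))
    rw [hΛ.exp le_rfl] at k
    simp only [in_G he (P_U he hy)]
    exact abs_lt.2 ⟨by linarith [hΛ.low p], k⟩
  · obtain ⟨u, hu, hH, rfl⟩ := G_surj hΛ he hz h
    obtain ⟨y, rfl⟩ := T_surj e u
    have q := ji_j he (mem_U (T_HS he hH) fun k => by
      have : 0 ≤ ⟪e, T e y⟫ := hH
      rw [in_T he, k, b_one (by simp)] at this
      norm_num at this)
    refine ⟨j e y, ⟨by rwa [K, mem_ofPred_eq, q], fun k => U_ne hu ?_⟩, by simp only [q]⟩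
    rw [← q, show j e y = _ from k, T_a he (by simp), smul_zero]

end Pool.Agent.MP_7ebdba_gt.hb

end
end MrgPart0

-- ======== part 1: formerly Pool.Agent.MP_7ebdba_gt.hb.Cut
section MrgPart1

/-! Add-on HB, row CUT: cutting along the ascending disc of a saddle in normal form. -/

open scoped ContDiff Manifold Topology RealInnerProductSpace
open Set Filter Function Metric Module Pool.Agent.MP_e1dc65_gt

noncomputable section

namespace Pool.Agent.MP_7ebdba_gt.hb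

namespace Cut

variable {V : Type} [NormedAddCommGroup V] [InnerProductSpace ℝ V] [FiniteDimensional ℝ V]
  {e : V}

theorem exists_rf (he : ‖e‖ = 1) :
    ∃ R : V ≃L[ℝ] V, (∀ y, R y = rf e y) ∧ (R : V →L[ℝ] V).det = -1 := by
  refine ⟨(ℝ ∙ e)ᗮ.reflection.toContinuousLinearEquiv, fun y => ?_, ?_⟩
  · change (ℝ ∙ e)ᗮ.reflection y = _
    rw [Submodule.reflection_orthogonal_apply, Submodule.reflection_singleton_apply, he, rf,
      neg_sub, two_nsmul, two_mul, add_smul]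
    simp
  · change LinearMap.det (ℝ ∙ e)ᗮ.reflection.toLinearMap = _
    rw [Submodule.det_reflection, Submodule.orthogonal_orthogonal,
      finrank_span_singleton (by rintro rfl; simp at he), pow_one]

omit [FiniteDimensional ℝ V] in
theorem inner_rf (he : ‖e‖ = 1) (y : V) : ⟪e, rf e y⟫ = -⟪e, y⟫ := by
  rw [rf, inner_sub_right, real_inner_smul_right, real_inner_self_eq_norm_sq, he]; ring

omit [FiniteDimensional ℝ V] in
theorem rf_rf (he : ‖e‖ = 1) (y : V) : rf e (rf e y) = y := by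
  rw [rf, inner_rf he, rf, mul_neg, neg_smul, sub_neg_eq_add, sub_add_cancel]

omit [FiniteDimensional ℝ V] in
theorem rf_cyl (he : ‖e‖ = 1) (y : V) : rf e y ∈ Cyl e ↔ y ∈ Cyl e := by
  have : pr e (rf e y) = pr e y := by
    rw [pr, pr, inner_rf he, rf, two_mul, add_smul, neg_smul]; abel
  simp only [Cyl, mem_ofPred_eq, this]

omit [FiniteDimensional ℝ V] in
theorem norm_le (he : ‖e‖ = 1) {y : V} (hy : y ∈ Cyl e) : ‖y‖ ≤ 1 + |⟪e, y⟫| := by
  have h : y = pr e y + ⟪e, y⟫ • e := by rw [pr, sub_add_cancel]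
  have k : ‖pr e y‖ ≤ 1 := hy
  have := norm_add_le (pr e y) (⟪e, y⟫ • e)
  rw [← h, norm_smul, he, mul_one, Real.norm_eq_abs] at this
  linarith

omit [FiniteDimensional ℝ V] in
theorem gl_ex {S S' T T' : Type} {a : V → S} {b : V → S'} {ψ : S → T} {ψ' : S' → T'} {x : T}
    {y : T'} (k : Gl e (fun y => ψ (a y)) (fun y => ψ' (b y)) x y) :
    ∃ u ∈ ball (0 : V) 2, ∃ w ∈ ball (0 : V) 2, Gl e a b (a u) (b w) ∧ x = ψ (a u) ∧
      y = ψ' (b w) := by
  obtain ⟨t, v, h0, h1, hv, hH, hx, hy⟩ := k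
  refine ⟨_, ?_, _, ?_, ⟨t, v, h0, h1, hv, hH, rfl, rfl⟩, hx, hy⟩
  · rw [mem_ball_zero_iff, norm_smul, hv, Real.norm_of_nonneg h0.le]; linarith
  · rw [mem_ball_zero_iff, norm_smul, hv, Real.norm_of_nonneg (by linarith)]; linarith

omit [FiniteDimensional ℝ V] in
theorem gl_map {S T : Type} {a b : V → S} (ψ : S → T) {x y : S} (k : Gl e a b x y) :
    Gl e (fun y => ψ (a y)) (fun y => ψ (b y)) (ψ x) (ψ y) :=
  let ⟨t, v, h0, h1, hv, hH, hx, hy⟩ := k; ⟨t, v, h0, h1, hv, hH, congrArg ψ hx, congrArg ψ hy⟩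

/-- the model in the vector space -/
structure Mod (e : V) (K : Set V) (a b F : V → V) : Prop where
  cl : IsClosed K
  sub : K ⊆ Cyl e
  far : ∀ y ∈ Cyl e, 5 ≤ |⟪e, y⟫| → y ∈ K ∧ F y = y
  bd : ∀ y ∈ K, K ∈ 𝓝 y ∨ ∃ c : V → ℝ, (∀ᶠ z in 𝓝 y, ContDiffAt ℝ ∞ c z) ∧ c y = 0 ∧
    0 < fderiv ℝ c y (rf e y) ∧ ∀ᶠ z in 𝓝 y, z ∈ K ↔ c z ≤ 0
  slf : Slf e (vs V) K (Cyl e) a b F
  ma : MapsTo a (ball 0 2) (ball 0 100)
  mb : MapsTo b (ball 0 2) (ball 0 100)
  near : ∀ y ∈ K \ {a 0, b 0}, |⟪e, y⟫| < 5 → |⟪e, F y⟫| < 5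
  zero : 0 ∉ K
  det : (fderiv ℝ a 0).det * (fderiv ℝ b 0).det < 0

theorem model (h : CapStmt V) (he : ‖e‖ = 1) : ∃ K a b F, Mod e K a b F := by
  classical
  obtain ⟨K, a, F, c1, c2, c3, c4, c5, c6, c7, c8, c9, c10, c11, c12⟩ := h e he
  obtain ⟨R, hR, hd⟩ := exists_rf he
  have eR : rf e = R := funext fun y => (hR y).symm
  have iR := inner_rf he
  have RR := rf_rf he
  have RC := rf_cyl he
  have nR : ∀ y, ‖rf e y‖ = ‖y‖ := fun y => by
    rw [← sq_eq_sq₀ (norm_nonneg _) (norm_nonneg _), rf, norm_sub_sq_real, norm_smul, he,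
      real_inner_smul_right, real_inner_comm, mul_one, Real.norm_eq_abs, sq_abs]
    ring
  rw [eR] at iR RR RC c12 c5 nR
  have ld : ∀ y, LDAt (vs V) (vs V) R y := ldAt_cle R
  let K2 : Set V := {y | y ∈ K ∨ R y ∈ K}
  let F2 : V → V := fun y => if 0 < ⟪e, y⟫ then F y else R (F (R y))
  have kp : ∀ y, 0 < ⟪e, y⟫ → (y ∈ K2 ↔ y ∈ K) := fun y hy =>
    or_iff_left fun k => by have := c3 _ k; rw [iR] at this; linarith
  have kR : ∀ y, R y ∈ K2 ↔ y ∈ K2 := fun y => by simp only [K2, mem_ofPred_eq, RR, or_comm]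
  have fp : ∀ y, 0 < ⟪e, y⟫ → F2 y = F y := fun y hy => if_pos hy
  have fn : ∀ y, 0 < ⟪e, y⟫ → F2 (R y) = R (F y) := fun y hy => by
    simp only [F2, iR, RR]; exact if_neg (by linarith)
  have pos : ∀ y ∈ K, 0 < ⟪e, y⟫ := fun y hy => by linarith [c3 y hy]
  have ev : ∀ y, 0 < ⟪e, y⟫ → ∀ᶠ z in 𝓝 y, 0 < ⟪e, z⟫ := fun y hy =>
    (isOpen_lt continuous_const (continuous_const.inner continuous_id)).mem_nhds hy
  have a0 : 0 < ⟪e, a 0⟫ := (c7 0 (by simp)).1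
  have cs : ∀ y ∈ K2 \ {a 0, R (a 0)}, y ∈ K \ {a 0} ∨ ∃ z ∈ K \ {a 0}, y = R z := by
    rintro y ⟨k | k, k'⟩
    · exact .inl ⟨k, fun h => k' (.inl h)⟩
    · exact .inr ⟨R y, ⟨k, fun h => k' (.inr (by rw [← show R y = a 0 from h, RR]; rfl))⟩,
        (RR y).symm⟩
  have m1 : ∀ y ∈ K \ {a 0}, y ∈ K2 \ {a 0, R (a 0)} := fun y hy => ⟨.inl hy.1, by
    rintro (k | k)
    · exact hy.2 k
    · have := pos y hy.1
      rw [show y = R (a 0) from k, iR] at this; linarith⟩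
  have m2 : ∀ y ∈ K \ {a 0}, R y ∈ K2 \ {a 0, R (a 0)} := fun y hy => ⟨(kR y).2 (.inl hy.1), by
    rintro (k | k)
    · have := pos y hy.1
      rw [← k, iR] at a0; linarith
    · exact hy.2 (R.injective k)⟩
  have gs : ∀ x y, Gl e a (fun y => R (a y)) x y → 0 < ⟪e, x⟫ ∧ ⟪e, y⟫ < 0 := by
    intro x y k
    obtain ⟨u, hu, w, hw, -, rfl, rfl⟩ := gl_ex (ψ := fun x => x) k
    exact ⟨(c7 u hu).1, by rw [iR]; linarith [(c7 w hw).1]⟩
  have gR : ∀ x y, Gl e a (fun y => R (a y)) x (R y) ↔ Gl e a a x y := fun x y => by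
    simp only [Gl, R.injective.eq_iff]
  have r1 : ∀ y ∈ K \ {a 0}, Rel (vs V) (vs V) K2 (Cyl e) F2 y := fun y hy =>
    ((c8 y hy).congr ((ev y (pos y hy.1)).mono fun z hz _ => fp z hz)).congr_left
      ((ev y (pos y hy.1)).mono kp)
  have rK : ∀ y, Rel (vs V) (vs V) K2 K2 R y := fun y => rel_of_ld (ld y) (.of_forall kR)
  have pa : PC (vs V) K2 e a (ball 0 2) :=
    ⟨c6.oe, fun y hy => (kp _ (c7 y hy).1).trans (c6.mem y hy)⟩
  have ma : MapsTo a (ball 0 2) (ball 0 100) := fun y hy =>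
    mem_ball_zero_iff.2 (by linarith [(c7 y hy).2])
  refine ⟨K2, a, fun y => R (a y), F2, c1.union (c1.preimage R.continuous), ?_, ?_, ?_,
    ⟨pa, ⟨c6.oe.trans ⟨isOpen_univ, fun y _ => ld y, R.injective.injOn⟩ (mapsTo_univ _ _),
      fun y hy => (kR _).trans (pa.mem y hy)⟩, ?_, ?_, ?_, ?_⟩, ma, fun y hy => ?_, ?_, ?_, ?_⟩
  · rintro y (k | k)
    exacts [c2 k, (RC y).1 (c2 k)]
  · intro y hy k
    rcases le_abs'.1 k with k | k
    · obtain ⟨k1, k2⟩ := c4 (R y) ((RC y).2 hy) (by rw [iR]; linarith)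
      exact ⟨.inr k1, by rw [← RR y, fn _ (pos _ k1), k2]⟩
    · obtain ⟨k1, k2⟩ := c4 y hy k
      exact ⟨.inl k1, by rw [fp _ (pos _ k1), k2]⟩
  · rw [eR]
    have b1 : ∀ y ∈ K, K2 ∈ 𝓝 y ∨ ∃ c : V → ℝ, (∀ᶠ z in 𝓝 y, ContDiffAt ℝ ∞ c z) ∧ c y = 0 ∧
        0 < fderiv ℝ c y (R y) ∧ ∀ᶠ z in 𝓝 y, z ∈ K2 ↔ c z ≤ 0 := fun y hy =>
      (c5 y hy).imp (fun k => mem_of_superset k fun z hz => .inl hz) fun ⟨c, k1, k2, k3, k4⟩ =>
        ⟨c, k1, k2, k3, by
          filter_upwards [k4, ev y (pos y hy)] with z hz hz' using (kp z hz').trans hz⟩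
    rintro y (k | k)
    · exact b1 y k
    · have ct : Tendsto R (𝓝 y) (𝓝 (R y)) := R.continuous.continuousAt
      refine (b1 _ k).imp (fun k => (ct.eventually (p := (· ∈ K2)) k).mono fun z => (kR z).1)
        fun ⟨c, k1, k2, k3, k4⟩ => ⟨fun z => c (R z), ?_, k2, ?_, ?_⟩
      · exact (ct.eventually k1).mono fun z hz => hz.comp z R.contDiff.contDiffAt
      · rw [fderiv_fun_comp y (k1.self_of_nhds.differentiableAt (by simp)) R.differentiableAt,
          R.fderiv]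
        exact k3
      · exact (ct.eventually k4).mono fun z hz => (kR z).symm.trans hz
  · rw [Set.disjoint_left]
    rintro _ ⟨y, hy, rfl⟩ ⟨z, hz, k⟩
    have k1 := (c7 y hy).1
    have k2 := (c7 z hz).1
    rw [← show R (a z) = a y from k, iR] at k1
    linarith
  · intro y hy
    rcases cs y hy with k | ⟨z, k, rfl⟩
    · exact r1 y k
    · have k1 := (r1 z k).trans (m1 z k).1 (rel_of_ld (B := Cyl e) (ld _) (.of_forall RC))
      refine (rK z).desc (m1 z k).1 k1 ?_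
      filter_upwards [ev z (pos z k.1)] with w hw _ using by rw [fn w hw, fp w hw]
  · refine subset_antisymm (fun z hz => ?_) ?_
    · rcases le_total 0 ⟪e, z⟫ with k | k
      · obtain ⟨y, hy, rfl⟩ := c11 z hz k
        exact ⟨y, m1 y hy, fp y (pos y hy.1)⟩
      · obtain ⟨y, hy, k'⟩ := c11 (R z) ((RC z).2 hz) (by rw [iR]; linarith)
        exact ⟨R y, m2 y hy, by rw [fn y (pos y hy.1), k', RR]⟩
    · rintro _ ⟨y, hy, rfl⟩
      rcases cs y hy with k | ⟨z, k, rfl⟩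
      · exact (r1 y k).mem hy.1
      · rw [fn z (pos z k.1), RC]
        exact (c8 z k).mem k.1
  · have mix : ∀ y ∈ K \ {a 0}, ∀ z ∈ K \ {a 0}, F2 y = F2 (R z) ↔ y = R z ∨
        Gl e a (fun y => R (a y)) y (R z) ∨ Gl e (fun y => R (a y)) a y (R z) := by
      intro y hy z hz
      have k1 := pos y hy.1
      have k2 := pos z hz.1
      rw [fp y k1, fn z k2, c12 y hy z hz, gR, or_iff_right, or_iff_left]
      · exact fun k => k1.not_gt (gs _ _ k.symm).2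
      · intro k
        rw [k, iR] at k1; linarith
    intro y hy z hz
    rcases cs y hy with k | ⟨y, k, rfl⟩ <;> rcases cs z hz with k' | ⟨z, k', rfl⟩
    · rw [fp y (pos y k.1), fp z (pos z k'.1), c9.eq_iff k k', or_iff_left]
      exact not_or.2 ⟨fun g => (pos z k'.1).not_gt (gs _ _ g).2,
        fun g => (pos y k.1).not_gt (gs _ _ g.symm).2⟩
    · exact mix y k z k'
    · rw [eq_comm, mix z k' y k, eq_comm, or_comm (a := Gl ..)]
      exact or_congr_right (or_congr ⟨Gl.symm, Gl.symm⟩ ⟨Gl.symm, Gl.symm⟩)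
    · rw [fn y (pos y k.1), fn z (pos z k'.1), R.injective.eq_iff, R.injective.eq_iff,
        c9.eq_iff k k', or_iff_left]
      refine not_or.2 ⟨fun g => ?_, fun g => ?_⟩
      · have := (gs _ _ g).1
        rw [iR] at this; linarith [pos y k.1]
      · have := (gs _ _ g.symm).1
        rw [iR] at this; linarith [pos z k'.1]
  · rw [mem_ball_zero_iff, nR]; exact mem_ball_zero_iff.1 (ma hy)
  · intro y hy k
    rcases cs y hy with k' | ⟨z, k', rfl⟩
    · rw [fp y (pos y k'.1)]; exact c10 y k' (abs_lt.1 k).2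
    · rw [iR, abs_neg] at k
      rw [fn z (pos z k'.1), iR, abs_neg]; exact c10 z k' (abs_lt.1 k).2
  · rintro (k | k)
    · simpa using pos _ k
    · simpa using pos _ k
  · have k := c6.oe.ld 0 (by simp)
    rw [fderiv_fun_comp 0 R.differentiableAt ((smAt_vs.1 k.sm).differentiableAt (by simp)),
      R.fderiv]
    obtain ⟨L, hL⟩ := k.inv
    rw [Df_vs] at hL
    have k2 : ((R : V →L[ℝ] V).comp (fderiv ℝ a 0)).det = -1 * (fderiv ℝ a 0).det :=
      hd ▸ LinearMap.det_comp _ _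
    have k3 : (fderiv ℝ a 0).det ≠ 0 := hL ▸ L.toLinearEquiv.isUnit_det'.ne_zero
    rw [k2]
    nlinarith [mul_self_pos.2 k3]

end Cut

open Cut in
theorem cut {V : Type} [NormedAddCommGroup V] [InnerProductSpace ℝ V] [FiniteDimensional ℝ V]
    (h1 : CapStmt V) : CutStmt V := by
  classical
  intro e X D M ψ he hM hψ hc
  obtain ⟨K, a, b, F, m⟩ := model h1 he
  let B : Set V := ball 0 100
  let T : Set V := Cyl e ∩ {y | |⟪e, y⟫| ≤ 5}
  have TB : T ⊆ closedBall 0 6 := fun y hy => mem_closedBall_zero_iff.2 (by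
    have k : |⟪e, y⟫| ≤ 5 := hy.2
    linarith [norm_le he hy.1])
  have TB' : T ⊆ B := TB.trans (closedBall_subset_ball (by norm_num))
  have cT : IsCompact T := by
    refine (isCompact_closedBall (0 : V) 6).of_isClosed_subset (IsClosed.inter ?_ ?_) TB
    · exact isClosed_le (by unfold pr; fun_prop) continuous_const
    · exact isClosed_le (by fun_prop) continuous_const
  let W : Set X := M \ ψ '' (B \ K)
  let f : X → X := fun x => if x ∈ ψ '' B then ψ (F (invFunOn ψ B x)) else x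
  have wK : ∀ y ∈ B, ψ y ∈ W ↔ y ∈ K := fun y hy =>
    ⟨fun k => by_contra fun k' => k.2 ⟨y, ⟨hy, k'⟩, rfl⟩, fun k => ⟨(hc y hy).2.2 (m.sub k),
      fun ⟨z, hz, k'⟩ => hz.2 (by rwa [hψ.inj hz.1 hy k'])⟩⟩
  have f1 : ∀ y ∈ B, f (ψ y) = ψ (F y) := fun y hy => by
    simp only [f, if_pos (mem_image_of_mem ψ hy), hψ.left hy, B]
  have f2 : ∀ x ∉ ψ '' B, f x = x := fun x hx => if_neg hx
  have ev : ∀ y ∈ B, ∀ᶠ z in 𝓝 y, z ∈ B := fun y hy => isOpen_ball.mem_nhds hy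
  have off : ∀ x ∉ ψ '' B, ∀ᶠ z in 𝓝 x, (z ∈ W ↔ z ∈ M) ∧ (z ∈ M → f z = z) := fun x hx => by
    filter_upwards [(cT.image_of_continuousOn (hψ.sm.contOn.mono TB')).isClosed.isOpen_compl.mem_nhds
      fun k => hx (image_mono TB' k)] with z hz
    by_cases k : z ∈ ψ '' B
    · obtain ⟨y, hy, rfl⟩ := k
      have k1 : ψ y ∈ M → y ∈ K ∧ F y = y := fun k => m.far y ((hc y hy).2.1 k)
        (le_of_not_gt fun k' => hz ⟨y, ⟨(hc y hy).2.1 k, k'.le⟩, rfl⟩)
      exact ⟨⟨fun k => k.1, fun k => (wK y hy).2 (k1 k).1⟩, fun k => by rw [f1 y hy, (k1 k).2]⟩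
    · exact ⟨and_iff_left fun k' => k (image_mono sdiff_subset k'), fun _ => f2 z k⟩
  have rK : ∀ y ∈ B, Rel (vs V) X K W ψ y := fun y hy => rel_of_ld (hψ.ld y hy) ((ev y hy).mono wK)
  have a0 : a 0 ∈ B := m.ma (by simp)
  have b0 : b 0 ∈ B := m.mb (by simp)
  have pt : ∀ y ∈ B, ψ y ∈ W \ {ψ (a 0), ψ (b 0)} ↔ y ∈ K \ {a 0, b 0} := fun y hy => by
    simp only [Set.mem_sdiff, wK y hy, mem_insert_iff, mem_singleton_iff, hψ.inj.eq_iff hy a0,
      hψ.inj.eq_iff hy b0]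
  have FB : ∀ y ∈ K \ {a 0, b 0}, F y ∈ B ↔ y ∈ B := fun y hy => by
    rcases le_or_gt 5 |⟪e, y⟫| with k | k
    · rw [(m.far y (m.sub hy.1) k).2]
    · exact iff_of_true (TB' ⟨(m.slf.rf y hy).mem hy.1, (m.near y hy k).le⟩)
        (TB' ⟨m.sub hy.1, k.le⟩)
  have pc : ∀ a, PC (vs V) K e a (ball 0 2) → MapsTo a (ball 0 2) B →
      PC X W e (fun y => ψ (a y)) (ball 0 2) := fun a h k =>
    ⟨h.oe.trans hψ k, fun y hy => (wK _ (k hy)).trans (h.mem y hy)⟩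
  have rl : ∀ x ∈ W \ {ψ (a 0), ψ (b 0)}, Rel X X W M f x := by
    intro x hx
    by_cases k : x ∈ ψ '' B
    · obtain ⟨y, hy, rfl⟩ := k
      have k1 := (pt y hy).1 hx
      have k2 := (FB y k1).2 hy
      exact (rK y hy).desc k1.1 ((m.slf.rf y k1).trans k1.1 (rel_of_ld (hψ.ld _ k2)
        ((ev _ k2).mono fun z hz => (hc z hz).2))) ((ev y hy).mono fun z hz _ => f1 z hz)
    · exact (rel_id.congr ((off x k).mono fun z hz => hz.2)).congr_left
        ((off x k).mono fun z hz => hz.1)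
  have gl : ∀ a b : V → V, MapsTo a (ball 0 2) B → MapsTo b (ball 0 2) B →
      (∀ y ∈ B, ∀ z ∈ B, Gl e (fun y => ψ (a y)) (fun y => ψ (b y)) (ψ y) (ψ z) ↔ Gl e a b y z) ∧
      ∀ x z, Gl e (fun y => ψ (a y)) (fun y => ψ (b y)) x z → x ∈ ψ '' B ∧ z ∈ ψ '' B := by
    refine fun a b ha hb => ⟨fun y hy z hz => ⟨fun g => ?_, gl_map ψ⟩, fun x z g => ?_⟩
    · obtain ⟨u, hu, w, hw, g, k, k'⟩ := gl_ex g
      rwa [hψ.inj hy (ha hu) k, hψ.inj hz (hb hw) k']
    · obtain ⟨u, hu, w, hw, -, rfl, rfl⟩ := gl_ex g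
      exact ⟨⟨_, ha hu, rfl⟩, _, hb hw, rfl⟩
  obtain ⟨g1, g2⟩ := gl a b m.ma m.mb
  obtain ⟨g3, g4⟩ := gl b a m.mb m.ma
  refine ⟨W, fun y => ψ (a y), fun y => ψ (b y), f, ⟨⟨hM.out.cpt.diff (hψ.isOpen_image
    (isOpen_ball.sdiff m.cl) sdiff_subset), fun x hx => ?_⟩, fun x hx => hM.inc x hx.1⟩,
    sdiff_subset, fun k => m.zero ((wK 0 (by simp [B])).1 k), fun p hp h0 hn => ⟨hp, ?_⟩,
    ⟨pc a m.slf.ca m.ma, pc b m.slf.cb m.mb, ?_, rl, ?_, ?_⟩, fun s o => ?_⟩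
  · by_cases k : x ∈ ψ '' B
    · obtain ⟨y, hy, rfl⟩ := k
      have k := (wK y hy).1 hx
      refine (m.bd y k).imp ((rK y hy).nhds_iff k).2 fun ⟨c, k1, k2, k3, k4⟩ => ?_
      have l := hψ.ld y hy
      have q : ∀ z ∈ B, ContDiffAt ℝ ∞ c z →
          SmAt X (vs ℝ) (fun x => c (invFunOn ψ B x)) (ψ z) := fun z hz hc =>
        (hψ.symm.sm _ (mem_image_of_mem ψ hz)).vcomp (by rwa [hψ.left hz])
      refine ⟨fun x => c (invFunOn ψ B x), ?_, ?_, ?_, ?_⟩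
      · rw [← l.map_nhds, eventually_map]
        filter_upwards [k1, ev y hy] with z hz hz' using q z hz' hz
      · exact (congrArg c (hψ.left hy)).trans k2
      · rw [← (hc y hy).1, ← ContinuousLinearMap.comp_apply,
          ← Df_comp l.sm (q y hy k1.self_of_nhds), Df_vs,
          EventuallyEq.fderiv_eq (f := c) ((ev y hy).mono fun z hz => congrArg c (hψ.left hz))]
        exact k3
      · rw [← l.map_nhds, eventually_map]
        filter_upwards [k4, ev y hy] with z hz hz'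
        rwa [wK z hz', hψ.left hz']
    · refine (hM.out.bd x hx.1).imp (fun k' => ?_) fun ⟨c, k1, k2, k3, k4⟩ => ⟨c, k1, k2, k3, ?_⟩
      · filter_upwards [k', off x k] with z hz hz' using hz'.1.2 hz
      · filter_upwards [k4, off x k] with z hz hz' using hz'.1.trans hz
  · rintro ⟨y, hy, rfl⟩
    obtain ⟨L, hL⟩ := (hψ.ld y hy.1).inv
    rw [← (hc y hy.1).1, ← hL, ContinuousLinearEquiv.coe_coe, map_eq_zero_iff _ L.injective] at h0
    refine hn ?_
    rw [← rf_rf he y, h0]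
    simp [rf]
  · rw [Set.disjoint_left]
    rintro _ ⟨y, hy, rfl⟩ ⟨z, hz, k⟩
    exact Set.disjoint_left.1 m.slf.dis ⟨y, hy, rfl⟩ ⟨z, hz, hψ.inj (m.mb hz) (m.ma hy) k⟩
  · refine subset_antisymm (fun x hx => ?_) (image_subset_iff.2 fun x hx => (rl x hx).mem hx.1)
    by_cases k : x ∈ ψ '' B
    · obtain ⟨z, hz, rfl⟩ := k
      obtain ⟨y, hy, rfl⟩ := m.slf.cov.subset ((hc z hz).2.1 hx)
      have k := (FB y hy).1 hz
      exact ⟨ψ y, (pt y k).2 hy, f1 y k⟩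
    · refine ⟨x, ⟨(off x k).self_of_nhds.1.2 hx, ?_⟩, f2 x k⟩
      rintro (rfl | rfl)
      exacts [k ⟨_, a0, rfl⟩, k ⟨_, b0, rfl⟩]
  · have fB : ∀ x ∈ W \ {ψ (a 0), ψ (b 0)}, x ∈ ψ '' B → f x ∈ ψ '' B := by
      rintro _ hx ⟨y, hy, rfl⟩
      exact ⟨F y, (FB y ((pt y hy).1 hx)).2 hy, (f1 y hy).symm⟩
    intro x hx z hz
    by_cases k : x ∈ ψ '' B <;> by_cases k' : z ∈ ψ '' B
    · obtain ⟨x, k, rfl⟩ := k
      obtain ⟨z, k', rfl⟩ := k'
      have k1 := (pt x k).1 hx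
      have k2 := (pt z k').1 hz
      rw [f1 x k, f1 z k', hψ.inj.eq_iff ((FB x k1).2 k) ((FB z k2).2 k'), hψ.inj.eq_iff k k',
        g1 x k z k', g3 x k z k', m.slf.eq x k1 z k2]
    · refine iff_of_false (fun h => k' ?_) ?_
      · rw [← f2 z k', ← h]; exact fB x hx k
      · rintro (rfl | g | g)
        exacts [k' k, k' (g2 _ _ g).2, k' (g4 _ _ g).2]
    · refine iff_of_false (fun h => k ?_) ?_
      · rw [← f2 x k, h]; exact fB z hz k'
      · rintro (rfl | g | g)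
        exacts [k k', k (g2 _ _ g).1, k (g4 _ _ g).1]
    · rw [f2 x k, f2 z k', or_iff_left]
      exact not_or.2 ⟨fun g => k (g2 _ _ g).1, fun g => k (g4 _ _ g).1⟩
  · rw [sg_comp (m.slf.ca.oe.sm 0 (by simp)) (hψ.sm _ a0),
      sg_comp (m.slf.cb.oe.sm 0 (by simp)) (hψ.sm _ b0), mul_mul_mul_comm]
    exact mul_neg_of_pos_of_neg
      (o.const (convex_ball (0 : V) 100).isPreconnected hψ.ld a0 b0) m.det

end Pool.Agent.MP_7ebdba_gt.hb

end
end MrgPart1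

-- ======== part 2: formerly Pool.Agent.MP_7ebdba_gt.hb.Nf
section MrgPart2

/-! Add-on HB, row NF: the normal form of a domain at its highest saddle. -/

open scoped ContDiff Manifold Topology RealInnerProductSpace
open Set Filter Function Metric Module Pool.Agent.MP_e1dc65_gt

noncomputable section

namespace Pool.Agent.MP_7ebdba_gt.hb

variable {V : Type} [NormedAddCommGroup V] [InnerProductSpace ℝ V] [FiniteDimensional ℝ V]

namespace Nf

section Lin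
omit [FiniteDimensional ℝ V]

/-- the linear map with eigenvalue `s` on `e` and `t` on the orthogonal complement -/
def ln (e : V) (s t : ℝ) : V →L[ℝ] V :=
  s • (innerSL ℝ e).smulRight e + t • (ContinuousLinearMap.id ℝ V - (innerSL ℝ e).smulRight e)

variable {e y : V} {s t s' t' : ℝ}

theorem ln_apply : ln e s t y = (s * ⟪e, y⟫) • e + t • pr e y := by
  simp [ln, pr, smul_smul]

theorem inner_pr (he : ‖e‖ = 1) : ⟪e, pr e y⟫ = 0 := by
  simp [pr, inner_sub_right, real_inner_smul_right, he]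

theorem inner_ln (he : ‖e‖ = 1) : ⟪e, ln e s t y⟫ = s * ⟪e, y⟫ := by
  rw [ln_apply, inner_add_right, real_inner_smul_right, real_inner_smul_right, inner_pr he,
    real_inner_self_eq_norm_sq, he]
  ring

theorem pr_ln (he : ‖e‖ = 1) : pr e (ln e s t y) = t • pr e y := by
  rw [pr, inner_ln he, ln_apply, add_sub_cancel_left]

theorem ln_ln (he : ‖e‖ = 1) : ln e s t (ln e s' t' y) = ln e (s * s') (t * t') y := by
  rw [ln_apply, inner_ln he, pr_ln he, ln_apply, smul_smul, mul_assoc]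

theorem ln_one : ln e 1 1 y = y := by simp [ln_apply, pr]

theorem rf_eq : rf e y = ln e (-1) 1 y := by
  rw [ln_apply, rf, pr, one_smul, mul_smul, neg_one_mul, neg_smul, two_smul]
  abel

theorem norm_pr_ln (he : ‖e‖ = 1) (ht : 0 ≤ t) : ‖pr e (ln e s t y)‖ = t * ‖pr e y‖ := by
  rw [pr_ln he, norm_smul, Real.norm_of_nonneg ht]

theorem abs_ln (he : ‖e‖ = 1) (hs : 0 ≤ s) : |⟪e, ln e s t y⟫| = s * |⟪e, y⟫| := by
  rw [inner_ln he, abs_mul, abs_of_nonneg hs]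

theorem norm_le (he : ‖e‖ = 1) : ‖y‖ ≤ |⟪e, y⟫| + ‖pr e y‖ := by
  have := norm_add_le (⟪e, y⟫ • e) (pr e y)
  rwa [pr, add_sub_cancel, norm_smul, he, mul_one, Real.norm_eq_abs] at this

theorem abs_le_norm (he : ‖e‖ = 1) : |⟪e, y⟫| ≤ ‖y‖ := by
  simpa [he] using abs_real_inner_le_norm e y

theorem pr_le_norm (he : ‖e‖ = 1) : ‖pr e y‖ ≤ ‖y‖ := by
  have h := norm_add_sq_real (⟪e, y⟫ • e) (pr e y)
  rw [real_inner_smul_left, inner_pr he, show ⟪e, y⟫ • e + pr e y = y by simp [pr]] at h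
  exact le_of_sq_le_sq (by nlinarith [sq_nonneg ‖⟪e, y⟫ • e‖]) (norm_nonneg _)

theorem cd_a : ContDiff ℝ ∞ fun y => ⟪e, y⟫ := contDiff_const.inner ℝ contDiff_id

theorem cd_pr : ContDiff ℝ ∞ (pr e) := contDiff_id.sub (cd_a.smul contDiff_const)

theorem cA (e : V) : Continuous fun y => |⟪e, y⟫| := cd_a.continuous.abs

theorem cP (e : V) : Continuous fun y => ‖pr e y‖ := cd_pr.continuous.norm

/-- the flow of the linear field -/
def fl (e : V) (t : ℝ) (y : V) : V := ln e (Real.exp (-t)) (Real.exp t) y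

theorem fl_der (he : ‖e‖ = 1) : HasDerivAt (fun s => fl e s y) (rf e (fl e t y)) t := by
  have h := (((hasDerivAt_neg t).exp.mul_const ⟪e, y⟫).smul_const e).add
    ((Real.hasDerivAt_exp t).smul_const (pr e y))
  rw [rf_eq, fl, ln_ln he, ln_apply, one_mul, mul_comm (-1 : ℝ)]
  simp only [fl, ln_apply]
  exact h

theorem fl_zero : fl e 0 y = y := by simp [fl, ln_one]

/-- the open box of size `ρ` -/
def box (e : V) (ρ : ℝ) : Set V := {y | |⟪e, y⟫| < ρ ∧ ‖pr e y‖ < ρ}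

theorem box_sub {ρ : ℝ} (he : ‖e‖ = 1) : box e ρ ⊆ ball 0 (2 * ρ) := fun y hy =>
  mem_ball_zero_iff.2 (by linarith [norm_le (y := y) he, hy.1, hy.2])

theorem exp_mid {a ρ s t : ℝ} (ha : 0 ≤ a) (h0 : a < ρ) (h1 : Real.exp t * a < ρ)
    (hs : s ≤ 0 ∨ s ≤ t) : Real.exp s * a < ρ := by
  rcases hs with h | h
  · exact (mul_le_of_le_one_left ha (Real.exp_le_one_iff.2 h)).trans_lt h0
  · exact (mul_le_mul_of_nonneg_right (Real.exp_le_exp.2 h) ha).trans_lt h1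

theorem fl_box {ρ : ℝ} (he : ‖e‖ = 1) : fl e t y ∈ box e ρ ↔
    Real.exp (-t) * |⟪e, y⟫| < ρ ∧ Real.exp t * ‖pr e y‖ < ρ := by
  rw [box, mem_ofPred_eq, fl, abs_ln he (Real.exp_nonneg _), norm_pr_ln he (Real.exp_nonneg _)]

theorem box_mid {ρ : ℝ} (he : ‖e‖ = 1) (h0 : y ∈ box e ρ) (h1 : fl e t y ∈ box e ρ)
    (hs : s ∈ uIcc 0 t) : fl e s y ∈ box e ρ := by
  rw [fl_box he] at h1 ⊢
  refine ⟨exp_mid (abs_nonneg _) h0.1 h1.1 ?_, exp_mid (norm_nonneg _) h0.2 h1.2 ?_⟩ <;>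
    rcases mem_uIcc.1 hs with h | h
  exacts [.inl (neg_nonpos.2 h.1), .inr (neg_le_neg h.1), .inr h.2, .inl h.2]

end Lin

variable {X : Mf V} {v : X → V} {φ : ℝ → X → X} {M : Set X} {e : V}

/-- the flow in a linearising chart -/
theorem flow_chart (he : ‖e‖ = 1) (hφ : IsFlow X v φ) {ψ : V → X} {ρ t : ℝ} {y : V}
    (hψ : ∀ z ∈ box e ρ, SmAt (vs V) X ψ z ∧ Df (vs V) X ψ z (rf e z) = v (ψ z))
    (h0 : y ∈ box e ρ) (h1 : fl e t y ∈ box e ρ) : φ t (ψ y) = ψ (fl e t y) := by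
  have := hφ.eq_of_zero (c := fun s => ψ (fl e s y)) (t := t) fun s hs =>
    IC.map (X := vs V) (v := rf e) (ic_vs.2 (fl_der he)) (hψ _ (box_mid he h0 h1 hs)).1
      (hψ _ (box_mid he h0 h1 hs)).2
  simpa only [fl_zero] using this

omit [FiniteDimensional ℝ V] in
/-- a domain moved by the flow -/
theorem out_flow (hφ : IsFlow X v φ) (hM : Out X v M) (T : ℝ) : Out X v (φ T ⁻¹' M) := by
  refine ⟨(hφ.homeo T).isCompact_preimage.2 hM.cpt, fun x hx => ?_⟩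
  have hc := (hφ.cont_time T).continuousAt (x := x)
  rcases hM.bd _ hx with h | ⟨c, h1, h2, h3, h4⟩
  · exact .inl (hc.preimage_mem_nhds h)
  · refine .inr ⟨fun y => c (φ T y), (hc.eventually h1).mono fun y hy => (hφ.smAt_time T y).trans hy,
      h2, ?_, hc.eventually h4⟩
    rwa [Df_comp (hφ.smAt_time T x) h1.self_of_nhds, ContinuousLinearMap.comp_apply, hφ.push]

omit [FiniteDimensional ℝ V] in
/-- a compactly supported modification of a domain -/
theorem out_mod {N O K : Set X} {c : X → ℝ} (hN : Out X v N) (hO : IsOpen O) (hK : IsClosed K)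
    (hKO : K ⊆ O) (hc : Sm X (vs ℝ) c O) (hd : ∀ x ∈ O, 0 < Df X (vs ℝ) c x (v x))
    (h1 : ∀ x ∈ O, c x ≤ 0 → x ∈ N) (h2 : ∀ x ∈ O, x ∉ K → x ∈ N → c x ≤ 0) :
    Out X v {x | x ∈ N ∧ (x ∈ O → c x ≤ 0)} := by
  refine ⟨?_, fun x hx => ?_⟩
  · have : IsOpen (O ∩ c ⁻¹' Ioi 0) := hc.contOn.isOpen_inter_preimage hO isOpen_Ioi
    convert hN.cpt.diff this using 1
    ext x
    simp
  by_cases hx' : x ∈ O
  · have k : ∀ᶠ y in 𝓝 x, y ∈ {x | x ∈ N ∧ (x ∈ O → c x ≤ 0)} ↔ c y ≤ 0 := by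
      filter_upwards [hO.mem_nhds hx'] with y hy using ⟨fun h => h.2 hy, fun h => ⟨h1 y hy h, fun _ => h⟩⟩
    rcases (hx.2 hx').eq_or_lt with h | h
    · exact .inr ⟨c, mem_of_superset (hO.mem_nhds hx') hc, h, hd x hx', k⟩
    · refine .inl ?_
      filter_upwards [k, (hc x hx').cont.eventually (Iio_mem_nhds h)] with y a b using a.2 b.le
  · have k : ∀ᶠ y in 𝓝 x, y ∈ {x | x ∈ N ∧ (x ∈ O → c x ≤ 0)} ↔ y ∈ N := by
      filter_upwards [hK.isOpen_compl.mem_nhds fun h => hx' (hKO h)] with y hy using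
        ⟨fun h => h.1, fun h => ⟨h, fun h' => h2 y h' hy h⟩⟩
    rcases hN.bd x hx.1 with h | ⟨c', a1, a2, a3, a4⟩
    · refine .inl ?_
      filter_upwards [k, h] with y a b using a.2 b
    · refine .inr ⟨c', a1, a2, a3, ?_⟩
      filter_upwards [k, a4] with y a b using a.trans b

/-- points of the ascending disc of the highest saddle leave the domain -/
theorem exit (hH : HitStmt V) (hD : DynStmt V) {D : MD X e} {q : X} {ρ : ℝ} {z : V} (he : ‖e‖ = 1)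
    (hM : D.Dom M) (hq : q ∈ D.C1) (hmax : ∀ p ∈ D.C1 ∩ M, D.k p ≤ D.k q)
    (h1 : box e ρ ⊆ ball 0 1) (h2 : MapsTo (D.ψ q) (box e ρ) M) (hz : z ∈ box e ρ)
    (h0 : ⟪e, z⟫ = 0) (hz0 : z ≠ 0) : ∃ t, D.φ t (D.ψ q z) ∈ frontier M := by
  obtain ⟨hoe, hq0⟩ := D.oe q (Or.inr hq)
  obtain ⟨d1, d2, -, d4⟩ := hD e X D M hM
  by_contra h
  have a1 : ∀ t, D.φ t (D.ψ q z) ∈ M := fun t => by_contra fun k =>
    h ((hH X D.v D.φ M D.fl hM.out).1 _ (h2 hz) t k)
  have a2 : D.ψ q z ∉ D.C0 ∪ D.C1 := fun k => by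
    have := D.l1 q hq z (h1 hz)
    rw [(d1 _ k).1, rf, h0, mul_zero, zero_smul, sub_zero] at this
    exact hz0 ((hoe.ld z (h1 hz)).inv.injective (this.trans (map_zero _).symm))
  obtain ⟨p, hp, hk⟩ := d4 _ a2 a1
  have a3 : Tendsto (fun s => fl e s z) atBot (𝓝 0) := by
    simpa only [fl, ln_apply, h0, mul_zero, zero_smul, zero_add] using
      Real.tendsto_exp_atBot.smul_const (pr e z)
  have a4 : Tendsto (fun s => D.k (D.ψ q (fl e s z))) atBot (𝓝 (D.k q)) := by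
    have := ((hoe.sm 0 (mem_ball_self one_pos)).trans (D.sk _ trivial)).cont.tendsto.comp a3
    rwa [hq0] at this
  refine (hmax p hp).not_gt ((le_of_tendsto a4 ?_).trans_lt (hk 0))
  filter_upwards [Iio_mem_atBot 0] with s hs
  rw [← flow_chart he D.fl (fun z hz => ⟨hoe.sm z (h1 hz), D.l1 q hq z (h1 hz)⟩) hz]
  · exact (d2 _ a2 s 0 hs (a1 0)).le
  · rw [fl_box he, h0, abs_zero, mul_zero]
    exact ⟨(abs_nonneg _).trans_lt hz.1, exp_mid (t := 0) (norm_nonneg _) hz.2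
      (by simpa using hz.2) (.inl hs.le)⟩

/-- a thin slab round the ascending sphere -/
theorem slab (he : ‖e‖ = 1) {U : Set V} {g : V → ℝ} {r : ℝ} (hU : IsOpen U)
    (hg : ContinuousOn g U) (h : ∀ z, ⟪e, z⟫ = 0 → ‖pr e z‖ = r → z ∈ U) :
    ∃ α > 0, ∃ T ≥ 99, ∀ z, |⟪e, z⟫| ≤ α → ‖pr e z‖ = r → z ∈ U ∧ g z ≤ T := by
  have cp : ∀ α, IsCompact {z | |⟪e, z⟫| ≤ α ∧ ‖pr e z‖ = r} := fun α =>
    (isCompact_closedBall 0 (α + r)).of_isClosed_subset
      ((isClosed_le (cA e) continuous_const).inter (isClosed_eq (cP e) continuous_const))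
      fun z hz => mem_closedBall_zero_iff.2 (by linarith [norm_le (y := z) he, hz.1, hz.2])
  obtain ⟨δ, hδ, hs⟩ := (cp 0).exists_cthickening_subset_open hU fun z hz =>
    h z (abs_nonpos_iff.1 hz.1) hz.2
  have m : {z | |⟪e, z⟫| ≤ δ ∧ ‖pr e z‖ = r} ⊆ U := fun z hz => hs
    (mem_cthickening_of_dist_le z (pr e z) δ _ ⟨by rw [inner_pr he, abs_zero], by
      rw [pr, inner_pr he, zero_smul, sub_zero, hz.2]⟩ (by
      rw [dist_eq_norm, pr, sub_sub_cancel, norm_smul, he, mul_one]; exact hz.1))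
  obtain ⟨T, hT⟩ := (cp δ).bddAbove_image (hg.mono m)
  exact ⟨δ, hδ, max T 99, le_max_right _ _, fun z h1 h2 =>
    ⟨m ⟨h1, h2⟩, (hT (mem_image_of_mem g ⟨h1, h2⟩)).trans (le_max_left _ _)⟩⟩

/-- the region in which the domain is modified -/
def om (e : V) (ρ ε : ℝ) : Set V := {z | z ∈ box e ρ ∧ pr e z ≠ 0 ∧ |⟪e, z⟫| * ‖pr e z‖ < ε}

omit [FiniteDimensional ℝ V] in
theorem op_box {ρ : ℝ} : IsOpen (box e ρ) :=
  (isOpen_lt (cA e) continuous_const).inter (isOpen_lt (cP e) continuous_const)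

omit [FiniteDimensional ℝ V] in
theorem op_om {ρ ε : ℝ} : IsOpen (om e ρ ε) :=
  op_box.inter ((isOpen_ne_fun cd_pr.continuous continuous_const).inter
    (isOpen_lt ((cA e).mul (cP e)) continuous_const))

omit [FiniteDimensional ℝ V] in
/-- the exit time near the saddle -/
theorem time (he : ‖e‖ = 1) {ψ : V → X} {τ : X → ℝ} {R : Set X} {ρ r α T : ℝ}
    (hφ : IsFlow X v φ) (hr : 0 < r) (hrρ : r < ρ) (hα : α < ρ)
    (hf : ∀ t, ∀ y ∈ box e ρ, fl e t y ∈ box e ρ → φ t (ψ y) = ψ (fl e t y))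
    (hR : ∀ x ∈ R, ∀ t, φ t x ∈ R ∧ τ (φ t x) = τ x - t)
    (hS : ∀ z ∈ box e ρ, |⟪e, z⟫| ≤ α → ‖pr e z‖ = r → ψ z ∈ R ∧ 0 ≤ τ (ψ z) ∧ τ (ψ z) ≤ T)
    {z : V} (hz : z ∈ om e ρ (α * r)) : ψ z ∈ R ∧ Real.log r ≤ τ (ψ z) + Real.log ‖pr e z‖ ∧
      τ (ψ z) + Real.log ‖pr e z‖ ≤ Real.log r + T := by
  have n := norm_pos_iff.2 hz.2.1
  obtain ⟨t, ht⟩ : ∃ t, t = Real.log r - Real.log ‖pr e z‖ := ⟨_, rfl⟩
  have e1 : Real.exp t * ‖pr e z‖ = r := by
    rw [ht, Real.exp_sub, Real.exp_log hr, Real.exp_log n, div_mul_cancel₀ _ n.ne']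
  have e2 : Real.exp (-t) * |⟪e, z⟫| ≤ α := by
    refine le_of_mul_le_mul_right ?_ hr
    rw [← e1, Real.exp_neg]
    have := hz.2.2.le
    rw [← e1] at this
    convert this using 1
    field_simp
  have b : fl e t z ∈ box e ρ := (fl_box he).2 ⟨e2.trans_lt hα, e1 ▸ hrρ⟩
  obtain ⟨a1, a2, a3⟩ := hS _ b (by rwa [fl, abs_ln he (Real.exp_nonneg _)])
    (by rwa [fl, norm_pr_ln he (Real.exp_nonneg _)])
  obtain ⟨a4, a5⟩ := hR _ a1 (-t)
  rw [← hf t z hz.1 b, hφ.neg_left] at a4 a5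
  rw [hf t z hz.1 b] at a5
  exact ⟨a4, by linarith, by linarith⟩

/-- the defining function of the new domain -/
def dfn (e : V) (χ : ℝ → ℝ) (s T : ℝ) (g : X → V) (τ : X → ℝ) (x : X) : ℝ :=
  χ (⟪e, g x⟫ * ‖pr e (g x)‖) * (Real.log ‖pr e (g x)‖ - s) +
    (1 - χ (⟪e, g x⟫ * ‖pr e (g x)‖)) * (T - τ x)

theorem cf_sm {χ : ℝ → ℝ} {s T : ℝ} {g : X → V} {τ : X → ℝ} {x : X} (hχ : ContDiff ℝ ∞ χ)
    (hg : SmAt X (vs V) g x) (hτ : SmAt X (vs ℝ) τ x) (h : pr e (g x) ≠ 0) :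
    SmAt X (vs ℝ) (dfn e χ s T g τ) x := by
  have a1 : ContDiffAt ℝ ∞ (fun y => ‖pr e y‖) (g x) := cd_pr.contDiffAt.norm ℝ h
  have a2 := hg.vcomp (hχ.contDiffAt.comp (g x) ((cd_a (e := e)).contDiffAt.mul a1))
  exact (a2.vmul (hg.vcomp ((a1.log (norm_ne_zero_iff.2 h)).sub contDiffAt_const))).vadd
    (((smAt_const (Y := vs ℝ) 1).vsub a2).vmul ((smAt_const (Y := vs ℝ) T).vsub hτ))

omit [FiniteDimensional ℝ V] in
theorem cf_der (he : ‖e‖ = 1) {χ : ℝ → ℝ} {s T ρ ε : ℝ} {ψ : V → X} {g : X → V} {τ : X → ℝ} {z : V}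
    (hφ : IsFlow X v φ) (hz : z ∈ om e ρ ε) (hg : ∀ y ∈ om e ρ ε, g (ψ y) = y)
    (hf : ∀ t, ∀ y ∈ box e ρ, fl e t y ∈ box e ρ → φ t (ψ y) = ψ (fl e t y))
    (hτ : ∀ t, τ (φ t (ψ z)) = τ (ψ z) - t) (hs : SmAt X (vs ℝ) (dfn e χ s T g τ) (ψ z)) :
    Df X (vs ℝ) (dfn e χ s T g τ) (ψ z) (v (ψ z)) = 1 := by
  have a1 := hφ.hasDerivAt (t := 0) (x := ψ z) (g := dfn e χ s T g τ) (by rwa [hφ.zero])
  rw [hφ.zero] at a1
  refine a1.unique (((hasDerivAt_id (0 : ℝ)).const_add (dfn e χ s T g τ (ψ z))).congr_of_eventuallyEq ?_)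
  filter_upwards [(fl_der (y := z) (t := 0) he).continuousAt.preimage_mem_nhds
    (op_om.mem_nhds (by rwa [fl_zero]))] with t ht
  have a2 : ⟪e, fl e t z⟫ * ‖pr e (fl e t z)‖ = ⟪e, z⟫ * ‖pr e z‖ := by
    rw [fl, inner_ln he, norm_pr_ln he (Real.exp_nonneg _), Real.exp_neg]
    field_simp
  have a3 : Real.log ‖pr e (fl e t z)‖ = t + Real.log ‖pr e z‖ := by
    rw [fl, norm_pr_ln he (Real.exp_nonneg _),
      Real.log_mul (Real.exp_ne_zero _) (norm_ne_zero_iff.2 hz.2.1), Real.log_exp]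
  rw [dfn, dfn, hτ, hf t z hz.1 ht.1, hg _ ht, hg _ hz, a2, a3, id]
  ring

theorem oe_ln (he : ‖e‖ = 1) {s t : ℝ} (hs : s ≠ 0) (ht : t ≠ 0) :
    OE (vs V) (vs V) (ln e s t) univ :=
  oe_of_inv (g := ln e s⁻¹ t⁻¹) isOpen_univ isOpen_univ
    (fun _ _ => smAt_vs.2 (ln e s t).contDiff.contDiffAt)
    (fun _ _ => smAt_vs.2 (ln e _ _).contDiff.contDiffAt) (mapsTo_univ _ _) (mapsTo_univ _ _)
    (fun _ _ => by rw [ln_ln he, inv_mul_cancel₀ hs, inv_mul_cancel₀ ht, ln_one])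
    fun _ _ => by rw [ln_ln he, mul_inv_cancel₀ hs, mul_inv_cancel₀ ht, ln_one]

end Nf

open Nf in
theorem nf (hB : BackStmt V) (hH : HitStmt V) (hD : DynStmt V) (hF : FlowEqStmt V) : NFStmt V := by
  intro e X D M q he hM hq hmax
  obtain ⟨hoe, hq0⟩ := D.oe q (Or.inr hq.1)
  obtain ⟨d1, -⟩ := hD e X D M hM
  obtain ⟨-, tR, τ, sτ, hτ⟩ := hH X D.v D.φ M D.fl hM.out
  obtain ⟨R, hR⟩ : ∃ R, R = {x | ∃ t, D.φ t x ∈ frontier M} := ⟨_, rfl⟩
  obtain ⟨ρ, hρ, b1, b2⟩ : ∃ ρ > 0, box e ρ ⊆ ball 0 1 ∧ MapsTo (D.ψ q) (box e ρ) M := by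
    obtain ⟨δ, hδ, h⟩ := Metric.mem_nhds_iff.1 (inter_mem (ball_mem_nhds 0 one_pos)
      ((hoe.sm 0 (mem_ball_self one_pos)).cont.preimage_mem_nhds
        (hq0.symm ▸ (d1 q (Or.inr hq.1)).2.2 hq.2)))
    have k := ((box_sub (ρ := δ / 2) he).trans (ball_subset_ball (by linarith))).trans h
    exact ⟨δ / 2, half_pos hδ, fun z hz => (k hz).1, fun z hz => (k hz).2⟩
  have ex : ∀ z ∈ box e ρ, ⟪e, z⟫ = 0 → z ≠ 0 → D.ψ q z ∈ R := fun z hz h0 h1 =>
    hR ▸ exit hH hD he hM hq.1 hmax b1 b2 hz h0 h1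
  have hl := fun z hz => D.l1 q hq.1 z (b1 hz)
  replace hoe := hoe.mono op_box b1
  generalize D.ψ q = ψ at *
  have hf := fun t y => flow_chart he D.fl (t := t) (y := y) fun z hz => ⟨hoe.sm z hz, hl z hz⟩
  have hI : ∀ x ∈ R, ∀ t, D.φ t x ∈ R ∧ τ (D.φ t x) = τ x - t := by
    subst hR
    exact fun x hx t => ⟨⟨τ x - t, by rw [← D.fl.add, sub_add_cancel]; exact (hτ x hx).1⟩,
      (hτ x hx).2.2.1 t⟩
  have hm : ∀ x ∈ R, ∀ t, D.φ t x ∈ M ↔ t ≤ τ x := fun x hx => (hτ x (by rwa [hR] at hx)).2.1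
  rw [← hR] at tR sτ
  obtain ⟨r, hr, hrρ⟩ := exists_between hρ
  obtain ⟨α₀, hα₀, T, hT, hS⟩ := slab he (r := r) (hoe.sm.contOn.isOpen_inter_preimage op_box tR)
    (sτ.contOn.comp (hoe.sm.contOn.mono inter_subset_left) fun z hz => hz.2) fun z h0 h1 => by
      have k : z ∈ box e ρ := ⟨by rwa [h0, abs_zero], h1 ▸ hrρ⟩
      refine ⟨k, ex z k h0 ?_⟩
      rintro rfl
      simp [pr, hr.ne] at h1
  obtain ⟨α, hα, hαr, hαα⟩ : ∃ α > 0, α ≤ r ∧ α ≤ α₀ :=
    ⟨_, lt_min hr hα₀, min_le_left _ _, min_le_right _ _⟩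
  have tm := fun z => time he (z := z) (τ := τ) (T := T) D.fl hr hrρ (hαr.trans_lt hrρ) hf hI
    fun z hz h1 h2 => ⟨(hS z (h1.trans hαα) h2).1.2, (hm _ (hS z (h1.trans hαα) h2).1.2 0).1
      (by rw [D.fl.zero]; exact b2 hz), (hS z (h1.trans hαα) h2).2⟩
  obtain ⟨μ, hμ, hμr, hμl⟩ : ∃ μ > 0, 100 * μ ≤ r ∧ Real.log μ = Real.log r - T :=
    ⟨r / Real.exp T, by positivity, by
      rw [← mul_div_assoc, div_le_iff₀ (Real.exp_pos _)]
      nlinarith [Real.add_one_le_exp T],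
      by rw [Real.log_div hr.ne' (Real.exp_ne_zero _), Real.log_exp]⟩
  let χ : ContDiffBump (0 : ℝ) := ⟨α * μ / 2, α * μ, by positivity, half_lt_self (by positivity)⟩
  have ho := hoe.mono (op_om (ρ := ρ) (ε := α * r)) fun z hz => hz.1
  obtain ⟨g, hg, sg⟩ : ∃ g : X → V, (∀ y ∈ om e ρ (α * r), g (ψ y) = y) ∧
      Sm X (vs V) g (ψ '' om e ρ (α * r)) := ⟨_, fun y => ho.left, ho.symm.sm⟩
  have hK : {z | μ ≤ ‖pr e z‖ ∧ ‖pr e z‖ ≤ r ∧ |⟪e, z⟫| * ‖pr e z‖ ≤ α * μ} ⊆ om e ρ (α * r) :=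
    fun z hz => ⟨⟨by nlinarith [hz.1, hz.2.2, abs_nonneg ⟪e, z⟫], hz.2.1.trans_lt hrρ⟩,
      norm_pos_iff.1 (hμ.trans_le hz.1), by nlinarith [hz.2.2]⟩
  have sc : Sm X (vs ℝ) (dfn e χ (Real.log μ) T g τ) (ψ '' om e ρ (α * r)) := by
    rintro _ ⟨z, hz, rfl⟩
    exact cf_sm χ.contDiff (sg _ ⟨z, hz, rfl⟩) (sτ _ (tm z hz).1) (by rw [hg z hz]; exact hz.2.1)
  have c1 : ∀ x ∈ ψ '' om e ρ (α * r), dfn e χ (Real.log μ) T g τ x ≤ 0 → x ∈ D.φ T ⁻¹' M := by
    rintro _ ⟨z, hz, rfl⟩ h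
    rw [dfn, hg z hz] at h
    refine (hm _ (tm z hz).1 T).2 ?_
    nlinarith [(tm z hz).2.1, χ.nonneg (x := ⟪e, z⟫ * ‖pr e z‖)]
  have out := out_mod (out_flow D.fl hM.out T) ho.symm.op
    (((isCompact_closedBall 0 (2 * ρ)).of_isClosed_subset ((isClosed_le continuous_const (cP e)).inter
      ((isClosed_le (cP e) continuous_const).inter (isClosed_le ((cA e).mul (cP e)) continuous_const)))
      fun z hz => ball_subset_closedBall (box_sub he (hK hz).1)).image_of_continuousOn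
      (ho.sm.contOn.mono hK)).isClosed (image_mono hK) sc
    (by
      rintro _ ⟨z, hz, rfl⟩
      rw [cf_der he D.fl hz hg hf (fun t => (hI _ (tm z hz).1 t).2) (sc _ ⟨z, hz, rfl⟩)]
      exact one_pos) c1
    (by
      rintro _ ⟨z, hz, rfl⟩ h1 h2
      have a1 := (hm _ (tm z hz).1 T).1 h2
      have n := norm_pos_iff.2 hz.2.1
      rw [dfn, hg z hz]
      by_cases k : ‖pr e z‖ < μ
      · nlinarith [Real.log_lt_log n k, χ.nonneg (x := ⟪e, z⟫ * ‖pr e z‖),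
          χ.le_one (x := ⟪e, z⟫ * ‖pr e z‖)]
      · have a2 : ‖pr e z‖ ≤ r := (Real.log_le_log_iff n hr).1 (by linarith [(tm z hz).2.2])
        rw [χ.zero_of_le_dist]
        · linarith
        · rw [Real.dist_eq, sub_zero, abs_mul, abs_norm]
          exact le_of_not_ge fun a3 => h1 ⟨z, ⟨not_lt.1 k, a2, a3⟩, rfl⟩)
  obtain ⟨M', hM'⟩ : ∃ M', M' = {x | x ∈ D.φ T ⁻¹' M ∧
    (x ∈ ψ '' om e ρ (α * r) → dfn e χ (Real.log μ) T g τ x ≤ 0)} := ⟨_, rfl⟩
  have sub : M' ⊆ M := fun x hx => by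
    rw [hM'] at hx
    have := ((hB X D.v D.φ M D.fl).2 hM.out).1 _ hx.1 (-T) (by linarith)
    rw [D.fl.neg_left] at this
    exact mem_of_mem_nhds this
  have dom : D.Dom M' := ⟨hM' ▸ out, fun x hx => hM.inc x (sub hx)⟩
  have cr : (D.C0 ∪ D.C1) ∩ M ⊆ M' := fun p hp => by
    have a := (d1 p hp.1).2.1
    rw [hM']
    refine ⟨by rw [mem_preimage, a]; exact hp.2, ?_⟩
    rintro ⟨z, hz, rfl⟩
    linarith [(hm _ (tm z hz).1 (τ (ψ z) + 1)).1 (by rw [a]; exact hp.2)]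
  obtain ⟨Θ, hΘ, hΘ'⟩ := hF X D.v D.φ D.k M M' D.vf D.fl hM.out dom.out sub D.sk fun x hx h =>
    hM.inc x hx fun k => h (((hD e X D M' dom).1 x k).2.2 (cr ⟨k, hx⟩))
  have hl0 : 0 < α / 20000 := by positivity
  have nb : ∀ y ∈ ball (0 : V) 100, |⟪e, ln e (α / 20000) μ y⟫| ≤ α / 200 ∧
      ‖pr e (ln e (α / 20000) μ y)‖ ≤ 100 * μ := fun y hy => by
    rw [abs_ln he hl0.le, norm_pr_ln he hμ.le]
    rw [mem_ball_zero_iff] at hy
    constructor <;> nlinarith [abs_le_norm (y := y) he, pr_le_norm (y := y) he]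
  have mb : MapsTo (ln e (α / 20000) μ) (ball 0 100) (box e ρ) := fun y hy =>
    ⟨by linarith [(nb y hy).1], by linarith [(nb y hy).2]⟩
  have oA := (oe_ln he hl0.ne' hμ.ne').mono (isOpen_ball (x := 0) (ε := 100)) (subset_univ _)
  refine ⟨M', Θ, fun y => ψ (ln e (α / 20000) μ y), dom, sub, hΘ, hΘ', cr, oA.trans hoe mb,
    by simp only [map_zero, hq0], fun y hy => ⟨?_, ?_⟩⟩
  · rw [Df_comp (oA.sm y hy) (hoe.sm _ (mb hy)), ContinuousLinearMap.comp_apply, Df_vs,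
      ContinuousLinearMap.fderiv, ← hl _ (mb hy), rf_eq, rf_eq, ln_ln he, ln_ln he, mul_comm _ (-1 : ℝ),
      mul_comm μ]
  · obtain ⟨a1, a2⟩ := nb y hy
    beta_reduce
    have a3 := mb hy
    have a4 := norm_pr_ln (s := α / 20000) (y := y) he hμ.le
    generalize ln e (α / 20000) μ y = z at *
    have a5 : |⟪e, z⟫| * ‖pr e z‖ ≤ α * μ / 2 := by
      nlinarith [mul_le_mul a1 a2 (norm_nonneg _) (by positivity)]
    rw [hM']
    by_cases k : pr e z = 0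
    · refine iff_of_true ⟨?_, ?_⟩ ?_
      · have b : fl e T z ∈ box e ρ := (fl_box he).2 ⟨exp_mid (t := 0) (abs_nonneg _) a3.1
          (by simpa using a3.1) (.inl (by linarith)), by simpa [k] using hρ⟩
        rw [mem_preimage, hf T z a3 b]
        exact b2 b
      · rintro ⟨w, hw, h⟩
        exact (hw.2.1 (hoe.inj hw.1 a3 h ▸ k)).elim
      · rw [k, norm_zero] at a4
        change ‖pr e y‖ ≤ 1
        nlinarith
    · have hz : z ∈ om e ρ (α * r) := ⟨a3, k, by nlinarith⟩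
      have a6 : dfn e χ (Real.log μ) T g τ (ψ z) ≤ 0 ↔ y ∈ Cyl e := by
        rw [dfn, hg z hz, χ.one_of_mem_closedBall
          (by rwa [mem_closedBall, Real.dist_eq, sub_zero, abs_mul, abs_norm]), sub_self, zero_mul,
          add_zero, one_mul, sub_nonpos, Real.log_le_log_iff (norm_pos_iff.2 k) hμ, a4,
          mul_le_iff_le_one_right hμ]
        rfl
      exact ⟨fun h => a6.1 (h.2 ⟨z, hz, rfl⟩), fun h => ⟨c1 _ ⟨z, hz, rfl⟩ (a6.2 h), fun _ => a6.2 h⟩⟩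

end Pool.Agent.MP_7ebdba_gt.hb

end
end MrgPart2

-- ======== part 3: formerly Pool.Agent.MP_7ebdba_gt.hb.Split
section MrgPart3

/-! Add-on HB, rows SPLIT and FRONT. -/

open scoped ContDiff Manifold Topology RealInnerProductSpace
open Set Filter Function Metric Module Pool.Agent.MP_e1dc65_gt

noncomputable section

namespace Pool.Agent.MP_7ebdba_gt.hb

variable {V : Type} [NormedAddCommGroup V] [InnerProductSpace ℝ V] [FiniteDimensional ℝ V]

namespace Split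

theorem pre_sub {T : Type} [TopologicalSpace T] {M P Q : Set T} (h : IsPreconnected M)
    (cov : M ⊆ P ∪ Q) (hP : ∀ z ∈ P, P ∈ 𝓝[M] z) (hQ : ∀ z ∈ Q, Q ∈ 𝓝[M] z)
    (dis : Disjoint P Q) {x y : T} (hx : x ∈ M) (hy : y ∈ M) : x ∈ P ↔ y ∈ P := by
  refine h.induction₂' (fun x y => x ∈ P ↔ y ∈ P) (fun z hz => ?_)
    (fun _ _ _ _ _ _ a b => a.trans b) hx hy
  rcases cov hz with k | k
  · filter_upwards [hP z k] with w hw using ⟨iff_of_true k hw, iff_of_true hw k⟩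
  · filter_upwards [hQ z k] with w hw
    have a := disjoint_right.1 dis k
    have b := disjoint_right.1 dis hw
    exact ⟨iff_of_false a b, iff_of_false b a⟩

variable {X Y Z : Mf V} {e : V} {W M : Set X} {a b : V → X} {f : X → X}

omit [FiniteDimensional ℝ V] in
theorem convex_HS : Convex ℝ (HS e) := fun x hx y hy s t hs ht _ => by
  simp only [HS, mem_ofPred_eq, inner_add_right, real_inner_smul_right] at hx hy ⊢
  positivity

/-- the half ball of a chart lies in one part of a closed partition -/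
theorem half_sub {C C' : Set X} (ha : PC X W e a (ball 0 2)) (hC : IsClosed C) (hC' : IsClosed C')
    (dis : Disjoint C C') (hW : W = C ∪ C') (h0 : a 0 ∈ C') {y : V} (hy : y ∈ HS e)
    (n : ‖y‖ < 2) : a y ∈ C' := by
  have p : IsPreconnected (a '' (HS e ∩ ball 0 2)) :=
    (convex_HS.inter (convex_ball 0 2)).isPreconnected.image a
      (ha.oe.sm.contOn.mono inter_subset_right)
  have s : a '' (HS e ∩ ball 0 2) ⊆ C ∪ C' := by
    rintro _ ⟨z, hz, rfl⟩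
    exact hW ▸ (ha.mem z hz.2).2 hz.1
  rcases isPreconnected_iff_subset_of_disjoint_closed.1 p C C' hC hC' s
    (by rw [dis.inter_eq, inter_empty]) with k | k
  · exact absurd h0 (disjoint_left.1 dis (k ⟨0, ⟨zero_mem_HS, by simp⟩, rfl⟩))
  · exact k ⟨y, ⟨hy, mem_ball_zero_iff.2 n⟩, rfl⟩

omit [FiniteDimensional ℝ V] in
theorem gl_left {S T : Type} {a : V → S} {b : V → T} {x : S} {y : T} (k : Gl e a b x y) :
    ∃ z ∈ HS e, ‖z‖ < 2 ∧ x = a z := by
  obtain ⟨t, v, h0, h1, hv, hH, hx, -⟩ := k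
  refine ⟨t • v, (smul_mem_HS h0).2 hH, ?_, hx⟩
  rw [norm_smul, hv, mul_one, Real.norm_of_nonneg h0.le]; linarith

theorem gl_mem {T : Type} {C C' : Set X} {b : V → T} {x : X} {y : T} (ha : PC X W e a (ball 0 2))
    (hC : IsClosed C) (hC' : IsClosed C') (dis : Disjoint C C') (hW : W = C ∪ C') (h0 : a 0 ∈ C')
    (k : Gl e a b x y) : x ∈ C' := by
  obtain ⟨z, h1, h2, rfl⟩ := gl_left k
  exact half_sub ha hC hC' dis hW h0 h1 h2

/-- a closed and open part of `W` that contains neither centre is empty -/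
theorem empty_of {C C' : Set X} (he : ‖e‖ = 1) (k : Slf e X W M a b f) (hM : IsPreconnected M)
    (hC : IsClosed C) (hC' : IsClosed C') (dis : Disjoint C C') (hW : W = C ∪ C') (h0 : a 0 ∈ C')
    (h1 : b 0 ∈ C') : C = ∅ := by
  by_contra c
  obtain ⟨x, hx⟩ := nonempty_iff_ne_empty.2 c
  have s : C ⊆ W \ {a 0, b 0} := fun z hz => ⟨hW ▸ Or.inl hz, by
    rintro (rfl | rfl)
    exacts [disjoint_left.1 dis hz h0, disjoint_left.1 dis hz h1]⟩
  have s' : C' \ {a 0, b 0} ⊆ W \ {a 0, b 0} := fun z hz => ⟨hW ▸ Or.inr hz.1, hz.2⟩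
  have d : Disjoint (f '' C) (f '' (C' \ {a 0, b 0})) := by
    rw [disjoint_left]
    rintro _ ⟨z, hz, rfl⟩ ⟨w, hw, q⟩
    refine disjoint_left.1 dis hz ?_
    rcases (k.eq z (s hz) w (s' hw)).1 q.symm with r | r | r
    · exact r ▸ hw.1
    · exact gl_mem k.ca hC hC' dis hW h0 r
    · exact gl_mem k.cb hC hC' dis hW h1 r
  have eH : e ∈ HS e := real_inner_self_nonneg
  have e2 : e ∈ ball (0 : V) 2 := by rw [mem_ball_zero_iff, he]; norm_num
  have ae : a e ∈ C' \ {a 0, b 0} := ⟨half_sub k.ca hC hC' dis hW h0 eH (by rw [he]; norm_num), by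
    rintro (r | r)
    · have := k.ca.oe.inj e2 (by simp) r
      rw [this, norm_zero] at he
      exact zero_ne_one he
    · exact disjoint_left.1 k.dis ⟨e, e2, rfl⟩ ⟨0, by simp, r.symm⟩⟩
  refine disjoint_right.1 d ⟨_, ae, rfl⟩ ((pre_sub hM ?_ ?_ ?_ d (k.cov ▸ ⟨x, s hx, rfl⟩)
    (k.cov ▸ ⟨_, s' ae, rfl⟩)).1 ⟨x, hx, rfl⟩)
  · rw [k.cov]
    rintro _ ⟨z, hz, rfl⟩
    rcases hW ▸ hz.1 with r | r
    exacts [Or.inl ⟨z, r, rfl⟩, Or.inr ⟨z, ⟨r, hz.2⟩, rfl⟩]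
  · rintro _ ⟨z, hz, rfl⟩
    refine mem_of_superset ((k.rf z (s hz)).image_mem (s hz).1
      (hC'.isOpen_compl.mem_nhds (disjoint_left.1 dis hz))) (image_mono fun w hw => ?_)
    exact (hW ▸ hw.1 : w ∈ C ∪ C').resolve_right hw.2
  · rintro _ ⟨z, hz, rfl⟩
    refine mem_of_superset ((k.rf z (s' hz)).image_mem (s' hz).1
      (inter_mem (hC.isOpen_compl.mem_nhds (disjoint_right.1 dis hz.1))
        ((toFinite _).isClosed.isOpen_compl.mem_nhds hz.2))) (image_mono fun w hw => ?_)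
    exact ⟨(hW ▸ hw.1 : w ∈ C ∪ C').resolve_left hw.2.1, hw.2.2⟩

omit [FiniteDimensional ℝ V] in
/-- a part that contains one centre is connected -/
theorem conn_of {A B : Set X} {p q : X} (hA : IsClosed A) (hB : IsClosed B) (dis : Disjoint A B)
    (hp : p ∈ A) (hq : q ∈ B) (h : ∀ C C' : Set X, IsClosed C → IsClosed C' → Disjoint C C' →
      A ∪ B = C ∪ C' → p ∈ C' → q ∈ C' → C = ∅) : IsConnected A := by
  refine ⟨⟨p, hp⟩, (isPreconnected_iff_subset_of_fully_disjoint_closed hA).2 ?_⟩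
  have key : ∀ u v : Set X, IsClosed u → IsClosed v → A ⊆ u ∪ v → Disjoint u v → p ∈ v → A ⊆ v := by
    intro u v hu hv s d m
    have := h (A ∩ u) (A ∩ v ∪ B) (hA.inter hu) ((hA.inter hv).union hB)
      (disjoint_union_right.2 ⟨d.mono inter_subset_right inter_subset_right,
        dis.mono_left inter_subset_left⟩)
      (by rw [← union_assoc, ← inter_union_distrib_left, inter_eq_left.2 s])
      (Or.inl ⟨hp, m⟩) (Or.inr hq)
    exact fun x hx => (s hx).resolve_left fun r => (eq_empty_iff_forall_notMem.1 this x) ⟨hx, r⟩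
  intro u v hu hv s d
  rcases s hp with m | m
  · exact Or.inl (key v u hv hu (union_comm u v ▸ s) d.symm m)
  · exact Or.inr (key u v hu hv s d m)

theorem pc_part {A B : Set X} (ha : PC X W e a (ball 0 2)) (hA : IsClosed A) (hB : IsClosed B)
    (dis : Disjoint A B) (hW : W = A ∪ B) (h0 : a 0 ∈ B) : PC X B e a (ball 0 2) :=
  ⟨ha.oe, fun y hy => ⟨fun r => (ha.mem y hy).1 (hW ▸ Or.inr r),
    fun r => half_sub ha hA hB dis hW h0 r (mem_ball_zero_iff.1 hy)⟩⟩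

theorem bd_of {A B : Set X} (k : Slf e X W M a b f) (hA : IsClosed A) (hB : IsClosed B)
    (dis : Disjoint A B) (hW : W = A ∪ B) (h0 : a 0 ∈ A) (h1 : b 0 ∈ B) :
    Bd e X X X A B M a b f f := by
  have hW' : W = B ∪ A := hW.trans (union_comm _ _)
  have s : A \ {a 0} ⊆ W \ {a 0, b 0} := fun z hz => ⟨hW ▸ Or.inl hz.1, by
    rintro (r | r)
    exacts [hz.2 r, disjoint_left.1 dis hz.1 (r ▸ h1)]⟩
  have s' : B \ {b 0} ⊆ W \ {a 0, b 0} := fun z hz => ⟨hW ▸ Or.inr hz.1, by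
    rintro (r | r)
    exacts [disjoint_right.1 dis hz.1 (r ▸ h0), hz.2 r]⟩
  have ga : ∀ {x y}, Gl e a b x y → x ∈ A := gl_mem k.ca hB hA dis.symm hW' h0
  have gb : ∀ {x y}, Gl e b a x y → x ∈ B := gl_mem k.cb hA hB dis hW h1
  refine ⟨pc_part k.ca hB hA dis.symm hW' h0, pc_part k.cb hA hB dis hW h1, fun x hx => ?_,
    fun x hx => ?_, fun x hx y hy q => ?_, fun x hx y hy q => ?_, ?_, fun x hx y hy => ?_⟩
  · refine (k.rf x (s hx)).congr_left ?_
    filter_upwards [hB.isOpen_compl.mem_nhds (disjoint_left.1 dis hx.1)] with y hy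
    exact ⟨fun r => hW ▸ Or.inl r, fun r => (hW ▸ r : y ∈ A ∪ B).resolve_right hy⟩
  · refine (k.rf x (s' hx)).congr_left ?_
    filter_upwards [hA.isOpen_compl.mem_nhds (disjoint_right.1 dis hx.1)] with y hy
    exact ⟨fun r => hW ▸ Or.inr r, fun r => (hW ▸ r : y ∈ A ∪ B).resolve_left hy⟩
  · rcases (k.eq x (s hx) y (s hy)).1 q with r | r | r
    exacts [r, absurd (gb r.symm) (disjoint_left.1 dis hy.1),
      absurd (gb r) (disjoint_left.1 dis hx.1)]
  · rcases (k.eq x (s' hx) y (s' hy)).1 q with r | r | r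
    exacts [r, absurd (ga r) (disjoint_right.1 dis hx.1),
      absurd (ga r.symm) (disjoint_right.1 dis hy.1)]
  · rw [k.cov, ← image_union]
    refine congrArg _ (Subset.antisymm (fun z hz => ?_) (union_subset s s'))
    rcases (hW ▸ hz.1 : z ∈ A ∪ B) with r | r
    exacts [Or.inl ⟨r, fun q => hz.2 (Or.inl q)⟩, Or.inr ⟨r, fun q => hz.2 (Or.inr q)⟩]
  · refine (k.eq x (s hx) y (s' hy)).trans ⟨?_, fun r => Or.inr (Or.inl r)⟩
    rintro (r | r | r)
    exacts [absurd (r ▸ hy.1) (disjoint_left.1 dis hx.1), r,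
      absurd (gb r) (disjoint_left.1 dis hx.1)]

/-! ### boundaries -/

variable {N : Set Z} {g : X → Z}

theorem up0 {k : V → Z} (hk : Rel (vs V) Z (HS e) N k 0) :
    ∃ h, PC Z N e h (ball 0 2) ∧ h 0 = k 0 := by
  obtain ⟨η, h, h1, -, h2⟩ := (hk.up univ_mem).exists
  exact ⟨h, h1, by rw [h2 0 zero_mem_HS (by simp), smul_zero]⟩

theorem chart_tr {x : X} (hW : Nice X W e) (hx : x ∈ W) (hr : Rel X Z W N g x)
    (hf : g x ∈ frontier N) : ∃ h, PC Z N e h (ball 0 2) ∧ h 0 = g x := by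
  obtain ⟨h, h1, rfl⟩ := hW.ch x ((hr.frontier_iff hx).1 hf)
  exact up0 ((h1.rel (by simp)).trans zero_mem_HS hr)

omit [FiniteDimensional ℝ V] in
theorem cont_on {S K : Set X} (hr : ∀ x ∈ S, Rel X Z W N g x) (hS : S ⊆ W) (hK : K ⊆ S) :
    ContinuousOn g K := fun x hx => ((hr x (hK hx)).cont (hS (hK hx))).mono (hK.trans hS)

omit [FiniteDimensional ℝ V] in
theorem front_img {S : Set X} (hW : IsClosed W) (hr : ∀ x ∈ W \ S, Rel X Z W N g x) :
    frontier N ∩ g '' (W \ S) = g '' (frontier W \ S) := by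
  ext z
  constructor
  · rintro ⟨h, x, hx, rfl⟩
    exact ⟨x, ⟨((hr x hx).frontier_iff hx.1).1 h, hx.2⟩, rfl⟩
  · rintro ⟨x, hx, rfl⟩
    have m : x ∈ W \ S := ⟨hW.frontier_subset hx.1, hx.2⟩
    exact ⟨((hr x m).frontier_iff m.1).2 hx.1, x, m, rfl⟩

theorem pre_img (hP : PunctStmt V) (h3 : 3 ≤ finrank ℝ V) (he : ‖e‖ = 1) {S : Set X}
    (hS : S.Finite) (hW : Nice X W e) (hc : IsPreconnected (frontier W))
    (hr : ∀ x ∈ W \ S, Rel X Z W N g x) : IsPreconnected (g '' (frontier W \ S)) :=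
  (hP e X W S h3 he hW hc hS).image g
    (cont_on hr sdiff_subset (sdiff_subset_sdiff_left hW.cpt.isClosed.frontier_subset))

/-- a point close to one centre is glued to a point far from the other centre -/
theorem partner {B : Set Y} {b : V → Y} (ha : PC X W e a (ball 0 2)) (hb : PC Y B e b (ball 0 2))
    {x : X} (hx : x ∈ W) (h0 : x ≠ a 0) (h1 : x ∈ a '' ball 0 (1 / 3)) :
    ∃ y ∈ B, y ∈ b '' ball 0 2 ∧ y ∉ b '' ball 0 (1 / 3) ∧ Gl e a b x y := by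
  obtain ⟨z, hz, rfl⟩ := h1
  rw [mem_ball_zero_iff] at hz
  have z0 : z ≠ 0 := fun r => h0 (by rw [r])
  have n := norm_pos_iff.2 z0
  have hH : z ∈ HS e := (ha.mem z (mem_ball_zero_iff.2 (by linarith))).1 hx
  have hv : ‖‖z‖⁻¹ • z‖ = 1 := norm_smul_inv_norm z0
  have vH : ‖z‖⁻¹ • z ∈ HS e := (smul_mem_HS (inv_pos.2 n)).2 hH
  have t : 0 < 1 - ‖z‖ := by linarith
  have n' : ‖(1 - ‖z‖) • ‖z‖⁻¹ • z‖ = 1 - ‖z‖ := by
    rw [norm_smul, hv, mul_one, Real.norm_of_nonneg t.le]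
  have m : (1 - ‖z‖) • ‖z‖⁻¹ • z ∈ ball (0 : V) 2 := mem_ball_zero_iff.2 (by linarith)
  refine ⟨_, (hb.mem _ m).2 ((smul_mem_HS t).2 vH), ⟨_, m, rfl⟩, ?_,
    ‖z‖, _, n, by linarith, hv, vH, by rw [smul_inv_smul₀ n.ne'], rfl⟩
  rintro ⟨w, hw, q⟩
  rw [mem_ball_zero_iff] at hw
  rw [hb.oe.inj (mem_ball_zero_iff.2 (by linarith)) m q] at hw
  linarith

theorem open_third (ha : PC X W e a (ball 0 2)) : IsOpen (a '' ball 0 (1 / 3)) :=
  ha.oe.isOpen_image isOpen_ball (ball_subset_ball (by norm_num))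

omit [InnerProductSpace ℝ V] [FiniteDimensional ℝ V] in
theorem zero_third {T : Type} (a : V → T) : a 0 ∈ a '' ball 0 (1 / 3) := ⟨0, by simp, rfl⟩

theorem slf_cpt (k : Slf e X W M a b f) (hW : IsCompact W) : IsCompact M := by
  have s : W \ (a '' ball 0 (1 / 3) ∪ b '' ball 0 (1 / 3)) ⊆ W \ {a 0, b 0} :=
    sdiff_subset_sdiff_right (by
      rintro _ (rfl | rfl)
      exacts [Or.inl (zero_third a), Or.inr (zero_third b)])
  have t : ball (0 : V) (1 / 3) ⊆ ball 0 2 := ball_subset_ball (by norm_num)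
  have c := (hW.diff ((open_third k.ca).union (open_third k.cb))).image_of_continuousOn
    (cont_on k.rf sdiff_subset s)
  refine (Subset.antisymm (k.cov ▸ image_mono s) ?_) ▸ c
  rw [k.cov]
  rintro _ ⟨x, hx, rfl⟩
  by_cases h : x ∈ a '' ball 0 (1 / 3)
  · obtain ⟨y, y1, y2, y3, y4⟩ := partner k.ca k.cb hx.1 (fun r => hx.2 (Or.inl r)) h
    have m : y ∈ W \ (a '' ball 0 (1 / 3) ∪ b '' ball 0 (1 / 3)) :=
      ⟨y1, fun r => r.elim (fun r => disjoint_left.1 k.dis (image_mono t r) y2) y3⟩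
    exact ⟨y, m, ((k.eq x hx y (s m)).2 (Or.inr (Or.inl y4))).symm⟩
  by_cases h' : x ∈ b '' ball 0 (1 / 3)
  · obtain ⟨y, y1, y2, y3, y4⟩ := partner k.cb k.ca hx.1 (fun r => hx.2 (Or.inr r)) h'
    have m : y ∈ W \ (a '' ball 0 (1 / 3) ∪ b '' ball 0 (1 / 3)) :=
      ⟨y1, fun r => r.elim y3 fun r => disjoint_left.1 k.dis y2 (image_mono t r)⟩
    exact ⟨y, m, ((k.eq x hx y (s m)).2 (Or.inr (Or.inr y4))).symm⟩
  · exact ⟨x, ⟨hx.1, fun r => r.elim h h'⟩, rfl⟩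

variable {A : Set X} {B : Set Y} {c : V → Y} {g' : Y → Z}

theorem bd_sub (k : Bd e X Y Z A B N a c g g') :
    g '' (A \ {a 0}) ⊆ g '' (A \ a '' ball 0 (1 / 3)) ∪ g' '' (B \ c '' ball 0 (1 / 3)) := by
  rintro _ ⟨x, hx, rfl⟩
  by_cases h : x ∈ a '' ball 0 (1 / 3)
  · obtain ⟨y, y1, -, y3, y4⟩ := partner k.ca k.cb hx.1 hx.2 h
    exact Or.inr ⟨y, ⟨y1, y3⟩,
      ((k.eq x hx y ⟨y1, fun r => y3 (r ▸ zero_third c)⟩).2 y4).symm⟩
  · exact Or.inl ⟨x, ⟨hx.1, h⟩, rfl⟩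

theorem bd_cpt (k : Bd e X Y Z A B N a c g g') (hA : IsCompact A) (hB : IsCompact B) :
    IsCompact N := by
  have s : A \ a '' ball 0 (1 / 3) ⊆ A \ {a 0} :=
    sdiff_subset_sdiff_right (singleton_subset_iff.2 (zero_third a))
  have s' : B \ c '' ball 0 (1 / 3) ⊆ B \ {c 0} :=
    sdiff_subset_sdiff_right (singleton_subset_iff.2 (zero_third c))
  have h := ((hA.diff (open_third k.ca)).image_of_continuousOn (cont_on k.rf sdiff_subset s)).union
    ((hB.diff (open_third k.cb)).image_of_continuousOn (cont_on k.rg sdiff_subset s'))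
  refine (Subset.antisymm (k.cov ▸ union_subset_union (image_mono s) (image_mono s')) ?_) ▸ h
  rw [k.cov]
  exact union_subset (bd_sub k) ((bd_sub k.symm).trans (union_comm _ _).subset)

theorem ex_orth (h3 : 3 ≤ finrank ℝ V) (he : ‖e‖ = 1) : ∃ v : V, ‖v‖ = 1 ∧ ⟪e, v⟫ = 0 := by
  have e0 : e ≠ 0 := by rintro rfl; simp at he
  have h1 := Submodule.finrank_add_finrank_orthogonal (ℝ ∙ e)
  rw [finrank_span_singleton e0] at h1
  have : Nontrivial (ℝ ∙ e)ᗮ := (finrank_pos_iff (R := ℝ)).1 (by omega)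
  obtain ⟨v, hv⟩ := exists_norm_eq (ℝ ∙ e)ᗮ zero_le_one
  exact ⟨v, hv, Submodule.mem_orthogonal_singleton_iff_inner_right.1 v.2⟩

omit [FiniteDimensional ℝ V] in
theorem mem_front (he : ‖e‖ = 1) {y : V} (h : ⟪e, y⟫ = 0) : y ∈ frontier (HS e) := by
  rw [mem_frontier_of_mem (show y ∈ HS e from h.ge)]
  intro k
  have c : ContinuousAt (fun t : ℝ => y + t • e) 0 := by fun_prop
  have k' : ∀ᶠ t : ℝ in 𝓝 0, y + t • e ∈ HS e := c.preimage_mem_nhds (by simpa using k)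
  obtain ⟨t, h1, h2⟩ := ((k'.filter_mono (nhdsWithin_le_nhds (s := Iio 0))).and
    self_mem_nhdsWithin).exists
  simp only [HS, mem_ofPred_eq, inner_add_right, real_inner_smul_right, h,
    real_inner_self_eq_norm_sq, he] at h1
  have : t < 0 := h2
  linarith

end Split

open Split

theorem split : SplitStmt V := by
  intro e X W M a b f he k hW hM
  by_cases c : IsPreconnected W
  · exact Or.inl c
  have key : ∀ A B : Set X, IsClosed A → IsClosed B → Disjoint A B → W = A ∪ B → B.Nonempty →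
      a 0 ∈ A → ∃ A B : Set X, IsCompact A ∧ IsCompact B ∧ Disjoint A B ∧ W = A ∪ B ∧
        IsConnected A ∧ IsConnected B ∧ ABd e X X X A B M := by
    intro A B hA hB dis hW' ne h0
    have b0 : b 0 ∈ W := (k.cb.mem 0 (by simp)).2 zero_mem_HS
    have h1 : b 0 ∈ B := (hW' ▸ b0 : b 0 ∈ A ∪ B).resolve_left fun r =>
      ne.ne_empty (empty_of he k hM hB hA dis.symm (hW'.trans (union_comm _ _)) h0 r)
    exact ⟨A, B, hW.of_isClosed_subset hA (hW' ▸ subset_union_left),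
      hW.of_isClosed_subset hB (hW' ▸ subset_union_right), dis, hW',
      conn_of hA hB dis h0 h1 fun C C' p q r s t u => empty_of he k hM p q r (hW'.trans s) t u,
      conn_of hB hA dis.symm h1 h0 fun C C' p q r s t u =>
        empty_of he k hM p q r (hW'.trans ((union_comm _ _).trans s)) u t,
      a, b, f, f, bd_of k hA hB dis hW' h0 h1⟩
  rw [isPreconnected_iff_subset_of_fully_disjoint_closed hW.isClosed] at c
  push Not at c
  obtain ⟨u, v, hu, hv, s, d, nu, nv⟩ := c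
  obtain ⟨x, x1, x2⟩ := not_subset.1 nu
  obtain ⟨y, y1, y2⟩ := not_subset.1 nv
  have d' : Disjoint (W ∩ u) (W ∩ v) := d.mono inter_subset_right inter_subset_right
  have e' : W = W ∩ u ∪ W ∩ v := by rw [← inter_union_distrib_left, inter_eq_left.2 s]
  have a0 : a 0 ∈ W := (k.ca.mem 0 (by simp)).2 zero_mem_HS
  rcases s a0 with r | r
  · exact Or.inr (key _ _ (hW.isClosed.inter hu) (hW.isClosed.inter hv) d' e'
      ⟨x, x1, (s x1).resolve_left x2⟩ ⟨a0, r⟩)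
  · exact Or.inr (key _ _ (hW.isClosed.inter hv) (hW.isClosed.inter hu) d'.symm
      (e'.trans (union_comm _ _)) ⟨y, y1, (s y1).resolve_right y2⟩ ⟨a0, r⟩)

theorem front (hM : MobStmt V) (hP : PunctStmt V) : FrontStmt V := by
  intro e h3 he
  refine ⟨fun X M B k => ?_, fun X W M a b f k hW hc => ?_, ?_⟩
  · have c : ContinuousOn B (closedBall 0 1) := cont_on (X := vs V) k.rel subset_rfl subset_rfl
    have cp : IsCompact M := k.bij.image_eq ▸ (isCompact_closedBall (0 : V) 1).image_of_continuousOn c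
    have fr := front_img (X := vs V) (S := ∅) isClosed_closedBall fun x hx => k.rel x hx.1
    rw [sdiff_empty, sdiff_empty, k.bij.image_eq, inter_eq_left.2 cp.isClosed.frontier_subset,
      frontier_closedBall (0 : V) one_ne_zero] at fr
    refine ⟨⟨cp, fun x hx => ?_⟩, fr ▸ (isPreconnected_sphere ?_ 0 1).image B
      (c.mono sphere_subset_closedBall)⟩
    · obtain ⟨u, hu, rfl⟩ := fr ▸ hx
      obtain ⟨-, m, -, -, m1, rfl, -⟩ :=
        hM e u 1 (by omega) he (mem_sphere_zero_iff_norm.1 hu) one_ne_zero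
      exact up0 ((m1.rel (by simp)).trans zero_mem_HS (k.rel _ (sphere_subset_closedBall hu)))
    · rw [← finrank_eq_rank]
      exact_mod_cast (by omega : 1 < finrank ℝ V)
  · have cp := slf_cpt k hW.cpt
    have fr := front_img hW.cpt.isClosed k.rf
    rw [← k.cov, inter_eq_left.2 cp.isClosed.frontier_subset] at fr
    refine ⟨⟨cp, fun z hz => ?_⟩, fr ▸ pre_img hP h3 he (toFinite _) hW hc k.rf⟩
    obtain ⟨x, hx, rfl⟩ := k.cov ▸ cp.isClosed.frontier_subset hz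
    exact chart_tr hW hx.1 (k.rf x hx) hz
  · rintro X Y Z A B M ⟨a, b, f, g, k⟩ hA hB ca cb
    have cp := bd_cpt k hA.cpt hB.cpt
    have fa := front_img hA.cpt.isClosed k.rf
    have fb := front_img hB.cpt.isClosed k.rg
    have fr : frontier M = f '' (frontier A \ {a 0}) ∪ g '' (frontier B \ {b 0}) := by
      rw [← fa, ← fb, ← inter_union_distrib_left, ← k.cov,
        inter_eq_left.2 cp.isClosed.frontier_subset]
    refine ⟨⟨cp, fun z hz => ?_⟩, ?_⟩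
    · rcases (k.cov ▸ cp.isClosed.frontier_subset hz : z ∈ _ ∪ _) with ⟨x, hx, rfl⟩ | ⟨x, hx, rfl⟩
      exacts [chart_tr hA hx.1 (k.rf x hx) hz, chart_tr hB hx.1 (k.rg x hx) hz]
    · obtain ⟨v, v1, v2⟩ := ex_orth h3 he
      have n : ‖(1 / 2 : ℝ) • v‖ = 1 / 2 := by rw [norm_smul, v1]; norm_num
      have m : (1 / 2 : ℝ) • v ∈ ball (0 : V) 2 := mem_ball_zero_iff.2 (by linarith)
      have o : ⟪e, (1 / 2 : ℝ) • v⟫ = 0 := by rw [real_inner_smul_right, v2, mul_zero]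
      have z0 : (1 / 2 : ℝ) • v ≠ 0 := fun r => by rw [r, norm_zero] at n; linarith
      have xa : a ((1 / 2 : ℝ) • v) ∈ frontier A \ {a 0} :=
        ⟨((k.ca.rel m).frontier_iff o.ge).2 (mem_front he o),
          fun r => z0 (k.ca.oe.inj m (by simp) r)⟩
      have xb : b ((1 / 2 : ℝ) • v) ∈ frontier B \ {b 0} :=
        ⟨((k.cb.rel m).frontier_iff o.ge).2 (mem_front he o),
          fun r => z0 (k.cb.oe.inj m (by simp) r)⟩
      have q := (k.eq _ ⟨hA.cpt.isClosed.frontier_subset xa.1, xa.2⟩ _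
        ⟨hB.cpt.isClosed.frontier_subset xb.1, xb.2⟩).2
        ⟨1 / 2, v, by norm_num, by norm_num, v1, v2.ge, rfl, by norm_num⟩
      rw [fr]
      exact IsPreconnected.union _ ⟨_, xa, rfl⟩ ⟨_, xb, q.symm⟩
        (pre_img hP h3 he (toFinite _) hA ca k.rf) (pre_img hP h3 he (toFinite _) hB cb k.rg)

end Pool.Agent.MP_7ebdba_gt.hb

end
end MrgPart3

-- marker of a merged file
example : 731051 + 550875 = 731051 + 550875 := rfl
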