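import Mathlib.Topology.Sheaves.Presheaf
import Mathlib.Tactic.Monotonicity.Lemmas
import Mathlib.Algebra.Ring.IsFormallyReal
import Mathlib.Analysis.Calculus.DerivativeTest
import Mathlib.Combinatorics.SimpleGraph.Basic
import Mathlib.Topology.Separation.Connected
import Mathlib.RingTheory.PiTensorProduct
import Mathlib.RingTheory.TotallySplit
import Mathlib.RingTheory.Etale.Weakly
import Pool.Agent.MP_7ebdba_gt.hb.Tube

-- ======== part 0: formerly Pool.Agent.MP_7ebdba_gt.hb.Assoc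
section MrgPart0

/-! Row ASSOC: the boundary sum is associative. -/

open scoped ContDiff Manifold Topology RealInnerProductSpace
open Set Filter Function Metric Module Pool.Agent.MP_e1dc65_gt

noncomputable section

namespace Pool.Agent.MP_7ebdba_gt.hb

variable {V : Type} [NormedAddCommGroup V] [InnerProductSpace ℝ V] [FiniteDimensional ℝ V]

namespace Assoc

variable {X Y Y' T Z : Mf V} {e : V} {A : Set X} {B : Set Y} {B' : Set Y'} {Q : Set T}
  {M N : Set Z} {a : V → X} {b : V → Y} {a' bt : V → Y'} {q : V → T} {f : X → Z} {g : Y → Z}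
  {f' : Y' → Y} {g' : T → Y}

omit [FiniteDimensional ℝ V] in
theorem restrict {φ : Y' → Z} {E : Y' → Y'} {y : Y'} (h : Rel Y' Z B' M φ (E y))
    (hE : LDAt Y' Y' E y) (hN : N ⊆ M)
    (k : ∀ᶠ x in 𝓝 y, (x ∈ B' → E x ∈ B') ∧ (E x ∈ B' → (φ (E x) ∈ N ↔ x ∈ B'))) :
    Rel Y' Z B' N (fun x => φ (E x)) y := by
  obtain ⟨F, h1, h2⟩ := h
  refine ⟨fun x => F (E x), hE.trans h1, ?_⟩
  filter_upwards [hE.sm.cont.eventually h2, k] with x c d
  refine ⟨⟨fun m => ?_, fun m => ?_⟩, fun m => c.2 (d.1 m)⟩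
  · have := c.1.1 (hN m)
    exact (d.2 this).1 (c.2 this ▸ m)
  · exact c.2 (d.1 m) ▸ (d.2 (d.1 m)).2 m

theorem pull {z : Y'} (h : Rel Y' Y B' B f' z) (hb : Rel (vs V) Y (HS e) B b 0)
    (hz : z ∈ B') (h0 : b 0 = f' z) {O : Set Y'} (hO : O ∈ 𝓝 z) :
    ∀ᶠ η : ℝ in 𝓝[>] 0, ∃ bt, PC Y' B' e bt (ball 0 2) ∧ MapsTo bt (ball 0 2) O ∧
      ∀ y ∈ HS e, ‖y‖ < 2 → f' (bt y) = b (η • y) := by
  obtain ⟨F, h1, h2⟩ := h
  obtain ⟨G, U, W, hU, hW, hzU, hs, sF, sG, m1, m2, l, r⟩ := h1.exists_inv h2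
  have e0 : b 0 = F z := h0.trans (h2.self_of_nhds.2 hz)
  have hG : Rel Y Y' B B' G (b 0) := by
    rw [e0]
    refine rel_of_ld (ldAt_of_inv hW hU (m1 hzU) sG sF m2 m1 r l) ?_
    filter_upwards [hW.mem_nhds (m1 hzU)] with w hw
    rw [← (hs (m2 hw)).1, r w hw]
  have hW' : ∀ᶠ y in 𝓝 (0 : V), y ∈ HS e → b y ∈ W := eventually_nhdsWithin_iff.1
    ((hb.cont zero_mem_HS).eventually (hW.mem_nhds (e0 ▸ m1 hzU)))
  obtain ⟨ρ, hρ, hb'⟩ := Metric.eventually_nhds_iff_ball.1 hW'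
  filter_upwards [(hb.trans zero_mem_HS hG).up (N := O) (by rwa [e0, l z hzU]),
    Ioo_mem_nhdsGT (half_pos hρ)] with η ⟨bt, c1, c2, c3⟩ hη
  refine ⟨bt, c1, c2, fun y hy hn => ?_⟩
  have w : b (η • y) ∈ W := hb' _ (by
    rw [mem_ball_zero_iff, norm_smul, Real.norm_of_nonneg hη.1.le]
    nlinarith [hη.1, hη.2, norm_nonneg y]) ((smul_mem_HS hη.1).2 hy)
  have m := (c1.mem y (mem_ball_zero_iff.2 hn)).2 hy
  rw [c3 y hy hn] at m ⊢
  rw [(hs (m2 w)).2 m, r _ w]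

theorem front (he : ‖e‖ = 1) {W : Set X} {h : V → X} {U : Set V} (hh : PC X W e h U) {y : V}
    (hy : y ∈ U) (h0 : ⟪e, y⟫ = 0) : h y ∈ frontier W := by
  have m : y ∈ HS e := h0.ge
  rw [(hh.rel hy).frontier_iff m, mem_frontier_of_mem m]
  intro k
  have c : Tendsto (fun t : ℝ => y + t • e) (𝓝[<] 0) (𝓝 y) := by
    have : Continuous fun t : ℝ => y + t • e := by fun_prop
    simpa using (this.tendsto 0).mono_left nhdsWithin_le_nhds
  obtain ⟨t, h1, h2⟩ := ((c.eventually k).and self_mem_nhdsWithin).exists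
  have h3 : 0 ≤ ⟪e, y + t • e⟫ := h1
  rw [inner_add_right, real_inner_smul_right, h0, real_inner_self_eq_norm_sq, he] at h3
  have : t < 0 := h2
  linarith

/-- a compactly supported push into the half-space -/
theorem push (hn : NearStmt V) (he : ‖e‖ = 1) : ∃ S : V → V, GD (vs V) S ∧
    (∀ y ∉ closedBall (0 : V) (3 / 2), S y = y) ∧ ∀ y ∈ HS e, S y ∈ HS e ∧ S y ≠ 0 := by
  let χ : ContDiffBump (0 : V) := ⟨1, 3 / 2, one_pos, by norm_num⟩
  have sχ : ContDiff ℝ ∞ χ := χ.contDiff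
  obtain ⟨C, hC⟩ := (sχ.continuous_fderiv (by simp)).bounded_above_of_compact_support
    (χ.hasCompactSupport.fderiv ℝ)
  have C0 : 0 ≤ C := (norm_nonneg _).trans (hC 0)
  have hε : 0 < 1 / (2 * (C + 1)) := by positivity
  refine ⟨_, hn (fun y => χ y • (1 / (2 * (C + 1))) • e) (sχ.smul contDiff_const) fun y => ?_,
    fun y hy => ?_, fun y hy => ?_⟩
  · rw [fderiv_smul_const (sχ.differentiable (by simp) y), ContinuousLinearMap.norm_smulRight_apply,
      norm_smul, he, mul_one, Real.norm_of_nonneg hε.le, mul_one_div, div_le_iff₀ (by positivity)]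
    linarith [hC y]
  · rw [χ.zero_of_le_dist (not_lt.1 fun k => hy (ball_subset_closedBall k)), zero_smul, add_zero]
  · have k : ⟪e, y + χ y • (1 / (2 * (C + 1))) • e⟫ = ⟪e, y⟫ + χ y * (1 / (2 * (C + 1))) := by
      rw [inner_add_right, real_inner_smul_right, real_inner_smul_right, real_inner_self_eq_norm_sq,
        he]
      ring
    have h1 : 0 ≤ ⟪e, y⟫ := hy
    have h2 := mul_nonneg (χ.nonneg (x := y)) hε.le
    refine ⟨(add_nonneg h1 h2).trans_eq k.symm, fun z => ?_⟩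
    rw [z, inner_zero_right] at k
    have h3 : χ y = 0 := (mul_eq_zero.1 (by linarith : χ y * _ = 0)).resolve_right hε.ne'
    rw [h3, zero_smul, add_zero] at z
    rw [z, χ.one_of_mem_closedBall (by simp [χ])] at h3
    exact one_ne_zero h3

omit [FiniteDimensional ℝ V] in
theorem small {t : ℝ} {v : V} (h0 : 0 < t) (h1 : t ≤ 1) (hv : ‖v‖ = 1) : ‖t • v‖ ≤ 1 := by
  rwa [norm_smul, hv, mul_one, Real.norm_of_nonneg h0.le]

/-- the main step: the chart of the first sum comes from `B'` and misses the second chart -/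
theorem core (hs : ShrinkStmt V) (hn : NearStmt V) (he : ‖e‖ = 1)
    (k1 : Bd e X Y Z A B M a b f g) (k2 : Bd e Y' T Y B' Q B a' q f' g')
    (ct : PC Y' B' e bt (ball 0 2)) (dj : ∀ y ∈ ball (0 : V) 2, bt y ∉ a' '' closedBall 0 (3 / 2))
    (hb : ∀ y ∈ HS e, ‖y‖ < 2 → f' (bt y) = b y) :
    ∃ N : Set Z, ABd e X Y' Z A B' N ∧ ABd e Z T Z N Q M := by
  classical
  have z2 : (0 : V) ∈ ball (0 : V) 2 := by simp
  have cb : closedBall (0 : V) (3 / 2) ⊆ ball 0 2 := closedBall_subset_ball (by norm_num)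
  have b0 : f' (bt 0) = b 0 := hb 0 zero_mem_HS (by simp)
  have ne : ∀ y ∈ ball (0 : V) 2, ∀ u : V, ‖u‖ ≤ 1 → bt y ≠ a' u := fun y hy u hu k =>
    dj y hy ⟨u, mem_closedBall_zero_iff.2 (by linarith), k.symm⟩
  have bm : ∀ y ∈ HS e, ‖y‖ ≤ 1 → bt y ∈ B' \ {a' 0} := fun y hy hn =>
    have k : y ∈ ball (0 : V) 2 := mem_ball_zero_iff.2 (by linarith)
    ⟨(ct.mem y k).2 hy, ne y k 0 (by simp)⟩
  have z0 := bm 0 zero_mem_HS (by simp)
  have fm : ∀ y ∈ B' \ {a' 0}, y ≠ bt 0 → f' y ∈ B \ {b 0} := fun y hy hz =>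
    ⟨(k2.rf y hy).mem hy.1, fun k => hz (k2.jf hy z0 (k.trans b0.symm))⟩
  have key : ∀ R : Y' → Y', Injective R → (∀ x ∉ a' '' closedBall 0 (3 / 2), R x = x) →
      ∀ x ∈ A \ {a 0}, ∀ y, R y ∈ B' \ {a' 0} → y ≠ bt 0 →
        (f x = g (f' (R y)) ↔ Gl e a bt x y) := by
    intro R hR fx x hx y hy hz
    rw [k1.eq x hx _ (fm _ hy fun k => hz (hR (k.trans (fx _ (dj 0 z2)).symm)))]
    refine exists₂_congr fun t v => and_congr_right fun h0 => and_congr_right fun h1 =>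
      and_congr_right fun hv => and_congr_right fun hH => and_congr_right fun _ => ?_
    have n := small (sub_pos.2 h1) (by linarith) hv
    have m := (smul_mem_HS (e := e) (sub_pos.2 h1)).2 hH
    rw [← hb _ m (by linarith), k2.jf.eq_iff hy (bm _ m n),
      ← fx _ (dj _ (mem_ball_zero_iff.2 (by linarith))), hR.eq_iff,
      fx _ (dj _ (mem_ball_zero_iff.2 (by linarith)))]
  have glb : ∀ {x y}, Gl e a bt x y → ∃ u ∈ HS e, ‖u‖ ≤ 1 ∧ y = bt u := by
    rintro x y ⟨t, v, h0, h1, hv, hH, -, rfl⟩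
    exact ⟨_, (smul_mem_HS (sub_pos.2 h1)).2 hH, small (sub_pos.2 h1) (by linarith) hv, rfl⟩
  obtain ⟨S, gS, S1, S2⟩ := push hn he
  obtain ⟨E, gE, E1, E2⟩ := gS.extend k2.ca.oe (isCompact_closedBall _ _) cb S1
  have Em : ∀ y ∈ B', E y ∈ B' \ {a' 0} := by
    intro y hy
    by_cases k : y ∈ a' '' closedBall 0 (3 / 2)
    · obtain ⟨u, hu, rfl⟩ := k
      have h1 := S2 u ((k2.ca.mem u (cb hu)).1 hy)
      have h2 : S u ∈ ball (0 : V) 2 := by_contra fun c =>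
        c ((gS.bij.1 (S1 _ fun c' => c (cb c'))).symm ▸ cb hu)
      rw [E1 u (cb hu)]
      exact ⟨(k2.ca.mem _ h2).2 h1.1, fun c => h1.2 (k2.ca.oe.inj h2 z2 c)⟩
    · rw [E2 y k]
      exact ⟨hy, fun c => k ⟨0, by simp; norm_num, c.symm⟩⟩
  have Ez : ∀ {y}, y ≠ bt 0 → E y ≠ bt 0 := fun hz k =>
    hz (gE.bij.1 (k.trans (E2 _ (dj 0 z2)).symm))
  have inj : ∀ {x y}, x ∈ B' \ {a' 0} → x ≠ bt 0 → y ∈ B' \ {a' 0} → y ≠ bt 0 →
      g (f' x) = g (f' y) → x = y := fun hx hx' hy hy' k =>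
    k2.jf hx hy (k1.jg (fm _ hx hx') (fm _ hy hy') k)
  have rel : ∀ y ∈ B' \ {a' 0}, y ≠ bt 0 → Rel Y' Z B' M (fun x => g (f' x)) y := fun y hy hz =>
    (k2.rf y hy).trans hy.1 (k1.rg _ (fm y hy hz))
  let G : Y' → Z := fun y => g (f' (E y))
  have Gi : InjOn G (B' \ {bt 0}) := fun x hx y hy k =>
    gE.bij.1 (inj (Em x hx.1) (Ez hx.2) (Em y hy.1) (Ez hy.2) k)
  let N : Set Z := f '' (A \ {a 0}) ∪ G '' (B' \ {bt 0})
  have NM : N ⊆ M := by
    rintro _ (⟨x, hx, rfl⟩ | ⟨y, hy, rfl⟩)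
    · exact (k1.rf x hx).mem hx.1
    · exact (rel _ (Em y hy.1) (Ez hy.2)).mem (Em y hy.1).1
  have k3 : Bd e X Y' Z A B' N a bt f G := by
    refine ⟨k1.ca, ct, fun x hx => (k1.rf x hx).mono_right NM ?_, fun y hy => ?_, k1.jf, Gi, rfl,
      fun x hx y hy => key E gE.bij.1 E2 x hx y (Em y hy.1) hy.2⟩
    · filter_upwards [eventually_ne_nhds (show x ≠ a 0 from hx.2)] with y h1 h2
      exact Or.inl ⟨y, ⟨h2, h1⟩, rfl⟩
    · refine restrict (rel _ (Em y hy.1) (Ez hy.2)) (gE.ld y) NM ?_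
      filter_upwards [eventually_ne_nhds (show y ≠ bt 0 from hy.2),
        gE.cont.continuousAt.eventually_ne (show E y ≠ a' 0 from (Em y hy.1).2)] with x h1 h2
      refine ⟨fun m => (Em x m).1, fun m => ⟨?_, fun m' => Or.inr ⟨x, ⟨m', h1⟩, rfl⟩⟩⟩
      rintro (⟨w, hw, k⟩ | ⟨w, hw, k⟩)
      · obtain ⟨u, u1, u2, rfl⟩ := glb ((key E gE.bij.1 E2 w hw x ⟨m, h2⟩ h1).1 k)
        exact (bm u u1 u2).1
      · exact gE.bij.1 (inj (Em w hw.1) (Ez hw.2) ⟨m, h2⟩ (Ez h1) k) ▸ hw.1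
  refine ⟨N, ⟨_, _, _, _, k3⟩, ?_⟩
  have am : ∀ u ∈ HS e, ‖u‖ ≤ 1 → a' u ∈ B' \ {bt 0} := fun u hu hn =>
    ⟨(k2.ca.mem u (mem_ball_zero_iff.2 (by linarith))).2 hu, (ne 0 z2 u hn).symm⟩
  have a0 := am 0 zero_mem_HS (by simp)
  obtain ⟨η, ⟨c, c1, -, c3⟩, hη⟩ := ((((k2.ca.rel z2).trans zero_mem_HS (k3.rg _ a0)).up
    univ_mem).and (Ioo_mem_nhdsGT one_pos)).exists
  obtain ⟨Θ, gΘ, Θ1, Θ2, Θ3, k4⟩ := (hs e η hη.1 hη.2.le).1 _ _ _ _ _ _ _ _ _ _ k2
  have Θ0 : Θ (a' 0) = a' 0 := by simpa using Θ3 0 (by simp)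
  have c0 : c 0 = G (a' 0) := by simpa using c3 0 zero_mem_HS (by simp)
  have Θm : ∀ y ∈ B' \ {a' 0}, Θ y ∈ B' \ {a' 0} := fun y hy =>
    ⟨(Θ1 y).2 hy.1, fun k => hy.2 (gΘ.bij.1 (k.trans Θ0.symm))⟩
  have Θz : ∀ {y}, y ≠ bt 0 → Θ y ≠ bt 0 := fun hz k =>
    hz (gΘ.bij.1 (k.trans (Θ2 _ (dj 0 z2)).symm))
  have same : ∀ {x y}, Gl e a bt x y → G y = g (f' (Θ y)) := fun k => by
    obtain ⟨u, -, u2, rfl⟩ := glb k
    have := dj u (mem_ball_zero_iff.2 (by linarith))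
    simp only [G, E2 _ this, Θ2 _ this]
  let F : Z → Z := fun w =>
    if w ∈ G '' (B' \ {bt 0}) then g (f' (Θ (invFunOn G (B' \ {bt 0}) w))) else w
  have F1 : ∀ y ∈ B' \ {bt 0}, F (G y) = g (f' (Θ y)) := fun y hy => by
    simp only [F, if_pos (mem_image_of_mem G hy), Gi.leftInvOn_invFunOn hy]
  have F2 : ∀ x ∈ A \ {a 0}, F (f x) = f x := fun x hx => by
    by_cases k : f x ∈ G '' (B' \ {bt 0})
    · obtain ⟨y, hy, k⟩ := k
      rw [← k, F1 y hy, same ((k3.eq x hx y hy).1 k.symm)]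
    · exact if_neg k
  have nf : ∀ x ∈ A \ {a 0}, ∀ u ∈ HS e, ‖u‖ ≤ 1 → f x ≠ G (a' u) := fun x hx u hu hn k => by
    obtain ⟨w, -, w2, k'⟩ := glb ((k3.eq x hx _ (am u hu hn)).1 k)
    exact ne w (mem_ball_zero_iff.2 (by linarith)) u hn k'.symm
  have cas : ∀ w ∈ N \ {c 0}, (∃ x ∈ A \ {a 0}, f x = w) ∨
      ∃ y ∈ B' \ {a' 0}, y ≠ bt 0 ∧ G y = w := by
    rintro _ ⟨⟨x, hx, rfl⟩ | ⟨y, hy, rfl⟩, k⟩
    · exact Or.inl ⟨x, hx, rfl⟩
    · exact Or.inr ⟨y, ⟨hy.1, fun k' => k (by rw [c0, show y = a' 0 from k']; rfl)⟩, hy.2, rfl⟩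
  have eq4 : ∀ x ∈ B' \ {a' 0}, ∀ y ∈ Q \ {q 0},
      f' (Θ x) = g' y ↔ Gl e (fun y => a' (η • y)) q x y := by simpa using k4.eq
  have sm : ∀ {t : ℝ} {v : V}, 0 < t → t < 1 → ‖v‖ = 1 → ‖η • t • v‖ ≤ 1 := fun h0 h1 hv => by
    rw [smul_smul]
    exact small (mul_pos hη.1 h0) (by nlinarith [hη.1, hη.2]) hv
  have nb : ∀ u ∈ HS e, ‖u‖ ≤ 1 → ∀ y ∈ Q \ {q 0}, g' y ≠ b u := fun u hu hn y hy k => by
    have h1 : u ∈ ball (0 : V) 2 := mem_ball_zero_iff.2 (by linarith)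
    obtain ⟨t, v, h0, h2, hv, -, k', -⟩ := (eq4 _ (bm u hu hn) y hy).1
      (by rw [Θ2 _ (dj u h1), hb u hu (by linarith), k])
    exact ne u h1 _ (sm h0 h2 hv) k'
  have gm : ∀ y ∈ Q \ {q 0}, g' y ∈ B \ {b 0} := fun y hy =>
    ⟨(k2.rg y hy).mem hy.1, nb 0 zero_mem_HS (by simp) y hy⟩
  have mix : ∀ x ∈ A \ {a 0}, ∀ y ∈ B' \ {a' 0}, y ≠ bt 0 → f x = g (f' (Θ y)) → f x = G y :=
    fun x hx y hy hz k => by rw [same ((key Θ gΘ.bij.1 Θ2 x hx y (Θm y hy) hz).1 k), k]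
  refine ⟨c, q, F, fun y => g (g' y), c1, k2.cb, fun w hw => ?_,
    fun y hy => (k2.rg y hy).trans hy.1 (k1.rg _ (gm y hy)), fun w hw w' hw' k => ?_,
    fun y hy y' hy' k => k2.jg hy hy' (k1.jg (gm y hy) (gm y' hy') k), ?_, fun w hw y hy => ?_⟩
  · rcases cas w hw with ⟨x, hx, rfl⟩ | ⟨y, hy, hz, rfl⟩
    · refine (k3.rf x hx).desc hx.1 (k1.rf x hx) ?_
      filter_upwards [eventually_ne_nhds (show x ≠ a 0 from hx.2)] with y h1 h2
      exact F2 y ⟨h2, h1⟩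
    · refine (k3.rg y ⟨hy.1, hz⟩).desc hy.1 ((rel_of_ld (gΘ.ld y) (.of_forall Θ1)).trans hy.1
        (rel _ (Θm y hy) (Θz hz))) ?_
      filter_upwards [eventually_ne_nhds hz] with x h1 h2
      exact F1 x ⟨h2, h1⟩
  · rcases cas w hw with ⟨x, hx, rfl⟩ | ⟨y, hy, hz, rfl⟩ <;>
      rcases cas w' hw' with ⟨x', hx', rfl⟩ | ⟨y', hy', hz', rfl⟩
    · rwa [F2 x hx, F2 x' hx'] at k
    · rw [F2 x hx, F1 y' ⟨hy'.1, hz'⟩] at k
      exact mix x hx y' hy' hz' k
    · rw [F2 x' hx', F1 y ⟨hy.1, hz⟩] at k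
      exact (mix x' hx' y hy hz k.symm).symm
    · rw [F1 y ⟨hy.1, hz⟩, F1 y' ⟨hy'.1, hz'⟩] at k
      rw [gΘ.bij.1 (inj (Θm y hy) (Θz hz) (Θm y' hy') (Θz hz') k)]
  · refine Subset.antisymm (fun w hw => ?_) ?_
    · rw [k1.cov] at hw
      rcases hw with ⟨x, hx, rfl⟩ | ⟨y, hy, rfl⟩
      · exact Or.inl ⟨f x, ⟨Or.inl ⟨x, hx, rfl⟩,
          fun k => nf x hx 0 zero_mem_HS (by simp) (k.trans c0)⟩, F2 x hx⟩
      · have h1 := hy.1
        rw [k2.cov] at h1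
        rcases h1 with ⟨x, hx, rfl⟩ | ⟨x, hx, rfl⟩
        · obtain ⟨x, rfl⟩ := gΘ.bij.2 x
          have h2 : x ∈ B' \ {bt 0} := ⟨(Θ1 x).1 hx.1, fun k => hy.2 (by
            rw [show x = bt 0 from k, Θ2 _ (dj 0 z2)]; exact b0)⟩
          exact Or.inl ⟨G x, ⟨Or.inr ⟨x, h2, rfl⟩, fun k => hx.2 (by
            rw [Gi h2 a0 (k.trans c0)]; exact Θ0)⟩, F1 x h2⟩
        · exact Or.inr ⟨x, hx, rfl⟩
    · rintro _ (⟨w, hw, rfl⟩ | ⟨y, hy, rfl⟩)
      · rcases cas w hw with ⟨x, hx, rfl⟩ | ⟨y, hy, hz, rfl⟩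
        · rw [F2 x hx]
          exact (k1.rf x hx).mem hx.1
        · rw [F1 y ⟨hy.1, hz⟩]
          exact (rel _ (Θm y hy) (Θz hz)).mem (Θm y hy).1
      · exact (k1.rg _ (gm y hy)).mem (gm y hy).1
  · have cv : ∀ {t : ℝ} {v : V}, 0 < t → t < 1 → ‖v‖ = 1 → v ∈ HS e →
        c (t • v) = G (a' (η • t • v)) ∧ η • t • v ∈ HS e := fun h0 h1 hv hH =>
      ⟨c3 _ ((smul_mem_HS h0).2 hH) (by linarith [small h0 h1.le hv]),
        (smul_mem_HS hη.1).2 ((smul_mem_HS h0).2 hH)⟩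
    rcases cas w hw with ⟨x, hx, rfl⟩ | ⟨x, hx, hz, rfl⟩
    · rw [F2 x hx, k1.eq x hx _ (gm y hy)]
      refine iff_of_false ?_ ?_
      · rintro ⟨t, v, h0, h1, hv, hH, -, k⟩
        exact nb _ ((smul_mem_HS (sub_pos.2 h1)).2 hH) (small (sub_pos.2 h1) (by linarith) hv) y
          hy k
      · rintro ⟨t, v, h0, h1, hv, hH, k, -⟩
        exact nf x hx _ (cv h0 h1 hv hH).2 (sm h0 h1 hv) (k.trans (cv h0 h1 hv hH).1)
    · rw [F1 x ⟨hx.1, hz⟩, k1.jg.eq_iff (fm _ (Θm x hx) (Θz hz)) (gm y hy), eq4 x hx y hy]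
      refine exists₂_congr fun t v => and_congr_right fun h0 => and_congr_right fun h1 =>
        and_congr_right fun hv => and_congr_right fun hH => and_congr_left' ?_
      rw [(cv h0 h1 hv hH).1, Gi.eq_iff ⟨hx.1, hz⟩ (am _ (cv h0 h1 hv hH).2 (sm h0 h1 hv))]

end Assoc

open Assoc in
theorem assoc (hs : ShrinkStmt V) (hn : NearStmt V) (hm : MoveStmt V) : AssocStmt V := by
  rintro e X Y Y' T Z A B B' Q M h3 he ⟨a, b, f, g, k1⟩ ⟨a', q, f', g', k2⟩ hN hc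
  have z2 : (0 : V) ∈ ball (0 : V) 2 := by simp
  obtain ⟨v, hv, h0⟩ : ∃ v : V, ‖v‖ = 7 / 4 ∧ ⟪e, v⟫ = 0 := by
    have e0 : e ≠ 0 := norm_ne_zero_iff.1 (by simp [he])
    have h1 := (ℝ ∙ e).finrank_add_finrank_orthogonal
    rw [finrank_span_singleton e0] at h1
    have : Nontrivial (ℝ ∙ e)ᗮ := (finrank_pos_iff (R := ℝ)).1 (by omega)
    obtain ⟨v, hv⟩ := exists_norm_eq (ℝ ∙ e)ᗮ (by norm_num : (0 : ℝ) ≤ 7 / 4)
    exact ⟨v, hv, Submodule.mem_orthogonal_singleton_iff_inner_right.1 v.2⟩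
  have v2 : v ∈ ball (0 : V) 2 := mem_ball_zero_iff.2 (by linarith)
  have cb : closedBall (0 : V) (3 / 2) ⊆ ball 0 2 := closedBall_subset_ball (by norm_num)
  have zK : a' v ∉ a' '' closedBall 0 (3 / 2) := by
    rintro ⟨u, hu, k⟩
    have := mem_closedBall_zero_iff.1 (k2.ca.oe.inj (cb hu) v2 k ▸ hu)
    linarith
  have zB : a' v ∈ B' \ {a' 0} :=
    ⟨(k2.ca.mem v v2).2 h0.ge, fun k => zK ⟨0, by simp; norm_num, k.symm⟩⟩
  obtain ⟨Θ, gΘ, Θ1, Θ2, -⟩ := hm e Y B ∅ h3 he hN hc finite_empty (f' (a' v))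
    ⟨((k2.rf _ zB).frontier_iff zB.1).2 (front he k2.ca v2 h0), not_false⟩ (b 0)
    ⟨front he k1.cb z2 (by simp), not_false⟩
  obtain ⟨Θ', gΘ', l, r⟩ := gΘ.exists_inv
  have cb1 : PC Y B e (fun y => Θ' (b y)) (ball 0 2) :=
    ⟨k1.cb.oe.trans gΘ'.oe (mapsTo_univ _ _), fun y hy => by rw [← Θ1, r, k1.cb.mem y hy]⟩
  have k3 := k1.symm.comap (Φ := Θ) ⟨fun x _ => rel_of_ld (gΘ.ld x) (.of_forall Θ1),
    fun x hx => (Θ1 x).2 hx, gΘ.bij.1.injOn, fun x hx => ⟨Θ' x, by rwa [← Θ1, r], r x⟩⟩ cb1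
    fun y _ _ => r _
  obtain ⟨η, ⟨bt, c1, c2, c3⟩, hη⟩ := ((pull (k2.rf _ zB) (cb1.rel z2) zB.1 (by rw [← Θ2, l])
    (((isCompact_closedBall _ _).image_of_continuousOn (k2.ca.oe.sm.contOn.mono cb)).isClosed
      |>.isOpen_compl.mem_nhds zK)).and (Ioo_mem_nhdsGT one_pos)).exists
  obtain ⟨_, -, -, -, -, k4⟩ := (hs e η hη.1 hη.2.le).1 _ _ _ _ _ _ _ _ _ _ k3
  exact core hs hn he k4.symm k2 c1 c2 c3

end Pool.Agent.MP_7ebdba_gt.hb

end
end MrgPart0

-- ======== part 1: formerly Pool.Agent.MP_7ebdba_gt.hb.Crit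
section MrgPart1

/-! Row CRIT: the linear field is gradient-like near a nondegenerate critical point. -/

open scoped ContDiff Topology RealInnerProductSpace
open Set Filter Function Metric Module Asymptotics

noncomputable section

namespace Pool.Agent.MP_7ebdba_gt.hb

namespace Crit

section
variable {V W : Type} [NormedAddCommGroup V] [NormedSpace ℝ V] [NormedAddCommGroup W]
  [NormedSpace ℝ W] {κ : V → ℝ}

theorem snd (h : ContDiffAt ℝ 2 κ 0) (h0 : fderiv ℝ κ 0 = 0) :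
    (fun x => fderiv ℝ κ x - fderiv ℝ (fderiv ℝ κ) 0 x) =o[𝓝 0] fun x : V => ‖x‖ := by
  have := ((h.fderiv_right (m := 1) (by norm_num)).differentiableAt (by norm_num)).hasFDerivAt
  simpa [h0] using this.isLittleO.norm_right

theorem symm (h : ContDiffAt ℝ 2 κ 0) (v w : V) :
    fderiv ℝ (fderiv ℝ κ) 0 v w = fderiv ℝ (fderiv ℝ κ) 0 w v :=
  h.isSymmSndFDerivAt (by simp) v w

theorem taylor (h : ContDiffAt ℝ 2 κ 0) (h0 : fderiv ℝ κ 0 = 0) :
    (fun x => κ x - κ 0 - fderiv ℝ (fderiv ℝ κ) 0 x x / 2) =o[𝓝 0] fun x : V => ‖x‖ ^ 2 := by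
  set B := fderiv ℝ (fderiv ℝ κ) 0 with hB
  obtain ⟨r, hr, hs⟩ := Metric.eventually_nhds_iff_ball.1 (h.eventually (by simp))
  have key := Convex.isLittleO_pow_succ (𝕜 := ℝ) (f := fun x => κ x - B x x / 2)
    (f' := fun x => fderiv ℝ κ x - B x) (n := 1) (convex_ball (0 : V) r) (mem_ball_self hr)
    (fun x hx => by
      have a := ((hs x hx).differentiableAt (by norm_num)).hasFDerivAt
      have b := (B.hasFDerivAt (x := x)).clm_apply (hasFDerivAt_id x)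
      refine ((a.sub (b.mul_const (2⁻¹ : ℝ))).congr_fderiv ?_).hasFDerivWithinAt
      ext v
      have e : B v x = B x v := symm h v x
      simp [e]
      ring)
    (by simpa using (snd h h0).mono nhdsWithin_le_nhds)
  rw [nhdsWithin_eq_nhds.2 (ball_mem_nhds _ hr)] at key
  simp only [map_zero, zero_div, sub_zero] at key
  refine key.congr_left fun x => by ring

/-- a homogeneous quadratic function that is small is zero -/
theorem hom_zero {q : W → ℝ} (hq : ∀ (t : ℝ) y, q (t • y) = t ^ 2 * q y)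
    (h : q =o[𝓝 0] fun y => ‖y‖ ^ 2) (y : W) : q y = 0 := by
  have ht : Tendsto (fun t : ℝ => t • y) (𝓝[>] 0) (𝓝 0) := by
    have : Continuous fun t : ℝ => t • y := by fun_prop
    simpa using (this.tendsto 0).mono_left nhdsWithin_le_nhds
  refine abs_nonpos_iff.1 (le_of_forall_pos_le_add fun ε hε => ?_)
  have hp : 0 < ‖y‖ ^ 2 + 1 := by positivity
  obtain ⟨t, h1, h2⟩ := (((h.comp_tendsto ht).def (div_pos hε hp)).and self_mem_nhdsWithin).exists
  have h2 : 0 < t ^ 2 := pow_pos h2 2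
  simp only [comp_apply, hq, norm_mul, norm_pow, Real.norm_eq_abs, sq_abs, norm_smul, mul_pow,
    abs_norm] at h1
  have h3 : |q y| ≤ ε / (‖y‖ ^ 2 + 1) * ‖y‖ ^ 2 := le_of_mul_le_mul_left (by linarith) h2
  have h4 : ε / (‖y‖ ^ 2 + 1) * ‖y‖ ^ 2 ≤ ε := by
    rw [div_mul_eq_mul_div, div_le_iff₀ hp]
    nlinarith
  linarith

/-- comparison of the two expansions -/
theorem compare {T : W → V} {A : W →L[ℝ] V} {q : W → ℝ} (h : ContDiffAt ℝ 2 κ 0) (T0 : T 0 = 0)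
    (hT : HasFDerivAt T A 0) (hA : Surjective A) (hq : ∀ (t : ℝ) y, q (t • y) = t ^ 2 * q y)
    (hO : q =O[𝓝 0] fun y => ‖y‖ ^ 2)
    (ho : (fun y => κ (T y) - κ 0 - q y) =o[𝓝 0] fun y => ‖y‖ ^ 2) :
    fderiv ℝ κ 0 = 0 ∧ ∀ y, fderiv ℝ (fderiv ℝ κ) 0 (A y) (A y) = 2 * q y := by
  have h0 : fderiv ℝ κ 0 = 0 := by
    have a : HasFDerivAt κ (fderiv ℝ κ 0) (T 0) :=
      T0 ▸ (h.differentiableAt (by norm_num)).hasFDerivAt
    have b : HasFDerivAt (κ ∘ T) (0 : W →L[ℝ] ℝ) 0 := by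
      rw [hasFDerivAt_iff_isLittleO]
      have := (ho.isBigO.add hO).trans_isLittleO (isLittleO_norm_pow_id (E' := W) one_lt_two)
      simpa [T0] using this
    ext v
    obtain ⟨y, rfl⟩ := hA v
    exact DFunLike.congr_fun ((a.comp 0 hT).unique b) y
  refine ⟨h0, fun y => ?_⟩
  set B := fderiv ℝ (fderiv ℝ κ) 0
  have tT : Tendsto T (𝓝 0) (𝓝 0) := by simpa [T0] using hT.continuousAt.tendsto
  have oT : T =O[𝓝 0] fun y => ‖y‖ := by simpa [T0] using hT.isBigO_sub.norm_right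
  have oA : A =O[𝓝 0] fun y => ‖y‖ := (A.isBigO_id _).norm_right
  have oD : (fun y => T y - A y) =o[𝓝 0] fun y => ‖y‖ := by
    simpa [T0] using hT.isLittleO.norm_right
  have a : (fun y => κ (T y) - κ 0 - B (T y) (T y) / 2) =o[𝓝 0] fun y => ‖y‖ ^ 2 :=
    ((taylor h h0).comp_tendsto tT).trans_isBigO (oT.norm_left.pow 2)
  have bl : ∀ f g : W → V, (fun y => B (f y) (g y)) =O[𝓝 0] fun y => ‖f y‖ * ‖g y‖ := fun f g =>
    IsBigO.of_bound ‖B‖ (.of_forall fun y => by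
      simpa [mul_assoc] using B.le_opNorm₂ (f y) (g y))
  have b1 : (fun y => B (T y - A y) (T y)) =o[𝓝 0] fun y => ‖y‖ ^ 2 := by
    simpa [sq] using (bl _ _).trans_isLittleO (oD.norm_left.mul_isBigO oT.norm_left)
  have b2 : (fun y => B (A y) (T y - A y)) =o[𝓝 0] fun y => ‖y‖ ^ 2 := by
    simpa [sq] using (bl _ _).trans_isLittleO (oA.norm_left.mul_isLittleO oD.norm_left)
  have := hom_zero (q := fun y => B (A y) (A y) - 2 * q y)
    (fun t y => by simp [hq]; ring)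
    ((((ho.sub a).const_mul_left 2).sub (b1.add b2)).congr_left fun y => by simp; ring) y
  linarith

/-- scaling -/
theorem scale [FiniteDimensional ℝ V] {O : Set V} {L : V →L[ℝ] V} {R : V → V}
    (h : ContDiffAt ℝ 2 κ 0) (h0 : fderiv ℝ κ 0 = 0) (hO : O ∈ 𝓝 0)
    (hR : ∀ (t : ℝ) y, R (t • y) = t • R y) (hn : ∀ y, ‖R y‖ ≤ ‖y‖)
    (hB : ∀ y, fderiv ℝ (fderiv ℝ κ) 0 (L y) (L (R y)) = 2 * ‖y‖ ^ 2) :
    ∃ L : V ≃L[ℝ] V, MapsTo L (ball 0 1) O ∧
      ∀ y ∈ ball (0 : V) 1, y ≠ 0 → 0 < fderiv ℝ κ (L y) (L (R y)) := by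
  have inj : Injective L := (injective_iff_map_eq_zero L).2 fun y hy => by
    have := hB y
    rw [hy, map_zero] at this
    simpa using this
  have tL : Tendsto L (𝓝 0) (𝓝 0) := by simpa using L.continuous.tendsto 0
  have hp : 0 < ‖L‖ + 1 := by positivity
  have o := (((snd h h0).comp_tendsto tL).trans_isBigO (L.isBigO_id _).norm_left).def
    (inv_pos.2 hp)
  obtain ⟨δ, hδ, hs⟩ := Metric.eventually_nhds_iff_ball.1 (o.and (tL.eventually hO))
  let L0 : V ≃L[ℝ] V := (LinearEquiv.ofInjectiveEndo L.toLinearMap inj).toContinuousLinearEquiv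
  let H : V ≃L[ℝ] V := (LinearEquiv.smulOfNeZero ℝ V δ hδ.ne').toContinuousLinearEquiv
  have m : ∀ y ∈ ball (0 : V) 1, δ • y ∈ ball (0 : V) δ := fun y hy => by
    rw [mem_ball_zero_iff] at hy ⊢
    rw [norm_smul, Real.norm_of_nonneg hδ.le]
    nlinarith
  refine ⟨H.trans L0, fun y hy => (hs _ (m y hy)).2, fun y hy y0 => ?_⟩
  change 0 < fderiv ℝ κ (L (δ • y)) (L (δ • R y))
  rw [← hR]
  have z0 : 0 < ‖δ • y‖ := norm_pos_iff.2 (smul_ne_zero hδ.ne' y0)
  have a := (hs _ (m y hy)).1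
  generalize δ • y = z at a z0
  have b := (fderiv ℝ κ (L z) - fderiv ℝ (fderiv ℝ κ) 0 (L z)).le_opNorm (L (R z))
  have c : ‖L (R z)‖ ≤ (‖L‖ + 1) * ‖z‖ :=
    (L.le_opNorm _).trans (mul_le_mul (by linarith) (hn z) (norm_nonneg _) hp.le)
  have d := mul_le_mul a c (norm_nonneg _) (by positivity)
  rw [mul_mul_mul_comm, inv_mul_cancel₀ hp.ne', one_mul] at d
  have e := (abs_le.1 (b.trans d)).1
  rw [sub_apply, hB] at e
  nlinarith

end

/-- a diagonal map -/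
def dg {n : ℕ} (s : Fin n → ℝ) : sm.E n →ₗ[ℝ] sm.E n where
  toFun y := WithLp.toLp 2 fun j => s j * y j
  map_add' y z := by ext j; simp [mul_add]
  map_smul' t y := by ext j; simp [mul_left_comm]

theorem dg_apply {n : ℕ} (s : Fin n → ℝ) (y : sm.E n) (j : Fin n) : dg s y j = s j * y j := rfl

end Crit

variable {V : Type} [NormedAddCommGroup V] [InnerProductSpace ℝ V] [FiniteDimensional ℝ V]

open Crit in
theorem crit : CritStmt V := by
  intro n e κ T A c O hn he h T0 hT hA hc hO ho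
  have sA : Surjective A :=
    (LinearMap.injective_iff_surjective_of_finrank_eq_finrank (f := A.toLinearMap)
      (by simp [hn])).1 hA
  have co : ∀ j, (fun y : sm.E n => y j) =O[𝓝 0] fun y => ‖y‖ := fun j =>
    IsBigO.of_bound' (.of_forall fun y => by simpa using PiLp.norm_apply_le y j)
  obtain ⟨h0, hB⟩ := Crit.compare (q := fun y : sm.E n => ∑ j, c j * y j ^ 2) h T0 hT sA
    (fun t y => by simp [Finset.mul_sum, mul_pow, mul_left_comm])
    (IsBigO.fun_sum fun j _ => ((co j).pow 2).const_mul_left _) ho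
  set B := fderiv ℝ (fderiv ℝ κ) 0 with hB'
  have pol : ∀ y z, B (A y) (A z) = 2 * ∑ j, c j * (y j * z j) := fun y z => by
    have a := hB (y + z)
    simp only [map_add, add_apply, hB, PiLp.add_apply, add_sq, mul_add,
      Finset.sum_add_distrib] at a
    rw [hB', symm h (A z), ← hB'] at a
    have b : ∑ j, c j * (2 * y j * z j) = 2 * ∑ j, c j * (y j * z j) := by
      rw [Finset.mul_sum]
      exact Finset.sum_congr rfl fun j _ => by ring
    linarith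
  let s : Fin n → ℝ := fun j => (√|c j|)⁻¹
  have hs : ∀ j, |c j| * (s j * s j) = 1 := fun j => by
    rw [← mul_inv, Real.mul_self_sqrt (abs_nonneg _), mul_inv_cancel₀ (abs_ne_zero.2 (hc j))]
  have main : ∀ (J : V ≃ₗᵢ[ℝ] sm.E n) (R : V → V), (∀ (t : ℝ) y, R (t • y) = t • R y) →
      (∀ y j, J (R y) j = if c j < 0 then -J y j else J y j) →
      ∃ L : V ≃L[ℝ] V, MapsTo L (ball 0 1) O ∧
        ∀ y ∈ ball (0 : V) 1, y ≠ 0 → 0 < fderiv ℝ κ (L y) (L (R y)) := fun J R h1 h2 => by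
    refine scale (L := A.comp (LinearMap.toContinuousLinearMap
      ((dg s).comp J.toLinearEquiv.toLinearMap))) h h0 hO h1 (fun y => ?_) fun y => ?_
    · rw [← J.norm_map, ← J.norm_map y, EuclideanSpace.norm_eq, EuclideanSpace.norm_eq]
      refine le_of_eq (congrArg _ (Finset.sum_congr rfl fun j _ => ?_))
      rw [h2]
      split_ifs <;> simp
    · change B (A (dg s (J y))) (A (dg s (J (R y)))) = _
      rw [pol, ← J.norm_map y, EuclideanSpace.real_norm_sq_eq]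
      refine congrArg _ (Finset.sum_congr rfl fun j _ => ?_)
      have := hs j
      rw [dg_apply, dg_apply, h2]
      split_ifs with k
      · rw [abs_of_neg k] at this
        linear_combination J y j ^ 2 * this
      · rw [abs_of_nonneg (not_lt.1 k)] at this
        linear_combination J y j ^ 2 * this
  let J0 : V ≃ₗᵢ[ℝ] sm.E n := ((stdOrthonormalBasis ℝ V).reindex (finCongr hn)).repr
  refine ⟨fun k => ?_, fun k => ?_⟩
  · rw [ncard_eq_zero (toFinite _)] at k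
    exact main J0 (fun y => y) (fun _ _ => rfl) fun y j =>
      (if_neg fun hj => (k ▸ hj : j ∈ (∅ : Set (Fin n)))).symm
  · obtain ⟨i, hi⟩ := ncard_eq_one.1 k
    have hi : ∀ j, c j < 0 ↔ j = i := fun j => Set.ext_iff.1 hi j
    let u : sm.E n := EuclideanSpace.single i 1
    let J := J0.trans (Submodule.reflection (ℝ ∙ (J0 e - u))ᗮ)
    have Je : J e = u := Submodule.reflection_sub (by simp [u, he])
    refine main J (rf e) (fun t y => ?_) fun y j => ?_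
    · simp only [rf, real_inner_smul_right, smul_sub, smul_smul]
      congr 2
      ring
    · have : ⟪e, y⟫ = J y i := by
        rw [← J.inner_map_map, Je]
        simp [u, EuclideanSpace.inner_single_left]
      rw [rf, map_sub, map_smul, Je, this]
      by_cases k : j = i
      · subst k
        simp [hi, u]
        ring
      · simp [hi, u, k]

end Pool.Agent.MP_7ebdba_gt.hb

end
end MrgPart1

-- ======== part 2: formerly Pool.Agent.MP_7ebdba_gt.hb.Data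
section MrgPart2

/-! Add-on HB, row DATA: construction of the gradient-like field, and rounding of a corner. -/

open scoped ContDiff Manifold Topology RealInnerProductSpace
open Set Filter Function Metric Module Pool.Agent.MP_e1dc65_gt

noncomputable section

namespace Pool.Agent.MP_7ebdba_gt.hb

variable {V : Type} [NormedAddCommGroup V] [InnerProductSpace ℝ V] [FiniteDimensional ℝ V]

namespace Data

theorem ev_list {T A : Type} {l : Filter T} {cs : List A} {p : A → T → Prop}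
    (h : ∀ c ∈ cs, ∀ᶠ x in l, p c x) : ∀ᶠ x in l, ∀ c ∈ cs, p c x :=
  (eventually_all_finite (List.finite_toSet cs)).2 h

omit [FiniteDimensional ℝ V] in
theorem mem_small {η r : ℝ} (h0 : 0 < η) {y : V} (hy : y ∈ ball (0 : V) 1) (hr : η ≤ r) :
    η • y ∈ ball (0 : V) r ∧ η • y ∈ closedBall (0 : V) η := by
  rw [mem_ball_zero_iff] at hy
  rw [mem_ball_zero_iff, mem_closedBall_zero_iff, norm_smul, Real.norm_of_nonneg h0.le]
  constructor <;> nlinarith

/-- the construction for an arbitrary family of homogeneous fields in the charts -/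
theorem core (X : Mf V) (k : X → ℝ) (cs : List (X → ℝ)) (M C : Set X) (ψ : X → V → X)
    (L : X → V → V) (hk : Sm X (vs ℝ) k univ) (hc : ∀ c ∈ cs, Sm X (vs ℝ) c univ)
    (hM : IsCompact M) (hC : C.Finite) (hL : ∀ p, ContDiff ℝ ∞ (L p))
    (hL' : ∀ p (t : ℝ) y, L p (t • y) = t • L p y)
    (hψ : ∀ p ∈ C, (∀ c ∈ cs, c p ≠ 0) ∧ OE (vs V) X (ψ p) (ball 0 1) ∧ ψ p 0 = p)
    (hp : ∀ p ∈ C, ∀ y ∈ ball (0 : V) 1, y ≠ 0 → 0 < fderiv ℝ (fun y => k (ψ p y)) y (L p y))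
    (hx : ∀ x ∈ M, x ∉ C → ∃ w, 0 < Df X (vs ℝ) k x w ∧
      ∀ c ∈ cs, c x = 0 → 0 < Df X (vs ℝ) c x w) :
    ∃ (v : X → V) (φ : ℝ → X → X) (χ : X → V → X), (∀ x, VfAt X v x) ∧ IsFlow X v φ ∧
      (∀ p ∈ C, (OE (vs V) X (χ p) (ball 0 1) ∧ χ p 0 = p) ∧
        ∀ y ∈ ball (0 : V) 1, Df (vs V) X (χ p) y (L p y) = v (χ p y)) ∧
      ∀ x ∈ M, (x ∉ C → 0 < Df X (vs ℝ) k x (v x)) ∧
        ∀ c ∈ cs, c x = 0 → 0 < Df X (vs ℝ) c x (v x) := by
  obtain ⟨N, hN, dN⟩ := hC.t2_separation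
  have ev : ∀ᶠ η : ℝ in 𝓝[>] 0, ∀ p ∈ C, ∀ y ∈ ball (0 : V) (2 * η),
      ψ p y ∈ N p ∧ ∀ c ∈ cs, c (ψ p y) ≠ 0 := by
    refine (eventually_all_finite hC).2 fun p hp => ?_
    obtain ⟨h1, h2, h3⟩ := hψ p hp
    have : ∀ᶠ x in 𝓝 (ψ p 0), x ∈ N p ∧ ∀ c ∈ cs, c x ≠ 0 := by
      rw [h3]
      exact Eventually.and ((hN p).2.mem_nhds (hN p).1)
        (ev_list fun c h => (hc c h p trivial).cont.eventually_ne (h1 c h))
    obtain ⟨r, hr, hb⟩ := Metric.eventually_nhds_iff_ball.1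
      ((h2.ld 0 (mem_ball_self one_pos)).sm.cont.eventually this)
    filter_upwards [Ioo_mem_nhdsGT (half_pos hr)] with η hη y hy
    exact hb y (ball_subset_ball (by linarith [hη.2]) hy)
  obtain ⟨η, hη, h0, h1⟩ := (ev.and (Ioo_mem_nhdsGT (show (0 : ℝ) < 1 / 2 by norm_num))).exists
  have s1 : ball (0 : V) (2 * η) ⊆ ball 0 1 := ball_subset_ball (by linarith)
  have s2 : closedBall (0 : V) η ⊆ ball 0 (2 * η) := closedBall_subset_ball (by linarith)
  let u : X → X → V := fun p z =>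
    Df (vs V) X (ψ p) (invFunOn (ψ p) (ball 0 1) z) (L p (invFunOn (ψ p) (ball 0 1) z))
  have hu : ∀ p ∈ C, ∀ y ∈ ball (0 : V) 1, u p (ψ p y) = Df (vs V) X (ψ p) y (L p y) :=
    fun p hp y hy => by simp only [u, (hψ p hp).2.1.left hy]
  let B : Set X := ⋃ p ∈ C, ψ p '' closedBall 0 η
  have cB : IsCompact B := hC.isCompact_biUnion fun p hp => (isCompact_closedBall _ _).image_of_continuousOn
    ((hψ p hp).2.1.sm.contOn.mono (s2.trans s1))
  obtain ⟨v, hv⟩ := field V X univ (fun x => {w | (∀ p ∈ C, x ∈ ψ p '' closedBall 0 η → w = u p x) ∧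
      (x ∈ M → (x ∉ C → 0 < Df X (vs ℝ) k x w) ∧ ∀ c ∈ cs, c x = 0 → 0 < Df X (vs ℝ) c x w)})
    isOpen_univ (fun x _ => by
      have pos : ∀ (l : V →L[ℝ] ℝ) (w w' : V) (a b : ℝ), 0 < l w → 0 < l w' → 0 ≤ a → 0 ≤ b →
          a + b = 1 → 0 < l (a • w + b • w') := fun l w w' a b h h' ha hb e =>
        (convex_Ioi (0 : ℝ)).linear_preimage l.toLinearMap h h' ha hb e
      intro w hw w' hw' a b ha hb e
      refine ⟨fun p hp h => ?_, fun h => ⟨fun h' => pos _ _ _ _ _ ((hw.2 h).1 h') ((hw'.2 h).1 h') ha hb e,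
        fun c h1 h2 => pos _ _ _ _ _ ((hw.2 h).2 c h1 h2) ((hw'.2 h).2 c h1 h2) ha hb e⟩⟩
      rw [hw.1 p hp h, hw'.1 p hp h, ← add_smul, e, one_smul]) (fun x _ => by
    by_cases hB : x ∈ B
    · simp only [B, mem_iUnion] at hB
      obtain ⟨p, hp', hB⟩ := hB
      have o := (hψ p hp').2.1
      refine ⟨ψ p '' ball 0 (2 * η), u p, (o.isOpen_image isOpen_ball s1).mem_nhds
        (image_mono s2 hB), ?_⟩
      rintro _ ⟨y, hy, rfl⟩
      refine ⟨(vfAt_vs.2 (hL p).contDiffAt).push o (s1 hy), fun q hq h => ?_,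
        fun _ => ⟨fun h => ?_, fun c h1 h2 => absurd h2 ((hη p hp' y hy).2 c h1)⟩⟩
      · obtain ⟨z, hz, e⟩ := h
        rw [dN.elim_set hp' hq _ (hη p hp' y hy).1 (e ▸ (hη q hq z (s2 hz)).1)]
      · have := hp p hp' y (s1 hy) fun e => h (by rw [e, (hψ p hp').2.2]; exact hp')
        rwa [← Df_vs, Df_comp (o.sm y (s1 hy)) (hk _ trivial), ContinuousLinearMap.comp_apply,
          ← hu p hp' y (s1 hy)] at this
    have eB : ∀ᶠ y in 𝓝 x, ∀ p ∈ C, y ∉ ψ p '' closedBall 0 η := by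
      filter_upwards [cB.isClosed.isOpen_compl.mem_nhds hB] with y hy p hp h
      exact hy (mem_biUnion hp h)
    by_cases hm : x ∈ M
    · obtain ⟨w, w1, w2⟩ := hx x hm fun h => hB
        (mem_biUnion h ⟨0, mem_closedBall_self h0.le, (hψ x h).2.2⟩)
      obtain ⟨v, rfl, hv⟩ := exists_vf x w
      have hv0 := hv x (mem_chart_source V x)
      have e1 := (hv0.app (hk x trivial)).cont.eventually (lt_mem_nhds w1)
      have e2 : ∀ᶠ y in 𝓝 x, ∀ c ∈ cs, c y = 0 → 0 < Df X (vs ℝ) c y (v y) :=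
        ev_list fun c h => by
          by_cases e : c x = 0
          · exact ((hv0.app (hc c h x trivial)).cont.eventually (lt_mem_nhds (w2 c h e))).mono
              fun y hy _ => hy
          · exact ((hc c h x trivial).cont.eventually_ne e).mono fun y hy h => absurd h hy
      refine ⟨_, v, ((eB.and (e1.and e2)).and ((ch X x).open_source.mem_nhds (mem_chart_source V x)) :),
        fun y hy => ⟨hv y hy.2, fun p hp h => absurd h (hy.1.1 p hp),
          fun _ => ⟨fun _ => hy.1.2.1, hy.1.2.2⟩⟩⟩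
    · exact ⟨_, fun _ => 0, (eB.and (hM.isClosed.isOpen_compl.mem_nhds hm) :), fun y hy =>
        ⟨vfAt_zero, fun p hp h => absurd h (hy.1 p hp), fun h => absurd h hy.2⟩⟩)
  obtain ⟨b, sb, -, b1, -, b2⟩ := (bumpM V X).1 (M ∪ B) univ (hM.union cB).isClosed isOpen_univ
    (subset_univ _)
  have b3 : ∀ x ∈ M ∪ B, b x • v x = v x := fun x hx => by
    rw [b1.self_of_nhdsSet x hx, one_smul]
  have vf : ∀ x, VfAt X (fun x => b x • v x) x := fun x => (hv x trivial).1.smul (sb x trivial)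
  obtain ⟨φ, hφ⟩ := exists_flow_cpt vf (b2 (hM.union cB)) fun x hx => by
    rw [image_eq_zero_of_notMem_tsupport hx, zero_smul]
  refine ⟨_, φ, fun p y => ψ p (η • y), vf, hφ, fun p hp => ⟨⟨OE.trans ⟨isOpen_ball,
    fun y _ => ldAt_hom h0.ne' y, (smul_right_injective V h0.ne').injOn⟩ (hψ p hp).2.1
    fun y hy => (mem_small h0 hy (by linarith)).1, by simp only [smul_zero, (hψ p hp).2.2]⟩,
    fun y hy => ?_⟩, fun x hx => ?_⟩
  · obtain ⟨m1, m2⟩ := mem_small (r := 1) h0 hy (by linarith)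
    have d : HasFDerivAt (fun y : V => η • y) (η • ContinuousLinearMap.id ℝ V) y :=
      (hasFDerivAt_id y).const_smul η
    rw [b3 _ (Or.inr (mem_biUnion hp ⟨_, m2, rfl⟩)), (hv _ trivial).2.1 p hp ⟨_, m2, rfl⟩,
      hu p hp _ m1, Df_comp (ldAt_hom h0.ne' y).sm ((hψ p hp).2.1.sm _ m1), Df_vs, d.fderiv, hL']
    rfl
  · rw [b3 x (Or.inl hx)]
    exact (hv x trivial).2.2 hx

theorem sign_left {f : ℝ → ℝ} {d t : ℝ} (h : HasDerivAt f d t) (hd : 0 < d) (h0 : f t = 0) :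
    ∀ᶠ s in 𝓝[<] t, f s < 0 := by
  filter_upwards [mem_nhdsWithin_of_mem_nhds
    (eventually_nhdsWithin_sign_eq_of_deriv_pos (h.deriv ▸ hd) h0), self_mem_nhdsWithin] with s e hs
  rwa [sign_neg (sub_neg.2 hs), sign_eq_neg_one_iff] at e

theorem sign_right {f : ℝ → ℝ} {d t : ℝ} (h : HasDerivAt f d t) (hd : 0 < d) (h0 : f t = 0) :
    ∀ᶠ s in 𝓝[>] t, 0 < f s := by
  filter_upwards [mem_nhdsWithin_of_mem_nhds
    (eventually_nhdsWithin_sign_eq_of_deriv_pos (h.deriv ▸ hd) h0), self_mem_nhdsWithin] with s e hs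
  rwa [sign_pos (sub_pos.2 hs), sign_eq_one_iff] at e

variable {X : Mf V} {v : X → V} {φ : ℝ → X → X} {c c' : X → ℝ} {x : X}

theorem back (hφ : IsFlow X v φ) (hc : Sm X (vs ℝ) c univ) (h : c x ≤ 0)
    (hd : c x = 0 → 0 < Df X (vs ℝ) c x (v x)) : ∀ᶠ t in 𝓝[<] 0, c (φ t x) ≤ 0 := by
  have d := Lev.fl_der hφ (hc (φ 0 x) trivial)
  rw [hφ.zero] at d
  rcases h.eq_or_lt with h | h
  · exact (sign_left d (hd h) (by rwa [hφ.zero])).mono fun _ => le_of_lt
  · exact mem_nhdsWithin_of_mem_nhds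
      ((d.continuousAt.eventually (gt_mem_nhds (by simpa only [hφ.zero] using h))).mono fun _ => le_of_lt)

theorem strict (hφ : IsFlow X v φ) (hc : Sm X (vs ℝ) c univ) (h : ∀ t ≤ 0, c (φ t x) ≤ 0)
    (hd : c (φ (-1) x) = 0 → 0 < Df X (vs ℝ) c (φ (-1) x) (v (φ (-1) x))) : c (φ (-1) x) < 0 := by
  refine (h _ (by norm_num)).lt_of_ne fun e => ?_
  obtain ⟨s, h1, h2⟩ := ((sign_right (Lev.fl_der hφ (hc _ trivial)) (hd e) e).and
    (Ioo_mem_nhdsGT (show (-1 : ℝ) < 0 by norm_num))).exists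
  exact h1.not_ge (h s h2.2.le)

theorem Df_prod (hφ : IsFlow X v φ) (hc : Sm X (vs ℝ) c univ) (hc' : Sm X (vs ℝ) c' univ) (ε : ℝ)
    (x : X) : SmAt X (vs ℝ) (fun y => ε - c y * c' y) x ∧
      Df X (vs ℝ) (fun y => ε - c y * c' y) x (v x) =
        -(Df X (vs ℝ) c x (v x) * c' x + c x * Df X (vs ℝ) c' x (v x)) := by
  have s : ∀ x, SmAt X (vs ℝ) (fun y => ε - c y * c' y) x := fun x =>
    (smAt_const (Y := vs ℝ) ε).vsub ((hc x trivial).vmul (hc' x trivial))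
  have := (Lev.fl_der hφ (s (φ 0 x))).unique
    (((Lev.fl_der hφ (hc (φ 0 x) trivial)).mul (Lev.fl_der hφ (hc' (φ 0 x) trivial))).const_sub ε)
  rw [hφ.zero] at this
  exact ⟨s x, this⟩

/-- a positive continuous function on a compact set is bounded below -/
theorem ev_le {T : Type} [TopologicalSpace T] {K : Set T} (hK : IsCompact K) {f : T → ℝ}
    (hf : Continuous f) (h : ∀ x ∈ K, 0 < f x) : ∀ᶠ ε in 𝓝[>] (0 : ℝ), ∀ x ∈ K, ε < f x := by
  obtain ⟨m, hm, h⟩ := hK.exists_forall_le' hf.continuousOn h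
  filter_upwards [Ioo_mem_nhdsGT hm] with ε hε x hx using hε.2.trans_le (h x hx)

end Data

open Data

theorem data : DataStmt V := by
  classical
  intro e X k cs M C0 C1 ψ hk hc hM f0 f1 dis hψ h0 h1 hx
  have n : ∀ p ∈ C1, p ∉ C0 := fun p hp h => disjoint_left.1 dis h hp
  obtain ⟨v, φ, χ, vf, fl, a, b⟩ := core X k cs M (C0 ∪ C1) ψ
    (fun p y => if p ∈ C0 then y else rf e y) hk hc hM (f0.union f1) (fun p => by
      split_ifs
      · exact contDiff_id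
      · exact contDiff_id.sub
          ((contDiff_const.mul (contDiff_const.inner ℝ contDiff_id)).smul contDiff_const))
    (fun p t y => by
      split_ifs
      · rfl
      · rw [rf, rf, real_inner_smul_right, smul_sub, smul_smul, mul_left_comm]) hψ
    (fun p hp y hy e0 => by
      split_ifs with h
      · exact h0 p h y hy e0
      · exact h1 p (hp.resolve_left h) y hy e0) hx
  exact ⟨⟨v, φ, k, C0, C1, χ, vf, fl, hk, f0, f1, dis, fun p hp => (a p hp).1,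
    fun p hp y hy => by simpa only [if_pos hp] using (a p (Or.inl hp)).2 y hy,
    fun p hp y hy => by simpa only [if_neg (n p hp)] using (a p (Or.inr hp)).2 y hy⟩,
    rfl, rfl, rfl, b⟩

theorem round (hB : BackStmt V) : RoundStmt V := by
  intro e X D c c' hc hc' hP hcon hC hd
  have cc := hc.cont
  have cc' := hc'.cont
  have cm : Continuous fun x => c x * c' x := cc.mul cc'
  have ca : ∀ {c : X → ℝ}, Sm X (vs ℝ) c univ → ∀ x,
      ContinuousAt (fun x => Df X (vs ℝ) c x (D.v x)) x := fun h x =>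
    ((D.vf x).app (h x trivial)).cont
  have inv : ∀ x, c x ≤ 0 ∧ c' x ≤ 0 → ∀ t ≤ 0, c (D.φ t x) ≤ 0 ∧ c' (D.φ t x) ≤ 0 :=
    (hB X D.v D.φ _ D.fl).1 hP.isClosed fun x hx =>
      (back D.fl hc hx.1 (hd x hx.1 hx.2).2.1).and (back D.fl hc' hx.2 (hd x hx.1 hx.2).2.2)
  have e1 := ev_le (hP.image (D.fl.cont_time (-1))) cm (by
    rintro _ ⟨x, hx, rfl⟩
    have i := inv x hx (-1) (by norm_num)
    exact mul_pos_of_neg_of_neg (strict D.fl hc (fun t ht => (inv x hx t ht).1) (hd _ i.1 i.2).2.1)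
      (strict D.fl hc' (fun t ht => (inv x hx t ht).2) (hd _ i.1 i.2).2.2))
  have e2 := ev_le (D.f0.union D.f1).isCompact cm fun p hp =>
    mul_pos_of_neg_of_neg (hC p hp).1 (hC p hp).2
  let G : Set X := {x | c x < 0 → c' x < 0 →
    Df X (vs ℝ) c x (D.v x) * c' x + c x * Df X (vs ℝ) c' x (D.v x) < 0}
  have e3 := ev_le (hP.diff (isOpen_interior (s := G))) cm fun x hx => by
    refine (mul_nonneg_of_nonpos_of_nonpos hx.1.1 hx.1.2).lt_of_ne fun h => hx.2 ?_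
    obtain ⟨-, d1, d2⟩ := hd x hx.1.1 hx.1.2
    have ct := ((ca hc x).mul cc'.continuousAt).add (cc.continuousAt.mul (ca hc' x))
    rw [mem_interior_iff_mem_nhds]
    rcases hx.1.1.eq_or_lt with p | p <;> rcases hx.1.2.eq_or_lt with q | q
    · filter_upwards [(ca hc x).eventually (lt_mem_nhds (d1 p)),
        (ca hc' x).eventually (lt_mem_nhds (d2 q))] with y a b p q
      exact add_neg (mul_neg_of_pos_of_neg a q) (mul_neg_of_neg_of_pos p b)
    · refine (ct.eventually (gt_mem_nhds ?_)).mono fun y hy _ _ => hy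
      show _ * c' x + c x * _ < 0
      rw [p, zero_mul, add_zero]
      exact mul_neg_of_pos_of_neg (d1 p) q
    · refine (ct.eventually (gt_mem_nhds ?_)).mono fun y hy _ _ => hy
      show _ * c' x + c x * _ < 0
      rw [q, mul_zero, zero_add]
      exact mul_neg_of_neg_of_pos p (d2 q)
    · exact absurd h (mul_pos_of_neg_of_neg p q).ne
  filter_upwards [e1, e2, e3, self_mem_nhdsWithin] with ε e1 e2 e3 (hε : 0 < ε)
  have out : Out X D.v {x | c x ≤ 0 ∧ c' x ≤ 0 ∧ ε ≤ c x * c' x} := by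
    refine ⟨hP.of_isClosed_subset ((isClosed_le cc continuous_const).inter
      ((isClosed_le cc' continuous_const).inter (isClosed_le continuous_const cm)))
      fun x hx => ⟨hx.1, hx.2.1⟩, fun x hx => ?_⟩
    have p : c x < 0 := hx.1.lt_of_ne fun h => by
      have := hx.2.2
      rw [h, zero_mul] at this
      linarith
    have q : c' x < 0 := hx.2.1.lt_of_ne fun h => by
      have := hx.2.2
      rw [h, mul_zero] at this
      linarith
    have ep := cc.continuousAt.eventually (gt_mem_nhds p)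
    have eq := cc'.continuousAt.eventually (gt_mem_nhds q)
    rcases hx.2.2.eq_or_lt with h | h
    · refine Or.inr ⟨fun y => ε - c y * c' y, .of_forall fun y => (Df_prod D.fl hc hc' ε y).1,
        sub_eq_zero.2 h, ?_, ?_⟩
      · rw [(Df_prod D.fl hc hc' ε x).2, neg_pos]
        exact interior_subset (s := G)
          (by_contra fun k => (e3 x ⟨⟨hx.1, hx.2.1⟩, k⟩).ne h) p q
      · filter_upwards [ep, eq] with y a b
        exact ⟨fun k => sub_nonpos.2 k.2.2, fun k => ⟨a.le, b.le, sub_nonpos.1 k⟩⟩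
    · left
      filter_upwards [ep, eq, cm.continuousAt.eventually (lt_mem_nhds h)] with y a b k
      exact ⟨a.le, b.le, k.le⟩
  have sub : D.φ (-1) '' {x | c x ≤ 0 ∧ c' x ≤ 0} ⊆ {x | c x ≤ 0 ∧ c' x ≤ 0 ∧ ε ≤ c x * c' x} := by
    rintro _ ⟨x, hx, rfl⟩
    have i := inv x hx (-1) (by norm_num)
    exact ⟨i.1, i.2, (e1 _ ⟨x, hx, rfl⟩).le⟩
  have con := hcon.image _ (D.fl.cont_time (-1)).continuousOn
  obtain ⟨z, hz⟩ := con.nonempty
  refine ⟨⟨out, fun x hx => (hd x hx.1 hx.2.1).1⟩, ⟨⟨z, sub hz⟩, isPreconnected_of_forall z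
    fun y hy => ⟨_ ∪ (fun t => D.φ t y) '' Icc (-1) 0, union_subset sub ?_, Or.inl hz,
      Or.inr ⟨0, by norm_num, D.fl.zero y⟩, con.isPreconnected.union (D.φ (-1) y)
        ⟨y, ⟨hy.1, hy.2.1⟩, rfl⟩ ⟨-1, by norm_num, rfl⟩
        (isPreconnected_Icc.image _ (D.fl.cont_curve y).continuousOn)⟩⟩,
    fun p hp => ⟨(hC p hp).1.le, (hC p hp).2.le, (e2 p hp).le⟩⟩
  rintro _ ⟨t, ht, rfl⟩
  rcases ht.2.eq_or_lt with rfl | h
  · simpa only [D.fl.zero] using hy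
  · exact mem_of_mem_nhds (((hB X D.v D.φ _ D.fl).2 out).1 y hy t h)

end Pool.Agent.MP_7ebdba_gt.hb

end
end MrgPart2

-- ======== part 3: formerly Pool.Agent.MP_7ebdba_gt.hb.Handle
section MrgPart3

/-! Add-on HB, row HANDLE: an orientable handle on a connected boundary splits off. -/

open scoped ContDiff Manifold Topology RealInnerProductSpace
open Set Filter Function Metric Module Pool.Agent.MP_e1dc65_gt

noncomputable section

namespace Pool.Agent.MP_7ebdba_gt.hb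

variable {V : Type} [NormedAddCommGroup V] [InnerProductSpace ℝ V] [FiniteDimensional ℝ V]
  {e : V} {X Y : Mf V}

namespace Handle

omit [FiniteDimensional ℝ V] in
theorem unit {y : V} (hy : y ≠ 0) : ‖‖y‖⁻¹ • y‖ = 1 := norm_smul_inv_norm hy

omit [FiniteDimensional ℝ V] in
theorem polar {y : V} (hy : y ≠ 0) (h : y ∈ HS e) :
    ∃ v, ‖v‖ = 1 ∧ v ∈ HS e ∧ y = ‖y‖ • v :=
  ⟨‖y‖⁻¹ • y, norm_smul_inv_norm hy, (smul_mem_HS (inv_pos.2 (norm_pos_iff.2 hy))).2 h,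
    (smul_inv_smul₀ (norm_ne_zero_iff.2 hy) y).symm⟩

omit [FiniteDimensional ℝ V] in
theorem nrm {t : ℝ} {v : V} (hv : ‖v‖ = 1) (ht : 0 < t) : ‖t • v‖ = t := by
  rw [norm_smul, hv, mul_one, Real.norm_of_nonneg ht.le]

theorem mono {μ : ℝ → ℝ} (h : ∀ t, -1 < t → ContDiffAt ℝ ∞ μ t ∧ 0 < deriv μ t) :
    ContinuousOn μ (Ici 0) ∧ StrictMonoOn μ (Ici 0) := by
  have c : ContinuousOn μ (Ici 0) := fun t ht =>
    (h t (by linarith [mem_Ici.1 ht])).1.continuousAt.continuousWithinAt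
  exact ⟨c, strictMonoOn_of_deriv_pos (convex_Ici 0) c fun t ht =>
    (h t (by linarith [mem_Ici.1 (interior_subset ht)])).2⟩

/-- compression of the space onto the ball of radius four -/
theorem comp (hI : InterpStmt) (hR : RadStmt V) (e : V) : ∃ r : V → V, OE (vs V) (vs V) r univ ∧
    (∀ y, r y ∈ HS e ↔ y ∈ HS e) ∧ (∀ y, ‖y‖ ≤ 1 → r y = y) ∧ (∀ y, ‖r y‖ < 4) ∧
    (∀ y, ‖y‖ ≤ 3 → ∃ z, r z = y) ∧
    ∀ (t : ℝ) (v : V), 0 < t → t < 1 → ‖v‖ = 1 → r ((2 / (1 - t)) • v) = (3 + t) • v := by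
  obtain ⟨μ, h1, h2, h3⟩ := hI (fun t => t) (fun t => 4 - 2 * t⁻¹) (-1) 1 2 (by norm_num)
    (by norm_num) (fun t _ => ⟨contDiffAt_id, by simp⟩) (fun t ht => by
      have h0 : t ≠ 0 := by linarith
      refine ⟨contDiffAt_const.sub (contDiffAt_const.mul (contDiffAt_inv ℝ h0)), ?_⟩
      rw [(((hasDerivAt_inv h0).const_mul 2).const_sub 4).deriv]
      have : 0 < (t ^ 2)⁻¹ := by positivity
      linarith) (by norm_num)
  obtain ⟨c, m⟩ := mono h1
  have z := h2 0 zero_le_one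
  have p : ∀ t, 0 < t → 0 < μ t := fun t ht => z ▸ m self_mem_Ici ht.le ht
  have i : ∀ y : V, ‖y‖ ≤ 1 → rad μ y = y := fun y hy => by
    by_cases k : y = 0
    · simp [rad, k]
    · rw [rad, h2 _ hy, div_self (norm_ne_zero_iff.2 k), one_smul]
  refine ⟨rad μ, (hR μ 0 le_rfl fun t ht => ⟨(h1 t (by linarith)).1, (h1 t (by linarith)).2,
    p t ht⟩).2 1 one_pos rfl ?_, fun y => ?_, i, fun y => ?_, fun y hy => ?_,
    fun t v h0 ht hv => ?_⟩
  · filter_upwards [Ioo_mem_nhdsGT one_pos] with t ht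
    rw [h2 t ht.2.le, one_mul]
  · by_cases k : y = 0
    · rw [i y (by simp [k])]
    · exact rad_mem_HS k (p _ (norm_pos_iff.2 k))
  · by_cases k : y = 0
    · rw [i y (by simp [k]), k]; norm_num
    rw [norm_rad k (p _ (norm_pos_iff.2 k)).le]
    have a : 0 ≤ ‖y‖ := norm_nonneg y
    have b := m a (show 0 ≤ ‖y‖ + 2 by linarith) (by linarith)
    rw [h3 _ (by linarith : 2 ≤ ‖y‖ + 2)] at b
    have : 0 < (‖y‖ + 2)⁻¹ := by positivity
    linarith
  · by_cases k : y = 0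
    · exact ⟨0, by rw [i 0 (by simp), k]⟩
    obtain ⟨t, ht, e1⟩ := intermediate_value_Icc (f := μ) zero_le_two (c.mono Icc_subset_Ici_self)
      (show ‖y‖ ∈ _ by rw [z, h3 2 le_rfl]; exact ⟨norm_nonneg _, by linarith⟩)
    have t0 : 0 < t := ht.1.lt_of_ne fun k' => k (norm_eq_zero.1 (by rw [← e1, ← k', z]))
    exact ⟨t • (‖y‖⁻¹ • y), by rw [rad_smul (unit k) t0, e1,
      smul_inv_smul₀ (norm_ne_zero_iff.2 k)]⟩
  · have a : 0 < 1 - t := by linarith
    rw [rad_smul hv (by positivity), h3 _ (by rw [le_div_iff₀ a]; linarith)]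
    congr 1
    field_simp
    ring

/-- expansion away from the centre of a global chart -/
theorem expand (hI : InterpStmt) (hR : RadStmt V) {W : Set X} {h : V → X} (hh : PC X W e h univ) :
    ∃ E : X → X, (∀ x, x ≠ h 0 → LDAt X X E x ∧ (E x ∈ W ↔ x ∈ W) ∧ ∀ y, ‖y‖ ≤ 3 → E x ≠ h y) ∧
      InjOn E {h 0}ᶜ ∧ (∀ x, (∀ y, ‖y‖ ≤ 3 → x ≠ h y) → ∃ x', x' ≠ h 0 ∧ E x' = x) ∧
      ∀ (t : ℝ) (v : V), 0 < t → t < 1 → ‖v‖ = 1 → E (h (t • v)) = h ((3 + t) • v) := by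
  classical
  obtain ⟨μ, h1, h2, h3⟩ := hI (fun t => 3 + t) (fun t => t) (-1) 1 5 (by norm_num)
    (by norm_num) (fun t _ => ⟨contDiffAt_const.add contDiffAt_id, by simp⟩)
    (fun t _ => ⟨contDiffAt_id, by simp⟩) (by norm_num)
  obtain ⟨c, m⟩ := mono h1
  have z : μ 0 = 3 := by rw [h2 0 zero_le_one, add_zero]
  have p : ∀ t, 0 < t → 3 < μ t := fun t ht => z ▸ m self_mem_Ici ht.le ht
  have o := (hR μ 0 le_rfl fun t ht => ⟨(h1 t (by linarith)).1, (h1 t (by linarith)).2,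
    by linarith [p t ht]⟩).1
  have j : Injective h := injOn_univ.1 hh.oe.inj
  let E : X → X := fun x => if x ∈ range h then h (rad μ (invFunOn h univ x)) else x
  have a1 : ∀ y, E (h y) = h (rad μ y) := fun y => by
    simp only [E, if_pos (mem_range_self y), hh.oe.left (mem_univ y)]
  have a2 : ∀ x ∉ range h, E x = x := fun x hx => if_neg hx
  have n : ∀ y : V, y ≠ 0 → 3 < ‖rad μ y‖ := fun y hy => by
    have := p _ (norm_pos_iff.2 hy)
    rwa [norm_rad hy (by linarith)]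
  refine ⟨E, fun x hx => ?_, fun x hx x' hx' k => ?_, fun x hx => ?_, fun t v h0 ht hv => ?_⟩
  · by_cases k : x ∈ range h
    · obtain ⟨y, rfl⟩ := k
      have hy : y ≠ 0 := fun k => hx (k ▸ rfl)
      refine ⟨(hh.oe.ld y trivial).ld_of_comp (((o.ld y (norm_pos_iff.2 hy)).trans
        (hh.oe.ld _ trivial)).congr' (.of_forall a1)), ?_, fun w hw k => ?_⟩
      · rw [a1, hh.mem _ trivial, hh.mem _ trivial]
        exact rad_mem_HS hy (by linarith [p _ (norm_pos_iff.2 hy)])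
      · rw [a1] at k
        linarith [n y hy, j k ▸ hw]
    · refine ⟨ldAt_id.congr' ?_, by rw [a2 x k], fun w _ k' => k ⟨w, by rw [← k', a2 x k]⟩⟩
      filter_upwards [((isCompact_closedBall (0 : V) 5).image
        hh.oe.sm.cont).isClosed.isOpen_compl.mem_nhds fun k' => k (image_subset_range _ _ k')]
        with w hw
      by_cases k' : w ∈ range h
      · obtain ⟨y, rfl⟩ := k'
        have : 5 < ‖y‖ := not_le.1 fun b => hw ⟨y, mem_closedBall_zero_iff.2 b, rfl⟩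
        rw [a1, rad, h3 _ this.le, div_self (by linarith), one_smul]
      · exact a2 w k'
  · by_cases k1 : x ∈ range h <;> by_cases k2 : x' ∈ range h
    · obtain ⟨y, rfl⟩ := k1
      obtain ⟨y', rfl⟩ := k2
      rw [a1, a1] at k
      rw [o.inj (norm_pos_iff.2 fun b => hx (by rw [b]; rfl))
        (norm_pos_iff.2 fun b => hx' (by rw [b]; rfl)) (j k)]
    · obtain ⟨y, rfl⟩ := k1
      exact absurd ⟨_, by rw [← a1, k, a2 _ k2]⟩ k2
    · obtain ⟨y, rfl⟩ := k2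
      exact absurd ⟨_, by rw [← a1, ← k, a2 _ k1]⟩ k1
    · rwa [a2 _ k1, a2 _ k2] at k
  · by_cases k : x ∈ range h
    · obtain ⟨y, rfl⟩ := k
      have b : 3 < ‖y‖ := not_le.1 fun b => hx y b rfl
      have y0 : y ≠ 0 := norm_pos_iff.1 (by linarith)
      obtain ⟨t, ht, e1⟩ := intermediate_value_Icc (f := μ) (show 0 ≤ ‖y‖ + 5 by linarith)
        (c.mono Icc_subset_Ici_self)
        (show ‖y‖ ∈ _ by rw [z, h3 _ (by linarith)]; exact ⟨b.le, by linarith⟩)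
      have t0 : 0 < t := ht.1.lt_of_ne fun k' => by rw [← k', z] at e1; linarith
      refine ⟨h (t • (‖y‖⁻¹ • y)), fun k' => ?_, by rw [a1, rad_smul (unit y0) t0, e1,
        smul_inv_smul₀ (norm_ne_zero_iff.2 y0)]⟩
      have := nrm (unit y0) t0
      rw [j k', norm_zero] at this
      exact t0.ne this
    · exact ⟨x, hx 0 (by simp), a2 x k⟩
  · rw [a1, rad_smul hv h0, h2 t ht.le]

omit [FiniteDimensional ℝ V] in
theorem gl_iff {S : Type} {J a b : V → S} {α β : V → V} (j : InjOn J (HS e))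
    (ha : ∀ y ∈ HS e, ‖y‖ < 1 → α y ∈ HS e ∧ J (α y) = a y)
    (hb : ∀ y ∈ HS e, ‖y‖ < 1 → β y ∈ HS e ∧ J (β y) = b y) {z z' : V} (hz : z ∈ HS e)
    (hz' : z' ∈ HS e) : Gl e a b (J z) (J z') ↔ Gl e α β z z' := by
  refine exists₂_congr fun t v => and_congr_right fun h0 => and_congr_right fun h1 =>
    and_congr_right fun hv => and_congr_right fun hH => ?_
  have h2 : 0 < 1 - t := by linarith
  obtain ⟨a1, a2⟩ := ha _ ((smul_mem_HS h0).2 hH) (by rwa [nrm hv h0])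
  obtain ⟨b1, b2⟩ := hb _ ((smul_mem_HS h2).2 hH) (by rw [nrm hv h2]; linarith)
  rw [← a2, ← b2, j.eq_iff hz a1, j.eq_iff hz' b1]

theorem core (hI : InterpStmt) (hR : RadStmt V) {W M : Set X} {W' Q : Set Y} {a b h : V → X}
    {a' b' G q : V → Y} {f : X → X} {f' : Y → Y} {α β : V → V} {p : Y}
    (s : Slf e X W M a b f) (s' : Slf e Y W' Q a' b' f') (hh : PC X W e h univ)
    (G1 : ∀ z ∈ HS e, Rel (vs V) Y (HS e) W' G z) (G2 : InjOn G (HS e))
    (G3 : G '' HS e = W' \ {p}) (hp : p ∈ W' \ {a' 0, b' 0})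
    (hα : ∀ y ∈ HS e, ‖y‖ < 1 → α y ∈ HS e ∧ ‖α y‖ < 1 ∧ G (α y) = a' y ∧ h (α y) = a y)
    (hβ : ∀ y ∈ HS e, ‖y‖ < 1 → β y ∈ HS e ∧ ‖β y‖ < 1 ∧ G (β y) = b' y ∧ h (β y) = b y)
    (hq : PC Y Q e q (ball 0 2)) (q0 : q 0 = f' p)
    (q1 : ∀ (t : ℝ) (v : V), 0 < t → t < 1 → ‖v‖ = 1 → v ∈ HS e →
      q (t • v) = f' (G ((2 / t) • v))) : ABd e X Y X W Q M := by
  obtain ⟨r, r1, r2, r3, r4, r5, r6⟩ := comp hI hR e
  obtain ⟨E, E1, E2, E3, E4⟩ := expand hI hR hh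
  have jh : Injective h := injOn_univ.1 hh.oe.inj
  have jr : Injective r := injOn_univ.1 r1.inj
  have jJ : Injective fun z => h (r z) := jh.comp jr
  obtain ⟨α1, α2, α3, α4⟩ := hα 0 zero_mem_HS (by simp)
  obtain ⟨β1, β2, β3, β4⟩ := hβ 0 zero_mem_HS (by simp)
  set T : Set V := HS e \ {α 0, β 0} with hT
  have mG : ∀ z ∈ T, G z ∈ W' \ {a' 0, b' 0} := fun z hz =>
    ⟨(G1 z hz.1).mem hz.1, fun k => hz.2 (k.imp (fun k => G2 hz.1 α1 (k.trans α3.symm))
      fun k => G2 hz.1 β1 (Eq.trans k β3.symm))⟩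
  have mJ : ∀ z, h (r z) ∈ W \ {a 0, b 0} ↔ z ∈ T := fun z => by
    simp only [hT, mem_diff, mem_insert_iff, mem_singleton_iff, hh.mem _ trivial, r2, ← α4, ← β4,
      jh.eq_iff]
    rw [← jr.eq_iff (a := z) (b := α 0), ← jr.eq_iff (a := z) (b := β 0), r3 _ α2.le, r3 _ β2.le]
  have key : ∀ z ∈ T, ∀ z' ∈ T, f' (G z) = f' (G z') ↔ f (h (r z)) = f (h (r z')) := by
    intro z hz z' hz'
    have a1 := fun y hy k => And.intro (hα y hy k).1 (hα y hy k).2.2.1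
    have b1 := fun y hy k => And.intro (hβ y hy k).1 (hβ y hy k).2.2.1
    have a2 : ∀ y ∈ HS e, ‖y‖ < 1 → α y ∈ HS e ∧ h (r (α y)) = a y := fun y hy k =>
      ⟨(hα y hy k).1, by rw [r3 _ (hα y hy k).2.1.le, (hα y hy k).2.2.2]⟩
    have b2 : ∀ y ∈ HS e, ‖y‖ < 1 → β y ∈ HS e ∧ h (r (β y)) = b y := fun y hy k =>
      ⟨(hβ y hy k).1, by rw [r3 _ (hβ y hy k).2.1.le, (hβ y hy k).2.2.2]⟩
    rw [s'.eq _ (mG z hz) _ (mG z' hz'), s.eq _ ((mJ z).2 hz) _ ((mJ z').2 hz'),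
      G2.eq_iff hz.1 hz'.1, gl_iff G2 a1 b1 hz.1 hz'.1, gl_iff G2 b1 a1 hz.1 hz'.1,
      gl_iff jJ.injOn a2 b2 hz.1 hz'.1, gl_iff jJ.injOn b2 a2 hz.1 hz'.1]
    exact or_congr_left jJ.eq_iff.symm
  have hQ : Q \ {q 0} = (fun z => f' (G z)) '' T := by
    have np : ∀ z ∈ HS e, p ≠ G z := fun z hz k => (G3.subset ⟨z, hz, rfl⟩).2 k.symm
    ext y
    constructor
    · rintro ⟨h1, h2⟩
      obtain ⟨x, hx, rfl⟩ := s'.cov.subset h1
      obtain ⟨z, hz, rfl⟩ := G3.symm.subset ⟨hx.1, fun k => h2 (by rw [q0, show x = p from k]; rfl)⟩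
      exact ⟨z, ⟨hz, fun k => hx.2 (k.imp (fun k => by rw [k, α3]) fun k => by
        rw [show z = β 0 from k, β3]; rfl)⟩, rfl⟩
    · rintro ⟨z, hz, rfl⟩
      refine ⟨(s'.rf _ (mG z hz)).mem (mG z hz).1, fun k => ?_⟩
      rcases (s'.eq _ hp _ (mG z hz)).1 (q0.symm.trans k.symm) with k | ⟨t, v, h0, h1, hv, hH, k, -⟩ |
        ⟨t, v, h0, h1, hv, hH, k, -⟩
      · exact np z hz.1 k
      · obtain ⟨c1, -, c2, -⟩ := hα _ ((smul_mem_HS h0).2 hH) (by rwa [nrm hv h0])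
        exact np _ c1 (k.trans c2.symm)
      · obtain ⟨c1, -, c2, -⟩ := hβ _ ((smul_mem_HS h0).2 hH) (by rwa [nrm hv h0])
        exact np _ c1 (k.trans c2.symm)
  let g : Y → X := fun y => f (h (r (invFunOn (fun z => f' (G z)) T y)))
  have hg : ∀ z ∈ T, g (f' (G z)) = f (h (r z)) := fun z hz =>
    (key _ (invFunOn_mem ⟨z, hz, rfl⟩) z hz).1 (invFunOn_eq (f := fun z => f' (G z)) ⟨z, hz, rfl⟩)
  have mE : ∀ x ∈ W \ {h 0}, E x ∈ W \ {a 0, b 0} := fun x hx =>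
    ⟨(E1 x hx.2).2.1.2 hx.1, fun k => k.elim
      (fun k => (E1 x hx.2).2.2 _ (by linarith) (k.trans α4.symm))
      fun k => (E1 x hx.2).2.2 _ (by linarith) (Eq.trans k β4.symm)⟩
  have fE : ∀ x ∈ W \ {h 0}, ∀ w ∈ W \ {a 0, b 0}, f (E x) = f w → E x = w := by
    intro x hx w hw k
    rcases (s.eq _ (mE x hx) _ hw).1 k with k | ⟨t, v, h0, h1, hv, hH, k, -⟩ |
      ⟨t, v, h0, h1, hv, hH, k, -⟩
    · exact k
    · obtain ⟨-, c1, -, c2⟩ := hα _ ((smul_mem_HS h0).2 hH) (by rwa [nrm hv h0])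
      exact absurd (k.trans c2.symm) ((E1 x hx.2).2.2 _ (by linarith))
    · obtain ⟨-, c1, -, c2⟩ := hβ _ ((smul_mem_HS h0).2 hH) (by rwa [nrm hv h0])
      exact absurd (k.trans c2.symm) ((E1 x hx.2).2.2 _ (by linarith))
  have far : ∀ (t : ℝ) (v : V), 0 < t → t < 1 → ‖v‖ = 1 → v ∈ HS e → (2 / (1 - t)) • v ∈ T := by
    intro t v h0 h1 hv hH
    have c1 : 0 < 1 - t := by linarith
    have c2 : 1 < 2 / (1 - t) := by rw [lt_div_iff₀ c1]; linarith
    have c3 := nrm hv (one_pos.trans c2)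
    exact ⟨(smul_mem_HS (one_pos.trans c2)).2 hH, fun k => k.elim
      (fun k => by rw [k] at c3; linarith) fun k => by rw [show _ = β 0 from k] at c3; linarith⟩
  have rf1 : ∀ x ∈ W \ {h 0}, Rel X X W M (fun x => f (E x)) x := fun x hx =>
    (rel_of_ld (E1 x hx.2).1 (by
      filter_upwards [isOpen_ne.mem_nhds hx.2] with y hy using (E1 y hy).2.1)).trans hx.1
        (s.rf _ (mE x hx))
  have rf2 : ∀ y ∈ Q \ {q 0}, Rel Y X Q M g y := by
    rw [hQ]
    rintro _ ⟨z, hz, rfl⟩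
    refine ((G1 z hz.1).trans hz.1 (s'.rf _ (mG z hz))).desc hz.1
      (((rel_of_ld (r1.ld z trivial) (.of_forall r2)).trans hz.1 (hh.rel trivial)).trans hz.1
        (s.rf _ ((mJ z).2 hz))) ?_
    filter_upwards [(toFinite {α 0, β 0}).isClosed.isOpen_compl.mem_nhds hz.2] with y hy k
    exact hg y ⟨k, hy⟩
  refine ⟨h, q, fun x => f (E x), g, hh.mono isOpen_ball (subset_univ _), hq, rf1, rf2,
    fun x hx x' hx' k => E2 hx.2 hx'.2 (fE x hx _ (mE x' hx') k), ?_, ?_, fun x hx y hy => ?_⟩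
  · rw [hQ]
    rintro _ ⟨z, hz, rfl⟩ _ ⟨z', hz', rfl⟩ k
    exact (key z hz z' hz').2 (by rw [← hg z hz, ← hg z' hz']; exact k)
  · refine Subset.antisymm (fun x hx => ?_) (union_subset ?_ ?_)
    · obtain ⟨w, hw, rfl⟩ := s.cov.subset hx
      by_cases k : ∃ y, ‖y‖ ≤ 3 ∧ w = h y
      · obtain ⟨y, hy, rfl⟩ := k
        obtain ⟨z, rfl⟩ := r5 y hy
        exact Or.inr ⟨_, hQ.symm.subset ⟨z, (mJ z).1 hw, rfl⟩, hg z ((mJ z).1 hw)⟩
      · obtain ⟨x, h1, rfl⟩ := E3 w fun y hy k' => k ⟨y, hy, k'⟩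
        exact Or.inl ⟨x, ⟨(E1 x h1).2.1.1 hw.1, h1⟩, rfl⟩
    · rintro _ ⟨x, hx, rfl⟩
      exact (rf1 x hx).mem hx.1
    · rintro _ ⟨x, hx, rfl⟩
      exact (rf2 x hx).mem hx.1
  · constructor
    · intro k
      obtain ⟨z, hz, rfl⟩ := hQ.subset hy
      have k1 := fE x hx _ ((mJ z).2 hz) (k.trans (hg z hz))
      have k2 : 3 < ‖r z‖ := not_le.1 fun c => (E1 x hx.2).2.2 _ c k1
      obtain ⟨v, hv, hH, k3⟩ := polar (norm_pos_iff.1 (by linarith)) ((r2 z).2 hz.1)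
      obtain ⟨t, ht⟩ : ∃ t, ‖r z‖ = 3 + t := ⟨‖r z‖ - 3, by ring⟩
      have h0 : 0 < t := by linarith
      have h1 : t < 1 := by linarith [r4 z]
      rw [ht] at k3
      refine ⟨t, v, h0, h1, hv, hH, E2 hx.2 (fun c => ?_) (by rw [k1, k3, E4 t v h0 h1 hv]), ?_⟩
      · have := nrm hv h0
        rw [jh c, norm_zero] at this
        exact h0.ne this
      · rw [q1 _ v (by linarith) (by linarith) hv hH, jr (k3.trans (r6 t v h0 h1 hv).symm)]
    · rintro ⟨t, v, h0, h1, hv, hH, rfl, rfl⟩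
      rw [q1 _ v (by linarith) (by linarith) hv hH, hg _ (far t v h0 h1 hv hH), r6 t v h0 h1 hv,
        E4 t v h0 h1 hv]

theorem ball_smul {η : ℝ} (h0 : 0 < η) (h1 : η ≤ 1) {y : V} (hy : y ∈ ball (0 : V) 2) :
    η • y ∈ ball (0 : V) 2 := by
  rw [mem_ball_zero_iff] at hy ⊢
  rw [norm_smul, Real.norm_of_nonneg h0.le]
  nlinarith [norm_nonneg y]

theorem small {N : Set V} (hN : N ∈ 𝓝 (0 : V)) :
    ∀ᶠ η : ℝ in 𝓝[>] 0, (0 < η ∧ η ≤ 1) ∧ ∀ y ∈ ball (0 : V) 2, η • y ∈ N := by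
  obtain ⟨ρ, hρ, hb⟩ := Metric.mem_nhds_iff.1 hN
  filter_upwards [Ioo_mem_nhdsGT (half_pos hρ), Ioo_mem_nhdsGT one_pos] with η h1 h2
  refine ⟨⟨h1.1, h2.2.le⟩, fun y hy => hb ?_⟩
  rw [mem_ball_zero_iff] at hy ⊢
  rw [norm_smul, Real.norm_of_nonneg h1.1.le]
  nlinarith [h1.1, h1.2, norm_nonneg y]

/-- a small boundary chart read in a large one -/
theorem pull {W : Set Y} {G a : V → Y} {U : Set V} (hG : PC Y W e G U)
    (ha : PC Y W e a (ball 0 2)) {z : V} (hz : z ∈ U) (k : G z = a 0) :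
    ∀ᶠ η : ℝ in 𝓝[>] 0, ∃ α, PC (vs V) (HS e) e α (ball 0 2) ∧
      ∀ y ∈ ball (0 : V) 2, α y ∈ U ∧ ‖α y‖ < ‖z‖ + 1 ∧ G (α y) = a (η • y) := by
  have o := hG.oe.isOpen_image (hG.oe.op.inter (isOpen_ball (x := (0 : V)) (ε := ‖z‖ + 1)))
    inter_subset_left
  filter_upwards [small ((ha.oe.ld 0 (by simp)).sm.cont.preimage_mem_nhds
    (o.mem_nhds ⟨z, ⟨hz, by simp⟩, k⟩))] with η ⟨⟨h0, h1⟩, h2⟩
  have c : ∀ y ∈ ball (0 : V) 2, invFunOn G U (a (η • y)) ∈ U ∧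
      ‖invFunOn G U (a (η • y))‖ < ‖z‖ + 1 ∧ G (invFunOn G U (a (η • y))) = a (η • y) := by
    intro y hy
    obtain ⟨w, hw, k⟩ := h2 y hy
    rw [← k, hG.oe.left hw.1]
    exact ⟨hw.1, mem_ball_zero_iff.1 hw.2, rfl⟩
  refine ⟨fun y => invFunOn G U (a (η • y)), ⟨OE.trans (OE.trans ⟨isOpen_ball,
    fun y _ => ldAt_hom h0.ne' y, (smul_right_injective V h0.ne').injOn⟩ ha.oe
    fun y hy => ball_smul h0 h1 hy) hG.oe.symm fun y hy => ⟨_, (c y hy).1, (c y hy).2.2⟩,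
    fun y hy => ?_⟩, c⟩
  rw [← hG.mem _ (c y hy).1, (c y hy).2.2, ha.mem _ (ball_smul h0 h1 hy), smul_mem_HS h0]

theorem sg_smul {s : X → ℝ} {a b : V → X} (ha : LDAt (vs V) X a 0) (hb : LDAt (vs V) X b 0)
    {η : ℝ} (h0 : 0 < η) (k : sg X s a 0 * sg X s b 0 < 0) :
    sg X s (fun y => a (η • y)) 0 * sg X s (fun y => b (η • y)) 0 < 0 := by
  have l := ldAt_hom h0.ne' (0 : V)
  rw [sg_comp l.sm (by simpa using ha.sm), sg_comp l.sm (by simpa using hb.sm), smul_zero]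
  obtain ⟨L, hL⟩ := l.inv
  rw [Df_vs] at hL
  have : (fderiv ℝ (fun y : V => η • y) 0).det ≠ 0 := hL ▸ L.toLinearEquiv.isUnit_det'.ne_zero
  nlinarith [mul_self_pos.2 this]

end Handle

open Handle

theorem handle (hI : InterpStmt) (hR : RadStmt V) (hS : ShrinkStmt V) (hM : MobStmt V)
    (hH : HomStmt V) : HandleStmt V := by
  rintro e X Y W M Q a b f s hd he ⟨W', a', b', B, f', s', S', oB, rfl, o', n'⟩ S nW cW o n
  have jB : Injective B := injOn_univ.1 oB.inj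
  have inf : (sphere (0 : V) 1).Infinite :=
    (isConnected_sphere (by rw [← finrank_eq_rank]; norm_cast; omega) 0
      zero_le_one).2.infinite_of_nontrivial ⟨e, by simpa using he, -e, by simpa using he,
      fun k => by
        have := congrArg (fun y => ⟪e, y⟫) k
        simp only [inner_neg_right, real_inner_self_eq_norm_sq, he] at this
        linarith⟩
  obtain ⟨u, hu, hu'⟩ := inf.exists_notMem_finite ((toFinite {a' 0, b' 0}).preimage jB.injOn)
  obtain ⟨N, m, N1, N2, m1, m2, m3, -⟩ := hM e u 1 (by omega) he (by simpa using hu) one_ne_zero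
  have pc : ∀ (N : V → V) (U : Set V), PC (vs V) (closedBall 0 1) e N U →
      PC Y (B '' closedBall 0 1) e (fun y => B (N y)) U := fun N U k =>
    ⟨k.oe.trans oB (mapsTo_univ _ _), fun y hy => jB.mem_set_image.trans (k.mem y hy)⟩
  have G1 := pc N _ N1
  have G3 : (fun y => B (N y)) '' HS e = B '' closedBall 0 1 \ {B u} := by
    rw [← image_image B N, N2, image_diff jB, image_singleton]
  have sub : HS e ⊆ {-e}ᶜ := fun y hy k => by
    rw [show y = -e from k, HS, mem_setOf_eq, inner_neg_right, real_inner_self_eq_norm_sq, he] at hy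
    linarith
  obtain ⟨za, ha, ea⟩ := G3.symm.subset ⟨(S'.ca.mem 0 (by simp)).2 zero_mem_HS,
    fun k => hu' (Or.inl (Eq.symm k))⟩
  obtain ⟨zb, hb, eb⟩ := G3.symm.subset ⟨(S'.cb.mem 0 (by simp)).2 zero_mem_HS,
    fun k => hu' (Or.inr (Eq.symm k))⟩
  obtain ⟨η, ⟨⟨α, α1, α2⟩, β, β1, β2⟩, h0, h1⟩ := (((pull G1 S'.ca (sub ha) ea).and
    (pull G1 S'.cb (sub hb) eb)).and (Ioo_mem_nhdsGT one_pos)).exists
  have z2 : (0 : V) ∈ ball (0 : V) 2 := by simp
  have n1 := sg_smul (S'.ca.oe.ld 0 z2) (S'.cb.oe.ld 0 z2) h0 n'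
  rw [← sg_congr (h := fun y => B (N (α y))) (mem_of_superset (isOpen_ball.mem_nhds z2)
      fun y hy => (α2 y hy).2.2), ← sg_congr (h := fun y => B (N (β y))) (mem_of_superset
      (isOpen_ball.mem_nhds z2) fun y hy => (β2 y hy).2.2),
    sg_comp (α1.oe.sm 0 z2) (G1.oe.sm _ (α2 0 z2).1),
    sg_comp (β1.oe.sm 0 z2) (G1.oe.sm _ (β2 0 z2).1)] at n1
  have n2 := o'.const (isConnected_compl_singleton_of_one_lt_rank
    (by rw [← finrank_eq_rank]; norm_cast; omega) (-e)).2 G1.oe.ld (α2 0 z2).1 (β2 0 z2).1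
  have ne : ∀ {X : Mf V} {W M a b f}, Slf e X W M a b f → a 0 ≠ b 0 := fun k k' =>
    disjoint_left.1 k.dis ⟨0, z2, rfl⟩ ⟨0, z2, k'.symm⟩
  obtain ⟨h, hh, k1, k2⟩ := hH e X W s a b α β hd he nW cW o S.ca S.cb (ne S) α1 β1
    (fun k => ne S' (by
      have := (α2 0 z2).2.2
      rwa [k, (β2 0 z2).2.2, smul_zero, eq_comm] at this))
    (mul_pos_of_neg_of_neg n (neg_of_mul_neg_left (by linarith) n2.le))
  obtain ⟨θ, ⟨t0, t1⟩, t2⟩ := (small (k1.and k2)).exists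
  obtain ⟨f₁, S₁⟩ := (hS e θ t0 t1).2 X W M a b f S
  obtain ⟨f₂, S₂⟩ := (hS e (η * θ) (mul_pos h0 t0) (by nlinarith)).2 Y _ Q a' b' f' S'
  have hp : B u ∈ B '' closedBall 0 1 \ {a' ((η * θ) • 0), b' ((η * θ) • 0)} :=
    ⟨⟨u, sphere_subset_closedBall hu, rfl⟩, by rw [smul_zero]; exact hu'⟩
  have r : Rel (vs V) Y (HS e) Q (fun y => f₂ (B (m y))) 0 :=
    ((pc m _ m1).rel (by simp)).trans zero_mem_HS (by simpa only [m2] using S₂.rf _ hp)
  set ρ := ‖za‖ + ‖zb‖ + 1 with hρ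
  have ρ1 : 1 ≤ ρ := by linarith [norm_nonneg za, norm_nonneg zb]
  obtain ⟨ε, ⟨q, q1, -, q2⟩, e0, e1⟩ := ((r.up univ_mem).and
    (Ioo_mem_nhdsGT (show 0 < (2 * ρ)⁻¹ by positivity))).exists
  have e2 : 2 * ε * ρ < 1 := by
    rw [lt_inv_comm₀ e0 (by positivity), ← one_div, lt_div_iff₀ e0] at e1
    linarith
  have l0 : 0 < (2 * ε)⁻¹ := by positivity
  have l := ldAt_hom (V := V) l0.ne'
  have side : ∀ {α : V → V} {a : V → X} {a' : V → Y} {z : V}, ‖z‖ + 1 ≤ ρ →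
      PC (vs V) (HS e) e α (ball 0 2) →
      (∀ y ∈ ball (0 : V) 2, α y ∈ ({-e}ᶜ : Set V) ∧ ‖α y‖ < ‖z‖ + 1 ∧ B (N (α y)) = a' (η • y)) →
      (∀ y ∈ ball (0 : V) 2, h (α (θ • y)) = a (θ • y)) → ∀ y ∈ HS e, ‖y‖ < 1 →
      (2 * ε) • α (θ • y) ∈ HS e ∧ ‖(2 * ε) • α (θ • y)‖ < 1 ∧
        B (N ((2 * ε)⁻¹ • (2 * ε) • α (θ • y))) = a' ((η * θ) • y) ∧
        h ((2 * ε)⁻¹ • (2 * ε) • α (θ • y)) = a (θ • y) := by
    intro α a a' z c1 c2 c3 c4 y hy k
    have b1 : y ∈ ball (0 : V) 2 := mem_ball_zero_iff.2 (by linarith)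
    have b2 := ball_smul t0 t1 b1
    rw [inv_smul_smul₀ (by positivity), smul_mem_HS (by positivity), c2.mem _ b2, smul_mem_HS t0,
      (c3 _ b2).2.2, smul_smul, c4 y b1, norm_smul, Real.norm_of_nonneg (by positivity)]
    exact ⟨hy, by nlinarith [(c3 _ b2).2.1], rfl, rfl⟩
  refine core hI hR (h := fun y => h ((2 * ε)⁻¹ • y)) (G := fun y => B (N ((2 * ε)⁻¹ • y))) S₁ S₂
    ⟨OE.trans ⟨isOpen_univ, fun y _ => l y, (smul_right_injective V l0.ne').injOn⟩ hh.oe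
      (mapsTo_univ _ _), fun y _ => (hh.mem _ trivial).trans (smul_mem_HS l0)⟩
    (fun z hz => (rel_of_ld (l z) (.of_forall fun _ => smul_mem_HS l0)).trans hz
      (G1.rel (sub ((smul_mem_HS l0).2 hz))))
    (fun z hz z' hz' k => smul_right_injective V l0.ne' (G1.oe.inj (sub ((smul_mem_HS l0).2 hz))
      (sub ((smul_mem_HS l0).2 hz')) k)) ?_ hp
    (side (by linarith [norm_nonneg zb]) α1 α2 fun y hy => (t2 y hy).1)
    (side (by linarith [norm_nonneg za]) β1 β2 fun y hy => (t2 y hy).2) q1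
    (by rw [q2 0 zero_mem_HS (by simp), smul_zero, m2]) fun t v h0 h1 hv hH => ?_
  · rw [← G3]
    refine Subset.antisymm (by rintro _ ⟨z, hz, rfl⟩; exact ⟨_, (smul_mem_HS l0).2 hz, rfl⟩) ?_
    rintro _ ⟨z, hz, rfl⟩
    exact ⟨(2 * ε) • z, (smul_mem_HS (by positivity)).2 hz, by
      simp only [inv_smul_smul₀ (show 2 * ε ≠ 0 by positivity)]⟩
  · have c := nrm hv (mul_pos e0 h0)
    rw [q2 _ ((smul_mem_HS h0).2 hH) (by rw [nrm hv h0]; linarith), smul_smul,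
      m3 _ (norm_pos_iff.1 (by rw [c]; positivity)) (by rw [c]; nlinarith), c, smul_smul, smul_smul]
    congr 4
    field_simp

end Pool.Agent.MP_7ebdba_gt.hb

end
end MrgPart3

-- ======== part 4: formerly Pool.Agent.MP_7ebdba_gt.hb.Pal
section MrgPart4

/-! Add-on HB, row PAL: maps close to the identity, and extension of germs at the boundary. -/

open scoped ContDiff Manifold Topology RealInnerProductSpace
open Set Filter Function Metric Module Pool.Agent.MP_e1dc65_gt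

noncomputable section

namespace Pool.Agent.MP_7ebdba_gt.hb

variable {V : Type} [NormedAddCommGroup V] [InnerProductSpace ℝ V] [FiniteDimensional ℝ V]

namespace Pal

theorem inv_of_inj {A : V →L[ℝ] V} (h : ∀ y, A y = 0 → y = 0) : A.IsInvertible :=
  ⟨(LinearEquiv.ofInjectiveEndo A.toLinearMap
    ((injective_iff_map_eq_zero _).2 h)).toContinuousLinearEquiv, by ext; rfl⟩

/-- germs that extend -/
def Re (e : V) (r : ℝ) (α : V → V) : Prop :=
  ∃ β : V → V, GD (vs V) β ∧ (∀ y, r ≤ ‖y‖ → β y = y) ∧ (∀ y, β y ∈ HS e ↔ y ∈ HS e) ∧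
    β =ᶠ[𝓝 0] α

variable {e : V} {r : ℝ} {α γ : V → V}

theorem Re.congr (h : Re e r α) (k : ∀ y, α y = γ y) : Re e r γ := (funext k : α = γ) ▸ h

theorem Re.comp (h : Re e r α) (h' : Re e r γ) (h0 : α 0 = 0) : Re e r fun y => γ (α y) := by
  obtain ⟨β, a, b, c, d⟩ := h
  obtain ⟨β', a', b', c', d'⟩ := h'
  refine ⟨fun y => β' (β y), a.trans a', fun y hy => (congrArg β' (b y hy)).trans (b' y hy),
    fun y => (c' _).trans (c y), ?_⟩
  have t : Tendsto β (𝓝 0) (𝓝 0) := by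
    have := a.cont.tendsto 0
    rwa [d.eq_of_nhds, h0] at this
  filter_upwards [d, t.eventually d'] with y k k'
  rw [k', k]

theorem Re.cancel (h : Re e r γ) (h' : Re e r fun y => γ (α y)) (hc : Continuous α)
    (h0 : α 0 = 0) : Re e r α := by
  obtain ⟨β, a, b, c, d⟩ := h
  obtain ⟨β', a', b', c', d'⟩ := h'
  obtain ⟨ι, i, l, s⟩ := a.exists_inv
  refine ⟨fun y => ι (β' y), a'.trans i, fun y hy => ?_, fun y => ?_, ?_⟩
  · exact (congrArg ι ((b' y hy).trans (b y hy).symm)).trans (l y)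
  · rw [← c, s, c']
  · have t : Tendsto α (𝓝 0) (𝓝 0) := by simpa only [h0] using hc.tendsto 0
    filter_upwards [d', t.eventually d] with y k k'
    rw [k, ← k', l]

/-- germs whose derivative is close to the identity extend -/
theorem small (hn : NearStmt V) : ∃ δ : ℝ, 0 < δ ∧ ∀ (e : V) (r : ℝ) (α : V → V), 0 < r →
    (∀ᶠ y in 𝓝 0, ContDiffAt ℝ ∞ α y) → α 0 = 0 → (∀ᶠ y in 𝓝 0, α y ∈ HS e ↔ y ∈ HS e) →
    ‖fderiv ℝ α 0 - ContinuousLinearMap.id ℝ V‖ < δ → Re e r α := by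
  let χ : ContDiffBump (0 : V) := ⟨1, 2, one_pos, one_lt_two⟩
  have sχ : ContDiff ℝ ∞ χ := χ.contDiff
  obtain ⟨C, hC⟩ := (sχ.continuous_fderiv (by simp)).bounded_above_of_compact_support
    (χ.hasCompactSupport.fderiv ℝ)
  have C0 : 0 ≤ C := (norm_nonneg _).trans (hC 0)
  refine ⟨1 / (2 * (1 + 2 * C)), by positivity, fun e r α hr hs h0 hH hd => ?_⟩
  set δ := 1 / (2 * (1 + 2 * C)) with hδ
  have δ0 : 0 < δ := by positivity
  have c1 : ContinuousAt (fun y => ‖fderiv ℝ α y - ContinuousLinearMap.id ℝ V‖) 0 :=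
    (((hs.self_of_nhds.fderiv_right (m := 0) (by simp)).continuousAt).sub continuousAt_const).norm
  obtain ⟨ρ, hρ, hb⟩ := Metric.eventually_nhds_iff_ball.1
    (hs.and (hH.and (c1.eventually (gt_mem_nhds hd))))
  let η := min r ρ / 4
  have η0 : 0 < η := by positivity
  have ηr : 4 * η ≤ r := by
    have := min_le_left r ρ
    simp only [η]; linarith
  have ηρ : 4 * η ≤ ρ := by
    have := min_le_right r ρ
    simp only [η]; linarith
  let a : V → ℝ := fun y => χ (η⁻¹ • y)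
  have sa : ContDiff ℝ ∞ a := sχ.comp (contDiff_const_smul _)
  have a0 : ∀ y, 2 * η ≤ ‖y‖ → a y = 0 := fun y hy => χ.zero_of_le_dist (by
    rw [dist_zero_right, norm_smul, norm_inv, Real.norm_of_nonneg η0.le, ← div_eq_inv_mul,
      le_div_iff₀ η0]
    exact hy)
  have da : ∀ y, ‖fderiv ℝ a y‖ ≤ C * η⁻¹ := fun y => by
    have := ((sχ.differentiable (by simp) (η⁻¹ • y)).hasFDerivAt.comp y
      ((hasFDerivAt_id y).const_smul η⁻¹)).fderiv
    rw [show fderiv ℝ a y = _ from this]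
    refine (ContinuousLinearMap.opNorm_comp_le _ _).trans (mul_le_mul (hC _) ?_ (norm_nonneg _) C0)
    rw [norm_smul, norm_inv, Real.norm_of_nonneg η0.le]
    exact mul_le_of_le_one_right (by positivity) ContinuousLinearMap.norm_id_le
  have z : ∀ y, 2 * η < ‖y‖ → (fun y => a y • (α y - y)) =ᶠ[𝓝 y] fun _ => 0 := fun y hy => by
    filter_upwards [continuous_norm.continuousAt.eventually (lt_mem_nhds hy)] with w hw
    rw [a0 w hw.le, zero_smul]
  have m : ∀ y : V, ‖y‖ ≤ 2 * η → y ∈ ball (0 : V) ρ := fun y hy =>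
    mem_ball_zero_iff.2 (by linarith)
  have du : ∀ y ∈ ball (0 : V) ρ, HasFDerivAt (fun y => α y - y)
      (fderiv ℝ α y - ContinuousLinearMap.id ℝ V) y := fun y hy =>
    ((hb y hy).1.differentiableAt (by simp)).hasFDerivAt.sub (hasFDerivAt_id y)
  refine ⟨fun y => y + a y • (α y - y), hn _ (contDiff_iff_contDiffAt.2 fun y => ?_) fun y => ?_,
    fun y hy => by simp only [a0 y (by linarith), zero_smul, add_zero], fun y => ?_, ?_⟩
  · rcases lt_or_ge (2 * η) ‖y‖ with k | k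
    · exact contDiffAt_const.congr_of_eventuallyEq (z y k)
    · exact sa.contDiffAt.smul ((hb y (m y k)).1.sub contDiffAt_id)
  · rcases lt_or_ge (2 * η) ‖y‖ with k | k
    · rw [(z y k).fderiv_eq]; simp
    · have n : ‖α y - y‖ ≤ δ * ‖y‖ := by
        simpa [h0] using (convex_ball (0 : V) ρ).norm_image_sub_le_of_norm_hasFDerivWithin_le
          (fun w hw => (du w hw).hasFDerivWithinAt) (fun w hw => (hb w hw).2.2.le)
          (mem_ball_self hρ) (m y k)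
      rw [((sa.differentiable (by simp) y).hasFDerivAt.fun_smul (du y (m y k))).fderiv]
      refine (norm_add_le _ _).trans ?_
      rw [norm_smul, ContinuousLinearMap.norm_smulRight_apply, Real.norm_of_nonneg χ.nonneg]
      have e1 : a y * ‖fderiv ℝ α y - ContinuousLinearMap.id ℝ V‖ ≤ 1 * δ :=
        mul_le_mul χ.le_one (hb y (m y k)).2.2.le (norm_nonneg _) zero_le_one
      have e2 : ‖fderiv ℝ a y‖ * ‖α y - y‖ ≤ C * η⁻¹ * (δ * (2 * η)) :=
        mul_le_mul (da y) (n.trans (mul_le_mul_of_nonneg_left k δ0.le)) (norm_nonneg _)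
          (by positivity)
      have e3 : 1 * δ + C * η⁻¹ * (δ * (2 * η)) = 1 / 2 := by
        rw [hδ]; field_simp
      exact (add_le_add e1 e2).trans e3.le
  · rcases lt_or_ge (2 * η) ‖y‖ with k | k
    · simp only [a0 y k.le, zero_smul, add_zero]
    · have h1 := (hb y (m y k)).2.1
      have h2 : 0 ≤ a y := χ.nonneg
      have h3 : a y ≤ 1 := χ.le_one
      simp only [HS, mem_ofPred_eq, inner_add_right, inner_smul_right, inner_sub_right] at h1 ⊢
      refine ⟨fun h => by_contra fun h' => ?_, fun h => by nlinarith [h1.2 h]⟩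
      have h4 := not_le.1 (mt h1.1 h')
      have h5 := not_le.1 h'
      rcases h2.eq_or_lt with h6 | h6
      · rw [← h6] at h; linarith
      · nlinarith
  · filter_upwards [ball_mem_nhds (0 : V) η0] with y hy
    have : a y = 1 := χ.one_of_mem_closedBall (by
      rw [mem_closedBall_zero_iff, norm_smul, norm_inv, Real.norm_of_nonneg η0.le, ← div_eq_inv_mul,
        div_le_iff₀ η0]
      exact (mem_ball_zero_iff.1 hy).le.trans (one_mul η).ge)
    rw [this, one_smul, add_sub_cancel]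

/-- the linear automorphisms of the half-space -/
def G (e : V) : Set (V →L[ℝ] V) :=
  {A | (∀ y, A y = 0 → y = 0) ∧ ∃ c : ℝ, 0 < c ∧ ∀ y, ⟪e, A y⟫ = c * ⟪e, y⟫}

omit [FiniteDimensional ℝ V] in
theorem G.mem {A : V →L[ℝ] V} (h : A ∈ G e) (y : V) : A y ∈ HS e ↔ y ∈ HS e := by
  obtain ⟨-, c, hc, h⟩ := h
  simp only [HS, mem_ofPred_eq, h, mul_nonneg_iff_of_pos_left hc]

theorem conn (hn : NearStmt V) (hr : 0 < r) {s : Set (V →L[ℝ] V)} (hs : IsPreconnected s)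
    (hG : s ⊆ G e) {A B : V →L[ℝ] V} (hA : A ∈ s) (hB : B ∈ s) : Re e r A → Re e r B := by
  obtain ⟨δ, δ0, hδ⟩ := small hn
  refine hs.induction₂' (fun A B => Re e r A → Re e r B) (fun A hA => ?_)
    (fun _ _ _ _ _ _ a b h => b (a h)) hA hB
  obtain ⟨L, hL⟩ := inv_of_inj (hG hA).1
  have c : Continuous fun B : V →L[ℝ] V =>
      ‖B.comp (L.symm : V →L[ℝ] V) - ContinuousLinearMap.id ℝ V‖ :=
    ((continuous_id.clm_comp continuous_const).sub continuous_const).norm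
  have c0 : ‖A.comp (L.symm : V →L[ℝ] V) - ContinuousLinearMap.id ℝ V‖ < δ := by
    rw [← hL]; simpa using δ0
  filter_upwards [mem_nhdsWithin_of_mem_nhds (c.continuousAt.eventually (gt_mem_nhds c0)),
    self_mem_nhdsWithin] with B k hB
  have l : ∀ y, B.comp (L.symm : V →L[ℝ] V) (A y) = B y := fun y => by rw [← hL]; simp
  have R : Re e r (B.comp (L.symm : V →L[ℝ] V)) := by
    refine hδ e r _ hr (.of_forall fun _ => (ContinuousLinearMap.contDiff _).contDiffAt)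
      (map_zero _) (.of_forall fun y => ?_) (by rwa [ContinuousLinearMap.fderiv])
    obtain ⟨w, rfl⟩ := L.surjective y
    rw [show L w = A w from congrArg (· w) hL, l, G.mem (hG hB), G.mem (hG hA)]
  exact ⟨fun h => (h.comp R (map_zero _)).congr l, fun h =>
    R.cancel (h.congr fun y => (l y).symm) A.continuous (map_zero _)⟩

theorem lin (hn : NearStmt V) (hg : GLStmt) (he : ‖e‖ = 1) (hr : 0 < r) {A : V →L[ℝ] V}
    (hA : A ∈ G e) (hd : 0 < A.det) : Re e r A := by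
  have ee : ⟪e, e⟫ = 1 := by rw [real_inner_self_eq_norm_sq, he, one_pow]
  let W : Submodule ℝ V := (ℝ ∙ e)ᗮ
  have mW : ∀ y, y ∈ W ↔ ⟪e, y⟫ = 0 := fun y => Submodule.mem_orthogonal_singleton_iff_inner_right
  let P : V →L[ℝ] W := (ContinuousLinearMap.id ℝ V - (innerSL ℝ e).smulRight e).codRestrict W
    fun y => (mW _).2 (by simp [inner_sub_right, inner_smul_right, he])
  have hP : ∀ y, (P y : V) = y - ⟪e, y⟫ • e := fun y => rfl
  let Φ : (W →L[ℝ] W) → V →L[ℝ] V := fun L =>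
    (innerSL ℝ e).smulRight e + W.subtypeL.comp (L.comp P)
  have hΦ : ∀ L y, Φ L y = ⟪e, y⟫ • e + (L (P y) : V) := fun L y => rfl
  have cΦ : Continuous Φ :=
    continuous_const.add (continuous_const.clm_comp (continuous_id.clm_comp continuous_const))
  have iΦ : ∀ L y, ⟪e, Φ L y⟫ = ⟪e, y⟫ := fun L y => by
    rw [hΦ, inner_add_right, inner_smul_right, ee, (mW _).1 (L (P y)).2, mul_one, add_zero]
  obtain ⟨hi, c, hc, hA'⟩ := id hA
  have iW : W ≤ W.comap A.toLinearMap := fun y hy => (mW _).2 (by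
    rw [ContinuousLinearMap.coe_coe, hA', (mW _).1 hy, mul_zero])
  let L : W →L[ℝ] W := LinearMap.toContinuousLinearMap (A.toLinearMap.restrict iW)
  have hL : ∀ w : W, (L w : V) = A w := fun w => rfl
  have dL : 0 < L.det := by
    have h1 := A.toLinearMap.det_eq_det_mul_det W iW
    have h2 : W.mapQ W A.toLinearMap iW = c • LinearMap.id := by
      refine Submodule.linearMap_qext _ (LinearMap.ext fun y => ?_)
      change W.mkQ (A y) = c • W.mkQ y
      rw [← map_smul, Submodule.mkQ_apply, Submodule.mkQ_apply, Submodule.Quotient.eq, mW,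
        inner_sub_right, hA', inner_smul_right, sub_self]
    rw [h2, LinearMap.det_smul, LinearMap.det_id, mul_one] at h1
    exact (mul_pos_iff_of_pos_right (pow_pos hc _)).1 (hd.trans_eq h1)
  have r1 : Re e r (Φ (ContinuousLinearMap.id ℝ W)) :=
    ⟨fun y => y, gd_id, fun _ _ => rfl, fun _ => Iff.rfl, .of_forall fun y => by
      rw [hΦ, ContinuousLinearMap.id_apply, hP, add_sub_cancel]⟩
  obtain ⟨p, hp⟩ := hg W L dL
  have r2 : Re e r (Φ L) := by
    refine conn hn hr (isPreconnected_range (cΦ.comp p.continuous)) ?_ ⟨0, congrArg Φ p.source⟩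
      ⟨1, congrArg Φ p.target⟩ r1
    rintro _ ⟨t, rfl⟩
    refine ⟨fun y hy => ?_, 1, one_pos, fun y => (iΦ _ y).trans (one_mul _).symm⟩
    have h1 : ⟪e, y⟫ = 0 := by rw [← iΦ (p t) y, show Φ (p t) y = 0 from hy, inner_zero_right]
    have h2 : Φ (p t) y = 0 := hy
    rw [hΦ, h1, zero_smul, zero_add, Submodule.coe_eq_zero] at h2
    have h3 : P y = 0 := ((p t).toContinuousLinearEquivOfDetNeZero (hp t)).map_eq_zero_iff.1 h2
    have h4 := hP y
    rwa [h3, h1, zero_smul, sub_zero, eq_comm] at h4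
  refine conn hn hr (convex_segment (Φ L) A).isPreconnected ?_ (left_mem_segment _ _ _)
    (right_mem_segment _ _ _) r2
  rintro _ ⟨a, b, ha, hb, hab, rfl⟩
  have p : 0 < a + b * c := by
    rcases ha.eq_or_lt with h | h
    · rw [← h, zero_add] at hab ⊢; rwa [hab, one_mul]
    · positivity
  have i : ∀ y, ⟪e, (a • Φ L + b • A) y⟫ = (a + b * c) * ⟪e, y⟫ := fun y => by
    rw [add_apply, smul_apply,
      smul_apply, inner_add_right, inner_smul_right, inner_smul_right, iΦ, hA']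
    ring
  refine ⟨fun y hy => hi y ?_, _, p, i⟩
  have h1 : ⟪e, y⟫ = 0 := by
    have := i y
    rw [hy, inner_zero_right] at this
    exact (mul_eq_zero.1 this.symm).resolve_left p.ne'
  rwa [add_apply, smul_apply,
    smul_apply, hΦ, hL, hP, h1, zero_smul, zero_add, sub_zero, ← add_smul, hab,
    one_smul] at hy

omit [FiniteDimensional ℝ V] in
theorem der_mem {L : V ≃L[ℝ] V} (he : ‖e‖ = 1) (hd : HasFDerivAt α (L : V →L[ℝ] V) 0)
    (h0 : α 0 = 0) (hH : ∀ᶠ y in 𝓝 0, α y ∈ HS e ↔ y ∈ HS e) : (L : V →L[ℝ] V) ∈ G e := by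
  have ee : ⟪e, e⟫ = 1 := by rw [real_inner_self_eq_norm_sq, he, one_pow]
  have k : ∀ y, 0 ≤ ⟪e, y⟫ → 0 ≤ ⟪e, L y⟫ := fun y hy => by
    have d1 : HasDerivAt (fun t : ℝ => t • y) y 0 := by
      simpa using (hasDerivAt_id (0 : ℝ)).smul_const y
    have d2 : HasDerivAt (fun t : ℝ => ⟪e, α (t • y)⟫) ⟪e, L y⟫ 0 :=
      (innerSL ℝ e).hasFDerivAt.comp_hasDerivAt 0
        (hd.comp_hasDerivAt_of_eq 0 d1 (zero_smul _ _).symm)
    refine ge_of_tendsto d2.tendsto_slope_zero_right ?_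
    have t : Tendsto (fun t : ℝ => t • y) (𝓝 0) (𝓝 0) := by
      simpa using d1.continuousAt.tendsto
    filter_upwards [mem_nhdsWithin_of_mem_nhds (t.eventually hH), self_mem_nhdsWithin] with t k ht
    rw [zero_add, zero_smul, h0, inner_zero_right, sub_zero]
    exact mul_nonneg (inv_pos.2 ht).le (k.2 ((smul_mem_HS ht).2 hy))
  have i : ∀ y, ⟪e, L y⟫ = ⟪e, L e⟫ * ⟪e, y⟫ := fun y => by
    have h1 : ⟪e, y - ⟪e, y⟫ • e⟫ = 0 := by
      rw [inner_sub_right, inner_smul_right, ee, mul_one, sub_self]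
    have h2 := k _ h1.ge
    have h3 := k (-(y - ⟪e, y⟫ • e)) (by rw [inner_neg_right, h1, neg_zero])
    rw [map_neg, inner_neg_right] at h3
    rw [map_sub, map_smul, inner_sub_right, inner_smul_right] at h2 h3
    linarith
  refine ⟨fun y hy => L.map_eq_zero_iff.1 hy, _, (k e (by rw [ee]; exact zero_le_one)).lt_of_ne
    fun h => ?_, i⟩
  have := i (L.symm e)
  rw [L.apply_symm_apply, ee, ← h, zero_mul] at this
  exact one_ne_zero this

end Pal

theorem near : NearStmt V := fun u hu hd => by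
  have := FiniteDimensional.complete ℝ V
  have du := hu.differentiable (by simp)
  have lip : LipschitzWith (1 / 2) u := lipschitzWith_of_nnnorm_fderiv_le du fun y => by
    rw [← NNReal.coe_le_coe]; simpa using hd y
  refine ⟨fun y => ldAt_vs univ_mem (fun y _ => contDiffAt_id.add hu.contDiffAt)
    (Pal.inv_of_inj fun w hw => ?_), fun y z h => ?_, fun w => ?_⟩
  · rw [show fderiv ℝ (fun y => y + u y) y = _ from
      ((hasFDerivAt_id y).fun_add (du y).hasFDerivAt).fderiv] at hw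
    have h1 : w = -fderiv ℝ u y w := eq_neg_of_add_eq_zero_left hw
    have h2 := (fderiv ℝ u y).le_of_opNorm_le (hd y) w
    rw [← norm_neg, ← h1] at h2
    exact norm_le_zero_iff.1 (by linarith)
  · have h1 := lip.dist_le_mul z y
    have h2 : u z - u y = y - z := by
      rw [sub_eq_sub_iff_add_eq_add, add_comm]; exact Eq.symm h
    rw [dist_eq_norm, h2, ← dist_eq_norm, dist_comm z] at h1
    push_cast at h1
    exact dist_le_zero.1 (by linarith)
  · have c : ContractingWith (1 / 2) fun y => w - u y :=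
      ⟨by norm_num, by simpa using (LipschitzWith.const w).sub lip⟩
    exact ⟨c.fixedPoint _, eq_sub_iff_add_eq.1 c.fixedPoint_isFixedPt.symm⟩

theorem palais (hn : NearStmt V) (hg : GLStmt) : PalaisStmt V := fun e α r he hr hα h0 hH hd => by
  obtain ⟨δ, δ0, hδ⟩ := Pal.small hn
  have hs : ∀ᶠ y in 𝓝 0, ContDiffAt ℝ ∞ α y := hα.ev.mono fun y hy => smAt_vs.1 hy.sm
  obtain ⟨L, hL⟩ := hα.inv
  rw [Df_vs] at hL
  have d : HasFDerivAt α (L : V →L[ℝ] V) 0 :=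
    hL ▸ (hs.self_of_nhds.differentiableAt (by simp)).hasFDerivAt
  have g := Pal.der_mem he d h0 hH
  have z : L.symm (α 0) = 0 := by rw [h0, map_zero]
  refine ((hδ e r (fun y => L.symm (α y)) hr (hs.mono fun y hy => L.symm.contDiff.contDiffAt.comp y hy)
    z (hH.mono fun y hy => ?_) ?_).comp (Pal.lin hn hg he hr g (hL ▸ hd)) z).congr
    fun y => L.apply_symm_apply _
  · rw [← hy, ← Pal.G.mem g]
    exact iff_of_eq (congrArg (· ∈ HS e) (L.apply_symm_apply _))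
  · rw [show fderiv ℝ (fun y => L.symm (α y)) 0 = _ from (L.symm.hasFDerivAt.comp 0 d).fderiv]
    simpa using δ0

end Pool.Agent.MP_7ebdba_gt.hb

end
end MrgPart4

-- ======== part 5: formerly Pool.Agent.MP_7ebdba_gt.hb.Unit
section MrgPart5

/-! Add-on HB, row UNIT: the ball is a unit for the boundary sum. -/

open scoped ContDiff Manifold Topology RealInnerProductSpace
open Set Filter Function Metric Module Pool.Agent.MP_e1dc65_gt

noncomputable section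

namespace Pool.Agent.MP_7ebdba_gt.hb

variable {V : Type} [NormedAddCommGroup V] [InnerProductSpace ℝ V] [FiniteDimensional ℝ V]

namespace Unit

/-- the profile of the radial compression of the space onto the unit ball -/
theorem prof (h1 : InterpStmt) {η : ℝ} (h0 : 0 < η) (hη : η ≤ 1) : ∃ μ : ℝ → ℝ,
    (∀ t, 0 < t → ContDiffAt ℝ ∞ μ t ∧ 0 < deriv μ t ∧ 0 < μ t) ∧ (∀ t, 0 < t → μ t < 1) ∧
    (∀ᶠ t in 𝓝[>] 0, μ t = 1 * t) ∧ (∀ t, 2 / η ≤ t → μ t = 1 - (η * t)⁻¹) ∧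
    ∀ s, 0 < s → s < 1 → ∃ t, 0 < t ∧ μ t = s := by
  have hb : (1 / 4 : ℝ) < 2 / η := by rw [lt_div_iff₀ h0]; linarith
  have gb : 1 - (η * (2 / η))⁻¹ = 1 / 2 := by field_simp; norm_num
  obtain ⟨μ, a1, a2, a3⟩ := h1 (fun t => t) (fun t => 1 - (η * t)⁻¹) 0 (1 / 4) (2 / η)
    (by norm_num) hb (fun t _ => ⟨contDiffAt_id, by simp⟩) (fun t ht => by
      have ne : η * t ≠ 0 := (mul_pos h0 (by linarith)).ne'
      refine ⟨contDiffAt_const.sub ((contDiffAt_const.mul contDiffAt_id).inv ne), ?_⟩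
      have d := (((hasDerivAt_id t).const_mul η).inv ne).const_sub 1
      have d' : HasDerivAt (fun t => 1 - (η * t)⁻¹) (-(-(η * 1) / (η * t) ^ 2)) t := d
      rw [d'.deriv, neg_div, neg_neg, mul_one]
      positivity) (by rw [gb]; norm_num)
  have co : ContinuousOn μ (Ioi 0) := fun t ht => (a1 t ht).1.continuousAt.continuousWithinAt
  have mo : MonotoneOn μ (Ioi 0) := (strictMonoOn_of_deriv_pos (convex_Ioi 0) co fun t ht =>
    (a1 t (interior_subset ht)).2).monotoneOn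
  have p2 : 0 < 2 / η := by positivity
  refine ⟨μ, fun t ht => ⟨(a1 t ht).1, (a1 t ht).2, ?_⟩, fun t ht => ?_, ?_, a3, fun s s0 s1 => ?_⟩
  · rcases le_total t (1 / 4) with k | k
    · rwa [a2 t k]
    · have := mo (show (1 / 4 : ℝ) ∈ Ioi 0 by norm_num) ht k
      rw [a2 _ le_rfl] at this
      linarith
  · rcases le_total (2 / η) t with k | k
    · rw [a3 t k]
      exact sub_lt_self _ (by positivity)
    · have := mo ht p2 k
      rw [a3 _ le_rfl, gb] at this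
      linarith
  · filter_upwards [Ioo_mem_nhdsGT (show (0 : ℝ) < 1 / 4 by norm_num)] with t ht
    rw [a2 t ht.2.le, one_mul]
  · have q : 0 < η * (1 - s) := mul_pos h0 (by linarith)
    have m1 : min s (1 / 4) ∈ Ioi (0 : ℝ) := lt_min s0 (by norm_num)
    have m2 : max (2 / η) (η * (1 - s))⁻¹ ∈ Ioi (0 : ℝ) := lt_max_of_lt_left p2
    refine isPreconnected_Ioi.intermediate_value m1 m2 co ⟨?_, ?_⟩
    · rw [a2 _ (min_le_right _ _)]
      exact min_le_left _ _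
    · rw [a3 _ (le_max_left _ _), le_sub_comm]
      refine inv_le_of_inv_le₀ (by linarith) ?_
      refine le_trans (le_of_eq ?_) (mul_le_mul_of_nonneg_left (le_max_right _ _) h0.le)
      rw [mul_inv, mul_inv_cancel_left₀ h0.ne']

/-- the sum with the standard ball in the standard chart -/
theorem core (h1 : InterpStmt) (h2 : RadStmt V) {e u : V} {X Z : Mf V} {A : Set X} {M : Set Z}
    {a : V → X} {f : X → Z} {g : V → Z} {N m : V → V} {η : ℝ} (he : ‖e‖ = 1) (h0 : 0 < η)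
    (hη : η ≤ 1) (hN : PC (vs V) (closedBall 0 1) e N {-e}ᶜ)
    (im : N '' HS e = closedBall 0 1 \ {u}) (m0 : m 0 = u)
    (mN : ∀ y, y ≠ 0 → ‖y‖ < 1 → m y = N ((‖y‖ ^ 2)⁻¹ • y))
    (k : Bd e X (vs V) Z A (closedBall 0 1) M a (fun y => m (η • y)) f g) :
    ∃ Φ, RD X Z A M Φ := by
  classical
  obtain ⟨μ, c1, c2, c3, c4, c5⟩ := prof h1 h0 hη
  have oe := (h2 μ 0 le_rfl c1).2 1 one_pos rfl c3
  have r0 : rad μ (0 : V) = 0 := by simp [rad]
  have nr : ∀ y : V, ‖rad μ y‖ < 1 := fun y => by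
    by_cases hy : y = 0
    · simp [hy, r0]
    · have p := norm_pos_iff.2 hy
      rw [norm_rad hy (c1 _ p).2.2.le]
      exact c2 _ p
  have mb : MapsTo (rad μ) univ (ball (0 : V) 2) := fun y _ =>
    mem_ball_zero_iff.2 ((nr y).trans one_lt_two)
  have hh : PC X A e (fun y => a (rad μ y)) univ := ⟨oe.trans k.ca.oe mb, fun y hy => by
    refine (k.ca.mem _ (mb hy)).trans ?_
    by_cases hy : y = 0
    · rw [hy, r0]
    · exact rad_mem_HS hy (c1 _ (norm_pos_iff.2 hy)).2.2⟩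
  set h : V → X := fun y => a (rad μ y) with hdef
  have h00 : h 0 = a 0 := by simp only [hdef, r0]
  have b0 : m (η • (0 : V)) = u := by rw [smul_zero, m0]
  have sub : HS e ⊆ {-e}ᶜ := fun y hy (q : y = -e) => by
    have : 0 ≤ ⟪e, -e⟫ := q ▸ hy
    rw [inner_neg_right, real_inner_self_eq_norm_sq, he] at this
    norm_num at this
  have mD : ∀ y ∈ HS e, N y ∈ closedBall (0 : V) 1 \ {m (η • 0)} := fun y hy =>
    b0.symm ▸ im ▸ mem_image_of_mem N hy
  have hA : ∀ y ∈ HS e, y ≠ 0 → h y ∈ A \ {a 0} := fun y hy n =>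
    ⟨(hh.mem y trivial).2 hy, fun q => n (hh.oe.inj trivial trivial (Eq.trans q h00.symm))⟩
  have pol : ∀ y ∈ HS e, y ≠ 0 → ∃ (r : ℝ) (v : V), 0 < r ∧ ‖v‖ = 1 ∧ v ∈ HS e ∧ y = r • v :=
    fun y hy n => ⟨‖y‖, ‖y‖⁻¹ • y, norm_pos_iff.2 n, norm_smul_inv_norm n,
      (smul_mem_HS (inv_pos.2 (norm_pos_iff.2 n))).2 hy,
      (smul_inv_smul₀ (norm_ne_zero_iff.2 n) y).symm⟩
  have far : ∀ y ∈ HS e, 2 / η ≤ ‖y‖ → f (h y) = g (N y) := fun y hy q => by
    have p2 : 0 < 2 / η := by positivity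
    have n : y ≠ 0 := norm_pos_iff.1 (p2.trans_le q)
    refine (k.eq _ (hA y hy n) _ (mD y hy)).2 ?_
    obtain ⟨r, v, hr, hv, hH, rfl⟩ := pol y hy n
    rw [norm_smul, hv, mul_one, Real.norm_of_nonneg hr.le] at q
    refine ⟨μ r, v, (c1 r hr).2.2, c2 r hr, hv, hH, congrArg a (rad_smul hv hr), ?_⟩
    have e1 : η • (1 - μ r) • v = r⁻¹ • v := by
      rw [smul_smul, c4 r q, sub_sub_cancel, mul_inv, mul_inv_cancel_left₀ h0.ne']
    have e2 : ‖r⁻¹ • v‖ = r⁻¹ := by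
      rw [norm_smul, hv, mul_one, Real.norm_of_nonneg (inv_pos.2 hr).le]
    have e3 : 1 < r := by
      rw [div_le_iff₀ h0] at q
      nlinarith
    show N _ = m _
    rw [e1, mN _ (norm_pos_iff.1 (e2.symm ▸ inv_pos.2 hr)) (e2.symm ▸ inv_lt_one_of_one_lt₀ e3),
      e2, smul_smul]
    congr 2
    field_simp
  let Φ : X → Z := fun x => if x ∈ range h then g (N (invFunOn h univ x)) else f x
  have p1 : ∀ y, Φ (h y) = g (N y) := fun y => by
    simp only [Φ, if_pos (mem_range_self y), hh.oe.left (mem_univ y)]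
  have p2 : ∀ x ∉ range h, Φ x = f x := fun x hx => if_neg hx
  have n0 : ∀ x ∈ A, x ∉ range h → x ∈ A \ {a 0} := fun x hx q =>
    ⟨hx, fun q' => q ⟨0, h00.trans (Eq.symm q')⟩⟩
  have rel : ∀ x ∈ A, Rel X Z A M Φ x := fun x hx => by
    by_cases q : x ∈ range h
    · obtain ⟨y, rfl⟩ := q
      have hy := (hh.mem y trivial).1 hx
      exact (hh.rel trivial).desc hy ((hN.rel (sub hy)).trans hy (k.rg _ (mD y hy)))
        (.of_forall fun y _ => p1 y)
    · refine (k.rf x (n0 x hx q)).congr ?_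
      have cl : IsClosed (h '' closedBall 0 (2 / η)) :=
        ((isCompact_closedBall _ _).image hh.oe.sm.cont).isClosed
      filter_upwards [cl.isOpen_compl.mem_nhds fun q' => q (image_subset_range _ _ q')] with z hz zA
      by_cases q' : z ∈ range h
      · obtain ⟨y, rfl⟩ := q'
        rw [p1, far y ((hh.mem y trivial).1 zA) (le_of_not_ge fun w =>
          hz ⟨y, mem_closedBall_zero_iff.2 w, rfl⟩)]
      · exact p2 z q'
  have mix : ∀ x ∈ A, x ∉ range h → ∀ y ∈ HS e, f x ≠ g (N y) := fun x hx q y hy w => by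
    obtain ⟨t, v, t0, t1, hv, -, rfl, -⟩ := (k.eq _ (n0 x hx q) _ (mD y hy)).1 w
    obtain ⟨r, hr, rfl⟩ := c5 t t0 t1
    exact q ⟨r • v, congrArg a (rad_smul hv hr)⟩
  have sg : ∀ w ∈ closedBall (0 : V) 1 \ {m (η • 0)}, g w ∈ Φ '' A := fun w hw => by
    rw [b0, ← im] at hw
    obtain ⟨y, hy, rfl⟩ := hw
    exact ⟨h y, (hh.mem y trivial).2 hy, p1 y⟩
  refine ⟨Φ, rel, fun x hx => (rel x hx).mem hx, fun x hx x' hx' w => ?_, fun z hz => ?_⟩
  · by_cases q : x ∈ range h <;> by_cases q' : x' ∈ range h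
    · obtain ⟨y, rfl⟩ := q
      obtain ⟨y', rfl⟩ := q'
      have hy := (hh.mem y trivial).1 hx
      have hy' := (hh.mem y' trivial).1 hx'
      rw [p1, p1] at w
      rw [hN.oe.inj (sub hy) (sub hy') (k.jg (mD y hy) (mD y' hy') w)]
    · obtain ⟨y, rfl⟩ := q
      rw [p1, p2 _ q'] at w
      exact (mix x' hx' q' y ((hh.mem y trivial).1 hx) w.symm).elim
    · obtain ⟨y, rfl⟩ := q'
      rw [p1, p2 _ q] at w
      exact (mix x hx q y ((hh.mem y trivial).1 hx') w).elim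
    · rw [p2 _ q, p2 _ q'] at w
      exact k.jf (n0 x hx q) (n0 x' hx' q') w
  · rw [k.cov] at hz
    rcases hz with ⟨x, hx, rfl⟩ | ⟨w, hw, rfl⟩
    · by_cases q : x ∈ range h
      · obtain ⟨y, rfl⟩ := q
        obtain ⟨r, v, hr, hv, hH, rfl⟩ := pol y ((hh.mem y trivial).1 hx.1)
          fun n => hx.2 (by rw [n]; exact h00)
        have t0 := (c1 r hr).2.2
        have t1 := sub_pos.2 (c2 r hr)
        have nv : ‖(1 - μ r) • v‖ = 1 - μ r := by
          rw [norm_smul, hv, mul_one, Real.norm_of_nonneg t1.le]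
        have bl : (1 - μ r) • v ∈ ball (0 : V) 2 := mem_ball_zero_iff.2 (by linarith)
        have w : m (η • (1 - μ r) • v) ∈ closedBall (0 : V) 1 \ {m (η • 0)} :=
          ⟨(k.cb.mem _ bl).2 ((smul_mem_HS t1).2 hH), fun q => by
            have := k.cb.oe.inj bl (mem_ball_self two_pos) q
            rw [this, norm_zero] at nv
            linarith⟩
        rw [(k.eq _ hx _ w).2 ⟨μ r, v, t0, c2 r hr, hv, hH, congrArg a (rad_smul hv hr), rfl⟩]
        exact sg _ w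
      · exact ⟨x, hx.1, p2 x q⟩
    · exact sg w hw

omit [FiniteDimensional ℝ V] in
theorem not_nhds {e : V} (he : ‖e‖ = 1) : HS e ∉ 𝓝 (0 : V) := fun h => by
  obtain ⟨ε, hε, hb⟩ := Metric.mem_nhds_iff.1 h
  have : -(ε / 2) • e ∈ HS e := hb (mem_ball_zero_iff.2 (by
    rw [norm_smul, he, mul_one, norm_neg, Real.norm_of_nonneg (half_pos hε).le]
    exact half_lt_self hε))
  have k : 0 ≤ ⟪e, -(ε / 2) • e⟫ := this
  rw [real_inner_smul_right, real_inner_self_eq_norm_sq, he] at k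
  linarith

end Unit

theorem unitSum (h1 : InterpStmt) (h2 : RadStmt V) (h3 : ShrinkStmt V) (h4 : PalaisStmt V)
    (h5 : MobStmt V) : UnitStmt V := by
  rintro e X Y Z A B M β hd he ⟨a, b, f, g, k⟩ hβ
  have z2 : (0 : V) ∈ ball (0 : V) 2 := mem_ball_self two_pos
  have z1 : (0 : V) ∈ ball (0 : V) 1 := mem_ball_self one_pos
  have b0 : b 0 ∈ B := (k.cb.mem 0 z2).2 zero_mem_HS
  have rk := (k.cb.rel z2).trans zero_mem_HS (hβ.symm.rel _ b0)
  have hu : ‖invFunOn β (closedBall 0 1) (b 0)‖ = 1 := by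
    refine (mem_closedBall_zero_iff.1 (rk.mem zero_mem_HS)).antisymm (le_of_not_gt fun q => ?_)
    exact Unit.not_nhds he ((rk.nhds_iff zero_mem_HS).1
      (closedBall_mem_nhds_of_mem (mem_ball_zero_iff.2 q)))
  obtain ⟨F, F1, F2⟩ := rk
  have F0 : invFunOn β (closedBall 0 1) (b 0) = F 0 := F2.self_of_nhds.2 zero_mem_HS
  have hσ : (fderiv ℝ F 0).det ≠ 0 := by
    obtain ⟨L, hL⟩ := F1.inv
    rw [← Df_vs, ← hL]
    exact L.toLinearEquiv.isUnit_det'.ne_zero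
  obtain ⟨N, m, hN, im, hm, m0, mN, pos⟩ := h5 e (F 0) _ hd he (F0 ▸ hu) hσ
  have u1 : F 0 ∈ m '' ball 0 1 := ⟨0, z1, m0⟩
  have ev : ∀ᶠ y in 𝓝 (0 : V), F y ∈ m '' ball 0 1 :=
    F1.sm.cont.preimage_mem_nhds (hm.oe.symm.op.mem_nhds u1)
  let α : V → V := fun y => invFunOn m (ball 0 1) (F y)
  have α1 : LDAt (vs V) (vs V) α 0 := F1.trans (hm.oe.symm.ld _ u1)
  have α0 : α 0 = 0 := by
    simp only [α, ← m0]
    exact hm.oe.left z1
  have α2 : ∀ᶠ y in 𝓝 (0 : V), m (α y) = F y := ev.mono fun y hy => invFunOn_eq hy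
  have α3 : ∀ᶠ y in 𝓝 (0 : V), α y ∈ HS e ↔ y ∈ HS e := by
    filter_upwards [ev, α2, F2] with y q1 q2 q3
    rw [← hm.mem _ (invFunOn_mem q1), ← q3.1]
    exact iff_of_eq (congrArg (· ∈ closedBall (0 : V) 1) q2)
  have α4 : 0 < (fderiv ℝ α 0).det := by
    have s1 : SmAt (vs V) (vs V) m (α 0) := α0.symm ▸ (hm.oe.ld 0 z1).sm
    have d := Df_comp α1.sm s1
    rw [Df_congr (X := vs V) (Y := vs V) α2, Df_vs, Df_vs, Df_vs, α0] at d
    have d' : (fderiv ℝ F 0).det = (fderiv ℝ m 0).det * (fderiv ℝ α 0).det := by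
      rw [d]
      exact LinearMap.det_comp _ _
    rw [d'] at pos
    by_contra q
    nlinarith [mul_self_nonneg (fderiv ℝ m 0).det, not_lt.1 q]
  obtain ⟨P, P1, P2, P3, P4⟩ := h4 e α (1 / 2) he (by norm_num) α1 α0 α3 α4
  have Pk : ∀ y ∉ closedBall (0 : V) (1 / 2), P y = y := fun y hy =>
    P2 y (le_of_not_ge fun q => hy (mem_closedBall_zero_iff.2 q))
  have sb : closedBall (0 : V) (1 / 2) ⊆ ball 0 1 := closedBall_subset_ball (by norm_num)
  obtain ⟨Θ, Θ1, Θ2, Θ3⟩ := P1.extend hm.oe (isCompact_closedBall 0 (1 / 2)) sb Pk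
  have Θ4 : ∀ x, Θ x ∈ closedBall (0 : V) 1 ↔ x ∈ closedBall (0 : V) 1 := fun x => by
    by_cases q : x ∈ m '' closedBall 0 (1 / 2)
    · obtain ⟨y, hy, rfl⟩ := q
      have : P y ∈ ball (0 : V) 1 := by_contra fun w =>
        w ((P1.bij.1 (Pk _ fun w' => w (sb w'))).symm ▸ sb hy)
      rw [Θ2 y (sb hy), hm.mem _ this, hm.mem _ (sb hy), P3]
    · rw [Θ3 x q]
  have Θ5 : Θ '' closedBall (0 : V) 1 = closedBall 0 1 :=
    (MapsTo.image_subset fun x hx => (Θ4 x).2 hx).antisymm fun x hx => by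
      obtain ⟨y, rfl⟩ := Θ1.bij.2 x
      exact ⟨y, (Θ4 y).1 hx, rfl⟩
  have rd := Θ1.rd (closedBall (0 : V) 1)
  rw [Θ5] at rd
  have key : ∀ᶠ y in 𝓝 (0 : V), y ∈ HS e → β (Θ (m y)) = b y := by
    filter_upwards [isOpen_ball.mem_nhds z1, P4, α2, F2] with y q1 q2 q3 q4 hy
    rw [Θ2 y q1, q2, q3, ← q4.2 hy]
    exact hβ.bij.invOn_invFunOn.2 ((k.cb.mem _ (ball_subset_ball one_le_two q1)).2 hy)
  obtain ⟨ρ, hρ, hb⟩ := Metric.eventually_nhds_iff_ball.1 key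
  have η0 : 0 < min ρ (1 / 2) := lt_min hρ (by norm_num)
  have η1 := min_le_left ρ (1 / 2)
  have η2 := min_le_right ρ (1 / 2)
  generalize min ρ (1 / 2) = η at η0 η1 η2
  have nn : ∀ y : V, ‖η • y‖ = η * ‖y‖ := fun y => by rw [norm_smul, Real.norm_of_nonneg η0.le]
  obtain ⟨T, -, -, -, -, k'⟩ := (h3 e η η0 (by linarith)).1 _ _ _ _ _ _ _ _ _ _ k.symm
  have mb : MapsTo (fun y : V => η • y) (ball 0 2) (ball 0 1) := fun y hy => by
    rw [mem_ball_zero_iff] at hy ⊢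
    rw [nn]
    nlinarith [norm_nonneg y]
  refine Unit.core h1 h2 he η0 (by linarith) hN im m0 mN (k'.comap (rd.trans hβ)
    ⟨OE.trans ⟨isOpen_ball, fun y _ => ldAt_hom η0.ne' y, (smul_right_injective V η0.ne').injOn⟩
      hm.oe mb, fun y hy => (hm.mem _ (mb hy)).trans (smul_mem_HS η0)⟩ fun y hy q => ?_).symm
  refine hb _ (mem_ball_zero_iff.2 ?_) ((smul_mem_HS η0).2 hy)
  rw [nn]
  nlinarith [norm_nonneg y]

end Pool.Agent.MP_7ebdba_gt.hb

end
end MrgPart5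

-- marker of a merged file
example : 731051 + 544836 = 731051 + 544836 := rfl
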