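import Mathlib.AlgebraicTopology.FundamentalGroupoid.SimplyConnected
import Mathlib.Analysis.InnerProductSpace.NormDet
import Pool.Agent.MP_7ebdba_gt.hb.Tube
import Pool.Agent.MP_7ebdba_gt.hb.Unit
import Pool.Agent.MP_7ebdba_gt.hb.Split
import Pool.Agent.MP_7ebdba_gt.hb.Real

-- ======== part 0: formerly Pool.Agent.MP_7ebdba_gt.hb.Dyn
section MrgPart0

/-! Add-on HB, row DYN: orbits of a gradient-like field. -/

open scoped ContDiff Manifold Topology RealInnerProductSpace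
open Set Filter Function Metric Module Pool.Agent.MP_e1dc65_gt

noncomputable section

namespace Pool.Agent.MP_7ebdba_gt.hb

variable {V : Type} [NormedAddCommGroup V] [InnerProductSpace ℝ V] [FiniteDimensional ℝ V]

namespace Dyn

variable {e : V} {X : Mf V} {D : MD X e} {M : Set X} {p x : X}

theorem v_zero (hp : p ∈ D.C0 ∪ D.C1) : D.v p = 0 := by
  have h0 := (D.oe p hp).2
  rcases hp with hp | hp
  · have := D.l0 p hp 0 (mem_ball_self one_pos)
    rw [map_zero, h0] at this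
    exact this.symm
  · have := D.l1 p hp 0 (mem_ball_self one_pos)
    rw [show rf e 0 = 0 by simp [rf], map_zero, h0] at this
    exact this.symm

theorem not_crit (hx : x ∉ D.C0 ∪ D.C1) (t : ℝ) : D.φ t x ∉ D.C0 ∪ D.C1 := fun h => hx (by
  have := D.fl.fix (v_zero h) (-t)
  rw [D.fl.neg_left] at this
  rwa [this])

theorem back_mem (hB : BackStmt V) (hM : D.Dom M) {s t : ℝ} (hx : D.φ t x ∈ M) (h : s ≤ t) :
    D.φ s x ∈ M := by
  rcases h.eq_or_lt with rfl | h
  · exact hx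
  · have := mem_of_mem_nhds (((hB X D.v D.φ M D.fl).2 hM.out).1 _ hx (s - t) (by linarith))
    rwa [← D.fl.add, sub_add_cancel] at this

theorem inc (hB : BackStmt V) (hM : D.Dom M) (hx : x ∉ D.C0 ∪ D.C1) {s t : ℝ} (h : s < t)
    (ht : D.φ t x ∈ M) : D.k (D.φ s x) < D.k (D.φ t x) :=
  strictMonoOn_of_deriv_pos (convex_Iic t) (f := fun s => D.k (D.φ s x))
    (D.sk.cont.comp (D.fl.cont_curve x)).continuousOn
    (fun u hu => by
      rw [(D.fl.hasDerivAt (D.sk _ trivial)).deriv]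
      exact hM.inc _ (back_mem hB hM ht (mem_Iic.1 (interior_subset hu))) (not_crit hx u))
    h.le (mem_Iic.2 le_rfl) h

/-- a cluster point of an orbit along which `k` converges is critical -/
theorem cluster (hM : D.Dom M) {l : Filter ℝ} {c : ℝ} (hl : ∀ s, Tendsto (fun t => s + t) l l)
    (hc : Tendsto (fun t => D.k (D.φ t x)) l (𝓝 c)) (hp : MapClusterPt p l fun t => D.φ t x)
    (hpM : p ∈ M) : p ∈ D.C0 ∪ D.C1 ∧ D.k p = c := by
  have h1 : ∀ s, D.k (D.φ s p) = c := fun s => by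
    have a := hp.continuousAt_comp (f := fun z => D.k (D.φ s z))
      (D.sk.cont.comp (D.fl.cont_time s)).continuousAt
    have b : Tendsto ((fun z => D.k (D.φ s z)) ∘ fun t => D.φ t x) l (𝓝 c) :=
      (hc.comp (hl s)).congr fun t => by simp only [comp, D.fl.add]
    exact eq_of_nhds_neBot (a.clusterPt.mono b)
  refine ⟨by_contra fun h => ?_, by simpa only [D.fl.zero] using h1 0⟩
  have a := D.fl.hasDerivAt (t := 0) (x := p) (D.sk _ trivial)
  rw [funext h1, D.fl.zero] at a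
  exact (hM.inc p hpM h).ne' (a.unique (hasDerivAt_const _ _))

/-- the flow is linear in the chart at a source -/
theorem lin0 (hp : p ∈ D.C0) {y : V} (hy : ‖y‖ < 1) {t : ℝ} (ht : t ≤ 0) :
    D.φ t (D.ψ p y) = D.ψ p (Real.exp t • y) := by
  have := D.fl.eq_of_zero (t := t) (c := fun s => D.ψ p (Real.exp s • y)) fun s hs => by
    have hs : s ≤ 0 := by rw [uIcc_of_ge ht] at hs; exact hs.2
    have hb : Real.exp s • y ∈ ball (0 : V) 1 := by
      rw [mem_ball_zero_iff, norm_smul, Real.norm_of_nonneg (Real.exp_pos s).le]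
      exact (mul_le_of_le_one_left (norm_nonneg y) (Real.exp_le_one_iff.2 hs)).trans_lt hy
    exact IC.map (X := vs V) (v := fun z => z) (c := fun s => Real.exp s • y)
      (ic_vs.2 ((Real.hasDerivAt_exp s).smul_const y)) ((D.oe p (.inl hp)).1.sm _ hb)
      (D.l0 p hp _ hb)
  simpa only [Real.exp_zero, one_smul] using this

/-- the basin of a source -/
def basin (D : MD X e) (p : X) : Set X := {x | ∃ t, D.φ t x ∈ D.ψ p '' ball 0 1}

theorem nhds_chart (hp : p ∈ D.C0 ∪ D.C1) {N : Set V} (hN : N ∈ 𝓝 0) : D.ψ p '' N ∈ 𝓝 p := by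
  have := ((D.oe p hp).1.ld 0 (mem_ball_self one_pos)).image_mem hN
  rwa [(D.oe p hp).2] at this

theorem basin_open (hp : p ∈ D.C0) : IsOpen (basin D p) := by
  rw [basin, ofPred_exists]
  exact isOpen_iUnion fun t =>
    ((D.oe p (.inl hp)).1.isOpen_image isOpen_ball subset_rfl).preimage (D.fl.cont_time t)

theorem basin_of_cluster {l : Filter ℝ} (hp : p ∈ D.C0) (h : MapClusterPt p l fun t => D.φ t x) :
    x ∈ basin D p :=
  (h.frequently (nhds_chart (.inl hp) (ball_mem_nhds 0 one_pos))).exists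

theorem basin_tendsto (hp : p ∈ D.C0) (hx : x ∈ basin D p) :
    Tendsto (fun s => D.φ s x) atBot (𝓝 p) := by
  obtain ⟨t, y, hy, h⟩ := hx
  have a : Tendsto (fun s => Real.exp (s - t) • y) atBot (𝓝 0) := by
    have := (Real.tendsto_exp_atBot.comp (tendsto_atBot_add_const_right atBot (-t)
      tendsto_id)).smul_const y
    rwa [zero_smul] at this
  have b := (((D.oe p (.inl hp)).1.sm 0 (mem_ball_self one_pos)).cont.tendsto).comp a
  rw [(D.oe p (.inl hp)).2] at b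
  refine b.congr' ?_
  filter_upwards [Iic_mem_atBot t] with s hs
  rw [comp, ← lin0 hp (mem_ball_zero_iff.1 hy) (sub_nonpos.2 hs), h, ← D.fl.add, sub_add_cancel]

/-- a diffeomorphism of `V` onto a small ball -/
theorem squeeze {a : ℝ} (ha : 0 < a) : ∃ β : V → V, OE (vs V) (vs V) β univ ∧
    (∀ y, β y ∈ ball (0 : V) a) ∧ β '' closedBall 0 1 = {z | ‖z‖ ^ 2 ≤ a ^ 2 / 2} := by
  let u : OpenPartialHomeomorph V V := OpenPartialHomeomorph.univUnitBall
  have h1 : OE (vs V) (vs V) u univ :=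
    oe_of_inv (X := vs V) (Y := vs V) (g := u.symm) (W := ball 0 1) isOpen_univ isOpen_ball
      (fun _ _ => smAt_vs.2 OpenPartialHomeomorph.contDiff_univUnitBall.contDiffAt)
      (fun y hy => smAt_vs.2 (OpenPartialHomeomorph.contDiffOn_univUnitBall_symm.contDiffAt
        (isOpen_ball.mem_nhds hy)))
      (fun y hy => u.map_source hy) (mapsTo_univ _ _) (fun y hy => u.left_inv hy)
      fun y hy => u.right_inv hy
  have h2 : ∀ y, ‖a • u y‖ ^ 2 ≤ a ^ 2 / 2 ↔ ‖y‖ ≤ 1 := fun y => by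
    have k : 0 < 1 + ‖y‖ ^ 2 := by positivity
    have k2 : ‖a • u y‖ ^ 2 = a ^ 2 * (‖y‖ ^ 2 / (1 + ‖y‖ ^ 2)) := by
      rw [norm_smul, OpenPartialHomeomorph.univUnitBall_apply, norm_smul, mul_pow, mul_pow,
        Real.norm_eq_abs, Real.norm_eq_abs, sq_abs, sq_abs, inv_pow, Real.sq_sqrt k.le,
        inv_mul_eq_div]
    rw [k2, div_eq_mul_one_div (a ^ 2), mul_le_mul_iff_right₀ (by positivity),
      div_le_div_iff₀ k two_pos, ← sq_le_one_iff₀ (norm_nonneg y)]
    constructor <;> intro h <;> linarith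
  refine ⟨fun y => a • u y, h1.trans (g := fun y => a • y) ⟨isOpen_univ,
    fun y _ => ldAt_hom ha.ne' y, (smul_right_injective V ha.ne').injOn⟩ (mapsTo_univ _ _),
    fun y => ?_, Subset.antisymm ?_ fun z hz => ?_⟩
  · rw [mem_ball_zero_iff, norm_smul, Real.norm_of_nonneg ha.le]
    exact mul_lt_of_lt_one_right ha (mem_ball_zero_iff.1 (u.map_source (mem_univ y)))
  · rintro _ ⟨y, hy, rfl⟩
    exact (h2 y).2 (mem_closedBall_zero_iff.1 hy)
  · have hz : ‖z‖ ^ 2 ≤ a ^ 2 / 2 := hz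
    have k : a⁻¹ • z ∈ ball (0 : V) 1 := by
      rw [mem_ball_zero_iff, norm_smul, Real.norm_of_nonneg (inv_pos.2 ha).le, inv_mul_lt_one₀ ha]
      exact lt_of_pow_lt_pow_left₀ 2 ha.le (by nlinarith [pow_pos ha 2])
    have k2 : a • u (u.symm (a⁻¹ • z)) = z := by
      rw [u.right_inv k, smul_inv_smul₀ ha.ne']
    exact ⟨_, mem_closedBall_zero_iff.2 ((h2 _).1 (by rwa [k2])), k2⟩

omit [InnerProductSpace ℝ V] [FiniteDimensional ℝ V] in
theorem sq_nhds {z : V} {c : ℝ} (h : ‖z‖ ^ 2 < c) : {z : V | ‖z‖ ^ 2 ≤ c} ∈ 𝓝 z :=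
  (continuous_norm.pow 2).continuousAt.preimage_mem_nhds (Iic_mem_nhds h)

/-- a small round ball at a source is a domain -/
theorem out_ball (hp : p ∈ D.C0) {c : ℝ} (h0 : 0 < c) (h1 : c < 1) :
    Out X D.v (D.ψ p '' {z | ‖z‖ ^ 2 ≤ c}) := by
  have oe := (D.oe p (.inl hp)).1
  have hs : {z : V | ‖z‖ ^ 2 ≤ c} ⊆ ball 0 1 := fun z hz =>
    mem_ball_zero_iff.2 ((sq_lt_one_iff₀ (norm_nonneg z)).1 (lt_of_le_of_lt hz h1))
  have hn : ContDiff ℝ ∞ fun z : V => ‖z‖ ^ 2 - c := (contDiff_norm_sq ℝ).sub contDiff_const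
  have := FiniteDimensional.proper_real V
  refine ⟨(isCompact_of_isClosed_isBounded (isClosed_le (continuous_norm.pow 2) continuous_const)
    (isBounded_ball.subset hs)).image_of_continuousOn (oe.sm.contOn.mono hs), ?_⟩
  rintro _ ⟨z, hz, rfl⟩
  have hb := hs hz
  rcases (show ‖z‖ ^ 2 ≤ c from hz).lt_or_eq with h | h
  · exact .inl ((oe.ld z hb).image_mem (sq_nhds h))
  have hU := oe.symm.op.mem_nhds (mem_image_of_mem _ hb)
  have sm : ∀ y ∈ D.ψ p '' ball 0 1,
      SmAt X (vs ℝ) (fun w => ‖invFunOn (D.ψ p) (ball 0 1) w‖ ^ 2 - c) y := fun y hy =>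
    (oe.symm.sm y hy).vcomp hn.contDiffAt
  refine .inr ⟨fun w => ‖invFunOn (D.ψ p) (ball 0 1) w‖ ^ 2 - c, mem_of_superset hU sm,
    by simp only [oe.left hb, h, sub_self], ?_, ?_⟩
  · have e1 : (fun y => ‖invFunOn (D.ψ p) (ball 0 1) (D.ψ p y)‖ ^ 2 - c) =ᶠ[𝓝 z]
        fun y => ‖y‖ ^ 2 - c := by
      filter_upwards [isOpen_ball.mem_nhds hb] with y hy
      rw [oe.left hy]
    have e2 := Df_comp (oe.sm z hb) (sm _ (mem_image_of_mem _ hb))
    rw [Df_congr (X := vs V) (Y := vs ℝ) e1, Df_vs,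
      ((hasStrictFDerivAt_norm_sq z).hasFDerivAt.sub_const c).fderiv] at e2
    rw [← D.l0 p hp z hb, ← ContinuousLinearMap.comp_apply, ← e2]
    simp only [smul_apply, innerSL_apply_apply, real_inner_self_eq_norm_sq, h]
    positivity
  · filter_upwards [hU]
    rintro _ ⟨y, hy, rfl⟩
    rw [oe.inj.mem_image_iff hs hy, oe.left hy, sub_nonpos]
    rfl

end Dyn

open Dyn

theorem dyn (hB : BackStmt V) : DynStmt V := by
  intro e X D M hM
  have bd : Bornology.IsBounded (D.k '' M) := (hM.out.cpt.image D.sk.cont).isBounded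
  refine ⟨fun p hp => ⟨v_zero hp, D.fl.fix (v_zero hp), fun h => ?_⟩,
    fun x hx s t h ht => inc hB hM hx h ht, fun x hx => ?_, fun x hx h => ?_⟩
  · have := ((hB X D.v D.φ M D.fl).2 hM.out).1 p h (-1) (by norm_num)
    rwa [D.fl.fix (v_zero hp)] at this
  · by_cases k : x ∈ D.C0 ∪ D.C1
    · refine ⟨x, ⟨k, hx⟩, Tendsto.mapClusterPt ?_⟩
      rw [funext (D.fl.fix (v_zero k))]
      exact tendsto_const_nhds
    have m : ∀ t ≤ 0, D.φ t x ∈ M := fun t ht => back_mem hB hM (by rwa [D.fl.zero]) ht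
    obtain ⟨p, hp, hc⟩ := hM.out.cpt.exists_mapClusterPt (f := atBot) (u := fun t => D.φ t x)
      (tendsto_principal.2 (mem_of_superset (Iic_mem_atBot 0) m))
    have mo : Monotone fun t => D.k (D.φ (min t 0) x) := fun s t hst => by
      rcases (min_le_min_right 0 hst).eq_or_lt with h | h
      · simp only [h, le_refl]
      · exact (inc hB hM k h (m _ (min_le_right _ _))).le
    have li := tendsto_atBot_ciInf mo (bd.bddBelow.mono (by
      rintro _ ⟨t, rfl⟩
      exact ⟨_, m _ (min_le_right _ _), rfl⟩))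
    refine ⟨p, ⟨(cluster hM (fun s => tendsto_atBot_add_const_left _ s tendsto_id)
      (li.congr' ?_) hc hp).1, hp⟩, hc⟩
    filter_upwards [Iic_mem_atBot 0] with t ht
    rw [min_eq_left ht]
  · obtain ⟨p, hp, hc⟩ := hM.out.cpt.exists_mapClusterPt (f := atTop) (u := fun t => D.φ t x)
      (tendsto_principal.2 (.of_forall h))
    have mo : StrictMono fun t => D.k (D.φ t x) := fun s t hst => inc hB hM hx hst (h t)
    have li := tendsto_atTop_ciSup mo.monotone (bd.bddAbove.mono (by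
      rintro _ ⟨t, rfl⟩
      exact ⟨_, h t, rfl⟩))
    obtain ⟨h1, h2⟩ := cluster hM (fun s => tendsto_atTop_add_const_left _ s tendsto_id) li hc hp
    have lt : ∀ t, D.k (D.φ t x) < D.k p := fun t =>
      (mo (lt_add_one t)).trans_le (h2 ▸ mo.monotone.ge_of_tendsto li (t + 1))
    refine ⟨p, ⟨h1.resolve_left fun k => (lt 0).not_ge ?_, hp⟩, lt⟩
    exact mo.monotone.le_of_tendsto
      ((D.sk.cont.tendsto p).comp (basin_tendsto k (basin_of_cluster k hc))) 0

theorem ballOf (_hB : BackStmt V) (hD : DynStmt V) (hF : FlowEqStmt V) : BallStmt V := by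
  intro e X D M hM hc h1
  obtain ⟨d1, -, d3, -⟩ := hD e X D M hM
  have c0 : ∀ q ∈ D.C0 ∪ D.C1, q ∈ M → q ∈ D.C0 := fun q hq k =>
    hq.resolve_right fun k' => (h1 ▸ mem_inter k' k : q ∈ (∅ : Set X))
  have cov : ∀ x ∈ M, ∃ p ∈ D.C0 ∩ M, x ∈ basin D p := fun x hx =>
    let ⟨p, hp, k⟩ := d3 x hx
    ⟨p, ⟨c0 p hp.1 hp.2, hp.2⟩, basin_of_cluster (c0 p hp.1 hp.2) k⟩
  obtain ⟨x, hx⟩ := hc.nonempty
  obtain ⟨p, ⟨hp, hpM⟩, hxp⟩ := cov x hx
  have sub : M ⊆ basin D p := hc.isPreconnected.subset_left_of_subset_union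
    (v := ⋃ q ∈ D.C0 \ {p}, basin D q) (basin_open hp)
    (isOpen_biUnion fun q hq => basin_open hq.1)
    (disjoint_left.2 fun z hz hz' => by
      obtain ⟨q, hq, k⟩ := mem_iUnion₂.1 hz'
      exact hq.2 (tendsto_nhds_unique (basin_tendsto hq.1 k) (basin_tendsto hp hz)))
    (fun z hz => by
      obtain ⟨q, hq, k⟩ := cov z hz
      by_cases h : q = p
      · exact .inl (h ▸ k)
      · exact .inr (mem_iUnion₂.2 ⟨q, ⟨hq.1, h⟩, k⟩))
    ⟨x, hx, hxp⟩
  have un : ∀ q ∈ D.C0 ∪ D.C1, q ∈ M → q = p := fun q hq k => by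
    have := basin_tendsto hp (sub k)
    rw [funext (d1 q hq).2.1] at this
    exact tendsto_nhds_unique tendsto_const_nhds this
  refine ⟨ncard_eq_one.2 ⟨p, eq_singleton_iff_unique_mem.2 ⟨⟨hp, hpM⟩, fun q hq =>
    un q (.inl hq.1) hq.2⟩⟩, ?_⟩
  obtain ⟨oe, e0⟩ := D.oe p (.inl hp)
  obtain ⟨ε, hε, hb⟩ := Metric.mem_nhds_iff.1 (inter_mem ((oe.sm 0 (mem_ball_self
    one_pos)).cont.preimage_mem_nhds (e0.symm ▸ (d1 p (.inl hp)).2.2 hpM)) (ball_mem_nhds 0 one_pos))
  obtain ⟨β, b1, b2, b3⟩ := squeeze (V := V) (lt_min hε one_pos)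
  have a0 := lt_min hε one_pos
  have a1 : (min ε 1) ^ 2 ≤ 1 := pow_le_one₀ a0.le (min_le_right _ _)
  have b4 : ∀ y, β y ∈ ball (0 : V) ε := fun y => ball_subset_ball (min_le_left _ _) (b2 y)
  obtain ⟨Θ, hΘ, k⟩ := hF X D.v D.φ D.k M _ D.vf D.fl hM.out
    (out_ball hp (c := min ε 1 ^ 2 / 2) (by positivity) (by linarith))
    (by
      rw [← b3]
      rintro _ ⟨_, ⟨y, -, rfl⟩, rfl⟩
      exact (hb (b4 y)).1)
    D.sk (fun z hz k => hM.inc z hz fun k' => k (by
      rw [un z k' hz]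
      refine nhds_chart (.inl hp) (sq_nhds ?_)
      rw [norm_zero]
      nlinarith [pow_pos a0 2]))
  refine ⟨fun y => Θ (D.ψ p (β y)), (b1.trans oe fun y _ => (hb (b4 y)).2).trans hΘ.oe
    (mapsTo_univ _ _), ?_⟩
  rw [← k, ← b3, image_image, image_image]

end Pool.Agent.MP_7ebdba_gt.hb

end
end MrgPart0

-- ======== part 1: formerly Pool.Agent.MP_7ebdba_gt.hb.Feq
section MrgPart1

/-! Add-on HB, row FEQ: nested domains without critical points between them. -/

open scoped ContDiff Manifold Topology RealInnerProductSpace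
open Set Filter Function Metric Module Pool.Agent.MP_e1dc65_gt

noncomputable section

namespace Pool.Agent.MP_7ebdba_gt.hb

variable {V : Type} [NormedAddCommGroup V] [InnerProductSpace ℝ V] [FiniteDimensional ℝ V]

namespace Feq

variable {X : Mf V} {v : X → V} {φ : ℝ → X → X} {k : X → ℝ} {M M' : Set X}

/-- orbits cross the region between the two domains in bounded time -/
theorem short (hv : ∀ x, VfAt X v x) (h : IsFlow X v φ) (hM : IsCompact M)
    (hk : Sm X (vs ℝ) k univ) (hp : ∀ x ∈ M, M' ∉ 𝓝 x → 0 < Df X (vs ℝ) k x (v x)) :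
    ∃ L, 0 ≤ L ∧ ∀ x a b, a ≤ b → (∀ s ∈ Icc a b, φ s x ∈ M ∧ M' ∉ 𝓝 (φ s x)) → b - a ≤ L := by
  have hC : IsCompact (M \ interior M') := hM.diff isOpen_interior
  obtain ⟨μ, hμ, h1⟩ := hC.exists_forall_le' (a := 0) (f := fun x => Df X (vs ℝ) k x (v x))
    (fun x _ => ((hv x).app (hk x trivial)).cont.continuousWithinAt)
    fun x hx => hp x hx.1 fun e => hx.2 (mem_interior_iff_mem_nhds.2 e)
  obtain ⟨B, hB⟩ := hM.exists_bound_of_continuousOn hk.cont.continuousOn
  refine ⟨2 * |B| / μ, by positivity, fun x a b hab hs => ?_⟩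
  have h2 := h.le_growth (g := k) (x := x) (m := μ) hab fun s k => ⟨hk _ trivial,
    h1 _ ⟨(hs s k).1, fun e => (hs s k).2 (mem_interior_iff_mem_nhds.1 e)⟩⟩
  have h3 := abs_le.1 (hB _ (hs a (left_mem_Icc.2 hab)).1)
  have h4 := abs_le.1 (hB _ (hs b (right_mem_Icc.2 hab)).1)
  rw [le_div_iff₀ hμ]
  linarith [le_abs_self B, h3.1, h4.2]

/-- the cut-off in the time direction -/
def bt (L s : ℝ) : ℝ := Real.smoothTransition (1 - s) * Real.smoothTransition (L + 1 + s)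

theorem sm_bt (L : ℝ) : ContDiff ℝ ∞ (bt L) :=
  (Real.smoothTransition.contDiff.comp (contDiff_const.sub contDiff_id)).mul
    (Real.smoothTransition.contDiff.comp (contDiff_const.add contDiff_id))

theorem bt_nonneg (L s : ℝ) : 0 ≤ bt L s :=
  mul_nonneg (Real.smoothTransition.nonneg _) (Real.smoothTransition.nonneg _)

theorem bt_le (L s : ℝ) : bt L s ≤ 1 :=
  mul_le_one₀ (Real.smoothTransition.le_one _) (Real.smoothTransition.nonneg _)
    (Real.smoothTransition.le_one _)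

theorem bt_one {L s : ℝ} (h : -L ≤ s) (h' : s ≤ 0) : bt L s = 1 := by
  rw [bt, Real.smoothTransition.one_of_one_le (by linarith),
    Real.smoothTransition.one_of_one_le (by linarith), mul_one]

theorem bt_zero {L s : ℝ} (h : -s ∉ Icc (-1) (L + 1)) : bt L s = 0 := by
  rw [mem_Icc, not_and_or, not_le, not_le] at h
  rcases h with h | h
  · rw [bt, Real.smoothTransition.zero_of_nonpos (x := 1 - s) (by linarith), zero_mul]
  · rw [bt, Real.smoothTransition.zero_of_nonpos (x := L + 1 + s) (by linarith), mul_zero]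

/-- the push along the orbits, given the two exit times -/
theorem push (hv : ∀ x, VfAt X v x) (h : IsFlow X v φ) {R F : Set X} {τ σ : X → ℝ} {L : ℝ}
    (hR : IsOpen R) (hF : IsCompact F) (hFR : ∀ y ∈ F, ∀ t, φ t y ∈ R) (hMR : M \ M' ⊆ R)
    (hMM : M' ⊆ M) (sτ : Sm X (vs ℝ) τ R) (sσ : Sm X (vs ℝ) σ R)
    (e : ∀ x ∈ R, φ (σ x) x ∈ F ∧ (x ∈ M ↔ 0 ≤ τ x) ∧ (x ∈ M' ↔ 0 ≤ σ x) ∧
      Df X (vs ℝ) τ x (v x) = -1 ∧ Df X (vs ℝ) σ x (v x) = -1 ∧ σ x ≤ τ x ∧ τ x - σ x ≤ L) :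
    ∃ Θ, GD X Θ ∧ Θ '' M' = M := by
  classical
  let K : Set X := (fun p : X × ℝ => φ p.2 p.1) '' F ×ˢ Icc (-1) (L + 1)
  have hK : IsCompact K := (hF.prod isCompact_Icc).image h.cont
  have hKR : K ⊆ R := by rintro _ ⟨p, hp, rfl⟩; exact hFR _ hp.1 _
  have mK : ∀ x ∈ R, -σ x ∈ Icc (-1) (L + 1) → x ∈ K := fun x hx k =>
    ⟨(φ (σ x) x, -σ x), ⟨(e x hx).1, k⟩, h.neg_left _ _⟩
  let a : X → ℝ := fun x => (τ x - σ x) * bt L (σ x)
  let w : X → V := fun x => if x ∈ R then a x • v x else 0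
  have w0 : ∀ x ∉ K, w x = 0 := fun x hx => by
    by_cases k : x ∈ R
    · simp only [w, a, if_pos k, bt_zero fun q => hx (mK x k q), mul_zero, zero_smul]
    · exact if_neg k
  have hw : ∀ x, VfAt X w x := fun x => by
    by_cases k : x ∈ K
    · refine ((hv x).smul (a := a) (((sτ x (hKR k)).vsub (sσ x (hKR k))).vmul
        ((sσ x (hKR k)).vcomp (sm_bt L).contDiffAt))).congr' ?_
      filter_upwards [hR.mem_nhds (hKR k)] with y hy using if_pos hy
    · exact vfAt_of_ev_zero (mem_of_superset (hK.isClosed.isOpen_compl.mem_nhds k) w0)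
  obtain ⟨ψ, hψ⟩ := exists_flow_cpt hw hK w0
  have key : ∀ x, ψ 1 x ∈ M ↔ x ∈ M' := fun x => by
    by_cases k : x ∈ K
    swap
    · rw [hψ.fix (w0 x k)]
      refine ⟨fun hx => by_contra fun hx' => k ?_, fun hx => hMM hx⟩
      have r := hMR ⟨hx, hx'⟩
      obtain ⟨-, a1, a2, -, -, -, a3⟩ := e x r
      have := a1.1 hx
      have := not_le.1 fun q => hx' (a2.2 q)
      exact mK x r ⟨by linarith, by linarith⟩
    have r : ∀ s, ψ s x ∈ R := fun s => hKR ((hψ.mem_iff w0 s).2 k)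
    have dτ : ∀ s, Df X (vs ℝ) τ (ψ s x) (w (ψ s x)) = -a (ψ s x) := fun s => by
      simp only [w, if_pos (r s), map_smul, (e _ (r s)).2.2.2.1, smul_eq_mul, mul_neg, mul_one]
    have dσ : ∀ s, Df X (vs ℝ) σ (ψ s x) (w (ψ s x)) = -a (ψ s x) := fun s => by
      simp only [w, if_pos (r s), map_smul, (e _ (r s)).2.2.2.2.1, smul_eq_mul, mul_neg, mul_one]
    have d0 : ∀ s, HasDerivAt (fun s => τ (ψ s x) - σ (ψ s x)) 0 s := fun s => by
      have := (hψ.hasDerivAt (sτ _ (r s))).sub (hψ.hasDerivAt (sσ _ (r s)))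
      rwa [dτ, dσ, sub_self] at this
    have c : ∀ s, τ (ψ s x) - σ (ψ s x) = τ x - σ x := fun s => by
      have := is_const_of_deriv_eq_zero (fun s => (d0 s).differentiableAt) (fun s => (d0 s).deriv) s 0
      rwa [hψ.zero] at this
    obtain ⟨-, -, a2, -, -, a3, a4⟩ := e x (hKR k)
    have T0 : 0 ≤ τ x - σ x := by linarith
    have ea : ∀ s, a (ψ s x) = (τ x - σ x) * bt L (σ (ψ s x)) := fun s => by simp only [a, c]
    have dec : ∀ s t, s ≤ t → σ (ψ t x) ≤ σ (ψ s x) := fun s t hst => by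
      have := hψ.growth_le (g := σ) (x := x) (m := 0) hst fun u _ => ⟨sσ _ (r u), by
        rw [dσ, ea, neg_nonpos]; exact mul_nonneg T0 (bt_nonneg _ _)⟩
      linarith
    rw [(e _ (r 1)).2.1, a2]
    have c1 := c 1
    constructor
    · intro h1
      by_contra h2
      rw [not_le] at h2
      have := hψ.growth_le (g := σ) (x := x) (m := -(τ x - σ x)) zero_le_one fun u hu =>
        ⟨sσ _ (r u), by
          have q1 := dec 0 u hu.1
          have q2 := dec u 1 hu.2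
          rw [hψ.zero] at q1
          rw [dσ, ea, bt_one (by linarith) (by linarith), mul_one]⟩
      rw [hψ.zero] at this
      linarith
    · intro h1
      have := hψ.le_growth (g := σ) (x := x) (m := -(τ x - σ x)) zero_le_one fun u _ =>
        ⟨sσ _ (r u), by
          rw [dσ, ea, neg_le_neg_iff]
          exact mul_le_of_le_one_right T0 (bt_le _ _)⟩
      rw [hψ.zero] at this
      linarith
  refine ⟨ψ 1, ⟨hψ.ld 1, hψ.bij 1⟩, Subset.antisymm ?_ fun y hy => ?_⟩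
  · rintro _ ⟨x, hx, rfl⟩
    exact (key x).2 hx
  · obtain ⟨x, rfl⟩ := (hψ.bij 1).2 y
    exact ⟨x, (key x).1 hy, rfl⟩

end Feq

open Feq in
theorem flowEq (hB : BackStmt V) (hH : HitStmt V) : FlowEqStmt V := by
  intro X v φ k M M' hv h o o' hMM hk hp
  obtain ⟨L, hL, short⟩ := short hv h o.cpt hk hp
  obtain ⟨b1, -⟩ := (hB X v φ M h).2 o
  obtain ⟨-, b2⟩ := (hB X v φ M' h).2 o'
  obtain ⟨x1, -, τ, sτ, eτ⟩ := hH X v φ M h o
  obtain ⟨x2, hR, σ, sσ, eσ⟩ := hH X v φ M' h o'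
  have fs : frontier M' ⊆ M' := o'.cpt.isClosed.frontier_subset
  have out : ∀ y ∈ frontier M', ∀ s, 0 ≤ s → M' ∉ 𝓝 (φ s y) := fun y hy s hs => by
    rcases hs.eq_or_lt with rfl | hs
    · rw [h.zero]; exact (mem_frontier_of_mem (fs hy)).1 hy
    · exact fun q => b2 y hy s hs (mem_of_mem_nhds q)
  have sub : {x | ∃ t, φ t x ∈ frontier M'} ⊆ {x | ∃ t, φ t x ∈ frontier M} := by
    rintro x ⟨t, ht⟩
    obtain ⟨s, hs⟩ : ∃ s, φ s (φ t x) ∉ M := by
      by_contra q
      push Not at q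
      have := short (φ t x) 0 (L + 1) (by linarith) fun s hs => ⟨q s, out _ ht s hs.1⟩
      linarith
    obtain ⟨t', ht'⟩ := x1 _ (hMM (fs ht)) s hs
    exact ⟨t' + t, by rwa [h.add]⟩
  refine push hv h (τ := τ) (σ := σ) (L := L) hR
    (o'.cpt.of_isClosed_subset isClosed_frontier fs)
    (fun y hy t => ⟨-t, by rwa [h.neg_left]⟩) (fun x hx => ?_) hMM (sτ.mono sub) sσ fun x hx => ?_
  · obtain ⟨s, hs⟩ : ∃ s, φ s x ∈ M' := by
      by_contra q
      push Not at q
      have := short x (-(L + 1)) 0 (by linarith) fun s hs => ⟨by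
        rcases hs.2.eq_or_lt with rfl | hs
        · rw [h.zero]; exact hx.1
        · exact mem_of_mem_nhds (b1 x hx.1 s hs), fun e => q s (mem_of_mem_nhds e)⟩
      linarith
    obtain ⟨t', ht'⟩ := x2 _ hs (-s) (by rw [h.neg_left]; exact hx.2)
    exact ⟨t' + s, by rwa [h.add]⟩
  · obtain ⟨-, a2, -, a4⟩ := eτ x (sub hx)
    obtain ⟨c1, c2, -, c4⟩ := eσ x hx
    have le : σ x ≤ τ x := (a2 _).1 (hMM (fs c1))
    refine ⟨c1, by rw [← a2, h.zero], by rw [← c2, h.zero], a4, c4, le,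
      short x _ _ le fun s hs => ⟨(a2 s).2 hs.2, ?_⟩⟩
    have := out _ c1 (s - σ x) (sub_nonneg.2 hs.1)
    rwa [← h.add, sub_add_cancel] at this

end Pool.Agent.MP_7ebdba_gt.hb

end
end MrgPart1

-- ======== part 2: formerly Pool.Agent.MP_7ebdba_gt.hb.GL
section MrgPart2

/-! Add-on HB, row GL: the group of matrices of positive determinant is path connected. -/

open Set Matrix

noncomputable section

namespace Pool.Agent.MP_7ebdba_gt.hb

namespace Glp

variable {n : Type} [Fintype n] [DecidableEq n]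

/-- joined to the identity through invertible matrices -/
def J (M : Matrix n n ℝ) : Prop := JoinedIn {A : Matrix n n ℝ | A.det ≠ 0} 1 M

lemma J.mul {A B : Matrix n n ℝ} (hA : J A) (hB : J B) : J (A * B) := by
  have h := (JoinedIn.prod hA hB).map (f := fun p : Matrix n n ℝ × Matrix n n ℝ => p.1 * p.2)
    (continuous_fst.matrix_mul continuous_snd)
  simp only [mul_one] at h
  refine h.mono ?_
  rintro _ ⟨p, ⟨h1, h2⟩, rfl⟩
  simpa using ⟨h1, h2⟩

lemma J_trans {i j : n} (h : i ≠ j) (c : ℝ) : J (transvection i j c) := by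
  refine JoinedIn.ofLine (f := fun t => transvection i j (t * c)) ?_ (by simp) (by simp) ?_
  · refine Continuous.continuousOn (continuous_matrix fun a b => ?_)
    simp only [transvection, Matrix.add_apply, single_apply]
    split_ifs <;> fun_prop
  · rintro _ ⟨t, -, rfl⟩
    simp [det_transvection_of_ne _ _ h]

lemma J_pos {D : n → ℝ} (h : ∀ i, 0 < D i) : J (diagonal D) := by
  refine JoinedIn.ofLine (f := fun t => diagonal fun i => (1 - t) + t * D i) ?_ (by simp)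
    (by simp) ?_
  · exact Continuous.continuousOn (Continuous.matrix_diagonal (by fun_prop))
  · rintro _ ⟨t, ht, rfl⟩
    simp only [mem_setOf_eq, det_diagonal]
    refine (Finset.prod_pos fun i _ => ?_).ne'
    have := h i
    rcases ht.1.eq_or_lt with h0 | h0
    · simp [← h0]
    · nlinarith [mul_pos h0 this, ht.2]

lemma J_flip {i j : n} (h : i ≠ j) :
    J (diagonal fun a => if a = i ∨ a = j then (-1 : ℝ) else 1) := by
  have h1 := ((J_trans h 1).mul (J_trans h.symm (-1))).mul (J_trans h 1)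
  have z1 : ∀ (a b : n) (c d : ℝ), single a i c * single j b d = 0 := fun a b c d =>
    single_mul_single_of_ne c a i j h d
  have z2 : ∀ (a b : n) (c d : ℝ), single a j c * single i b d = 0 := fun a b c d =>
    single_mul_single_of_ne c a j i h.symm d
  have e : transvection i j (1 : ℝ) * transvection j i (-1) * transvection i j 1 =
      1 - single i i 1 - single j j 1 + single i j 1 - single j i 1 := by
    simp only [transvection, mul_add, add_mul, mul_one, one_mul, single_mul_single_same,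
      z1, z2, mul_neg, neg_mul,
      ← single_neg]
    abel
  rw [e] at h1
  convert h1.mul h1 using 1
  simp only [mul_add, add_mul, mul_sub, sub_mul, mul_one, one_mul, single_mul_single_same,
    z1, z2]
  ext a b
  simp only [diagonal_apply, Matrix.add_apply, Matrix.sub_apply, one_apply, single_apply,
    Matrix.zero_apply]
  grind

lemma J_diag : ∀ (k : ℕ) (D : n → ℝ), (Finset.univ.filter fun i => D i < 0).card = k →
    0 < ∏ i, D i → J (diagonal D) := by
  intro k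
  induction k using Nat.strong_induction_on with
  | _ k ih =>
    intro D hk hD
    have h0 : ∀ i, D i ≠ 0 := fun i hi => hD.ne' (Finset.prod_eq_zero (Finset.mem_univ i) hi)
    by_cases h : ∀ i, 0 < D i
    · exact J_pos h
    obtain ⟨i, hi⟩ := not_forall.1 h
    have hi' : D i < 0 := lt_of_le_of_ne (not_lt.1 hi) (h0 i)
    obtain ⟨j, hj, hj'⟩ : ∃ j, i ≠ j ∧ D j < 0 := by
      by_contra hc
      rw [← Finset.mul_prod_erase _ _ (Finset.mem_univ i)] at hD
      have : 0 < ∏ a ∈ Finset.univ.erase i, D a := Finset.prod_pos fun a ha =>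
        lt_of_le_of_ne (not_lt.1 fun h => hc ⟨a, (Finset.ne_of_mem_erase ha).symm, h⟩) (h0 a).symm
      nlinarith
    let s : n → ℝ := fun a => if a = i ∨ a = j then -1 else 1
    have hs : 0 < ∏ a, s a := by
      rw [← Finset.mul_prod_erase _ _ (Finset.mem_univ i), ← Finset.mul_prod_erase _ _
        (Finset.mem_erase.2 ⟨hj.symm, Finset.mem_univ j⟩), Finset.prod_eq_one fun a ha => by
          simp only [Finset.mem_erase] at ha
          simp [s, ha.1, ha.2.1]]
      simp [s]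
    have h1 := (ih _ ?_ (fun a => D a * s a) rfl ?_).mul (J_flip hj)
    · convert h1 using 1
      rw [diagonal_mul_diagonal]
      congr 1
      funext a
      simp only [s]
      split_ifs <;> ring
    · rw [← hk]
      refine Finset.card_lt_card ⟨fun a => ?_, fun hc => ?_⟩
      · simp only [s, Finset.mem_filter, Finset.mem_univ, true_and]
        split_ifs with ha
        · rcases ha with rfl | rfl <;> intro <;> linarith
        · simp
      · have := hc (Finset.mem_filter.2 ⟨Finset.mem_univ i, hi'⟩)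
        simp only [s, Finset.mem_filter, Finset.mem_univ, true_and, true_or, if_true] at this
        linarith
    · rw [Finset.prod_mul_distrib]
      exact mul_pos hD hs

lemma J_of_pos (M : Matrix n n ℝ) (h : 0 < M.det) : J M :=
  diagonal_transvection_induction J M
    (fun D hD => J_diag _ D rfl (by rwa [← det_diagonal, hD]))
    (fun t => J_trans t.hij t.c) fun _ _ => J.mul

end Glp

theorem gl : GLStmt := by
  intro W _ _ _ L hL
  let b := Module.finBasis ℝ W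
  let Φ := (Matrix.toLin b b).trans LinearMap.toContinuousLinearMap
  have hd : ∀ M, (Φ M).det = M.det := fun M => LinearMap.det_toLin b M
  have h := (Glp.J_of_pos (Φ.symm L) (by rwa [← hd, Φ.apply_symm_apply])).map
    (f := Φ) Φ.toLinearMap.continuous_of_finiteDimensional
  have e : Φ 1 = ContinuousLinearMap.id ℝ W := by
    ext x
    simp [Φ]
  rw [Φ.apply_symm_apply, e] at h
  refine h.mono ?_
  rintro _ ⟨M, hM, rfl⟩
  simpa [hd] using hM

end Pool.Agent.MP_7ebdba_gt.hb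

end
end MrgPart2

-- ======== part 3: formerly Pool.Agent.MP_7ebdba_gt.hb.Hit
section MrgPart3

/-! Add-on HB, row HIT: backward invariance, exit time, boundary charts. -/

open scoped ContDiff Manifold Topology RealInnerProductSpace
open Set Filter Function Metric Module Pool.Agent.MP_e1dc65_gt Pool.Agent.MP_e1dc65_gt.Lev

noncomputable section

namespace Pool.Agent.MP_7ebdba_gt.hb

variable {V : Type} [NormedAddCommGroup V] [InnerProductSpace ℝ V] [FiniteDimensional ℝ V]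

namespace Hit

variable {X : Mf V} {v : X → V} {φ : ℝ → X → X} {M : Set X} {x : X}

theorem cont (h : IsFlow X v φ) (x : X) : Continuous fun t => φ t x :=
  continuous_iff_continuousAt.2 fun _ =>
    (fl_sm (Y := vs ℝ) (t := fun t => t) h (smAt_const x) smAt_id).cont

theorem back1 (h : IsFlow X v φ) (hM : IsClosed M) (k : ∀ x ∈ M, ∀ᶠ t in 𝓝[<] 0, φ t x ∈ M)
    (hx : x ∈ M) {t : ℝ} (ht : t ≤ 0) : φ t x ∈ M := by
  have h1 : IsClosed {u : ℝ | φ (-u) x ∈ M} := hM.preimage ((cont h x).comp continuous_neg)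
  have h2 : Icc 0 (-t) ⊆ {u : ℝ | φ (-u) x ∈ M} := by
    refine (h1.inter isClosed_Icc).Icc_subset_of_forall_mem_nhdsWithin
      (by simpa [h.zero] using hx) fun u hu => ?_
    have h3 : Tendsto (fun w => u - w) (𝓝[>] u) (𝓝[<] 0) := by
      refine tendsto_nhdsWithin_iff.2 ⟨?_, eventually_mem_nhdsWithin.mono fun w hw =>
        (sub_neg (a := u)).2 hw⟩
      exact ((continuous_const.sub continuous_id).tendsto' u 0 (sub_self u)).mono_left
        nhdsWithin_le_nhds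
    filter_upwards [h3.eventually (k _ hu.1)] with w hw
    rwa [← h.add, show u - w + -u = -w by ring] at hw
  simpa using h2 ⟨neg_nonneg.2 ht, le_rfl⟩

/-- the sign of a defining function along the orbit of a boundary point -/
theorem side (h : IsFlow X v φ) (o : Out X v M) (hx : x ∈ M) (hn : M ∉ 𝓝 x) :
    (∀ᶠ t in 𝓝[<] 0, φ t x ∈ M) ∧ ∀ᶠ t in 𝓝[>] 0, φ t x ∉ M := by
  obtain ⟨c, c1, c2, c3, c4⟩ := (o.bd x hx).resolve_left hn
  have h1 := fl_der (t := 0) (x := x) (f := c) h (by rw [h.zero]; exact c1.self_of_nhds)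
  rw [h.zero] at h1
  have h2 : ∀ᶠ t in 𝓝[≠] 0, 0 < slope (fun t => c (φ t x)) 0 t :=
    (hasDerivAt_iff_tendsto_slope.1 h1).eventually (lt_mem_nhds c3)
  have h3 : ∀ᶠ t in 𝓝 0, φ t x ∈ M ↔ c (φ t x) ≤ 0 :=
    ((cont h x).tendsto' 0 x (h.zero x)).eventually c4
  simp only [slope_def_field, h.zero, c2, sub_zero] at h2
  constructor
  · filter_upwards [h2.filter_mono (nhdsLT_le_nhdsNE 0), h3.filter_mono nhdsWithin_le_nhds,
      self_mem_nhdsWithin] with t a b d
    exact b.2 ((div_pos_iff.1 a).resolve_left fun k => lt_asymm k.2 d).1.le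
  · filter_upwards [h2.filter_mono (nhdsGT_le_nhdsNE 0), h3.filter_mono nhdsWithin_le_nhds,
      self_mem_nhdsWithin] with t a b d
    exact fun k => (b.1 k).not_gt ((div_pos_iff_of_pos_right d).1 a)

omit [FiniteDimensional ℝ V] in
theorem fr_iff (o : Out X v M) : x ∈ frontier M ↔ x ∈ M ∧ M ∉ 𝓝 x :=
  ⟨fun k => have k' := o.cpt.isClosed.frontier_subset k; ⟨k', (mem_frontier_of_mem k').1 k⟩,
    fun k => (mem_frontier_of_mem k.1).2 k.2⟩

end Hit

open Hit

theorem back : BackStmt V := by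
  intro X v φ M h
  refine ⟨fun hM k x hx t ht => back1 h hM k hx ht, fun o => ?_⟩
  have h1 : ∀ x ∈ M, ∀ t ≤ 0, φ t x ∈ M := fun x hx t ht =>
    back1 h o.cpt.isClosed (fun x hx => by
      by_cases hn : M ∈ 𝓝 x
      · exact mem_nhdsWithin_of_mem_nhds (((cont h x).tendsto' 0 x (h.zero x)).eventually hn)
      · exact (side h o hx hn).1) hx ht
  have h2 : ∀ x ∈ frontier M, ∀ t, 0 < t → φ t x ∉ M := fun x hx t ht k => by
    obtain ⟨a, b⟩ := (fr_iff o).1 hx
    obtain ⟨s, hs, hs'⟩ := ((side h o a b).2.and (Ioo_mem_nhdsGT ht)).exists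
    have := h1 _ k (s - t) (sub_nonpos.2 hs'.2.le)
    rw [← h.add, sub_add_cancel] at this
    exact hs this
  refine ⟨fun x hx t ht => by_contra fun k => ?_, h2⟩
  have := h2 _ ((fr_iff o).2 ⟨h1 x hx t ht.le, k⟩) (-t) (neg_pos.2 ht)
  rw [fl_neg h] at this
  exact this hx

namespace Hit

variable {X : Mf V} {v : X → V} {φ : ℝ → X → X} {M : Set X} {x : X}

/-- a smooth local crossing time -/
theorem loc (h : IsFlow X v φ) (o : Out X v M) {t₀ : ℝ} (hx : φ t₀ x ∈ frontier M) :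
    ∃ σ : X → ℝ, SmAt X (vs ℝ) σ x ∧ ∀ᶠ y in 𝓝 x, φ (σ y) y ∈ frontier M := by
  obtain ⟨a, b⟩ := (fr_iff o).1 hx
  obtain ⟨c, c1, c2, c3, c4⟩ := (o.bd _ a).resolve_left b
  have s0 : ∀ p : X.cyl, SmAt X.cyl X (fun p => φ p.2 p.1) p := fun p => h.sm p trivial
  have e1 := (s0 (x, t₀)).cont.eventually (c1.and c4)
  have s1 : SmAt X.cyl (vs ℝ) (fun p => c (φ p.2 p.1)) (x, t₀) :=
    (s0 _).trans c1.self_of_nhds
  have hl : LDAt X.cyl X.cyl (fun p => (p.1, c (φ p.2 p.1))) (x, t₀) := by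
    refine ldAt_of_Df e1 (fun p hp => smAt_fst.pair ((s0 p).trans hp.1)) (inv_of_inj rfl ?_)
    rw [Df_pair (Z := vs ℝ) smAt_fst s1, Df_fst]
    refine (injective_iff_map_eq_zero _).2 fun ⟨u, r⟩ e => ?_
    obtain rfl : u = 0 := congrArg Prod.fst e
    have e2 : Df X.cyl (vs ℝ) (fun p => c (φ p.2 p.1)) (x, t₀) (0, r) = 0 := congrArg Prod.snd e
    have s2 : SmAt (vs ℝ) X.cyl (fun t => (x, t)) t₀ := (smAt_const x).pair smAt_id
    have e3 := Df_comp s2 s1
    rw [Df_pair (Z := vs ℝ) (smAt_const x) smAt_id, Df_id, Df_const, Df_vs,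
      (fl_der (f := c) h c1.self_of_nhds).hasFDerivAt.fderiv] at e3
    have e4 : r * Df X (vs ℝ) c (φ t₀ x) (v (φ t₀ x)) = 0 := (congrArg (· r) e3).trans e2
    rw [(mul_eq_zero.1 e4).resolve_right c3.ne']
    rfl
  obtain ⟨g, U, W, -, hW, hU, hs, -, sg, m1, m2, -, r⟩ := hl.exists_inv e1
  have m0 : (x, (0 : ℝ)) ∈ W := c2 ▸ m1 hU
  have s3 : ∀ y : X, SmAt X X.cyl (fun y => (y, (0 : ℝ))) y := fun y =>
    smAt_id.pair (smAt_const (Y := vs ℝ) 0)
  refine ⟨fun y => (g (y, 0)).2, ((s3 x).trans (sg _ m0)).trans smAt_snd, ?_⟩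
  filter_upwards [(s3 x).cont.eventually (hW.mem_nhds m0)] with y hy
  have r1 : (g (y, 0)).1 = y := congrArg Prod.fst (r _ hy)
  have r2 : ∀ p ∈ W, φ (g p).2 (g p).1 ∈ M ↔ p.2 ≤ 0 := fun p hp =>
    (hs (m2 hp)).2.trans (by rw [show c (φ (g p).2 (g p).1) = p.2 from congrArg Prod.snd (r p hp)])
  rw [show φ (g (y, 0)).2 y = φ (g (y, 0)).2 (g (y, 0)).1 by rw [r1]]
  refine (fr_iff o).2 ⟨(r2 _ hy).2 le_rfl, fun k => ?_⟩
  have s4 : ContinuousAt (fun t : ℝ => (y, t)) 0 := by fun_prop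
  have s5 : ContinuousAt (fun p => φ (g p).2 (g p).1) (y, 0) := ((sg _ hy).trans (s0 _)).cont
  have e5 : ∀ᶠ t : ℝ in 𝓝 0, t ≤ 0 := by
    filter_upwards [s4.eventually ((s5.eventually k).and (hW.mem_nhds hy))] with t ht
    exact (r2 _ ht.2).1 ht.1
  obtain ⟨t, a, b⟩ := ((e5.filter_mono nhdsWithin_le_nhds).and
    (self_mem_nhdsWithin (s := Ioi (0 : ℝ)))).exists
  exact a.not_gt b

end Hit

theorem hit (hb : BackStmt V) : HitStmt V := by
  classical
  intro X v φ M h o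
  obtain ⟨b1, b2⟩ := (hb X v φ M h).2 o
  have k1 : ∀ x t₀, φ t₀ x ∈ frontier M → ∀ t, φ t x ∈ M ↔ t ≤ t₀ := fun x t₀ hx t => by
    have e : φ t x = φ (t - t₀) (φ t₀ x) := by rw [← h.add, sub_add_cancel]
    refine ⟨fun k => not_lt.1 fun k' => b2 _ hx _ (sub_pos.2 k') (e ▸ k), fun k => ?_⟩
    rcases k.eq_or_lt with rfl | k
    · exact ((fr_iff o).1 hx).1
    · exact e ▸ mem_of_mem_nhds (b1 _ ((fr_iff o).1 hx).1 _ (sub_neg.2 k))
  have k2 : ∀ x s t, φ s x ∈ frontier M → φ t x ∈ frontier M → s = t := fun x s t hs ht =>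
    ((k1 x t ht s).1 ((fr_iff o).1 hs).1).antisymm ((k1 x s hs t).1 ((fr_iff o).1 ht).1)
  let τ : X → ℝ := fun x => if k : ∃ t, φ t x ∈ frontier M then k.choose else 0
  have k3 : ∀ x, (∃ t, φ t x ∈ frontier M) → φ (τ x) x ∈ frontier M := fun x k => by
    simp only [τ, dif_pos k]
    exact k.choose_spec
  have k4 : Sm X (vs ℝ) τ {x | ∃ t, φ t x ∈ frontier M} := fun x ⟨t, ht⟩ => by
    obtain ⟨σ, s1, s2⟩ := loc h o ht
    exact s1.congr' (s2.mono fun y hy => k2 y _ _ (k3 y ⟨_, hy⟩) hy)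
  have k5 : ∀ x, (∃ t, φ t x ∈ frontier M) → ∀ t, τ (φ t x) = τ x - t := fun x k t => by
    have : φ (τ x - t) (φ t x) ∈ frontier M := by
      rw [← h.add, sub_add_cancel]
      exact k3 x k
    exact k2 _ _ _ (k3 _ ⟨_, this⟩) this
  refine ⟨fun x hx t ht => ?_, isOpen_iff_mem_nhds.2 fun x ⟨t, ht⟩ => ?_, τ, k4, fun x k =>
    ⟨k3 x k, k1 x _ (k3 x k), k5 x k, ?_⟩⟩
  · obtain ⟨s, hs⟩ := (nonempty_frontier_iff (s := (fun t => φ t x) ⁻¹' M)).2
      ⟨⟨0, by rwa [mem_preimage, h.zero]⟩, fun k => ht (eq_univ_iff_forall.1 k t)⟩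
    exact ⟨s, (cont h x).frontier_preimage_subset M hs⟩
  · obtain ⟨σ, -, s2⟩ := loc h o ht
    exact s2.mono fun y hy => ⟨_, hy⟩
  · have h1 := fl_der (t := 0) (x := x) (f := τ) h (by rw [h.zero]; exact k4 x k)
    rw [h.zero, funext (k5 x k)] at h1
    exact h1.unique ((hasDerivAt_id' (0 : ℝ)).const_sub (τ x))

theorem nice : NiceStmt V := by
  intro e X v M he o
  refine ⟨o.cpt, fun x hx => ?_⟩
  obtain ⟨a, b⟩ := (fr_iff o).1 hx
  obtain ⟨c, c1, c2, c3, c4⟩ := (o.bd _ a).resolve_left b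
  have he0 : e ≠ 0 := norm_ne_zero_iff.1 (he ▸ one_ne_zero)
  have := nontrivial_of_ne e 0 he0
  have hd : finrank ℝ (Fin (finrank ℝ V - 1) → ℝ) + 1 = finrank ℝ V := by
    rw [finrank_fin_fun, Nat.sub_add_cancel finrank_pos]
  obtain ⟨U, hU1, hU, hxU⟩ := mem_nhds_iff.1 c1
  obtain ⟨s⟩ := slc hd hU (fun y hy => hU1 hy) hxU fun k => by simp [k] at c3
  obtain ⟨P, hP⟩ := exists_compl hd (l := -innerSL ℝ e) fun k => by
    have := congrArg (· e) k
    simp [he0] at this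
  let T : V → (Fin (finrank ℝ V - 1) → ℝ) × ℝ := fun y => (s.Ψ x, c x) + P.prod (-innerSL ℝ e) y
  have t0 : T 0 = (s.Ψ x, c x) := by simp [T]
  have t1 : LDAt (vs V) (vs _) T 0 :=
    ldAt_vs univ_mem (fun _ _ => contDiffAt_const.add (ContinuousLinearMap.contDiff _).contDiffAt)
      (by rw [fderiv_const_add, ContinuousLinearMap.fderiv]; exact hP)
  have t2 : T 0 ∈ s.W := t0 ▸ s.m1 s.mem
  have t3 : LDAt (vs V) X (fun y => s.g (T y)) 0 :=
    t1.trans (ldAt_of_inv s.oW s.oO t2 s.sg s.sΨ s.m2 s.m1 s.r s.l)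
  have t4 : s.g (T 0) = x := by rw [t0, s.l x s.mem]
  have t5 : Rel (vs V) X (HS e) M (fun y => s.g (T y)) 0 := by
    refine rel_of_ld t3 ?_
    have c5 : ∀ᶠ y in 𝓝 (s.g (T 0)), y ∈ M ↔ c y ≤ 0 := by rw [t4]; exact c4
    filter_upwards [t3.sm.cont.eventually c5,
      t1.sm.cont.eventually (s.oW.mem_nhds t2)] with y h1 h2
    rw [h1, show c (s.g (T y)) = (T y).2 from congrArg Prod.snd (s.r _ h2)]
    simp [T, c2, HS]
  obtain ⟨η, k, k1, -, k2⟩ := (t5.up univ_mem).exists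
  exact ⟨k, k1, by rw [k2 0 zero_mem_HS (by simp), smul_zero, t4]⟩

end Pool.Agent.MP_7ebdba_gt.hb

end
end MrgPart3

-- ======== part 4: formerly Pool.Agent.MP_7ebdba_gt.hb.Hom
section MrgPart4

/-! Add-on HB, row HOM: two germs of boundary charts lie in one global boundary chart. -/

open scoped ContDiff Manifold Topology RealInnerProductSpace
open Set Filter Function Metric Module Pool.Agent.MP_e1dc65_gt

noncomputable section

namespace Pool.Agent.MP_7ebdba_gt.hb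

variable {V : Type} [NormedAddCommGroup V] [InnerProductSpace ℝ V] [FiniteDimensional ℝ V]

namespace Hom

variable {X : Mf V} {W : Set X} {e y : V} {h a : V → X} {U : Set V}

omit [FiniteDimensional ℝ V] in
theorem fr_HS (he : ‖e‖ = 1) (hy : y ∈ HS e) : y ∈ frontier (HS e) ↔ ⟪e, y⟫ = 0 := by
  rw [mem_frontier_of_mem hy]
  constructor
  · intro k
    by_contra c
    have c1 : Continuous fun z : V => ⟪e, z⟫ := by fun_prop
    exact k ((c1.continuousAt.eventually_const_lt (lt_of_le_of_ne hy (Ne.symm c))).mono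
      fun _ => le_of_lt)
  · intro k c
    have c1 : Continuous fun t : ℝ => y - t • e := by fun_prop
    have := ((c1.tendsto' 0 y (by simp)).eventually c).filter_mono (nhdsWithin_le_nhds (s := Ioi 0))
    obtain ⟨t, h1, h2⟩ := (this.and self_mem_nhdsWithin).exists
    simp only [inner_sub_right, k, real_inner_smul_right, real_inner_self_eq_norm_sq, he] at h1
    have : 0 < t := h2
    linarith

theorem pc_fr (he : ‖e‖ = 1) (hh : PC X W e h U) (hy : y ∈ U) (k : ⟪e, y⟫ = 0) :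
    h y ∈ frontier W :=
  ((hh.rel hy).frontier_iff k.ge).2 ((fr_HS he k.ge).2 k)

theorem pc_zero (he : ‖e‖ = 1) {α : V → V} (hα : PC (vs V) (HS e) e α (ball 0 2)) : ⟪e, α 0⟫ = 0 :=
  (fr_HS he ((hα.mem 0 (by simp)).2 zero_mem_HS)).1 (pc_fr he hα (by simp) (by simp))

theorem pc_gd {Θ : X → X} (hh : PC X W e h U) (hΘ : GD X Θ) (k : ∀ w, Θ w ∈ W ↔ w ∈ W) :
    PC X W e (fun y => Θ (h y)) U :=
  ⟨hh.oe.trans hΘ.oe (mapsTo_univ _ _), fun y hy => (k _).trans (hh.mem y hy)⟩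

/-- compression of the whole space into a small ball -/
theorem squeeze (h1 : InterpStmt) (h2 : RadStmt V) {p : V} (hp : ⟪e, p⟫ = 0) {N : Set V}
    (hN : N ∈ 𝓝 p) : ∃ κ : V → V, PC (vs V) (HS e) e κ univ ∧ (∀ y, κ y ∈ N) ∧
      ∀ᶠ y in 𝓝 p, κ y = y := by
  obtain ⟨r, hr, hb⟩ := Metric.mem_nhds_iff.1 hN
  obtain ⟨μ, m1, m2, m3⟩ := h1 (fun t => t) (fun t => r - r ^ 2 / 4 * t⁻¹) 0 (r / 2) r (by linarith)
    (by linarith) (fun t _ => ⟨contDiffAt_id, by simp⟩) (fun t ht => by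
      have t0 : 0 < t := by linarith
      refine ⟨contDiffAt_const.sub (contDiffAt_const.mul (contDiffAt_inv ℝ t0.ne')), ?_⟩
      rw [(((hasDerivAt_inv t0.ne').const_mul (r ^ 2 / 4)).const_sub r).deriv, mul_neg, neg_neg]
      positivity) (by field_simp; linarith)
  have mono : StrictMonoOn μ (Ioi 0) := strictMonoOn_of_deriv_pos (convex_Ioi 0)
    (fun t ht => (m1 t ht).1.continuousAt.continuousWithinAt)
    fun t ht => (m1 t (interior_subset ht)).2
  have pos : ∀ t, 0 < t → 0 < μ t := fun t ht => by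
    rcases le_or_gt t (r / 2) with k | k
    · rwa [m2 t k]
    · have := mono (half_pos hr) ht k
      rw [m2 _ le_rfl] at this
      linarith
  have lt : ∀ t, 0 < t → μ t < r := fun t ht => by
    have k : ∀ t, r ≤ t → μ t < r := fun t ht => by
      have : 0 < t := by linarith
      rw [m3 t ht]
      exact sub_lt_self _ (by positivity)
    rcases le_or_gt r t with c | c
    · exact k t c
    · exact (mono ht hr c).trans (k r le_rfl)
  have o := (h2 μ 0 le_rfl fun t ht => ⟨(m1 t ht).1, (m1 t ht).2, pos t ht⟩).2 1 one_pos rfl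
    (mem_of_superset (Ioo_mem_nhdsGT (half_pos hr)) fun t ht => by
      simpa using m2 t ht.2.le)
  have tr : ∀ q : V, OE (vs V) (vs V) (fun y => y + q) univ := fun q =>
    ⟨isOpen_univ, fun y _ => ldAt_vs univ_mem (fun _ _ => contDiffAt_id.add contDiffAt_const)
      (by rw [fderiv_add_const, fderiv_fun_id]; exact ⟨.refl ℝ V, rfl⟩),
      (add_left_injective q).injOn⟩
  have sh : ∀ y, y + p ∈ HS e ↔ y ∈ HS e := fun y => by simp [HS, inner_add_right, hp]
  refine ⟨fun y => rad μ (y + -p) + p, ⟨((tr _).trans o (mapsTo_univ _ _)).trans (tr p)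
    (mapsTo_univ _ _), fun y _ => ?_⟩, fun y => hb ?_, ?_⟩
  · rw [sh, ← neg_add_cancel_right y p, sh, neg_add_cancel_right]
    by_cases k : y + -p = 0
    · simp [k, rad]
    · exact rad_mem_HS k (pos _ (norm_pos_iff.2 k))
  · rw [mem_ball, dist_eq_norm, add_sub_cancel_right]
    by_cases k : y + -p = 0
    · simpa [k, rad] using hr
    · rw [norm_rad k (pos _ (norm_pos_iff.2 k)).le]
      exact lt _ (norm_pos_iff.2 k)
  · filter_upwards [ball_mem_nhds p (half_pos hr)] with y hy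
    rw [mem_ball, dist_eq_norm, sub_eq_add_neg] at hy
    by_cases k : y + -p = 0
    · simpa [k, rad] using (add_neg_eq_zero.1 k).symm
    · rw [rad, m2 _ hy.le, div_self (norm_ne_zero_iff.2 k), one_smul, neg_add_cancel_right]

/-- a germ in a boundary chart is realised by a diffeomorphism with small support -/
theorem adjust (h4 : PalaisStmt V) (he : ‖e‖ = 1) (ha : PC X W e a (ball 0 2)) {g : V → V}
    (hg : LDAt (vs V) (vs V) g 0) (g0 : g 0 = 0) (gH : ∀ᶠ y in 𝓝 0, g y ∈ HS e ↔ y ∈ HS e)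
    (gd : 0 < (fderiv ℝ g 0).det) {q : X} (hq : a 0 ≠ q) :
    ∃ Φ, GD X Φ ∧ (∀ w, Φ w ∈ W ↔ w ∈ W) ∧ (∀ᶠ y in 𝓝 0, Φ (a (g y)) = a y) ∧
      ∀ᶠ w in 𝓝 q, Φ w = w := by
  have z : (0 : V) ∈ ball (0 : V) 2 := by simp
  obtain ⟨r, hr, hb⟩ := nhds_basis_closedBall.mem_iff.1
    (((ha.oe.sm 0 z).cont.eventually_ne hq).and (isOpen_ball.mem_nhds z))
  obtain ⟨γ, c1, c2, c3, c4⟩ := h4 e g r he hr hg g0 gH gd
  obtain ⟨γ', d1, l, r'⟩ := c1.exists_inv
  have d2 : ∀ y ∉ closedBall (0 : V) r, γ' y = y := fun y hy =>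
    (congrArg γ' (c2 y (le_of_not_ge (mt mem_closedBall_zero_iff.2 hy)))).symm.trans (l y)
  have sub : closedBall (0 : V) r ⊆ ball 0 2 := fun y hy => (hb hy).2
  obtain ⟨Φ, f1, f2, f3⟩ := d1.extend ha.oe (isCompact_closedBall 0 r) sub d2
  refine ⟨Φ, f1, fun w => ?_, ?_, ?_⟩
  · by_cases k : w ∈ a '' closedBall 0 r
    · obtain ⟨y, hy, rfl⟩ := k
      have m : γ' y ∈ ball (0 : V) 2 := by_contra fun c =>
        c ((d1.bij.1 (d2 _ fun c' => c (sub c'))).symm ▸ sub hy)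
      rw [f2 y (sub hy), ha.mem _ m, ha.mem _ (sub hy), ← c3, r']
    · rw [f3 w k]
  · filter_upwards [c4, hg.sm.cont.preimage_mem_nhds (t := ball 0 2)
      (isOpen_ball.mem_nhds (by rwa [g0]))] with y h1 h2
    rw [f2 _ h2, ← h1, l]
  · filter_upwards [((isCompact_closedBall 0 r).image_of_continuousOn
      (ha.oe.sm.contOn.mono sub)).isClosed.isOpen_compl.mem_nhds
        fun ⟨y, hy, c⟩ => (hb hy).1 c] with w hw using f3 w hw

end Hom

open Hom in
theorem hom (h1 : InterpStmt) (h2 : RadStmt V) (h3 : MoveStmt V) (h4 : PalaisStmt V) :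
    HomStmt V := by
  intro e X W s a b α β hd he hW hc o ha hb hab hα hβ hαβ hs
  have z : (0 : V) ∈ ball (0 : V) 2 := by simp
  obtain ⟨κ, k1, k2, k3⟩ := squeeze h1 h2 (pc_zero he hβ) ((hβ.oe.ld 0 z).image_mem
    (isOpen_ball.mem_nhds z))
  have p0 : PC X W e (fun y => b (invFunOn β (ball 0 2) (κ y))) univ := by
    have m : ∀ y, invFunOn β (ball 0 2) (κ y) ∈ ball (0 : V) 2 := fun y => invFunOn_mem (k2 y)
    refine ⟨(k1.oe.trans hβ.oe.symm fun y _ => k2 y).trans hb.oe fun y _ => m y, fun y _ => ?_⟩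
    rw [hb.mem _ (m y), ← hβ.mem _ (m y), invFunOn_eq (k2 y), k1.mem y trivial]
  have q0 : ∀ᶠ y in 𝓝 0, b (invFunOn β (ball 0 2) (κ (β y))) = b y := by
    filter_upwards [(hβ.oe.sm 0 z).cont.eventually k3, isOpen_ball.mem_nhds z] with y c1 c2
    rw [c1, hβ.oe.left c2]
  obtain ⟨Θ, t1, t2, t3, t4⟩ := h3 e X W {b 0} hd he hW hc (finite_singleton _) _
    ⟨pc_fr he p0 trivial (pc_zero he hα), fun c => hαβ (p0.oe.inj trivial trivial
      ((mem_singleton_iff.1 c).trans q0.self_of_nhds.symm))⟩ _ ⟨pc_fr he ha z (by simp), hab⟩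
  obtain ⟨h, p1, q1, q2⟩ : ∃ h, PC X W e h univ ∧ h (α 0) = a 0 ∧ ∀ᶠ y in 𝓝 0, h (β y) = b y :=
    ⟨_, pc_gd p0 t1 t2, t3, by
      filter_upwards [q0, (hb.oe.sm 0 z).cont.eventually (t4 _ rfl)] with y c1 c2
      rw [c1, c2]⟩
  have l1 : LDAt (vs V) X (fun y => h (α y)) 0 := (hα.oe.ld 0 z).trans (p1.oe.ld _ trivial)
  have ev : ∀ᶠ y in 𝓝 0, h (α y) ∈ a '' ball 0 2 :=
    l1.sm.cont.preimage_mem_nhds (q1.symm ▸ (ha.oe.ld 0 z).image_mem (isOpen_ball.mem_nhds z))
  obtain ⟨g, g1, g0, g2⟩ : ∃ g : V → V, LDAt (vs V) (vs V) g 0 ∧ g 0 = 0 ∧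
      ∀ᶠ y in 𝓝 0, g y ∈ ball (0 : V) 2 ∧ a (g y) = h (α y) :=
    ⟨fun y => invFunOn a (ball 0 2) (h (α y)), l1.trans (ha.oe.symm.ld _ ev.self_of_nhds),
      by simp only [q1, ha.oe.left z], ev.mono fun y c => ⟨invFunOn_mem c, invFunOn_eq c⟩⟩
  have gd : 0 < (fderiv ℝ g 0).det := by
    have e1 := sg_congr (s := s) (g2.mono fun _ c => c.2)
    rw [sg_comp g1.sm (ha.oe.sm _ g2.self_of_nhds.1), g0,
      sg_comp (hα.oe.sm 0 z) (p1.oe.sm _ trivial)] at e1
    have e2 := sg_congr (s := s) q2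
    rw [sg_comp (hβ.oe.sm 0 z) (p1.oe.sm _ trivial)] at e2
    have e3 := o.const isPreconnected_univ p1.oe.ld (mem_univ (α 0)) (mem_univ (β 0))
    have e4 := mul_pos e3 (mul_self_pos.2 (right_ne_zero_of_mul hs.ne'))
    refine (mul_pos_iff_of_pos_left hs).1 (e4.trans_eq ?_)
    rw [← e2]
    linear_combination (-(sg X s h (β 0) * (fderiv ℝ β 0).det * ((fderiv ℝ α 0).det *
      (fderiv ℝ β 0).det))) * e1
  obtain ⟨Φ, f1, f2, f3, f4⟩ := adjust h4 he ha g1 g0 (by
    filter_upwards [g2, isOpen_ball.mem_nhds z] with y c1 c2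
    rw [← ha.mem _ c1.1, c1.2, p1.mem _ trivial, hα.mem _ c2]) gd hab
  refine ⟨_, pc_gd p1 f1 f2, ?_, ?_⟩
  · filter_upwards [g2, f3] with y c1 c2
    rw [← c1.2, c2]
  · filter_upwards [q2, (hb.oe.sm 0 z).cont.eventually f4] with y c1 c2
    rw [c1, c2]

end Pool.Agent.MP_7ebdba_gt.hb

end
end MrgPart4

-- ======== part 5: formerly Pool.Agent.MP_7ebdba_gt.hb.Ind
section MrgPart5

/-! Add-on HB, row IND: the induction on the number of saddles, and the passage to trisections. -/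

open scoped ContDiff Manifold Topology RealInnerProductSpace
open Set Filter Function Metric Module Pool.Agent.MP_e1dc65_gt

noncomputable section

namespace Pool.Agent.MP_7ebdba_gt.hb

variable {V : Type} [NormedAddCommGroup V] [InnerProductSpace ℝ V] [FiniteDimensional ℝ V]
  {e : V} {X Y : Mf V} {Q : Set Y}

namespace Ind

theorem dom_part {D : MD X e} {A B : Set X} (h : D.Dom (A ∪ B)) (hA : IsCompact A)
    (hB : IsCompact B) (d : Disjoint A B) : D.Dom A := by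
  refine ⟨⟨hA, fun x hx => ?_⟩, fun x hx => h.inc x (Or.inl hx)⟩
  have k : ∀ᶠ y in 𝓝 x, y ∈ A ↔ y ∈ A ∪ B := by
    filter_upwards [hB.isClosed.isOpen_compl.mem_nhds (disjoint_left.1 d hx)] with y hy
    exact (or_iff_left hy).symm
  rcases h.out.bd x (Or.inl hx) with h1 | ⟨c, h1, h2, h3, h4⟩
  · exact Or.inl ((eventually_congr k).2 h1)
  · exact Or.inr ⟨c, h1, h2, h3, (k.and h4).mono fun _ a => a.1.trans a.2⟩

/-- removal of the highest saddle -/
theorem step (hD : DynStmt V) (hN : NFStmt V) (hC : CutStmt V) (he : ‖e‖ = 1) {D : MD X e}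
    {M : Set X} (h : D.Dom M) (hn : (D.C1 ∩ M).Nonempty) :
    ∃ (W : Set X) (a b : V → X) (f : X → X), D.Dom W ∧ Slf e X W M a b f ∧
      (∀ s, Ornt X s → sg X s a 0 * sg X s b 0 < 0) ∧ D.C0 ∩ W = D.C0 ∩ M ∧
      (D.C1 ∩ W).ncard + 1 = (D.C1 ∩ M).ncard := by
  obtain ⟨q, hq, hm⟩ := exists_max_image _ D.k (D.f1.inter_of_left M) hn
  obtain ⟨M', Θ, ψ, d', s', hΘ, rfl, c', oψ, rfl, hψ⟩ := hN e X D M q he h hq hm
  obtain ⟨W, a, b, f, dW, sW, nW, cW, sl, sn⟩ := hC e X D M' ψ he d' oψ hψ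
  have key : ∀ p ∈ D.C0 ∪ D.C1, p ∈ W ↔ p ∈ Θ '' M' ∧ p ≠ ψ 0 := fun p hp =>
    ⟨fun k => ⟨s' (sW k), fun k' => nW (k' ▸ k)⟩, fun k =>
      cW p (c' ⟨hp, k.1⟩) ((hD e X D M' d').1 p hp).1 k.2⟩
  refine ⟨W, a, b, _, dW, sl.map (hΘ.rd M'), sn, ?_, ?_⟩
  · ext p
    exact and_congr_right fun hp => (key p (Or.inl hp)).trans
      (and_iff_left fun k => disjoint_left.1 D.dis hp (k ▸ hq.1))
  · rw [← ncard_diff_singleton_add_one hq (D.f1.inter_of_left _)]
    congr 2
    ext p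
    exact (and_congr_right fun hp => key p (Or.inr hp)).trans and_assoc.symm

theorem nice_ap (hF : FrontStmt V) (hd : 3 ≤ finrank ℝ V) (he : ‖e‖ = 1) (hQ : QP e Y Q) :
    ∀ (g : ℕ) (M : Set X), AP e Y Q X g M → Nice X M e ∧ IsPreconnected (frontier M)
  | 0, M, ⟨B, h⟩ => (hF e hd he).1 X M B h
  | g + 1, M, ⟨W, h, h'⟩ => by
    obtain ⟨W', a, b, B, f, s, h1, h2, rfl, -⟩ := hQ.ex
    have k1 := (hF e hd he).1 Y _ B (rd_of_oe h2 (subset_univ _))
    have k2 := (hF e hd he).2.1 Y _ Q a b f h1 k1.1 k1.2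
    have k3 := nice_ap hF hd he hQ g W h
    exact (hF e hd he).2.2 X Y X W Q M h' k3.1 k2.1 k3.2 k2.2

theorem ap_add (hF : FrontStmt V) (hU : UnitStmt V) (hA : AssocStmt V) (hd : 3 ≤ finrank ℝ V)
    (he : ‖e‖ = 1) (hQ : QP e Y Q) {A : Set X} {a : ℕ} (h : AP e Y Q X a A) :
    ∀ (b : ℕ) (B M : Set X), AP e Y Q X b B → ABd e X X X A B M → AP e Y Q X (a + b) M
  | 0, B, M, ⟨β, k⟩, k' =>
    let ⟨_, hΦ⟩ := hU e X X X A B M β (by omega) he k' k; h.map hΦ
  | b + 1, B, M, k, k' => by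
    have n := nice_ap hF hd he hQ _ _ k
    obtain ⟨B', k1, k2⟩ := k
    obtain ⟨N, k3, k4⟩ := hA e X X X Y X A B B' Q M hd he k' k2 n.1 n.2
    exact ⟨N, ap_add hF hU hA hd he hQ h b B' N k1 k3, k4⟩

theorem ncard_part {C A B : Set X} (hC : C.Finite) (d : Disjoint A B) :
    (C ∩ (A ∪ B)).ncard = (C ∩ A).ncard + (C ∩ B).ncard := by
  rw [inter_union_distrib_left, ncard_union_eq (d.mono inter_subset_right inter_subset_right)
    (hC.inter_of_left _) (hC.inter_of_left _)]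

theorem empty_of {D : MD X e} {M : Set X} (h : (D.C1 ∩ M).ncard = 0) : D.C1 ∩ M = ∅ :=
  (ncard_eq_zero (D.f1.inter_of_left M)).1 h

theorem ne_of_slf {W M : Set X} {a b : V → X} {f : X → X} (h : Slf e X W M a b f) : W.Nonempty :=
  ⟨a 0, (h.ca.mem 0 (by simp)).2 zero_mem_HS⟩

end Ind

open Ind

theorem qp (hD : DynStmt V) (hB : BallStmt V) (hN : NFStmt V) (hC : CutStmt V)
    (hS : SplitStmt V) : QPStmt V := by
  intro e Y D Q s he hs d c h0 h1
  obtain ⟨W, a, b, f, dW, sl, sn, e0, e1⟩ := step hD hN hC he d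
    (nonempty_of_ncard_ne_zero (by omega))
  rcases hS e Y W Q a b f he sl dW.out.cpt c.2 with k | ⟨A, B, cA, cB, dis, rfl, nA, nB, -⟩
  · obtain ⟨-, B, k1, k2⟩ := hB e Y D W dW ⟨ne_of_slf sl, k⟩ (empty_of (by omega))
    exact ⟨W, a, b, B, f, s, sl, k1, k2, hs, sn s hs⟩
  · rw [← e0, ncard_part D.f0 dis] at h0
    rw [ncard_part D.f1 dis] at e1
    have k1 := (hB e Y D A (dom_part dW cA cB dis) nA (empty_of (by omega))).1
    have k2 := (hB e Y D B (dom_part (union_comm A B ▸ dW) cB cA dis.symm) nB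
      (empty_of (by omega))).1
    omega

theorem ind (hD : DynStmt V) (hB : BallStmt V) (hN : NFStmt V) (hC : CutStmt V)
    (hS : SplitStmt V) (hF : FrontStmt V) (hU : UnitStmt V) (hA : AssocStmt V)
    (hH : HandleStmt V) : IndStmt V := by
  intro e X Y D M Q s hd he hQ hs d c
  induction hn : (D.C1 ∩ M).ncard using Nat.strong_induction_on generalizing M with
  | _ n ih =>
  rcases Nat.eq_zero_or_pos n with rfl | hp
  · obtain ⟨k, B, k1, rfl⟩ := hB e X D M d c (empty_of hn)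
    exact ⟨0, by omega, B, rd_of_oe k1 (subset_univ _)⟩
  obtain ⟨W, a, b, f, dW, sl, sn, e0, e1⟩ := step hD hN hC he d
    (nonempty_of_ncard_ne_zero (by omega))
  rcases hS e X W M a b f he sl dW.out.cpt c.2 with k | ⟨A, B, cA, cB, dis, rfl, nA, nB, k⟩
  · obtain ⟨g, k1, k2⟩ := ih _ (by omega) W dW ⟨ne_of_slf sl, k⟩ rfl
    have n := nice_ap hF hd he hQ _ _ k2
    exact ⟨g + 1, by rw [← e0]; omega, W, k2,
      hH e X Y W M Q a b f s hd he hQ sl n.1 n.2 hs (sn s hs)⟩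
  · have e0 := (ncard_part D.f0 dis).symm.trans (congrArg ncard e0)
    rw [ncard_part D.f1 dis] at e1
    obtain ⟨g, k1, k2⟩ := ih _ (by omega) A (dom_part dW cA cB dis) nA rfl
    obtain ⟨g', k3, k4⟩ := ih _ (by omega) B (dom_part (union_comm A B ▸ dW) cB cA dis.symm) nB rfl
    exact ⟨g + g', by omega, ap_add hF hU hA hd he hQ k2 g' B M k4 k⟩

open sm

namespace Ind

theorem norm_e0 (m : ℕ) : ‖e0 m‖ = 1 := by simp [e0]

/-- from a domain in an embedded manifold to a boundary sum -/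
theorem nat_of {m : ℕ} (hm : 2 ≤ m) (hI : IndStmt (E (m + 1))) (hQ : QPStmt (E (m + 1)))
    (hT : TubeStmt) (hB : BridgeStmt) {X : Mf (E (m + 1))} {ι : X → E 5} (hι : Emb X ι)
    (ho : ∃ s, Ornt X s) {D : MD X (e0 m)} {M : Set X} (d : D.Dom M) (c : IsConnected M)
    (hs : D.C0 ∪ D.C1 ⊆ M) {g : ℕ} (hg : D.C1.ncard + 1 = D.C0.ncard + g) :
    NatSum m g (ι '' M) := by
  obtain ⟨Y, κ, Q, s', D', h1, h2, h3, h4, h5, h6, h7⟩ := hT m
  obtain ⟨s, ho⟩ := ho
  obtain ⟨g', k1, k2⟩ := hI (e0 m) X Y D M Q s (by simp; omega) (norm_e0 m)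
    (hQ _ Y D' Q s' (norm_e0 m) h3 h4 h5 h6 h7) ho d c
  rw [inter_eq_left.2 (subset_union_left.trans hs), inter_eq_left.2 (subset_union_right.trans hs)]
    at k1
  obtain rfl : g' = g := by omega
  exact hB m X Y ι κ Q hι h1 h2 _ M k2

theorem sm_comp {m : ℕ} {es : List (E 5 → ℝ)} {X : Mf (E (m + 1))} {ι : X → E 5} {P : Set S4}
    (h : Rz m es X ι P) {c : E 5 → ℝ} (hc : sm.Sm c) :
    MP_e1dc65_gt.Sm X (vs ℝ) (fun x => c (ι x)) univ := fun x _ =>
  (h.emb.sm x trivial).vcomp (hc ⟨ι x, mem_sphere_zero_iff_norm.2 (h.lvl x).1⟩)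

theorem one {m g : ℕ} (hm : 2 ≤ m) (hI : IndStmt (E (m + 1))) (hQ : QPStmt (E (m + 1)))
    (hT : TubeStmt) (hB : BridgeStmt) (hR : RealStmt) {es : List (E 5 → ℝ)} {c : E 5 → ℝ}
    {X : Mf (E (m + 1))} {ι : X → E 5} (h : Rz m es X ι (Piece es [c])) (he : ∀ c ∈ es, sm.Sm c)
    (hc : sm.Sm c) (H : Handlebody (m + 1) es [c] g) : NatSum m g ((↑) '' Piece es [c]) := by
  obtain ⟨D, h1, h2, h3, h4, h5, h6⟩ := hR m g es [c] X ι h he (by simpa using hc) H
  simp only [List.mem_singleton, forall_eq] at h1 h2 h3 h5 h6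
  rw [← h3]
  refine nat_of hm hI hQ hT hB h.emb h.orn ⟨⟨h1, fun x hx => ?_⟩, fun x hx => (h6 x hx).1⟩ h2
    (fun p hp => (h5 p hp).le) h4
  rcases (show c (ι x) ≤ 0 from hx).eq_or_lt with k | k
  · exact Or.inr ⟨_, .of_forall fun y => sm_comp h hc y trivial, k, (h6 x hx).2 k,
      .of_forall fun _ => Iff.rfl⟩
  · exact Or.inl (((sm_comp h hc x trivial).cont.eventually (gt_mem_nhds k)).mono fun _ => le_of_lt)

theorem two {g : ℕ} (hI : IndStmt (E 4)) (hQ : QPStmt (E 4)) (hT : TubeStmt) (hB : BridgeStmt)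
    (hR : RealStmt) (hO : RoundStmt (E 4)) {c c' : E 5 → ℝ} {X : Mf (E 4)} {ι : X → E 5}
    (h : Rz 3 [] X ι univ) (hc : sm.Sm c) (hc' : sm.Sm c') (H : Handlebody 4 [] [c, c'] g) :
    ∀ᶠ ε in 𝓝[>] (0 : ℝ),
      NatSum 3 g ((↑) '' {x : S4 | (c x ≤ 0 ∧ c' x ≤ 0) ∧ ε ≤ c x * c' x}) := by
  obtain ⟨D, h1, h2, -, h4, h5, h6⟩ := hR 3 g [] [c, c'] X ι
    ⟨h.emb, h.orn, h.lvl, fun z _ => h.cov z trivial, h.op, h.tan⟩ (by simp) (by simp [hc, hc']) H
  simp only [List.mem_cons, List.not_mem_nil, or_false, forall_eq_or_imp, forall_eq]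
    at h1 h2 h5 h6
  filter_upwards [hO _ X D _ _ (sm_comp h hc) (sm_comp h hc') h1 h2 h5
    fun x a b => h6 x ⟨a, b⟩] with ε ⟨k1, k2, k3⟩
  convert nat_of (by omega) hI hQ hT hB h.emb h.orn k1 k2 k3 h4 using 1
  ext z
  constructor
  · rintro ⟨x, hx, rfl⟩
    obtain ⟨y, hy⟩ := h.cov x trivial
    exact ⟨y, by simpa only [mem_setOf_eq, hy, and_assoc] using hx, hy⟩
  · rintro ⟨y, hy, rfl⟩
    exact ⟨⟨ι y, mem_sphere_zero_iff_norm.2 (h.lvl y).1⟩, ⟨⟨hy.1, hy.2.1⟩, hy.2.2⟩, rfl⟩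

end Ind

theorem top (hI4 : IndStmt (E 4)) (hI3 : IndStmt (E 3)) (hQ4 : QPStmt (E 4)) (hQ3 : QPStmt (E 3))
    (hT : TubeStmt) (hB : BridgeStmt) (hR : RealStmt) (hO : RoundStmt (E 4)) (hM : ManStmt) :
    HBStmt := by
  rintro X g k ⟨A, B, hA, hB', hX, t1, t2, t3, H0, H1, H2, H3, H4, H5⟩
  obtain ⟨⟨S, ι, hS⟩, hW⟩ := hM
  have nA : sm.Sm (-A) := fun x => (hA x).neg
  have nB : sm.Sm (-B) := fun x => (hB' x).neg
  have wall : ∀ a c : E 5 → ℝ, sm.Sm a → sm.Sm c → Handlebody 3 [a] [c] g →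
      (∀ x : S4, a x = 0 → c x ≤ 0 → ∃ v, Tangent [] x v ∧ fderiv ℝ a x v ≠ 0) →
      NatSum 2 g ((↑) '' {x : S4 | a x = 0 ∧ c x ≤ 0}) := fun a c ha hc H t => by
    have e : Piece [a] [c] = {x : S4 | a x = 0 ∧ c x ≤ 0} := by simp [Piece]
    obtain ⟨Z, κ, hZ⟩ := hW a _ ha H.1.1 fun x hx =>
      ⟨(e.subset hx).1, t x (e.subset hx).1 (e.subset hx).2⟩
    exact e ▸ Ind.one le_rfl hI3 hQ3 hT hB hR hZ (by simpa using ha) hc H
  refine ⟨A, B, hA, hB', hX, t1, t2, t3, ?_, fun i hi => ?_, fun i => ?_⟩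
  · convert Ind.one (by omega) hI4 hQ4 hT hB hR
      ⟨hS.emb, hS.orn, hS.lvl, fun z _ => hS.cov z trivial, hS.op, hS.tan⟩ (by simp) nA H0 using 2
    simp [hX, Piece, sector]
  · fin_cases i
    · exact absurd rfl hi
    · filter_upwards [Ind.two hI4 hQ4 hT hB hR hO hS hA nB H1] with ε k
      refine (congrArg (fun s : Set S4 => NatSum 3 (_) ((↑) '' s)) (Set.ext fun x => ?_)).mp k
      simp only [hX, mem_setOf_eq, Pi.neg_apply, neg_nonpos]
      exact and_congr_right fun a => by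
        rw [abs_of_nonpos (mul_nonpos_of_nonpos_of_nonneg a.1 a.2), mul_neg]
    · filter_upwards [Ind.two hI4 hQ4 hT hB hR hO hS hA hB' H2] with ε k
      refine (congrArg (fun s : Set S4 => NatSum 3 (_) ((↑) '' s)) (Set.ext fun x => ?_)).mp k
      simp only [hX, mem_setOf_eq]
      exact and_congr_right fun a => by rw [abs_of_nonneg (mul_nonneg_of_nonpos_of_nonpos a.1 a.2)]
  · fin_cases i
    · convert wall A (-B) hA nB H3 fun x a _ => t1 x a using 2
      ext x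
      simp only [hX, sector, mem_inter_iff, mem_setOf_eq, Pi.neg_apply, neg_nonpos]
      exact ⟨fun a => ⟨a.2.1.antisymm a.1, a.2.2⟩, fun a => ⟨a.1.ge, a.1.le, a.2⟩⟩
    · convert wall B A hB' hA H4 fun x a b => t2 x b a using 2
      ext x
      simp only [hX, sector, mem_inter_iff, mem_setOf_eq]
      exact ⟨fun a => ⟨a.2.2.antisymm a.1.2, a.1.1⟩, fun a => ⟨⟨a.2, a.1.ge⟩, a.2, a.1.le⟩⟩
    · convert wall A B hA hB' H5 fun x a _ => t1 x a using 2
      ext x
      simp only [hX, sector, mem_inter_iff, mem_setOf_eq]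
      exact ⟨fun a => ⟨a.1.1.antisymm a.2, a.1.2⟩, fun a => ⟨⟨a.1.le, a.2⟩, a.1.ge⟩⟩

end Pool.Agent.MP_7ebdba_gt.hb

end
end MrgPart5

-- ======== part 6: formerly Pool.Agent.MP_7ebdba_gt.hb.Man
section MrgPart6

/-! Add-on HB, row MAN: orientations from normal frames; the sphere and its hypersurfaces. -/

open scoped ContDiff Manifold Topology RealInnerProductSpace
open Set Filter Function Metric Module Pool.Agent.MP_e1dc65_gt

noncomputable section

namespace Pool.Agent.MP_7ebdba_gt.hb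

namespace Man

theorem det_ne {T : Type} [NormedAddCommGroup T] [NormedSpace ℝ T] [FiniteDimensional ℝ T]
    {L : T →L[ℝ] T} (h : Injective L) : L.det ≠ 0 := fun k =>
  (LinearMap.det_eq_zero_iff_ker_ne_bot.1 k) (LinearMap.ker_eq_bot.2 h)

theorem det_mul {F W V : Type} [NormedAddCommGroup F] [NormedSpace ℝ F] [NormedAddCommGroup W]
    [NormedSpace ℝ W] [FiniteDimensional ℝ W] [NormedAddCommGroup V] [NormedSpace ℝ V]
    [FiniteDimensional ℝ V] (Φ : F →L[ℝ] W × V) (N : W →L[ℝ] F) (D : V →L[ℝ] F) (G : V →L[ℝ] V) :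
    (Φ.comp (N.coprod D)).det * G.det = (Φ.comp (N.coprod (D.comp G))).det := by
  have h1 : (Φ.comp (N.coprod (D.comp G))).toLinearMap = (Φ.comp (N.coprod D)).toLinearMap.comp
      (LinearMap.prodMap LinearMap.id G.toLinearMap) := by
    refine LinearMap.ext fun p => ?_
    simp
  rw [ContinuousLinearMap.det, ContinuousLinearMap.det, ContinuousLinearMap.det, h1,
    LinearMap.det_comp, LinearMap.det_prodMap, LinearMap.det_id, one_mul]

end Man

open Man Lev

theorem orn {V : Type} [NormedAddCommGroup V] [InnerProductSpace ℝ V] [FiniteDimensional ℝ V] :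
    OrnStmt V := by
  intro F W _ _ _ _ _ _ X ι N hι hN hd hi
  let Φ : F ≃L[ℝ] W × V := ContinuousLinearEquiv.ofFinrankEq (by rw [finrank_prod, hd])
  let s : X → ℝ := fun x => ((Φ : F →L[ℝ] W × V).comp ((N x).coprod (Df X (vs F) ι x))).det
  have hs : ∀ x, s x ≠ 0 := fun x => det_ne (Φ.injective.comp (hi x))
  refine ⟨s, hs, fun g y hg => ?_⟩
  let q : V → ℝ := fun z =>
    ((Φ : F →L[ℝ] W × V).comp ((N (g z)).coprod (fderiv ℝ (fun z => ι (g z)) z))).det
  have e1 : ∀ᶠ z in 𝓝 y, sg X s g z = q z := by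
    filter_upwards [hg.ev] with z hz
    simp only [sg, s, q]
    rw [det_mul, ← Df_comp hz.sm (hι _ trivial), Df_vs]
  have c1 : ContinuousAt (fderiv ℝ fun z => ι (g z)) y :=
    ((smAt_vs.1 (hg.sm.trans (hι _ trivial))).fderiv_right (m := 0) (by simp)).continuousAt
  have c2 : ContinuousAt (fun z => N (g z)) y := hN.continuousAt.comp hg.sm.cont
  have c3 : ContinuousAt q y := by
    refine ContinuousLinearMap.continuous_det.continuousAt.comp (continuousAt_const.clm_comp ?_)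
    simp only [← ContinuousLinearMap.comp_fst_add_comp_snd]
    exact (c2.clm_comp continuousAt_const).add (c1.clm_comp continuousAt_const)
  have n0 : q y ≠ 0 := by
    rw [← e1.self_of_nhds]
    exact mul_ne_zero (hs _) (det_ne hg.inv.injective)
  have e2 : ∀ᶠ z in 𝓝 y, 0 < q z * q y :=
    (c3.mul continuousAt_const).eventually (lt_mem_nhds (mul_self_pos.2 n0))
  filter_upwards [e1, e2] with z a b
  rwa [a, e1.self_of_nhds]

open sm

namespace Man

theorem df_sq (x v : E 5) : Df (vs (E 5)) (vs ℝ) (fun x => ‖x‖ ^ 2) x v = 2 * ⟪x, v⟫ := by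
  rw [Df_vs, (hasStrictFDerivAt_norm_sq x).hasFDerivAt.fderiv]
  simp

theorem sphere_level : ∃ (X : Mf (E 4)) (ι : X → E 5), Emb X ι ∧ range ι = sphere 0 1 ∧
    ∀ x w, w ∈ range (Df X (vs (E 5)) ι x) ↔ ⟪ι x, w⟫ = 0 := by
  obtain ⟨X, ι, h⟩ := level1 (E' := E 4) (X := vs (E 5)) (f := fun x => ‖x‖ ^ 2) (U := univ)
    (c := 1) (by simp) isOpen_univ (fun x _ => smAt_vs.2 (contDiff_norm_sq ℝ).contDiffAt)
    (fun x _ hx k => by
      have := df_sq x x
      rw [k, real_inner_self_eq_norm_sq, hx] at this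
      simp at this)
    ⟨e0 4, trivial, by simp [e0]⟩
  refine ⟨X, ι, ⟨h.sm, h.emb, h.inj⟩, h.range.trans ?_, fun x w => (h.tan x w).trans ?_⟩
  · ext x
    have : ‖x‖ ≠ -1 := by linarith [norm_nonneg x]
    simp [this]
  · rw [df_sq]
    simp

end Man

theorem man (h4 : OrnStmt (E 4)) (h3 : OrnStmt (E 3)) : ManStmt := by
  obtain ⟨X, ι, he, hr, ht⟩ := sphere_level
  have n1 : ∀ x, ‖ι x‖ = 1 := fun x => mem_sphere_zero_iff_norm.1 (hr ▸ mem_range_self x)
  have n2 : ∀ z : E 5, ‖z‖ = 1 → z ∈ range ι := fun z hz => hr ▸ mem_sphere_zero_iff_norm.2 hz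
  have n3 : ∀ x, ι x ≠ 0 := fun x k => by simpa [k] using n1 x
  have ci : Continuous ι := he.emb.continuous
  refine ⟨⟨X, ι, he, ?_, fun x => ⟨n1 x, by simp⟩,
    fun z _ => n2 z (mem_sphere_zero_iff_norm.1 z.2),
    fun x => .of_forall fun z hz _ => n2 z hz, fun x w hw _ => (ht x w).2 hw⟩, ?_⟩
  · refine h4 (E 5) ℝ X ι (fun x => ContinuousLinearMap.toSpanSingleton ℝ (ι x)) he.sm ?_
      (by simp) fun x => ?_
    · exact (ContinuousLinearMap.toSpanSingletonLIE ℝ (E 5)).continuous.comp ci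
    · refine (injective_iff_map_eq_zero _).2 fun ⟨r, u⟩ k => ?_
      have k1 : r • ι x + Df X (vs (E 5)) ι x u = 0 := k
      have k2 := congrArg (fun w => ⟪ι x, w⟫) k1
      simp only [inner_add_right, real_inner_smul_right, (ht x _).1 ⟨u, rfl⟩,
        real_inner_self_eq_norm_sq, n1 x, inner_zero_right] at k2
      obtain rfl : r = 0 := by linarith
      rw [zero_smul, zero_add] at k1
      rw [(injective_iff_map_eq_zero _).1 (he.inj x) u k1]
      rfl
  intro A P hA hP hPA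
  have sA : ∀ x, ContDiffAt ℝ ∞ A (ι x) := fun x => hA ⟨ι x, mem_sphere_zero_iff_norm.2 (n1 x)⟩
  have cA : Continuous fun x => fderiv ℝ A (ι x) := continuous_iff_continuousAt.2 fun x =>
    ((sA x).fderiv_right (m := 0) (by simp)).continuousAt.comp ci.continuousAt
  have sf : Sm X (vs ℝ) (fun x => A (ι x)) univ := fun x _ => (he.sm x trivial).vcomp (sA x)
  have df : ∀ x u, Df X (vs ℝ) (fun x => A (ι x)) x u =
      fderiv ℝ A (ι x) (Df X (vs (E 5)) ι x u) := fun x u => by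
    rw [Df_vcomp (he.sm x trivial) (sA x)]
    rfl
  let U : Set X := {x | ∃ w, fderiv ℝ A (ι x) (w - ⟪ι x, w⟫ • ι x) ≠ 0}
  have oU : IsOpen U := by
    simp only [U, ofPred_exists]
    exact isOpen_iUnion fun w => isOpen_ne_fun (cA.clm_apply (by fun_prop)) continuous_const
  have tU : ∀ x ∈ U, ∃ v, ⟪ι x, v⟫ = 0 ∧ fderiv ℝ A (ι x) v ≠ 0 := fun x ⟨w, hw⟩ =>
    ⟨_, by rw [inner_sub_right, real_inner_smul_right, real_inner_self_eq_norm_sq, n1 x]; ring, hw⟩
  have mU : ∀ z ∈ P, ∃ x ∈ U ∩ (fun x => A (ι x)) ⁻¹' {0}, ι x = z := fun z hz => by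
    obtain ⟨x, hx⟩ : (z : E 5) ∈ range ι := n2 z (mem_sphere_zero_iff_norm.1 z.2)
    obtain ⟨a, v, b, c⟩ := hPA z hz
    refine ⟨x, ⟨⟨v, ?_⟩, ?_⟩, hx⟩
    · rwa [hx, b.1, zero_smul, sub_zero]
    · show A (ι x) = 0
      rwa [hx]
  obtain ⟨Z, j, h⟩ := level1 (E' := E 3) (X := X) (f := fun x => A (ι x)) (U := U) (c := 0)
    (by simp) oU (sf.mono (subset_univ _))
    (fun x hx _ k => by
      obtain ⟨v, a, b⟩ := tU x hx
      obtain ⟨u, rfl⟩ := (ht x v).2 a
      rw [← df, k] at b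
      exact b rfl)
    (let ⟨z, hz⟩ := hP; let ⟨x, hx, _⟩ := mU z hz; ⟨x, hx⟩)
  have dj : ∀ z u, Df Z (vs (E 5)) (fun z => ι (j z)) z u =
      Df X (vs (E 5)) ι (j z) (Df Z X j z u) := fun z u => by
    rw [Df_comp (h.sm z trivial) (he.sm _ trivial)]
    rfl
  have he' : Emb Z fun z => ι (j z) :=
    ⟨fun z _ => (h.sm z trivial).trans (he.sm _ trivial), he.emb.comp h.emb, fun z u u' k => by
      rw [dj, dj] at k
      exact h.inj z (he.inj _ k)⟩
  have cj : Continuous j := h.emb.continuous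
  refine ⟨Z, fun z => ι (j z), he', ?_, fun z => ⟨n1 _, by simpa using (h.mem z).2⟩,
    fun z hz => ?_, fun z => ?_, fun z w a b => ?_⟩
  · let G : Z → E 5 := fun z => (InnerProductSpace.toDual ℝ (E 5)).symm (fderiv ℝ A (ι (j z)))
    have hG : ∀ z v, ⟪G z, v⟫ = fderiv ℝ A (ι (j z)) v := fun z v =>
      InnerProductSpace.toDual_symm_apply
    have cG : Continuous G := (InnerProductSpace.toDual ℝ (E 5)).symm.continuous.comp (cA.comp cj)
    refine h3 (E 5) (ℝ × ℝ) Z _ (fun z => (ContinuousLinearMap.toSpanSingleton ℝ (ι (j z))).coprod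
      (ContinuousLinearMap.toSpanSingleton ℝ (G z))) he'.sm ?_ (by simp) fun z => ?_
    · simp only [← ContinuousLinearMap.comp_fst_add_comp_snd]
      exact (((ContinuousLinearMap.toSpanSingletonLIE ℝ (E 5)).continuous.comp
        (ci.comp cj)).clm_comp continuous_const).add
        (((ContinuousLinearMap.toSpanSingletonLIE ℝ (E 5)).continuous.comp cG).clm_comp
          continuous_const)
    · refine (injective_iff_map_eq_zero _).2 fun ⟨⟨r, t⟩, u⟩ k => ?_
      have k1 : r • ι (j z) + t • G z + Df Z (vs (E 5)) (fun z => ι (j z)) z u = 0 := k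
      have a1 : ⟪ι (j z), Df Z (vs (E 5)) (fun z => ι (j z)) z u⟫ = 0 := by
        rw [dj]
        exact (ht _ _).1 ⟨_, rfl⟩
      have a2 : ⟪G z, Df Z (vs (E 5)) (fun z => ι (j z)) z u⟫ = 0 := by
        rw [hG, dj, ← df]
        exact (h.tan z _).1 ⟨_, rfl⟩
      have k2 := congrArg (fun w => ⟪w, Df Z (vs (E 5)) (fun z => ι (j z)) z u⟫) k1
      simp only [inner_add_left, real_inner_smul_left, a1, a2, mul_zero, zero_add,
        inner_zero_left, inner_self_eq_zero] at k2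
      obtain rfl := (injective_iff_map_eq_zero _).1 (he'.inj z) u k2
      rw [map_zero, add_zero] at k1
      obtain ⟨v, b1, b2⟩ := tU _ (h.mem z).1
      have k3 := congrArg (fun w => ⟪w, v⟫) k1
      simp only [inner_add_left, real_inner_smul_left, b1, hG, mul_zero, zero_add,
        inner_zero_left] at k3
      obtain rfl := (mul_eq_zero.1 k3).resolve_right b2
      rw [zero_smul, add_zero] at k1
      obtain rfl := (smul_eq_zero.1 k1).resolve_right (n3 _)
      rfl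
  · obtain ⟨x, hx, e⟩ := mU z hz
    obtain ⟨y, rfl⟩ : x ∈ range j := h.range ▸ hx
    exact ⟨y, e⟩
  · obtain ⟨O, hO, e⟩ := he.emb.isInducing.isOpen_iff.1 oU
    have hz : ι (j z) ∈ O := show j z ∈ ι ⁻¹' O from e ▸ (h.mem z).1
    filter_upwards [hO.mem_nhds hz] with y hy a b
    obtain ⟨x, rfl⟩ := n2 y a
    have hx : x ∈ U := e ▸ hy
    obtain ⟨w, rfl⟩ : x ∈ range j := h.range ▸ ⟨hx, b A (by simp)⟩
    exact ⟨w, rfl⟩
  · obtain ⟨u, rfl⟩ := (ht _ w).2 a
    obtain ⟨u', rfl⟩ := (h.tan z u).2 ((df _ u).trans (b A (by simp)))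
    exact ⟨u', dj z u'⟩

end Pool.Agent.MP_7ebdba_gt.hb

end
end MrgPart6

-- ======== part 7: formerly Pool.Agent.MP_7ebdba_gt.hb.Mob
section MrgPart7

/-! Row MOB: the ball minus a boundary point is the half-space. -/

open scoped ContDiff Manifold Topology RealInnerProductSpace
open Set Filter Function Metric Module Pool.Agent.MP_e1dc65_gt

noncomputable section

namespace Pool.Agent.MP_7ebdba_gt.hb

namespace Mob

variable {V : Type} [NormedAddCommGroup V] [InnerProductSpace ℝ V]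

/-- the inversion with centre `-e` -/
def inv (e y : V) : V := -e + (2 / ‖y + e‖ ^ 2) • (y + e)

theorem ne0 {e y : V} (hy : y ∈ ({-e}ᶜ : Set V)) : ‖y + e‖ ≠ 0 := by
  rw [norm_ne_zero_iff]
  exact fun h => hy (eq_neg_of_add_eq_zero_left h)

theorem inv_add (e y : V) : inv e y + e = (2 / ‖y + e‖ ^ 2) • (y + e) := by
  rw [inv]; abel

theorem norm_inv_add {e y : V} (hy : y ∈ ({-e}ᶜ : Set V)) :
    ‖inv e y + e‖ ^ 2 = 4 / ‖y + e‖ ^ 2 := by
  have := ne0 hy
  rw [inv_add, norm_smul, mul_pow, Real.norm_eq_abs, sq_abs]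
  field_simp
  norm_num

theorem inv_mem {e y : V} (hy : y ∈ ({-e}ᶜ : Set V)) : inv e y ∈ ({-e}ᶜ : Set V) := by
  intro h
  have k := norm_inv_add hy
  have := ne0 hy
  rw [show inv e y = -e from h, neg_add_cancel, norm_zero] at k
  have : (0 : ℝ) < 4 / ‖y + e‖ ^ 2 := by positivity
  linarith

theorem inv_inv {e y : V} (hy : y ∈ ({-e}ᶜ : Set V)) : inv e (inv e y) = y := by
  have := ne0 hy
  rw [inv, norm_inv_add hy, inv_add, smul_smul,
    show 2 / (4 / ‖y + e‖ ^ 2) * (2 / ‖y + e‖ ^ 2) = 1 by field_simp; norm_num, one_smul]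
  abel

theorem inv_sm {e y : V} (hy : y ∈ ({-e}ᶜ : Set V)) : ContDiffAt ℝ ∞ (inv e) y := by
  have h1 : ContDiffAt ℝ ∞ (fun y : V => y + e) y := contDiffAt_id.add contDiffAt_const
  exact contDiffAt_const.add ((contDiffAt_const.div (h1.norm_sq ℝ)
    (pow_ne_zero 2 (ne0 hy))).smul h1)

theorem norm_inv {e y : V} (he : ‖e‖ = 1) (hy : y ∈ ({-e}ᶜ : Set V)) :
    ‖inv e y‖ ^ 2 = 1 - 4 * ⟪e, y⟫ / ‖y + e‖ ^ 2 := by
  have := ne0 hy
  rw [inv, norm_add_sq_real, norm_neg, he, norm_smul, mul_pow, Real.norm_eq_abs, sq_abs,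
    inner_neg_left, real_inner_smul_right, inner_add_right, real_inner_self_eq_norm_sq, he]
  field_simp
  ring

theorem inv_ball {e y : V} (he : ‖e‖ = 1) (hy : y ∈ ({-e}ᶜ : Set V)) :
    ‖inv e y‖ ≤ 1 ↔ y ∈ HS e := by
  have h0 : 0 < ‖y + e‖ ^ 2 := pow_pos (lt_of_le_of_ne (norm_nonneg _) (ne0 hy).symm) 2
  rw [← sq_le_one_iff₀ (norm_nonneg _), norm_inv he hy, sub_le_self_iff,
    le_div_iff₀ h0, zero_mul]
  simp only [HS, mem_setOf_eq]
  constructor <;> intro h <;> linarith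

theorem inv_zero {e : V} (he : ‖e‖ = 1) : inv e 0 = e := by
  rw [inv, zero_add, he, one_pow, div_one, two_smul]; abel

theorem inv_inv_sph {e y : V} (he : ‖e‖ = 1) (hy : y ∈ ({-e}ᶜ : Set V)) (h0 : y ≠ 0) :
    inv e ((‖y‖ ^ 2)⁻¹ • y) = rf e (inv e y) := by
  have n0 : ‖y‖ ≠ 0 := norm_ne_zero_iff.2 h0
  have n1 := ne0 hy
  have a : ‖y + e‖ ^ 2 = ‖y‖ ^ 2 + 2 * ⟪e, y⟫ + 1 := by
    rw [norm_add_sq_real, he, real_inner_comm, one_pow]
  have b : ‖(‖y‖ ^ 2)⁻¹ • y + e‖ ^ 2 = ‖y + e‖ ^ 2 / ‖y‖ ^ 2 := by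
    rw [norm_add_sq_real, he, norm_smul, mul_pow, Real.norm_eq_abs, sq_abs, real_inner_smul_left,
      real_inner_comm, a]
    field_simp
    ring
  rw [rf, inv, inv, b, inner_add_right, inner_neg_right, real_inner_smul_right, inner_add_right,
    real_inner_self_eq_norm_sq, he]
  have c : ‖y‖ ^ 2 = ‖y + e‖ ^ 2 - 2 * ⟪e, y⟫ - 1 := by linarith
  match_scalars
  · field_simp
    rw [c]; ring
  · field_simp

variable [FiniteDimensional ℝ V]

theorem inv_oe (e : V) : OE (vs V) (vs V) (inv e) {-e}ᶜ :=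
  oe_of_inv isOpen_compl_singleton isOpen_compl_singleton (fun _ hy => smAt_vs.2 (inv_sm hy))
    (fun _ hy => smAt_vs.2 (inv_sm hy)) (fun _ => inv_mem) (fun _ => inv_mem) (fun _ => inv_inv)
    fun _ => inv_inv

theorem iso_oe (R : V ≃ₗᵢ[ℝ] V) : OE (vs V) (vs V) R univ :=
  ⟨isOpen_univ, fun y _ => ldAt_cle R.toContinuousLinearEquiv y, R.injective.injOn⟩

theorem exists_rf {e : V} (he : ‖e‖ = 1) : ∃ Q : V ≃ₗᵢ[ℝ] V, ∀ y, Q y = rf e y := by
  refine ⟨(ℝ ∙ e)ᗮ.reflection, fun y => ?_⟩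
  rw [Submodule.reflection_orthogonal_apply, Submodule.reflection_singleton_apply, rf, he]
  simp [two_smul, two_mul, add_smul]

theorem exists_iso {e u : V} {d : ℝ} (h2 : 2 ≤ finrank ℝ V) (he : ‖e‖ = 1) (hu : ‖u‖ = 1)
    (hd : d ≠ 0) : ∃ R : V ≃ₗᵢ[ℝ] V, R (-e) = u ∧ 0 < d * LinearMap.det R.toLinearMap := by
  have e0 : e ≠ 0 := by rintro rfl; simp at he
  let R1 : V ≃ₗᵢ[ℝ] V := (ℝ ∙ (-e - u))ᗮ.reflection
  have a1 : R1 (-e) = u := Submodule.reflection_sub (by rw [norm_neg, he, hu])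
  have d1 : LinearMap.det R1.toLinearMap ≠ 0 := R1.toLinearEquiv.isUnit_det'.ne_zero
  rcases (mul_ne_zero hd d1).lt_or_gt with h | h
  swap
  · exact ⟨R1, a1, h⟩
  have f1 : finrank ℝ (ℝ ∙ e) = 1 := finrank_span_singleton e0
  have f2 := (ℝ ∙ e).finrank_add_finrank_orthogonal
  have : Nontrivial (ℝ ∙ e)ᗮ := Module.finrank_pos_iff.1 (show 0 < finrank ℝ (ℝ ∙ e)ᗮ by omega)
  obtain ⟨w, hw⟩ := exists_ne (0 : (ℝ ∙ e)ᗮ)
  have w0 : (w : V) ≠ 0 := fun k => hw (Subtype.ext k)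
  let S : V ≃ₗᵢ[ℝ] V := (ℝ ∙ (w : V))ᗮ.reflection
  have s1 : S (-e) = -e := Submodule.reflection_mem_subspace_eq_self (by
    rw [Submodule.mem_orthogonal_singleton_iff_inner_right, inner_neg_right, real_inner_comm,
      Submodule.mem_orthogonal_singleton_iff_inner_right.1 w.2, neg_zero])
  have s2 : LinearMap.det S.toLinearMap = -1 := by
    rw [Submodule.det_reflection, Submodule.orthogonal_orthogonal, finrank_span_singleton w0,
      pow_one]
  refine ⟨S.trans R1, by rw [LinearIsometryEquiv.trans_apply, s1, a1], ?_⟩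
  have : LinearMap.det (S.trans R1).toLinearMap =
      LinearMap.det R1.toLinearMap * LinearMap.det S.toLinearMap := LinearMap.det_comp _ _
  rw [this, s2]
  linarith

end Mob

open Mob in
theorem mob {V : Type} [NormedAddCommGroup V] [InnerProductSpace ℝ V] [FiniteDimensional ℝ V] :
    MobStmt V := by
  intro e u σ h2 he hu hσ
  obtain ⟨Q, hQ⟩ := exists_rf he
  have hb : ball (0 : V) 1 ⊆ {-e}ᶜ := fun y hy k => by
    rw [show y = -e from k, mem_ball_zero_iff, norm_neg, he] at hy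
    exact lt_irrefl _ hy
  have z0 : (0 : V) ∈ ball (0 : V) 1 := mem_ball_self one_pos
  have o1 : OE (vs V) (vs V) (fun y => Q (inv e y)) (ball 0 1) :=
    ((inv_oe e).mono isOpen_ball hb).trans (iso_oe Q) (mapsTo_univ _ _)
  have d0 : (fderiv ℝ (fun y => Q (inv e y)) 0).det ≠ 0 := by
    obtain ⟨L, hL⟩ := (o1.ld 0 z0).inv
    rw [Df_vs] at hL
    rw [← hL]
    exact L.toLinearEquiv.isUnit_det'.ne_zero
  obtain ⟨R, r1, r2⟩ := exists_iso h2 he hu (mul_ne_zero hσ d0)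
  refine ⟨fun y => R (inv e y), fun y => R (Q (inv e y)),
    ⟨(inv_oe e).trans (iso_oe R) (mapsTo_univ _ _), fun y hy => ?_⟩, ?_,
    ⟨o1.trans (iso_oe R) (mapsTo_univ _ _), fun y hy => ?_⟩, ?_, fun y h0 hy => ?_, ?_⟩
  · rw [mem_closedBall_zero_iff, R.norm_map, inv_ball he hy]
  · have hH : HS e ⊆ {-e}ᶜ := fun y hy k => by
      rw [show y = -e from k] at hy
      simp only [HS, mem_setOf_eq, inner_neg_right, real_inner_self_eq_norm_sq, he] at hy
      linarith
    ext z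
    constructor
    · rintro ⟨y, hy, rfl⟩
      refine ⟨by rw [mem_closedBall_zero_iff, R.norm_map, inv_ball he (hH hy)]; exact hy,
        fun k => inv_mem (hH hy) (R.injective (k.trans r1.symm))⟩
    · rintro ⟨h1, h3⟩
      obtain ⟨z, rfl⟩ := R.surjective z
      have hz : z ∈ ({-e}ᶜ : Set V) := fun k => h3 (by rw [show z = -e from k]; exact r1)
      refine ⟨inv e z, (inv_ball he (inv_mem hz)).1 ?_, by simp only [inv_inv hz]⟩
      rwa [inv_inv hz, ← R.norm_map, ← mem_closedBall_zero_iff]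
  · rw [mem_closedBall_zero_iff, R.norm_map, Q.norm_map, inv_ball he (hb hy)]
  · rw [← r1]
    simp only [inv_zero he, hQ, rf, real_inner_self_eq_norm_sq, he, one_pow, mul_one, two_smul]
    congr 1; abel
  · simp only [inv_inv_sph he (hb (mem_ball_zero_iff.2 hy)) h0, hQ]
  · have hd : DifferentiableAt ℝ (fun y => Q (inv e y)) 0 :=
      (smAt_vs.1 (o1.sm 0 z0)).differentiableAt (by simp)
    have := (R.toContinuousLinearEquiv.hasFDerivAt.comp 0 hd.hasFDerivAt).fderiv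
    rw [show fderiv ℝ (fun y => R (Q (inv e y))) 0 = _ from this]
    have k : ((R.toContinuousLinearEquiv : V →L[ℝ] V).comp
        (fderiv ℝ (fun y => Q (inv e y)) 0)).det =
        LinearMap.det R.toLinearMap * (fderiv ℝ (fun y => Q (inv e y)) 0).det :=
      LinearMap.det_comp _ _
    rw [k]
    linarith

end Pool.Agent.MP_7ebdba_gt.hb

end
end MrgPart7

-- ======== part 8: formerly Pool.Agent.MP_7ebdba_gt.hb.Move
section MrgPart8

/-! Add-on HB, row MOVE: punctured boundaries are connected, and the boundary is homogeneous. -/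

open scoped ContDiff Manifold Topology RealInnerProductSpace
open Set Filter Function Metric Module Pool.Agent.MP_e1dc65_gt

noncomputable section

namespace Pool.Agent.MP_7ebdba_gt.hb

variable {V : Type} [NormedAddCommGroup V] [InnerProductSpace ℝ V] [FiniteDimensional ℝ V]

namespace Move

/-- a set that is locally not disconnected by `Z` is not disconnected by `Z` -/
theorem glob {T : Type} [TopologicalSpace T] {S Z : Set T} (hS : IsPreconnected S)
    (h : ∀ x ∈ S, ∃ N ∈ 𝓝[S] x, N ⊆ S ∧ IsPreconnected (N \ Z) ∧ N ⊆ closure (N \ Z)) :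
    IsPreconnected (S \ Z) := by
  have key : ∀ x ∈ S, ∀ y ∈ S,
      ∃ A ⊆ S \ Z, IsPreconnected A ∧ x ∈ closure A ∧ y ∈ closure A := fun x hx y hy => by
    refine hS.induction₂ (fun x y => ∃ A ⊆ S \ Z, IsPreconnected A ∧ x ∈ closure A ∧
      y ∈ closure A) (fun x hx => ?_) ?_ (fun x y _ _ ⟨A, a, b, c, d⟩ => ⟨A, a, b, d, c⟩) hx hy
    · obtain ⟨N, hN, a, b, c⟩ := h x hx
      filter_upwards [hN] with y hy using
        ⟨N \ Z, sdiff_subset_sdiff_left a, b, c (mem_of_mem_nhdsWithin hx hN), c hy⟩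
    · rintro x y z - hy - ⟨A, a, b, c, d⟩ ⟨B, a', b', c', d'⟩
      obtain ⟨N, hN, n1, n2, -⟩ := h y hy
      have m : ∀ C ⊆ S \ Z, y ∈ closure C → (C ∩ (N \ Z)).Nonempty := fun C hC hy => by
        obtain ⟨O, hO, k⟩ := mem_nhdsWithin_iff_exists_mem_nhds_inter.1 hN
        obtain ⟨w, w1, w2⟩ := mem_closure_iff_nhds.1 hy O hO
        exact ⟨w, w2, k ⟨w1, (hC w2).1⟩, (hC w2).2⟩
      refine ⟨A ∪ N \ Z ∪ B, union_subset (union_subset a (sdiff_subset_sdiff_left n1)) a',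
        IsPreconnected.union' ?_ (IsPreconnected.union' (m A a d) b n2) b',
        closure_mono (subset_union_left.trans subset_union_left) c,
        closure_mono subset_union_right d'⟩
      obtain ⟨w, w1, w2⟩ := m B a' c'
      exact ⟨w, Or.inr w2, w1⟩
  refine isPreconnected_of_forall_pair fun x hx y hy => ?_
  obtain ⟨A, a, b, c, d⟩ := key x hx.1 y hy.1
  exact ⟨closure A ∩ (S \ Z), inter_subset_right, ⟨c, hx⟩, ⟨d, hy⟩,
    b.subset_closure (subset_inter subset_closure a) inter_subset_left⟩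

omit [FiniteDimensional ℝ V] in
theorem frH {e y : V} (he : ‖e‖ = 1) (hy : y ∈ HS e) : y ∈ frontier (HS e) ↔ ⟪e, y⟫ = 0 := by
  rw [mem_frontier_of_mem hy]
  constructor
  · intro h
    by_contra k
    have c : Continuous fun z : V => ⟪e, z⟫ := by fun_prop
    exact h (mem_of_superset (c.continuousAt.eventually (lt_mem_nhds (lt_of_le_of_ne hy (Ne.symm k))))
      fun z (hz : 0 < ⟪e, z⟫) => hz.le)
  · intro h k
    have c : Continuous fun t : ℝ => y + t • e := by fun_prop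
    have k' : ∀ᶠ t in 𝓝 (0 : ℝ), y + t • e ∈ HS e :=
      c.continuousAt.eventually (by simpa using k)
    obtain ⟨t, a, b⟩ := ((k'.filter_mono (nhdsWithin_le_nhds (s := Iio 0))).and
      self_mem_nhdsWithin).exists
    have : 0 ≤ ⟪e, y + t • e⟫ := a
    rw [inner_add_right, h, real_inner_smul_right, real_inner_self_eq_norm_sq, he] at this
    linarith [show t < 0 from b]

/-- in a boundary chart the frontier is the hyperplane -/
theorem frC {X : Mf V} {W : Set X} {e y : V} {h : V → X} {U : Set V} (he : ‖e‖ = 1)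
    (hW : IsClosed W) (hh : PC X W e h U) (hy : y ∈ U) : h y ∈ frontier W ↔ ⟪e, y⟫ = 0 := by
  constructor
  · intro k
    have m := (hh.mem y hy).1 (hW.frontier_subset k)
    exact (frH he m).1 (((hh.rel hy).frontier_iff m).1 k)
  · intro k
    have m : y ∈ HS e := k.ge
    exact ((hh.rel hy).frontier_iff m).2 ((frH he m).2 k)

end Move

theorem punct : PunctStmt V := by
  intro e X W Z hd he hW hc hZ
  refine Move.glob hc fun x hx => ?_
  obtain ⟨h, hh, rfl⟩ := hW.ch x hx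
  have e0 : e ≠ 0 := norm_ne_zero_iff.1 (he ▸ one_ne_zero)
  have hr : 1 < Module.rank ℝ (ℝ ∙ e)ᗮ := by
    have := (ℝ ∙ e).finrank_add_finrank_orthogonal
    rw [finrank_span_singleton e0] at this
    rw [← finrank_eq_rank]
    exact_mod_cast (by omega : 1 < finrank ℝ (ℝ ∙ e)ᗮ)
  have : Nontrivial (ℝ ∙ e)ᗮ := rank_pos_iff_nontrivial.1 (zero_lt_one.trans hr)
  let u := Homeomorph.unitBall (E := (ℝ ∙ e)ᗮ)
  let φ : (ℝ ∙ e)ᗮ → V := fun p => (u p : (ℝ ∙ e)ᗮ)
  have m : ∀ p, φ p ∈ ball (0 : V) 2 := fun p => mem_ball_zero_iff.2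
    ((mem_ball_zero_iff.1 (u p).2).trans one_lt_two)
  have c0 : Continuous φ := by fun_prop
  have c : Continuous fun p => h (φ p) := hh.oe.sm.contOn.comp_continuous c0 m
  have j : Injective fun p => h (φ p) := fun p q k =>
    u.injective (Subtype.ext (Subtype.ext (hh.oe.inj (m p) (m q) k)))
  have f := (hZ.preimage j.injOn).countable
  have d : range (fun p => h (φ p)) \ Z = (fun p => h (φ p)) '' ((fun p => h (φ p)) ⁻¹' Z)ᶜ := by
    rw [← preimage_compl, image_preimage_eq_range_inter, sdiff_eq]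
  refine ⟨range fun p => h (φ p), ?_, ?_, ?_, ?_⟩
  · refine mem_nhdsWithin_iff_eventually.2 (mem_of_superset
      ((hh.oe.ld 0 (by simp)).image_mem (ball_mem_nhds 0 one_pos)) ?_)
    rintro _ ⟨y, hy, rfl⟩ k
    have k' := (Move.frC he hW.cpt.isClosed hh (ball_subset_ball one_le_two hy)).1 k
    obtain ⟨p, hp⟩ := u.surjective ⟨⟨y, Submodule.mem_orthogonal_singleton_iff_inner_right.2 k'⟩,
      mem_ball_zero_iff.2 (mem_ball_zero_iff.1 hy)⟩
    exact ⟨p, by simp only [φ, hp]⟩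
  · rintro _ ⟨p, rfl⟩
    exact (Move.frC he hW.cpt.isClosed hh (m p)).2
      (Submodule.mem_orthogonal_singleton_iff_inner_right.1 (u p : (ℝ ∙ e)ᗮ).2)
  · rw [d]
    exact (f.isConnected_compl_of_one_lt_rank hr).isPreconnected.image _ c.continuousOn
  · rw [d]
    rintro _ ⟨p, rfl⟩
    exact mem_closure_image c.continuousAt (f.dense_compl ℝ p)

theorem move (h1 : PunctStmt V) (h2 : NearStmt V) : MoveStmt V := by
  intro e X W Z hd he hW hc hZ x hx y hy
  refine (h1 e X W Z hd he hW hc hZ).induction₂ (fun x y => ∃ Θ, GD X Θ ∧ (∀ w, Θ w ∈ W ↔ w ∈ W) ∧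
    Θ x = y ∧ ∀ z ∈ Z, ∀ᶠ w in 𝓝 z, Θ w = w) (fun x hx => ?_) ?_ ?_ hx hy
  · obtain ⟨h, hh, rfl⟩ := hW.ch x hx.1
    have l0 := hh.oe.ld 0 (by simp)
    obtain ⟨r, r0, hr⟩ := nhds_basis_closedBall.mem_iff.1 (inter_mem (ball_mem_nhds (0 : V) two_pos)
      (l0.sm.cont.preimage_mem_nhds (hZ.isClosed.isOpen_compl.mem_nhds hx.2)))
    let χ : ContDiffBump (0 : V) := ⟨r / 2, r, half_pos r0, half_lt_self r0⟩
    have s : ContDiff ℝ ∞ χ := χ.contDiff
    obtain ⟨C, hC⟩ := (χ.hasCompactSupport.fderiv ℝ).exists_bound_of_continuous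
      (s.continuous_fderiv (by simp))
    have C0 : 0 ≤ C := (norm_nonneg _).trans (hC 0)
    have hδ : 0 < 1 / (2 * (C + 1)) := by positivity
    refine mem_nhdsWithin_iff_eventually.2 (mem_of_superset
      (l0.image_mem (inter_mem (ball_mem_nhds 0 two_pos) (ball_mem_nhds 0 hδ))) ?_)
    rintro _ ⟨w, hw, rfl⟩ k
    have k' := (Move.frC he hW.cpt.isClosed hh hw.1).1 k.1
    have g := h2 (fun y => χ y • w) (s.smul contDiff_const) fun y => by
      rw [((s.differentiable (by simp) y).hasFDerivAt.smul_const w).fderiv,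
        ContinuousLinearMap.norm_smulRight_apply]
      have a := (lt_div_iff₀ (by positivity)).1 (mem_ball_zero_iff.1 hw.2)
      nlinarith [hC y, norm_nonneg w, norm_nonneg (fderiv ℝ χ y)]
    have o : ∀ y ∉ closedBall (0 : V) r, y + χ y • w = y := fun y hy => by
      rw [χ.zero_of_le_dist (le_of_lt (not_le.1 hy)), zero_smul, add_zero]
    obtain ⟨Θ, t1, t2, t3⟩ := g.extend hh.oe (isCompact_closedBall 0 r) (fun y hy => (hr hy).1) o
    refine ⟨Θ, t1, fun z => ?_, ?_, fun z hz => ?_⟩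
    · by_cases k : z ∈ h '' closedBall 0 r
      · obtain ⟨y, hy, rfl⟩ := k
        have m : y + χ y • w ∈ closedBall (0 : V) r := by_contra fun k =>
          k (by rwa [show y + χ y • w = y from g.bij.1 (o _ k)])
        rw [t2 y (hr hy).1, hh.mem _ (hr m).1, hh.mem _ (hr hy).1]
        simp only [HS, mem_ofPred_eq, inner_add_right, real_inner_smul_right, k', mul_zero, add_zero]
      · rw [t3 z k]
    · rw [t2 0 (by simp), χ.one_of_mem_closedBall (mem_closedBall_self (half_pos r0).le), one_smul,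
        zero_add]
    · filter_upwards [((isCompact_closedBall 0 r).image_of_continuousOn (hh.oe.sm.contOn.mono
        fun y hy => (hr hy).1)).isClosed.isOpen_compl.mem_nhds
        (show z ∉ h '' closedBall 0 r from fun ⟨y, hy, k⟩ => (hr hy).2 (k ▸ hz))] with w hw
        using t3 w hw
  · rintro x y z - - - ⟨Θ, a, b, c, d⟩ ⟨Θ', a', b', c', d'⟩
    refine ⟨_, a.trans a', fun w => (b' _).trans (b w), by rw [c, c'], fun z hz => ?_⟩
    filter_upwards [d z hz, d' z hz] with w k k'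
    rw [k, k']
  · rintro x y - - ⟨Θ, a, b, c, d⟩
    obtain ⟨Θ', a', l, r⟩ := a.exists_inv
    refine ⟨Θ', a', fun w => by rw [← b, r], by rw [← c, l], fun z hz => ?_⟩
    filter_upwards [d z hz] with w k using (congrArg Θ' k).symm.trans (l w)

end Pool.Agent.MP_7ebdba_gt.hb

end
end MrgPart8

-- ======== part 9: formerly Pool.Agent.MP_7ebdba_gt.hb.Rad
section MrgPart9

/-! Add-on HB, row RAD: interpolation, radial maps, shrinking of the charts of a boundary sum. -/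

open scoped ContDiff Manifold Topology RealInnerProductSpace
open Set Filter Function Metric Module Pool.Agent.MP_e1dc65_gt

noncomputable section

namespace Pool.Agent.MP_7ebdba_gt.hb

namespace Rad

theorem blend {u w : ℝ → ℝ} {l p q : ℝ} (hpq : p < q)
    (hu : ∀ t, l < t → t ≤ q → ContDiffAt ℝ ∞ u t ∧ 0 < deriv u t)
    (hw : ∀ t, p ≤ t → ContDiffAt ℝ ∞ w t ∧ 0 < deriv w t) (huw : ∀ t, p ≤ t → t ≤ q → u t ≤ w t) :
    ∃ μ : ℝ → ℝ, (∀ t, l < t → ContDiffAt ℝ ∞ μ t ∧ 0 < deriv μ t) ∧ (∀ t ≤ p, μ t = u t) ∧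
      ∀ t, q ≤ t → μ t = w t := by
  have hd : 0 < q - p := sub_pos.2 hpq
  let χ : ℝ → ℝ := fun t => Real.smoothTransition ((t - p) / (q - p))
  have c0 : ∀ t ≤ p, χ t = 0 := fun t ht =>
    Real.smoothTransition.zero_of_nonpos (div_nonpos_of_nonpos_of_nonneg (by linarith) hd.le)
  have c1 : ∀ t, q ≤ t → χ t = 1 := fun t ht =>
    Real.smoothTransition.one_of_one_le ((one_le_div hd).2 (by linarith))
  have cs : ContDiff ℝ ∞ χ :=
    Real.smoothTransition.contDiff.comp ((contDiff_id.sub contDiff_const).div_const _)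
  have cm : Monotone χ := fun s t h =>
    Real.smoothTransition.monotone (div_le_div_of_nonneg_right (by linarith) hd.le)
  have e0 : ∀ t ≤ p, (1 - χ t) * u t + χ t * w t = u t := fun t ht => by rw [c0 t ht]; ring
  have e1 : ∀ t, q ≤ t → (1 - χ t) * u t + χ t * w t = w t := fun t ht => by rw [c1 t ht]; ring
  refine ⟨fun t => (1 - χ t) * u t + χ t * w t, fun t ht => ?_, e0, e1⟩
  rcases lt_or_ge t p with h | h
  · have k : (fun t => (1 - χ t) * u t + χ t * w t) =ᶠ[𝓝 t] u :=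
      mem_of_superset (Iio_mem_nhds h) fun s hs => e0 s (le_of_lt hs)
    have := hu t ht (by linarith)
    exact ⟨this.1.congr_of_eventuallyEq k, k.deriv_eq ▸ this.2⟩
  rcases lt_or_ge q t with h' | h'
  · have k : (fun t => (1 - χ t) * u t + χ t * w t) =ᶠ[𝓝 t] w :=
      mem_of_superset (Ioi_mem_nhds h') fun s hs => e1 s (le_of_lt hs)
    have := hw t h
    exact ⟨this.1.congr_of_eventuallyEq k, k.deriv_eq ▸ this.2⟩
  obtain ⟨su, du⟩ := hu t ht h'
  obtain ⟨sw, dw⟩ := hw t h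
  refine ⟨((contDiffAt_const.sub cs.contDiffAt).mul su).add (cs.contDiffAt.mul sw), ?_⟩
  have hχ : HasDerivAt χ (deriv χ t) t := (cs.differentiable (by simp) t).hasDerivAt
  have k := ((hχ.const_sub 1).mul (su.differentiableAt (by simp)).hasDerivAt).add
    (hχ.mul (sw.differentiableAt (by simp)).hasDerivAt)
  have k' : deriv (fun t => (1 - χ t) * u t + χ t * w t) t = _ := k.deriv
  rw [k']
  have a0 : 0 ≤ χ t := Real.smoothTransition.nonneg _
  have a1 : χ t ≤ 1 := Real.smoothTransition.le_one _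
  have a2 : 0 ≤ deriv χ t * (w t - u t) := mul_nonneg cm.deriv_nonneg (sub_nonneg.2 (huw t h h'))
  have a3 : 0 < (1 - χ t) * deriv u t + χ t * deriv w t := by
    rcases a0.eq_or_lt with z | z
    · rw [← z]; simpa using du
    · have := mul_nonneg (sub_nonneg.2 a1) du.le
      have := mul_pos z dw
      linarith
  linarith

end Rad

theorem interp : InterpStmt := by
  intro f g l a b hla hab hf hg hfg
  have hd : 0 < b - a := sub_pos.2 hab
  set D := (g b - f a) / 3 with hD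
  have D0 : 0 < D := by rw [hD]; linarith
  obtain ⟨ε, hε, h1⟩ := Metric.eventually_nhds_iff.1
    ((hf a ⟨hla, hab⟩).1.continuousAt.eventually (gt_mem_nhds (show f a < f a + D by linarith)))
  obtain ⟨δ, hδ, h2⟩ := Metric.eventually_nhds_iff.1
    ((hg b hab).1.continuousAt.eventually (lt_mem_nhds (show f a + 2 * D < g b by linarith)))
  let ℓ : ℝ → ℝ := fun t => f a + D + D / (b - a) * (t - a)
  have hℓ : ∀ t, ContDiffAt ℝ ∞ ℓ t ∧ 0 < deriv ℓ t := fun t => by
    refine ⟨contDiffAt_const.add (contDiffAt_const.mul (contDiffAt_id.sub contDiffAt_const)), ?_⟩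
    have k : HasDerivAt ℓ (D / (b - a) * 1) t :=
      (((hasDerivAt_id t).sub_const a).const_mul _).const_add _
    rw [k.deriv, mul_one]
    exact div_pos D0 hd
  have m1 := min_le_left (ε / 2) ((b - a) / 2)
  have m2 := min_le_right (ε / 2) ((b - a) / 2)
  have m3 : 0 < min (ε / 2) ((b - a) / 2) := lt_min (half_pos hε) (half_pos hd)
  have n1 := min_le_left (δ / 2) ((b - a) / 2)
  have n2 := min_le_right (δ / 2) ((b - a) / 2)
  have n3 : 0 < min (δ / 2) ((b - a) / 2) := lt_min (half_pos hδ) (half_pos hd)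
  obtain ⟨ν, s1, s2, s3⟩ := Rad.blend (u := f) (w := ℓ) (l := l) (p := a)
    (q := a + min (ε / 2) ((b - a) / 2)) (by linarith) (fun t h h' => hf t ⟨h, by linarith⟩)
    (fun t _ => hℓ t) fun t h h' => by
      have k1 := h1 (y := t) (by rw [Real.dist_eq, abs_lt]; constructor <;> linarith)
      have k2 : 0 ≤ D / (b - a) * (t - a) := mul_nonneg (div_pos D0 hd).le (by linarith)
      change f t ≤ f a + D + D / (b - a) * (t - a)
      linarith
  obtain ⟨μ, t1, t2, t3⟩ := Rad.blend (u := ν) (w := g) (l := l)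
    (p := b - min (δ / 2) ((b - a) / 2)) (q := b) (by linarith) (fun t h _ => s1 t h)
    (fun t h => hg t (by linarith)) fun t h h' => by
      have k1 := h2 (y := t) (by rw [Real.dist_eq, abs_lt]; constructor <;> linarith)
      have k2 : D / (b - a) * (t - a) ≤ D / (b - a) * (b - a) :=
        mul_le_mul_of_nonneg_left (by linarith) (div_pos D0 hd).le
      rw [div_mul_cancel₀ _ hd.ne'] at k2
      rw [s3 t (by linarith)]
      change f a + D + D / (b - a) * (t - a) ≤ g t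
      linarith
  exact ⟨μ, t1, fun t ht => (t2 t (by linarith)).trans (s2 t ht), t3⟩

variable {V : Type} [NormedAddCommGroup V] [InnerProductSpace ℝ V] [FiniteDimensional ℝ V]

namespace Rad

omit [FiniteDimensional ℝ V] in
theorem rad_zero {μ : ℝ → ℝ} : rad μ (0 : V) = 0 := by simp [rad]

omit [FiniteDimensional ℝ V] in
theorem coef_sm {μ : ℝ → ℝ} {y : V} (hy : y ≠ 0) (h : ContDiffAt ℝ ∞ μ ‖y‖) :
    ContDiffAt ℝ ∞ (fun z : V => μ ‖z‖ / ‖z‖) y :=
  (h.comp y (contDiffAt_norm ℝ hy)).div (contDiffAt_norm ℝ hy) (norm_ne_zero_iff.2 hy)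

omit [FiniteDimensional ℝ V] in
theorem der_inj {μ : ℝ → ℝ} {y : V} (hy : y ≠ 0) (h : ContDiffAt ℝ ∞ μ ‖y‖)
    (h1 : 0 < deriv μ ‖y‖) (h2 : 0 < μ ‖y‖) : Injective (fderiv ℝ (rad μ) y) := by
  have ny : 0 < ‖y‖ := norm_pos_iff.2 hy
  have hc := ((coef_sm hy h).differentiableAt (by simp)).hasFDerivAt
  have hD : HasFDerivAt (rad μ) _ y := hc.smul (hasFDerivAt_id y)
  have k1 : HasDerivAt (fun t : ℝ => rad μ (t • y)) (fderiv ℝ (rad μ) y y) 1 := by
    have a : HasDerivAt (fun t : ℝ => t • y) y 1 := by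
      simpa using (hasDerivAt_id (1 : ℝ)).smul_const y
    have b : HasFDerivAt (rad μ) (fderiv ℝ (rad μ) y) ((fun t : ℝ => t • y) 1) := by
      simpa using hD.differentiableAt.hasFDerivAt
    exact b.comp_hasDerivAt 1 a
  have k2 : HasDerivAt (fun t : ℝ => rad μ (t • y)) (deriv μ ‖y‖ • y) 1 := by
    have a : HasDerivAt (fun t : ℝ => t * ‖y‖) ‖y‖ 1 := by
      simpa using (hasDerivAt_id (1 : ℝ)).mul_const ‖y‖
    have b : HasDerivAt μ (deriv μ ‖y‖) ((fun t : ℝ => t * ‖y‖) 1) := by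
      simpa using (h.differentiableAt (by simp)).hasDerivAt
    have c := ((b.comp 1 a).div_const ‖y‖).smul_const y
    rw [mul_div_cancel_right₀ _ ny.ne'] at c
    refine c.congr_of_eventuallyEq ?_
    filter_upwards [Ioi_mem_nhds (zero_lt_one' ℝ)] with t ht
    have t0 : (0 : ℝ) < t := ht
    rw [rad, norm_smul, Real.norm_of_nonneg t0.le, smul_smul, comp]
    congr 1
    field_simp
  have k3 := k1.unique k2
  refine (injective_iff_map_eq_zero _).2 fun v hv => ?_
  have k4 := hv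
  rw [hD.fderiv] at k4
  simp only [add_apply, smul_apply, ContinuousLinearMap.smulRight_apply,
    ContinuousLinearMap.id_apply] at k4
  have c0 : μ ‖y‖ / ‖y‖ ≠ 0 := (div_pos h2 ny).ne'
  obtain ⟨s, rfl⟩ : ∃ s : ℝ, v = s • y := by
    refine ⟨-(μ ‖y‖ / ‖y‖)⁻¹ * fderiv ℝ (fun z : V => μ ‖z‖ / ‖z‖) y v, ?_⟩
    rw [mul_smul, ← neg_eq_iff_add_eq_zero.2 k4, smul_neg, neg_smul, neg_neg, smul_smul,
      inv_mul_cancel₀ c0, one_smul]
  rw [map_smul, k3, smul_smul, smul_eq_zero, mul_eq_zero] at hv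
  rcases hv with (z | z) | z
  · rw [z, zero_smul]
  · exact absurd z h1.ne'
  · exact absurd z hy

theorem mono {μ : ℝ → ℝ} {l : ℝ} (h : ∀ t, l < t → ContDiffAt ℝ ∞ μ t ∧ 0 < deriv μ t) :
    StrictMonoOn μ (Ioi l) :=
  strictMonoOn_of_deriv_pos (convex_Ioi l) (fun t ht => (h t ht).1.continuousAt.continuousWithinAt)
    fun t ht => (h t (by simpa using ht)).2

end Rad

theorem radial : RadStmt V := by
  intro μ l hl h
  have ne : ∀ y : V, l < ‖y‖ → y ≠ 0 := fun y hy => norm_pos_iff.1 (hl.trans_lt hy)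
  have op : IsOpen {y : V | l < ‖y‖} := isOpen_lt continuous_const continuous_norm
  have k : OE (vs V) (vs V) (rad μ) {y | l < ‖y‖} := by
    refine ⟨op, fun y hy => ldAt_vs (op.mem_nhds hy)
      (fun z hz => (Rad.coef_sm (ne z hz) (h _ hz).1).smul contDiffAt_id) ?_, fun y hy z hz e => ?_⟩
    · exact ⟨(LinearEquiv.ofInjectiveEndo (fderiv ℝ (rad μ) y).toLinearMap
        (Rad.der_inj (ne y hy) (h _ hy).1 (h _ hy).2.1 (h _ hy).2.2)).toContinuousLinearEquiv,
        by ext v; rfl⟩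
    · have e1 : μ ‖y‖ = μ ‖z‖ := by
        rw [← norm_rad (ne y hy) (h _ hy).2.2.le, ← norm_rad (ne z hz) (h _ hz).2.2.le, e]
      have e2 : ‖y‖ = ‖z‖ := (Rad.mono fun t ht => ⟨(h t ht).1, (h t ht).2.1⟩).injOn hy hz e1
      have e3 : (μ ‖y‖ / ‖y‖) • y = (μ ‖z‖ / ‖z‖) • z := e
      rw [← e2] at e3
      exact smul_right_injective V (div_pos (h _ hy).2.2 (hl.trans_lt hy)).ne' e3
  refine ⟨k, fun c hc l0 hμ => ?_⟩
  subst l0
  have nz : ∀ y : V, y ≠ 0 → rad μ y ≠ 0 := fun y hy e => by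
    have a := (h _ (norm_pos_iff.2 hy)).2.2
    have b := norm_rad (μ := μ) hy a.le
    rw [e, norm_zero] at b
    exact a.ne b
  refine ⟨isOpen_univ, fun y _ => ?_, fun y _ z _ e => ?_⟩
  · by_cases hy : y = 0
    · subst hy
      refine (ldAt_hom hc.ne' (0 : V)).congr' ?_
      obtain ⟨u, hu, hs⟩ := (nhdsGT_basis (0 : ℝ)).eventually_iff.1 hμ
      filter_upwards [ball_mem_nhds (0 : V) hu] with z hz
      by_cases z0 : z = 0
      · rw [z0, Rad.rad_zero, smul_zero]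
      · have n := norm_pos_iff.2 z0
        change rad μ z = c • z
        rw [rad, hs ⟨n, mem_ball_zero_iff.1 hz⟩, mul_div_cancel_right₀ _ n.ne']
    · exact k.ld y (norm_pos_iff.2 hy)
  · by_cases hy : y = 0
    · by_contra hz
      subst hy
      exact nz z (Ne.symm hz) (e.symm.trans Rad.rad_zero)
    · by_cases hz : z = 0
      · subst hz
        exact absurd (e.trans Rad.rad_zero) (nz y hy)
      · exact k.inj (norm_pos_iff.2 hy) (norm_pos_iff.2 hz) e

theorem sig (h1 : InterpStmt) (h2 : RadStmt V) : SigStmt V := by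
  intro η h0 hη
  obtain ⟨μ, s1, s2, s3⟩ := h1 (fun t => η * t) (fun t => t) 0 1 (3 / 2) one_pos (by norm_num)
    (fun t _ => ⟨contDiffAt_const.mul contDiffAt_id, by
      rw [((hasDerivAt_id' t).const_mul η).deriv, mul_one]; exact h0⟩)
    (fun t _ => ⟨contDiffAt_id, by simp⟩) (by linarith)
  have ps : ∀ t, 0 < t → 0 < μ t := fun t ht => by
    rcases le_or_gt t 1 with k | k
    · rw [s2 t k]; exact mul_pos h0 ht
    · have := Rad.mono s1 (mem_Ioi.2 one_pos) ht k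
      rw [s2 1 le_rfl] at this
      linarith
  have oe := (h2 μ 0 le_rfl fun t ht => ⟨(s1 t ht).1, (s1 t ht).2, ps t ht⟩).2 η h0 rfl
    (mem_of_superset (Ioo_mem_nhdsGT one_pos) fun t ht => s2 t ht.2.le)
  have srj : ∀ r, 0 < r → ∃ t, 0 < t ∧ μ t = r := fun r hr => by
    rcases le_or_gt r η with k | k
    · exact ⟨r / η, div_pos hr h0, by
        rw [s2 _ ((div_le_one h0).2 k), mul_div_cancel₀ _ h0.ne']⟩
    rcases le_or_gt (3 / 2) r with k' | k'
    · exact ⟨r, hr, s3 r k'⟩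
    obtain ⟨t, ht, e⟩ := intermediate_value_Icc (show (1 : ℝ) ≤ 3 / 2 by norm_num) (f := μ)
      (fun t ht => (s1 t (by linarith [ht.1])).1.continuousAt.continuousWithinAt)
      (show r ∈ Icc (μ 1) (μ (3 / 2)) by
        rw [s2 1 le_rfl, s3 _ le_rfl]; exact ⟨by linarith, k'.le⟩)
    exact ⟨t, by linarith [ht.1], e⟩
  refine ⟨rad μ, ⟨fun y => oe.ld y trivial, injOn_univ.1 oe.inj, fun y => ?_⟩, fun y hy => ?_,
    fun y hy => ?_, fun e y => ?_⟩
  · by_cases hy : y = 0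
    · exact ⟨(0 : V), Rad.rad_zero.trans hy.symm⟩
    · have n : (0 : ℝ) < ‖(y : V)‖ := norm_pos_iff.2 hy
      obtain ⟨t, ht, e⟩ := srj _ n
      refine ⟨(t • ‖(y : V)‖⁻¹ • (y : V) : V), ?_⟩
      have hv : ‖(‖(y : V)‖⁻¹ • (y : V) : V)‖ = 1 := by
        rw [norm_smul, norm_inv, norm_norm, inv_mul_cancel₀ n.ne']
      rw [rad_smul hv ht, e, smul_smul, mul_inv_cancel₀ n.ne', one_smul]
  · by_cases z : y = 0
    · rw [z, Rad.rad_zero, smul_zero]
    · rw [rad, s2 _ hy, mul_div_cancel_right₀ _ (norm_ne_zero_iff.2 z)]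
  · rw [rad, s3 _ hy, div_self (by linarith), one_smul]
  · by_cases z : y = 0
    · rw [z, Rad.rad_zero]
    · exact rad_mem_HS z (ps _ (norm_pos_iff.2 z))

namespace Rad

omit [FiniteDimensional ℝ V] in
theorem maps {η : ℝ} (h0 : 0 < η) (hη : η ≤ 1) :
    MapsTo (fun y : V => η • y) (ball 0 2) (ball 0 2) := fun y hy => by
  rw [mem_ball_zero_iff] at hy ⊢
  rw [norm_smul, Real.norm_of_nonneg h0.le]
  nlinarith [norm_nonneg y]

theorem pc {X : Mf V} {A : Set X} {e : V} {a : V → X} {η : ℝ} (h0 : 0 < η) (hη : η ≤ 1)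
    (h : PC X A e a (ball 0 2)) : PC X A e (fun y => a (η • y)) (ball 0 2) :=
  ⟨OE.trans ⟨isOpen_ball, fun y _ => ldAt_hom h0.ne' y, (smul_right_injective V h0.ne').injOn⟩
    h.oe (maps h0 hη), fun _ hy => (h.mem _ (maps h0 hη hy)).trans (smul_mem_HS h0)⟩

theorem push (hS : SigStmt V) {X : Mf V} {A : Set X} {e : V} {a : V → X} {η : ℝ} (h0 : 0 < η)
    (hη : η ≤ 1) (h : PC X A e a (ball 0 2)) : ∃ Θ, GD X Θ ∧ (∀ x, Θ x ∈ A ↔ x ∈ A) ∧
      (∀ x ∉ a '' closedBall 0 (3 / 2), Θ x = x) ∧ ∀ y, ‖y‖ ≤ 1 → Θ (a (η • y)) = a y := by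
  obtain ⟨β, hβ, b1, b2, b3⟩ := hS η h0 hη
  obtain ⟨β', hβ', l, r⟩ := hβ.exists_inv
  have fx : ∀ y : V, 3 / 2 ≤ ‖y‖ → β' y = y := fun y hy => (congrArg β' (b2 y hy)).symm.trans (l y)
  have sub : closedBall (0 : V) (3 / 2) ⊆ ball 0 2 := closedBall_subset_ball (by norm_num)
  obtain ⟨Θ, hΘ, t1, t2⟩ := hβ'.extend h.oe (isCompact_closedBall (0 : V) (3 / 2)) sub
    fun y hy => fx y (not_le.1 (mt mem_closedBall_zero_iff.2 hy)).le
  refine ⟨Θ, hΘ, fun x => ?_, t2, fun y hy => ?_⟩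
  · by_cases k : x ∈ a '' closedBall 0 (3 / 2)
    · obtain ⟨y, hy, rfl⟩ := k
      have m : β' y ∈ ball (0 : V) 2 := by
        by_contra c
        have c' : (2 : ℝ) ≤ ‖(β' y : V)‖ := not_lt.1 (mt mem_ball_zero_iff.2 c)
        have c2 : β' y = y := hβ'.bij.1 (fx _ (by linarith))
        exact c (c2.symm ▸ sub hy)
      rw [t1 y (sub hy), h.mem _ m, h.mem _ (sub hy), ← b3 e, r]
    · rw [t2 x k]
  · rw [t1 (η • y) (maps h0 hη (mem_ball_zero_iff.2 (by linarith))), ← b1 y hy, l]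

omit [FiniteDimensional ℝ V] in
theorem rd {X : Mf V} {A : Set X} {Θ : X → X} (h : GD X Θ) (k : ∀ x, Θ x ∈ A ↔ x ∈ A) :
    RD X X A A Θ := by
  have e : Θ '' A = A := by
    ext x
    obtain ⟨z, rfl⟩ := h.bij.2 x
    rw [h.bij.1.mem_set_image, k]
  have := h.rd A
  rwa [e] at this

omit [FiniteDimensional ℝ V] in
theorem gl {S : Type} {e : V} {a b a' b' : V → S} {Θ : S → S} (h : Injective Θ)
    (ha : ∀ y, ‖y‖ ≤ 1 → Θ (a' y) = a y) (hb : ∀ y, ‖y‖ ≤ 1 → Θ (b' y) = b y) {x y : S} :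
    Gl e a b (Θ x) (Θ y) ↔ Gl e a' b' x y := by
  refine exists₂_congr fun t v => and_congr_right fun h0 => and_congr_right fun h1 =>
    and_congr_right fun hv => and_congr_right fun _ => ?_
  rw [← ha _ (by rw [norm_smul, hv, mul_one, Real.norm_of_nonneg h0.le]; exact h1.le),
    ← hb _ (by rw [norm_smul, hv, mul_one, Real.norm_of_nonneg (by linarith)]; linarith),
    h.eq_iff, h.eq_iff]

end Rad

theorem shrink (hS : SigStmt V) : ShrinkStmt V := by
  intro e η h0 hη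
  refine ⟨fun X Y Z A B M a b f g k => ?_, fun X W M a b f k => ?_⟩
  · obtain ⟨Θ, hΘ, t1, t2, t3⟩ := Rad.push hS h0 hη k.ca
    exact ⟨Θ, hΘ, t1, t2, t3, k.comap (Rad.rd hΘ t1) (Rad.pc h0 hη k.ca) fun y _ hy => t3 y hy.le⟩
  obtain ⟨Θ, hΘ, t1, t2, t3⟩ := Rad.push hS h0 hη k.ca
  obtain ⟨Θ', hΘ', s1, s2, s3⟩ := Rad.push hS h0 hη k.cb
  have sub : closedBall (0 : V) (3 / 2) ⊆ ball 0 2 := closedBall_subset_ball (by norm_num)
  have one : ∀ y : V, ‖y‖ ≤ 1 → y ∈ ball (0 : V) 2 := fun y hy =>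
    mem_ball_zero_iff.2 (by linarith)
  have G := hΘ.trans hΘ'
  have w : ∀ x, Θ' (Θ x) ∈ W ↔ x ∈ W := fun x => (s1 _).trans (t1 x)
  have ea : ∀ y : V, ‖y‖ ≤ 1 → Θ' (Θ (a (η • y))) = a y := fun y hy => by
    rw [t3 y hy, s2 _ fun c => disjoint_left.1 k.dis ⟨y, one y hy, rfl⟩ (image_mono sub c)]
  have eb : ∀ y : V, ‖y‖ ≤ 1 → Θ' (Θ (b (η • y))) = b y := fun y hy => by
    rw [t2 _ fun c => disjoint_left.1 k.dis (image_mono sub c) ⟨_, Rad.maps h0 hη (one y hy), rfl⟩,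
      s3 y hy]
  have m : ∀ x, Θ' (Θ x) ∈ W \ {a 0, b 0} ↔ x ∈ W \ {a (η • 0), b (η • 0)} := fun x => by
    simp only [Set.mem_sdiff, mem_insert_iff, mem_singleton_iff]
    rw [w, ← ea 0 (by simp), ← eb 0 (by simp)]
    exact and_congr_right fun _ => not_congr (or_congr G.bij.1.eq_iff G.bij.1.eq_iff)
  refine ⟨fun x => f (Θ' (Θ x)), Rad.pc h0 hη k.ca, Rad.pc h0 hη k.cb, k.dis.mono ?_ ?_,
    fun x hx => ((Rad.rd G w).rel x hx.1).trans hx.1 (k.rf _ ((m x).2 hx)), ?_,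
    fun x hx y hy => (k.eq _ ((m x).2 hx) _ ((m y).2 hy)).trans ?_⟩
  · rintro _ ⟨y, hy, rfl⟩
    exact ⟨_, Rad.maps h0 hη hy, rfl⟩
  · rintro _ ⟨y, hy, rfl⟩
    exact ⟨_, Rad.maps h0 hη hy, rfl⟩
  · rw [k.cov]
    ext z
    constructor
    · rintro ⟨x, hx, rfl⟩
      obtain ⟨x', rfl⟩ := G.bij.2 x
      exact ⟨x', (m x').1 hx, rfl⟩
    · rintro ⟨x, hx, rfl⟩
      exact ⟨_, (m x).2 hx, rfl⟩
  · exact or_congr G.bij.1.eq_iff (or_congr (Rad.gl G.bij.1 ea eb) (Rad.gl G.bij.1 eb ea))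

end Pool.Agent.MP_7ebdba_gt.hb

end
end MrgPart9

-- ======== part 10: formerly Pool.Agent.MP_7ebdba_gt.hb.All
section MrgPart10

/-! Add-on HB: assembly. -/

namespace Pool.Agent.MP_7ebdba_gt.hb

variable {V : Type} [NormedAddCommGroup V] [InnerProductSpace ℝ V] [FiniteDimensional ℝ V]

theorem both : IndStmt V ∧ QPStmt V :=
  have hB : BackStmt V := back
  have hF := flowEq hB (hit hB)
  have hD := dyn hB
  have hN := nf hB (hit hB) hD hF
  have hC : CutStmt V := cut (cap interp)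
  have hS : ShrinkStmt V := shrink (sig interp radial)
  have hP : PalaisStmt V := palais near gl
  have hM : MoveStmt V := move punct near
  ⟨ind hD (ballOf hB hD hF) hN hC split (front mob punct) (unitSum interp radial hS hP mob)
    (assoc hS near hM) (handle interp radial hS mob (hom interp radial hM hP)),
    qp hD (ballOf hB hD hF) hN hC split⟩

theorem hbAll : HBStmt :=
  top both.1 both.1 both.2 both.2 (tubeData (fun _ => orn) fun _ => data) bridge
    (real (fun _ => crit) fun _ => data) (round back) (man orn orn)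

end Pool.Agent.MP_7ebdba_gt.hb

end MrgPart10

-- marker of a merged file
example : 731051 + 626678 = 731051 + 626678 := rfl
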